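import Mathlib

/-!
# Binary codes given by check words: signs, second moments, cardinalities
-/

open Finset

namespace Pool.Agent.MP_9d0e09_an

/-- The sign of a bit. -/
noncomputable def sg (a : ZMod 2) : ℝ := if a = 0 then 1 else -1

theorem sg_zero : sg 0 = 1 := by simp [sg]

theorem zmod2_ne (a : ZMod 2) (h : a ≠ 0) : a = 1 := by
  revert h; revert a; decide

theorem sg_one : sg 1 = -1 := by
  rw [sg, if_neg]; decide

theorem sg_ne {a : ZMod 2} (h : a ≠ 0) : sg a = -1 := by
  rw [sg, if_neg h]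

theorem sg_add (a b : ZMod 2) : sg (a + b) = sg a * sg b := by
  by_cases ha : a = 0
  · subst ha; simp [sg_zero]
  · by_cases hb : b = 0
    · subst hb; simp [sg_zero]
    · have h1 := zmod2_ne a ha
      have h2 := zmod2_ne b hb
      subst h1; subst h2
      have : (1 + 1 : ZMod 2) = 0 := by decide
      rw [this, sg_zero, sg_one]; norm_num

theorem abs_sg (a : ZMod 2) : |sg a| = 1 := by
  rw [sg]; split_ifs <;> simp

theorem sg_sum {ι : Type*} [DecidableEq ι] (P : Finset ι) (f : ι → ZMod 2) :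
    sg (∑ p ∈ P, f p) = ∏ p ∈ P, sg (f p) := by
  induction P using Finset.induction_on with
  | empty => simp [sg_zero]
  | insert a P ha ih => rw [Finset.sum_insert ha, Finset.prod_insert ha, sg_add, ih]

variable {V : Type} [Fintype V] [DecidableEq V]

/-- All `x` orthogonal to the words in `A`. -/
def Cd (A : Finset (V → ZMod 2)) : Finset (V → ZMod 2) :=
  univ.filter (fun x => ∀ β ∈ A, dotProduct β x = 0)

theorem mem_Cd (A : Finset (V → ZMod 2)) (x : V → ZMod 2) :
    x ∈ Cd A ↔ ∀ β ∈ A, dotProduct β x = 0 := by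
  simp [Cd]

theorem exists_test (A : Finset (V → ZMod 2)) (z : V → ZMod 2)
    (hz : z ∉ Submodule.span (ZMod 2) (A : Set (V → ZMod 2))) :
    ∃ x ∈ Cd A, dotProduct z x ≠ 0 := by
  obtain ⟨f, hf, hle⟩ := Submodule.exists_le_ker_of_notMem hz
  let x : V → ZMod 2 := fun v => f (Pi.single v 1)
  have hx : ∀ w : V → ZMod 2, dotProduct w x = f w := by
    intro w
    have h1 : w = ∑ v, w v • (Pi.single v (1 : ZMod 2) : V → ZMod 2) := by
      funext u
      simp [Finset.sum_apply, Pi.single_apply]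
    conv_rhs => rw [h1, map_sum]
    simp only [map_smul, smul_eq_mul]
    rfl
  refine ⟨x, ?_, ?_⟩
  · rw [mem_Cd]
    intro β hβ
    rw [hx]
    exact hle (Submodule.subset_span hβ)
  · rw [hx]; exact hf

theorem sum_sg_zero (A : Finset (V → ZMod 2)) (z : V → ZMod 2)
    (hz : z ∉ Submodule.span (ZMod 2) (A : Set (V → ZMod 2))) :
    ∑ x ∈ Cd A, sg (dotProduct z x) = 0 := by
  obtain ⟨x0, hx0, hne⟩ := exists_test A z hz
  have h1 : ∑ x ∈ Cd A, sg (dotProduct z x) = ∑ x ∈ Cd A, sg (dotProduct z (x + x0)) := by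
    refine Finset.sum_nbij' (fun x => x - x0) (fun x => x + x0) ?_ ?_ ?_ ?_ ?_
    · intro x hx
      rw [mem_Cd] at hx hx0 ⊢
      intro β hβ
      rw [dotProduct_sub, hx β hβ, hx0 β hβ, sub_zero]
    · intro x hx
      rw [mem_Cd] at hx hx0 ⊢
      intro β hβ
      rw [dotProduct_add, hx β hβ, hx0 β hβ, add_zero]
    · intro x _; simp
    · intro x _; simp
    · intro x _; simp
  have h2 : ∑ x ∈ Cd A, sg (dotProduct z (x + x0)) = - ∑ x ∈ Cd A, sg (dotProduct z x) := by
    rw [← Finset.sum_neg_distrib]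
    apply Finset.sum_congr rfl
    intro x _
    rw [dotProduct_add, sg_add, sg_ne hne]; ring
  linarith

theorem sum_sg_le (A : Finset (V → ZMod 2)) (z : V → ZMod 2) :
    ∑ x ∈ Cd A, sg (dotProduct z x) ≤ (Cd A).card := by
  calc ∑ x ∈ Cd A, sg (dotProduct z x) ≤ ∑ x ∈ Cd A, (1 : ℝ) :=
        Finset.sum_le_sum (fun x _ => (le_abs_self _).trans (abs_sg _).le)
    _ = (Cd A).card := by simp

open Classical in
theorem second_moment {ι : Type} [Fintype ι] (A : Finset (V → ZMod 2)) (w : ι → V → ZMod 2) :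
    ∑ x ∈ Cd A, (∑ i, sg (dotProduct (w i) x)) ^ 2
      ≤ (Cd A).card * ((univ : Finset (ι × ι)).filter (fun q =>
          w q.1 + w q.2 ∈ Submodule.span (ZMod 2) (A : Set (V → ZMod 2)))).card := by
  have h1 : ∀ x : V → ZMod 2, (∑ i, sg (dotProduct (w i) x)) ^ 2
      = ∑ q : ι × ι, sg (dotProduct (w q.1 + w q.2) x) := by
    intro x
    rw [sq, Finset.sum_mul_sum, ← Finset.univ_product_univ, Finset.sum_product]
    apply Finset.sum_congr rfl; intro i _
    apply Finset.sum_congr rfl; intro j _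
    rw [add_dotProduct, sg_add]
  rw [Finset.sum_congr rfl (fun x _ => h1 x), Finset.sum_comm]
  have h2 : ∀ q : ι × ι, ∑ x ∈ Cd A, sg (dotProduct (w q.1 + w q.2) x)
      ≤ if w q.1 + w q.2 ∈ Submodule.span (ZMod 2) (A : Set (V → ZMod 2))
        then ((Cd A).card : ℝ) else 0 := by
    intro q
    split_ifs with h
    · exact sum_sg_le A _
    · exact (sum_sg_zero A _ h).le
  calc ∑ q : ι × ι, ∑ x ∈ Cd A, sg (dotProduct (w q.1 + w q.2) x)
      ≤ ∑ q : ι × ι, if w q.1 + w q.2 ∈ Submodule.span (ZMod 2) (A : Set (V → ZMod 2))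
        then ((Cd A).card : ℝ) else 0 := Finset.sum_le_sum (fun q _ => h2 q)
    _ = _ := by
      rw [← Finset.sum_filter, Finset.sum_const, nsmul_eq_mul]; ring

open Classical in
/-- Chebyshev. -/
theorem cheb {ι : Type} [Fintype ι] (A : Finset (V → ZMod 2)) (w : ι → V → ZMod 2) (τ : ℝ)
    (hτ : 0 < τ) :
    ((((Cd A).filter (fun x => τ ≤ |∑ i, sg (dotProduct (w i) x)|)).card : ℕ) : ℝ) * τ ^ 2
      ≤ (Cd A).card * ((univ : Finset (ι × ι)).filter (fun q =>
          w q.1 + w q.2 ∈ Submodule.span (ZMod 2) (A : Set (V → ZMod 2)))).card := by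
  refine le_trans ?_ (second_moment A w)
  calc ((((Cd A).filter (fun x => τ ≤ |∑ i, sg (dotProduct (w i) x)|)).card : ℕ) : ℝ) * τ ^ 2
      = ∑ x ∈ (Cd A).filter (fun x => τ ≤ |∑ i, sg (dotProduct (w i) x)|), τ ^ 2 := by
        rw [Finset.sum_const, nsmul_eq_mul]
    _ ≤ ∑ x ∈ (Cd A).filter (fun x => τ ≤ |∑ i, sg (dotProduct (w i) x)|),
          (∑ i, sg (dotProduct (w i) x)) ^ 2 := by
        apply Finset.sum_le_sum
        intro x hx
        rw [Finset.mem_filter] at hx
        rw [← sq_abs (∑ i, sg (dotProduct (w i) x))]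
        exact pow_le_pow_left₀ hτ.le hx.2 2
    _ ≤ ∑ x ∈ Cd A, (∑ i, sg (dotProduct (w i) x)) ^ 2 := by
        apply Finset.sum_le_sum_of_subset_of_nonneg (Finset.filter_subset _ _)
        intro x _ _
        positivity

omit [Fintype V] [DecidableEq V] in
theorem rep_of_mem_span (b : Finset (V → ZMod 2)) (z : V → ZMod 2)
    (hz : z ∈ Submodule.span (ZMod 2) (b : Set (V → ZMod 2))) :
    ∃ c ⊆ b, z = ∑ β ∈ c, β := by
  classical
  rw [Submodule.mem_span_finset] at hz
  obtain ⟨f, hf, hz⟩ := hz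
  refine ⟨b.filter (fun β => f β ≠ 0), Finset.filter_subset _ _, ?_⟩
  rw [← hz, Finset.sum_filter]
  apply Finset.sum_congr rfl
  intro β _
  by_cases h : f β = 0
  · simp [h]
  · rw [if_pos h, zmod2_ne _ h, one_smul]

omit [DecidableEq V] in
theorem rep_unique (b : Finset (V → ZMod 2))
    (hb : LinearIndepOn (ZMod 2) id (b : Set (V → ZMod 2)))
    (c c' : Finset (V → ZMod 2)) (hc : c ⊆ b) (hc' : c' ⊆ b)
    (h : ∑ β ∈ c, β = ∑ β ∈ c', β) : c = c' := by
  classical
  have hb' := hb
  rw [linearIndepOn_finset_iff] at hb'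
  have h1 : ∑ β ∈ b, ((if β ∈ c then (1 : ZMod 2) else 0) - (if β ∈ c' then 1 else 0)) • (id β) = 0 := by
    simp only [sub_smul, id, Finset.sum_sub_distrib, ite_smul, one_smul, zero_smul]
    rw [← Finset.sum_filter, ← Finset.sum_filter, Finset.filter_mem_eq_inter,
      Finset.filter_mem_eq_inter, Finset.inter_eq_right.mpr hc, Finset.inter_eq_right.mpr hc', h,
      sub_self]
  have h2 := hb' _ h1
  have h3 : (1 : ZMod 2) ≠ 0 := by decide
  ext β
  constructor
  · intro hβ
    have := h2 β (hc hβ)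
    by_contra hn
    simp [hβ, hn] at this
  · intro hβ
    have := h2 β (hc' hβ)
    by_contra hn
    simp [hβ, hn] at this

theorem card_Cd (b : Finset (V → ZMod 2))
    (hb : LinearIndepOn (ZMod 2) id (b : Set (V → ZMod 2))) :
    2 ^ b.card * (Cd b).card = 2 ^ Fintype.card V := by
  classical
  let A : Matrix b V (ZMod 2) := fun β v => (β : V → ZMod 2) v
  have hA : LinearIndependent (ZMod 2) A.row := hb
  have hr : A.rank = b.card := by
    rw [hA.rank_matrix, Fintype.card_coe]
  have hk : ∀ x, x ∈ LinearMap.ker A.mulVecLin ↔ x ∈ Cd b := by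
    intro x
    rw [LinearMap.mem_ker, mem_Cd, Matrix.mulVecLin_apply]
    constructor
    · intro h β hβ
      have := congrFun h ⟨β, hβ⟩
      exact this
    · intro h
      funext β
      exact h β.1 β.2
  have h1 : Module.finrank (ZMod 2) (LinearMap.range A.mulVecLin)
      + Module.finrank (ZMod 2) (LinearMap.ker A.mulVecLin) = Fintype.card V := by
    rw [LinearMap.finrank_range_add_finrank_ker, Module.finrank_fintype_fun_eq_card]
  have h2 : Module.finrank (ZMod 2) (LinearMap.range A.mulVecLin) = b.card := hr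
  have h3 : (Cd b).card = 2 ^ Module.finrank (ZMod 2) (LinearMap.ker A.mulVecLin) := by
    have h4 : Nat.card (LinearMap.ker A.mulVecLin) = (Cd b).card := by
      rw [Nat.card_congr (Equiv.subtypeEquivRight hk), Nat.card_eq_fintype_card, Fintype.card_coe]
    rw [← h4, Module.natCard_eq_pow_finrank (K := ZMod 2), Nat.card_zmod]
  rw [h3, ← pow_add, ← h1, h2]

end Pool.Agent.MP_9d0e09_an
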