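import Pool.Agent.Lib.MP_9d0e09_an.Loc
import Pool.Agent.Lib.MP_9d0e09_an.Lin

/-!
# Counting checks
-/

open Finset

namespace Pool.Agent.MP_9d0e09_an

section

variable {G : Type} [Group G] {d : ℕ} (s : Fin d → G) (k : ℕ)

/-- A word that vanishes on the subshift is a finite sum of checks. -/
theorem triv_checks {ι : Type} (P : Finset ι) (e : ι → G)
    (h : ∀ x ∈ PX s k, ∑ p ∈ P, x (e p) = 0) :
    ∃ Q : Finset (G × Fin d), ∀ (V : Type) [MulAction G V] (v : V) (x : V → ZMod 2),
      (∀ q ∈ Q, ∑ l ∈ Finset.range k, x ((s q.2 ^ l)⁻¹ • (q.1⁻¹ • v)) = 0) →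
      ∑ p ∈ P, x ((e p)⁻¹ • v) = 0 := by
  classical
  let ck : G × Fin d → (G →₀ ZMod 2) := fun q =>
    ∑ l ∈ Finset.range k, Finsupp.single (q.1 * s q.2 ^ l) (1 : ZMod 2)
  let w0 : G →₀ ZMod 2 := ∑ p ∈ P, Finsupp.single (e p) (1 : ZMod 2)
  have hw0 : w0 ∈ Submodule.span (ZMod 2) (Set.range ck) := by
    by_contra hcon
    obtain ⟨f, hf, hle⟩ := Submodule.exists_le_ker_of_notMem hcon
    apply hf
    let x : G → ZMod 2 := fun g => f (Finsupp.single g 1)
    have hx : x ∈ PX s k := by
      intro g i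
      have h1 : f (ck (g, i)) = 0 := hle (Submodule.subset_span ⟨(g, i), rfl⟩)
      simp only [ck, map_sum] at h1
      exact h1
    have := h x hx
    simp only [w0, map_sum]
    exact this
  have key : ∀ w ∈ Submodule.span (ZMod 2) (Set.range ck),
      ∃ Q : Finset (G × Fin d), ∀ (V : Type) [MulAction G V] (v : V) (x : V → ZMod 2),
      (∀ q ∈ Q, ∑ l ∈ Finset.range k, x ((s q.2 ^ l)⁻¹ • (q.1⁻¹ • v)) = 0) →
      Finsupp.linearCombination (ZMod 2) (fun g : G => x (g⁻¹ • v)) w = 0 := by
    intro w hw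
    induction hw using Submodule.span_induction with
    | mem w hw =>
      obtain ⟨q, rfl⟩ := hw
      refine ⟨{q}, ?_⟩
      intro V _ v x hq
      have h1 := hq q (Finset.mem_singleton_self q)
      simp only [ck, map_sum, Finsupp.linearCombination_single, one_smul]
      rw [← h1]
      apply Finset.sum_congr rfl
      intro l _
      rw [mul_inv_rev, mul_smul]
    | zero => exact ⟨∅, fun V _ v x _ => map_zero _⟩
    | add w w' _ _ h1 h2 =>
      obtain ⟨Q1, hQ1⟩ := h1
      obtain ⟨Q2, hQ2⟩ := h2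
      refine ⟨Q1 ∪ Q2, ?_⟩
      intro V _ v x hq
      rw [map_add, hQ1 V v x (fun q h => hq q (Finset.mem_union_left _ h)),
        hQ2 V v x (fun q h => hq q (Finset.mem_union_right _ h)), add_zero]
    | smul a w _ h1 =>
      obtain ⟨Q1, hQ1⟩ := h1
      refine ⟨Q1, ?_⟩
      intro V _ v x hq
      rw [map_smul, hQ1 V v x hq, smul_zero]
  obtain ⟨Q, hQ⟩ := key w0 hw0
  refine ⟨Q, ?_⟩
  intro V _ v x hq
  have h1 := hQ V v x hq
  simp only [w0, map_sum, Finsupp.linearCombination_single, one_smul] at h1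
  exact h1

/-- The exact solutions: all names of `x` lie in the subshift. -/
def Ex (V : Type) [MulAction G V] : Set (V → ZMod 2) :=
  {x | ∀ v : V, (fun g : G => x (g⁻¹ • v)) ∈ PX s k}

variable {V : Type} [Fintype V] [DecidableEq V] [MulAction G V]

theorem mem_Ex (x : V → ZMod 2) :
    x ∈ Ex s k V ↔ ∀ q : Fin d × V, dotProduct (cw s k q.1 q.2) x = 0 := by
  constructor
  · rintro h ⟨i, u⟩
    rw [cw_dot]
    have := h u 1 i
    simpa using this
  · intro h v g i
    have := h (i, g⁻¹ • v)
    rw [cw_dot] at this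
    rw [← this]
    apply Finset.sum_congr rfl
    intro j _
    simp only
    rw [mul_inv_rev, mul_smul]

omit [DecidableEq V] in
theorem dot_span (A : Set (V → ZMod 2)) (x : V → ZMod 2) (h : ∀ β ∈ A, dotProduct β x = 0)
    (z : V → ZMod 2) (hz : z ∈ Submodule.span (ZMod 2) A) : dotProduct z x = 0 := by
  induction hz using Submodule.span_induction with
  | mem w hw => exact h w hw
  | zero => simp
  | add a b _ _ ha hb => rw [add_dotProduct, ha, hb, add_zero]
  | smul c a _ ha => rw [smul_dotProduct, ha, smul_zero]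

theorem mem_Ex_iff_Cd (b : Finset (V → ZMod 2))
    (hb1 : (b : Set (V → ZMod 2)) ⊆ Set.range (fun q : Fin d × V => cw s k q.1 q.2))
    (hb2 : ∀ q : Fin d × V, cw s k q.1 q.2 ∈ Submodule.span (ZMod 2) (b : Set (V → ZMod 2)))
    (x : V → ZMod 2) : x ∈ Ex s k V ↔ x ∈ Cd b := by
  rw [mem_Ex, mem_Cd]
  constructor
  · intro h β hβ
    obtain ⟨q, hq⟩ := hb1 hβ
    rw [← hq]; exact h q
  · intro h q
    exact dot_span _ x h _ (hb2 q)

omit [Fintype V] in
theorem cw_shift_one (hs : ∀ i, s i ^ k = 1) (i : Fin d) (u : V) :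
    cw s k i ((s i)⁻¹ • u) = cw s k i u := by
  rw [cw, cw]
  have h1 : ∀ l : ℕ, ((s i ^ l)⁻¹ • ((s i)⁻¹ • u)) = (s i ^ (l + 1))⁻¹ • u := by
    intro l
    rw [smul_smul, ← mul_inv_rev, ← pow_succ']
  simp only [h1]
  have h2 := Finset.sum_range_succ' (fun l => (Pi.single ((s i ^ l)⁻¹ • u) 1 : V → ZMod 2)) k
  have h3 := Finset.sum_range_succ (fun l => (Pi.single ((s i ^ l)⁻¹ • u) 1 : V → ZMod 2)) k
  rw [h3] at h2
  simp only [hs, pow_zero] at h2
  exact (add_right_cancel h2).symm

omit [Fintype V] in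
theorem cw_shift (hs : ∀ i, s i ^ k = 1) (i : Fin d) (u : V) (l : ℕ) :
    cw s k i ((s i ^ l)⁻¹ • u) = cw s k i u := by
  induction l with
  | zero => simp
  | succ l ih =>
    have h1 : (s i ^ (l + 1))⁻¹ • u = (s i)⁻¹ • ((s i ^ l)⁻¹ • u) := by
      rw [smul_smul, ← mul_inv_rev, ← pow_succ]
    rw [h1, cw_shift_one s k hs, ih]

theorem cw_fiber (β : V → ZMod 2) (hβ : β ≠ 0) :
    ((univ : Finset (Fin d × V)).filter (fun q => cw s k q.1 q.2 = β)).card ≤ d * k := by
  classical
  obtain ⟨v0, hv0⟩ : ∃ v0, β v0 ≠ 0 := by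
    by_contra hcon
    push Not at hcon
    exact hβ (funext hcon)
  have hsub : (univ : Finset (Fin d × V)).filter (fun q => cw s k q.1 q.2 = β)
      ⊆ ((univ : Finset (Fin d)) ×ˢ Finset.range k).image (fun p => (p.1, s p.1 ^ p.2 • v0)) := by
    intro q hq
    rw [Finset.mem_filter] at hq
    have h1 : cw s k q.1 q.2 v0 ≠ 0 := by rw [hq.2]; exact hv0
    rw [cw, Finset.sum_apply] at h1
    obtain ⟨l, hl, hne⟩ := Finset.exists_ne_zero_of_sum_ne_zero h1
    have h2 : v0 = (s q.1 ^ l)⁻¹ • q.2 := by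
      by_contra hcon
      exact hne (Pi.single_eq_of_ne hcon _)
    rw [Finset.mem_image]
    refine ⟨(q.1, l), by simpa using hl, ?_⟩
    simp only
    rw [h2, smul_smul, mul_inv_cancel, one_smul]
  calc _ ≤ _ := Finset.card_le_card hsub
    _ ≤ _ := Finset.card_image_le
    _ = d * k := by simp

/-- The powers of the generators. -/
def pw [DecidableEq G] : Finset G :=
  ((univ : Finset (Fin d)) ×ˢ Finset.range k).image (fun p => s p.1 ^ p.2)

theorem cw_full [DecidableEq G] (hs : ∀ i, s i ^ k = 1)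
    (hinj : ∀ i, Set.InjOn (fun l : ℕ => s i ^ l) (Finset.range k : Set ℕ)) (q : Fin d × V)
    (hq : Set.InjOn (fun g : G => g⁻¹ • q.2) (pw s k : Set G)) :
    k ≤ ((univ : Finset (Fin d × V)).filter (fun q' => cw s k q'.1 q'.2 = cw s k q.1 q.2)).card := by
  have h1 : ((Finset.range k).image (fun l => ((q.1, (s q.1 ^ l)⁻¹ • q.2) : Fin d × V))).card = k := by
    rw [Finset.card_image_of_injOn, Finset.card_range]
    intro a ha b hb hab
    simp only [Prod.mk.injEq, true_and] at hab
    have h2 : s q.1 ^ a = s q.1 ^ b := by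
      apply hq _ _ hab
      · simp only [pw, Finset.coe_image, Set.mem_image, Finset.mem_coe, Finset.mem_product,
          Finset.mem_univ, true_and]
        exact ⟨(q.1, a), by simpa using ha, rfl⟩
      · simp only [pw, Finset.coe_image, Set.mem_image, Finset.mem_coe, Finset.mem_product,
          Finset.mem_univ, true_and]
        exact ⟨(q.1, b), by simpa using hb, rfl⟩
    exact hinj q.1 ha hb h2
  have h3 : (Finset.range k).image (fun l => ((q.1, (s q.1 ^ l)⁻¹ • q.2) : Fin d × V))
      ⊆ (univ : Finset (Fin d × V)).filter (fun q' => cw s k q'.1 q'.2 = cw s k q.1 q.2) := by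
    intro q' hq'
    rw [Finset.mem_image] at hq'
    obtain ⟨l, _, rfl⟩ := hq'
    rw [Finset.mem_filter]
    exact ⟨Finset.mem_univ _, cw_shift s k hs _ _ _⟩
  calc k = _ := h1.symm
    _ ≤ _ := Finset.card_le_card h3

/-- Few checks lie outside a large independent set of checks. -/
theorem few_checks [DecidableEq G] (hs : ∀ i, s i ^ k = 1)
    (hinj : ∀ i, Set.InjOn (fun l : ℕ => s i ^ l) (Finset.range k : Set ℕ))
    (b : Finset (V → ZMod 2))
    (hb1 : (b : Set (V → ZMod 2)) ⊆ Set.range (fun q : Fin d × V => cw s k q.1 q.2)) :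
    ((univ : Finset (Fin d × V)).filter (fun q => cw s k q.1 q.2 ∉ b)).card + k * b.card
      ≤ d * Fintype.card V + k * (d * ((univ : Finset V).filter
        (fun v => ¬ Set.InjOn (fun g : G => g⁻¹ • v) (pw s k : Set G))).card) := by
  classical
  set nf := (univ : Finset V).filter
        (fun v => ¬ Set.InjOn (fun g : G => g⁻¹ • v) (pw s k : Set G)) with hnf
  let b' := b.filter (fun β => ∃ q : Fin d × V,
    Set.InjOn (fun g : G => g⁻¹ • q.2) (pw s k : Set G) ∧ cw s k q.1 q.2 = β)
  have h1 : b.card ≤ b'.card + d * nf.card := by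
    have hsub : b ⊆ b' ∪ ((univ : Finset (Fin d)) ×ˢ nf).image (fun q => cw s k q.1 q.2) := by
      intro β hβ
      by_cases hm : β ∈ b'
      · exact Finset.mem_union_left _ hm
      · apply Finset.mem_union_right
        obtain ⟨q, hq⟩ := hb1 hβ
        rw [Finset.mem_image]
        refine ⟨q, ?_, hq⟩
        rw [Finset.mem_product]
        refine ⟨Finset.mem_univ _, ?_⟩
        rw [hnf, Finset.mem_filter]
        refine ⟨Finset.mem_univ _, ?_⟩
        intro hfull
        exact hm (Finset.mem_filter.mpr ⟨hβ, q, hfull, hq⟩)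
    calc b.card ≤ _ := Finset.card_le_card hsub
      _ ≤ _ := Finset.card_union_le _ _
      _ ≤ b'.card + d * nf.card := by
        have := Finset.card_image_le (s := (univ : Finset (Fin d)) ×ˢ nf)
          (f := fun q => cw s k q.1 q.2)
        rw [Finset.card_product, Finset.card_univ, Fintype.card_fin] at this
        omega
  have h2 : k * b'.card ≤ ((univ : Finset (Fin d × V)).filter (fun q => cw s k q.1 q.2 ∈ b)).card := by
    have h3 : (univ : Finset (Fin d × V)).filter (fun q => cw s k q.1 q.2 ∈ b')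
        ⊆ (univ : Finset (Fin d × V)).filter (fun q => cw s k q.1 q.2 ∈ b) := by
      intro q hq
      rw [Finset.mem_filter] at hq ⊢
      exact ⟨hq.1, (Finset.mem_filter.mp hq.2).1⟩
    refine le_trans ?_ (Finset.card_le_card h3)
    have h4 : ((univ : Finset (Fin d × V)).filter (fun q => cw s k q.1 q.2 ∈ b')).card
        = ∑ β ∈ b', ((univ : Finset (Fin d × V)).filter (fun q => cw s k q.1 q.2 = β)).card := by
      rw [Finset.card_eq_sum_card_fiberwise (f := fun q => cw s k q.1 q.2) (t := b')]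
      · apply Finset.sum_congr rfl
        intro β hβ
        congr 1
        ext q
        simp only [Finset.mem_filter, Finset.mem_univ, true_and]
        constructor
        · rintro ⟨_, h⟩; exact h
        · intro h; exact ⟨by rw [h]; exact hβ, h⟩
      · intro q hq
        simpa using hq
    rw [h4, mul_comm]
    have h5 : b'.card * k = ∑ β ∈ b', k := by rw [Finset.sum_const, smul_eq_mul]
    rw [h5]
    apply Finset.sum_le_sum
    intro β hβ
    obtain ⟨q, hfull, hq⟩ := (Finset.mem_filter.mp hβ).2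
    rw [← hq]
    exact cw_full s k hs hinj q hfull
  have h3 : ((univ : Finset (Fin d × V)).filter (fun q => cw s k q.1 q.2 ∈ b)).card
      + ((univ : Finset (Fin d × V)).filter (fun q => cw s k q.1 q.2 ∉ b)).card
      = d * Fintype.card V := by
    rw [Finset.card_filter_add_card_filter_not, Finset.card_univ, Fintype.card_prod,
      Fintype.card_fin]
  have h4 : k * b.card ≤ k * b'.card + k * (d * nf.card) := by
    rw [← mul_add]; exact Nat.mul_le_mul_left k h1
  omega

/-- A word of the enlarged code violates few checks. -/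
theorem few_violated (b D : Finset (V → ZMod 2)) (h0 : (0 : V → ZMod 2) ∉ b) (hD : D ⊆ b)
    (x : V → ZMod 2) (hx : x ∈ Cd (b \ D)) :
    ((univ : Finset (Fin d × V)).filter (fun q => dotProduct (cw s k q.1 q.2) x ≠ 0)).card
      ≤ ((univ : Finset (Fin d × V)).filter (fun q => cw s k q.1 q.2 ∉ b)).card
        + d * k * D.card := by
  classical
  have hsub : (univ : Finset (Fin d × V)).filter (fun q => dotProduct (cw s k q.1 q.2) x ≠ 0)
      ⊆ (univ : Finset (Fin d × V)).filter (fun q => cw s k q.1 q.2 ∉ b)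
        ∪ D.biUnion (fun β => (univ : Finset (Fin d × V)).filter (fun q => cw s k q.1 q.2 = β)) := by
    intro q hq
    rw [Finset.mem_filter] at hq
    by_cases h1 : cw s k q.1 q.2 ∈ b
    · apply Finset.mem_union_right
      rw [Finset.mem_biUnion]
      refine ⟨cw s k q.1 q.2, ?_, by simp⟩
      by_contra hcon
      rw [mem_Cd] at hx
      exact hq.2 (hx _ (Finset.mem_sdiff.mpr ⟨h1, hcon⟩))
    · apply Finset.mem_union_left
      simp [h1]
  calc _ ≤ _ := Finset.card_le_card hsub
    _ ≤ _ := Finset.card_union_le _ _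
    _ ≤ _ := by
      apply Nat.add_le_add_left
      calc _ ≤ _ := Finset.card_biUnion_le
        _ ≤ ∑ β ∈ D, d * k := by
          apply Finset.sum_le_sum
          intro β hβ
          apply cw_fiber
          rintro rfl
          exact h0 (hD hβ)
        _ = d * k * D.card := by rw [Finset.sum_const, smul_eq_mul, mul_comm]

end

end Pool.Agent.MP_9d0e09_an
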