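import Pool.Agent.Lib.MP_9d0e09_an.Sh

/-!
# Block codes: microstates and fibres
-/

open MeasureTheory Filter Topology Finset

namespace Pool.Agent.MP_9d0e09_an

section

variable {G : Type} [Group G] {A : Type}

open Classical in
/-- The 0-1 function of `T`. -/
noncomputable def ind (T : Finset G) : G → ZMod 2 := fun g => if g ∈ T then 1 else 0

omit [Group G] in
theorem ind_ex (F' : Finset G) (y : G → ZMod 2) : ∃ T ⊆ F', ∀ g ∈ F', y g = ind T g := by
  classical
  refine ⟨F'.filter (fun g => y g ≠ 0), Finset.filter_subset _ _, ?_⟩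
  intro g hg
  simp only [ind]
  by_cases h : y g = 0
  · rw [if_neg, h]
    intro h'
    exact (Finset.mem_filter.mp h').2 h
  · rw [if_pos (Finset.mem_filter.mpr ⟨hg, h⟩)]
    exact zmod2_ne _ h

omit [Group G] in
theorem ind_sub (F' : Finset G) (y : G → ZMod 2) (T T' : Finset G) (hT : T ⊆ F')
    (h : ∀ g ∈ F', y g = ind T g) (h' : ∀ g ∈ F', y g = ind T' g) : T ⊆ T' := by
  intro g hg
  have e1 := h g (hT hg)
  have e2 := h' g (hT hg)
  rw [e1] at e2
  simp only [ind] at e2
  rw [if_pos hg] at e2
  by_contra hn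
  rw [if_neg hn] at e2
  exact one_ne_zero e2

theorem card_dec {W ι : Type} [Finite W] (Cp : Finset ι) (P : W → Prop) (Q : ι → W → Prop)
    (h1 : ∀ v, P v ↔ ∃ T ∈ Cp, Q T v)
    (h2 : ∀ v, ∀ T ∈ Cp, ∀ T' ∈ Cp, Q T v → Q T' v → T = T') :
    Nat.card {v : W // P v} = ∑ T ∈ Cp, Nat.card {v : W // Q T v} := by
  classical
  have := Fintype.ofFinite W
  have hc : ∀ R : W → Prop, Nat.card {v : W // R v} = (univ.filter R).card := by
    intro R
    rw [Nat.card_eq_fintype_card, Fintype.card_subtype]
  rw [hc P, Finset.sum_congr rfl (fun T _ => hc (Q T)), ← Finset.card_biUnion]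
  · congr 1
    ext v
    simp only [Finset.mem_filter, Finset.mem_univ, true_and, Finset.mem_biUnion]
    exact h1 v
  · intro T hT T' hT' hne
    rw [Function.onFun, Finset.disjoint_left]
    intro v hv hv'
    exact hne (h2 v T hT T' hT' (Finset.mem_filter.mp hv).2 (Finset.mem_filter.mp hv').2)

theorem meas_code [MeasurableSpace A] (F₀ : Finset G) (φ : (F₀ → ZMod 2) → A) :
    Measurable (code F₀ φ) := by
  rw [measurable_pi_iff]
  intro g
  have h1 : Measurable φ := measurable_of_countable _
  have h2 : Measurable (fun (x : G → ZMod 2) (h : F₀) => x (g * h)) := by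
    rw [measurable_pi_iff]
    intro h
    exact measurable_pi_apply _
  exact h1.comp h2

theorem push_mic [MeasurableSpace A] [MeasurableSingletonClass A]
    (μ : Measure (G → ZMod 2)) [IsProbabilityMeasure μ] {V : Type} [Finite V] [MulAction G V]
    (F₀ F F' : Finset G) (hF' : ∀ g ∈ F, ∀ h ∈ F₀, g * h ∈ F')
    (φ : (F₀ → ZMod 2) → A) (δ δ' : ℝ) (hδ : 0 < δ) (hδ' : 2 ^ F'.card * δ' ≤ δ)
    (x : V → ZMod 2) (hx : x ∈ Mic μ V F' δ') :
    codeV F₀ φ x ∈ Mic (μ.map (code F₀ φ)) V F δ := by
  classical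
  intro a
  let R : (G → ZMod 2) → Prop := fun y => ∀ g ∈ F, φ (fun h : F₀ => y (g * h)) = a g
  have hR : ∀ y y' : G → ZMod 2, (∀ g ∈ F', y g = y' g) → (R y → R y') := by
    intro y y' h hy g hg
    rw [← hy g hg]
    congr 1
    funext h'
    exact (h _ (hF' g hg h' h'.2)).symm
  let Cp : Finset (Finset G) := F'.powerset.filter (fun T => R (ind T))
  have hCp : ∀ T, T ∈ Cp ↔ T ⊆ F' ∧ R (ind T) := by
    intro T
    simp only [Cp, Finset.mem_filter, Finset.mem_powerset]
  have hex : ∀ y : G → ZMod 2, R y ↔ ∃ T ∈ Cp, ∀ g ∈ F', y g = ind T g := by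
    intro y
    constructor
    · intro h
      obtain ⟨T, hT, hy⟩ := ind_ex F' y
      exact ⟨T, (hCp T).mpr ⟨hT, hR _ _ hy h⟩, hy⟩
    · rintro ⟨T, hT, hy⟩
      exact hR _ _ (fun g hg => (hy g hg).symm) ((hCp T).mp hT).2
  have hun : ∀ y : G → ZMod 2, ∀ T ∈ Cp, ∀ T' ∈ Cp, (∀ g ∈ F', y g = ind T g) →
      (∀ g ∈ F', y g = ind T' g) → T = T' := by
    intro y T hT T' hT' h h'
    exact Finset.Subset.antisymm (ind_sub F' y T T' ((hCp T).mp hT).1 h h')
      (ind_sub F' y T' T ((hCp T').mp hT').1 h' h)
  have h1 : emp V F (codeV F₀ φ x) a = ∑ T ∈ Cp, emp V F' x (ind T) := by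
    simp only [emp]
    rw [← Finset.sum_div]
    congr 1
    have h2 := card_dec Cp (fun v : V => ∀ g ∈ F, codeV F₀ φ x (g⁻¹ • v) = a g)
      (fun T v => ∀ g ∈ F', x (g⁻¹ • v) = ind T g) (by
        intro v
        rw [← hex (fun g => x (g⁻¹ • v))]
        have h4 : ∀ g : G, codeV F₀ φ x (g⁻¹ • v)
            = φ (fun h : F₀ => (fun g : G => x (g⁻¹ • v)) (g * h)) := by
          intro g
          simp only [codeV]
          congr 1
          funext h
          rw [mul_inv_rev, mul_smul]
        constructor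
        · intro h g hg; rw [← h4]; exact h g hg
        · intro h g hg; rw [h4]; exact h g hg) (by
        intro v T hT T' hT' h h'
        exact hun (fun g => x (g⁻¹ • v)) T hT T' hT' h h')
    rw [h2]
    push_cast
    rfl
  have hms : ∀ (B : Type) [MeasurableSpace B] [MeasurableSingletonClass B] (E : Finset G)
      (c : G → B), MeasurableSet {y : G → B | ∀ g ∈ E, y g = c g} := by
    intro B _ _ E c
    have : {y : G → B | ∀ g ∈ E, y g = c g} = ⋂ g ∈ E, (fun y : G → B => y g) ⁻¹' {c g} := by
      ext y; simp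
    rw [this]
    apply Finset.measurableSet_biInter
    intro g _
    have hm : Measurable (fun y : G → B => y g) := measurable_pi_apply g
    exact hm (MeasurableSet.singleton _)
  have h2 : (μ.map (code F₀ φ)).real {y | ∀ g ∈ F, y g = a g}
      = ∑ T ∈ Cp, μ.real {y | ∀ g ∈ F', y g = ind T g} := by
    rw [Measure.real, Measure.map_apply (meas_code F₀ φ) (hms A F a)]
    have h3 : code F₀ φ ⁻¹' {y | ∀ g ∈ F, y g = a g}
        = ⋃ T ∈ Cp, {y : G → ZMod 2 | ∀ g ∈ F', y g = ind T g} := by
      ext y
      simp only [Set.mem_iUnion, exists_prop]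
      exact hex y
    rw [h3, measure_biUnion_finset]
    · rw [ENNReal.toReal_sum (fun T _ => measure_ne_top _ _)]
      rfl
    · intro T hT T' hT' hne
      rw [Function.onFun, Set.disjoint_left]
      intro y hy hy'
      exact hne (hun y T hT T' hT' hy hy')
    · intro T _
      exact hms (ZMod 2) F' (ind T)
  rw [h1, h2, ← Finset.sum_sub_distrib]
  have h3 : Cp.card ≤ 2 ^ F'.card := by
    rw [← Finset.card_powerset]
    exact Finset.card_le_card (Finset.filter_subset _ _)
  have hδ'0 : 0 < δ' := lt_of_le_of_lt (abs_nonneg _) (hx 0)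
  by_cases hne : Cp.Nonempty
  · calc |∑ T ∈ Cp, (emp V F' x (ind T) - μ.real {y | ∀ g ∈ F', y g = ind T g})|
        ≤ ∑ T ∈ Cp, |emp V F' x (ind T) - μ.real {y | ∀ g ∈ F', y g = ind T g}| :=
          Finset.abs_sum_le_sum_abs _ _
      _ < ∑ T ∈ Cp, δ' := Finset.sum_lt_sum_of_nonempty hne (fun T _ => hx (ind T))
      _ = Cp.card * δ' := by rw [Finset.sum_const, nsmul_eq_mul]
      _ ≤ 2 ^ F'.card * δ' := by
          apply mul_le_mul_of_nonneg_right _ hδ'0.le
          exact_mod_cast h3
      _ ≤ δ := hδ'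
  · rw [Finset.not_nonempty_iff_eq_empty] at hne
    rw [hne, Finset.sum_empty, abs_zero]
    exact hδ

end

section

variable {V : Type} [Fintype V] [DecidableEq V]

open Classical in
/-- Counting configurations with prescribed pattern through an injective window. -/
theorem window_count {H : Type} [Fintype H] (θ : H → V) (hθ : Function.Injective θ)
    (B : Finset (H → ZMod 2)) :
    ((univ : Finset (V → ZMod 2)).filter (fun x => (fun h => x (θ h)) ∈ B)).card
      * 2 ^ Fintype.card H = B.card * 2 ^ Fintype.card V := by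
  have hz : ∀ z : V → ZMod 2, z + z = 0 := by
    intro z; funext v; exact CharTwo.add_self_eq_zero _
  have hext : ∀ y : H → ZMod 2, ∃ x : V → ZMod 2, (fun h => x (θ h)) = y := by
    intro y
    refine ⟨Function.extend θ y 0, ?_⟩
    funext h
    exact hθ.extend_apply y 0 h
  set c := ((univ : Finset (V → ZMod 2)).filter (fun x => (fun h => x (θ h)) = 0)).card with hc
  have hfib : ∀ y : H → ZMod 2,
      ((univ : Finset (V → ZMod 2)).filter (fun x => (fun h => x (θ h)) = y)).card = c := by
    intro y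
    obtain ⟨x0, hx0⟩ := hext y
    refine Finset.card_bij' (fun x _ => x + x0) (fun x _ => x + x0) ?_ ?_ ?_ ?_
    · intro x hx
      rw [Finset.mem_filter] at hx ⊢
      refine ⟨Finset.mem_univ _, ?_⟩
      funext h
      have e1 := congrFun hx.2 h
      have e2 := congrFun hx0 h
      simp only [Pi.add_apply, Pi.zero_apply] at e1 e2 ⊢
      rw [e1, e2]
      exact CharTwo.add_self_eq_zero _
    · intro x hx
      rw [Finset.mem_filter] at hx ⊢
      refine ⟨Finset.mem_univ _, ?_⟩
      funext h
      have e1 := congrFun hx.2 h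
      have e2 := congrFun hx0 h
      simp only [Pi.add_apply, Pi.zero_apply] at e1 e2 ⊢
      rw [e1, e2, zero_add]
    · intro x _; rw [add_assoc, hz, add_zero]
    · intro x _; rw [add_assoc, hz, add_zero]
  have hsum : ∀ B : Finset (H → ZMod 2),
      ((univ : Finset (V → ZMod 2)).filter (fun x => (fun h => x (θ h)) ∈ B)).card = B.card * c := by
    intro B
    rw [Finset.card_eq_sum_card_fiberwise (f := fun x : V → ZMod 2 => fun h => x (θ h)) (t := B)]
    · rw [Finset.sum_congr rfl (g := fun _ => c), Finset.sum_const, smul_eq_mul]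
      intro y hy
      rw [← hfib y]
      congr 1
      ext x
      simp only [Finset.mem_filter, Finset.mem_univ, true_and]
      constructor
      · rintro ⟨_, h⟩; exact h
      · intro h; exact ⟨by rw [h]; exact hy, h⟩
    · intro x hx
      simpa using hx
  have huniv := hsum univ
  have h1 : ((univ : Finset (V → ZMod 2)).filter
      (fun x => (fun h => x (θ h)) ∈ (univ : Finset (H → ZMod 2)))).card = 2 ^ Fintype.card V := by
    rw [Finset.filter_true_of_mem (fun x _ => Finset.mem_univ _), Finset.card_univ,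
      Fintype.card_fun, ZMod.card]
  rw [h1, Finset.card_univ, Fintype.card_fun, ZMod.card] at huniv
  rw [hsum B, huniv]
  ring

open Classical in
/-- Fibres of a block code on a finite `G`-set. -/
theorem code_fiber {G : Type} [Group G] [MulAction G V] {A : Type} (F₀ : Finset G)
    (hF₀ : F₀.Nonempty) (φ : (F₀ → ZMod 2) → A) (p : ℝ) (hp0 : 0 < p)
    (hp : ∀ a : A, (((univ : Finset (F₀ → ZMod 2)).filter (fun z => φ z = a)).card : ℝ)
      ≤ p * 2 ^ F₀.card) (y : V → A) :
    (((univ : Finset (V → ZMod 2)).filter (fun x => codeV F₀ φ x = y)).card : ℝ)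
      ≤ 2 ^ Fintype.card V * p ^ ((1 / (F₀.card : ℝ)) * (((Fintype.card V : ℝ) - ((univ : Finset V).filter
        (fun v => ¬ Set.InjOn (fun g : G => g⁻¹ • v) (F₀ : Set G))).card))) := by
  set m := F₀.card with hm
  have hm0 : 0 < m := Finset.card_pos.mpr hF₀
  have hm1 : (1 / (m : ℝ)) ≠ 0 := by
    have : (0 : ℝ) < m := by exact_mod_cast hm0
    positivity
  let g : V → (V → ZMod 2) → ℝ := fun v x =>
    if φ (fun h : F₀ => x ((h : G)⁻¹ • v)) = y v then 1 else 0
  have hg0 : ∀ v x, 0 ≤ g v x := by
    intro v x; simp only [g]; split_ifs <;> norm_num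
  have hinv : ∀ u v, (∀ h ∈ F₀, u ≠ h⁻¹ • v) → ∀ x, g v (x + Pi.single u 1) = g v x := by
    intro u v h x
    simp only [g]
    have h1 : (fun h' : F₀ => (x + (Pi.single u 1 : V → ZMod 2)) ((h' : G)⁻¹ • v))
        = fun h' : F₀ => x ((h' : G)⁻¹ • v) := by
      funext h'
      rw [Pi.add_apply, Pi.single_eq_of_ne (Ne.symm (h h' h'.2)), add_zero]
    rw [h1]
  have hcount : ∀ u, (univ.filter (fun v => ¬ ∀ x, g v (x + Pi.single u 1) = g v x)).card ≤ m := by
    intro u
    have hsub : univ.filter (fun v => ¬ ∀ x, g v (x + Pi.single u 1) = g v x)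
        ⊆ F₀.image (fun h => h • u) := by
      intro v hv
      rw [Finset.mem_filter] at hv
      by_contra hcon
      apply hv.2
      apply hinv u v
      intro h hh he
      apply hcon
      rw [Finset.mem_image]
      exact ⟨h, hh, by rw [he, smul_smul, mul_inv_cancel, one_smul]⟩
    exact (Finset.card_le_card hsub).trans Finset.card_image_le
  have hfin := finner m hm0 (univ : Finset V) g hg0
    (fun i u hu => absurd (Finset.mem_univ u) hu) hcount
  have hL : ∑ x : V → ZMod 2, ∏ v, (g v x) ^ (1 / (m : ℝ))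
      = (((univ : Finset (V → ZMod 2)).filter (fun x => codeV F₀ φ x = y)).card : ℝ) := by
    have h1 : ∀ x : V → ZMod 2, ∏ v, (g v x) ^ (1 / (m : ℝ))
        = if codeV F₀ φ x = y then (1 : ℝ) else 0 := by
      intro x
      split_ifs with h
      · apply Finset.prod_eq_one
        intro v _
        have h2 : g v x = 1 := by
          simp only [g]
          rw [if_pos]
          exact congrFun h v
        rw [h2, Real.one_rpow]
      · have h3 : ∃ v, codeV F₀ φ x v ≠ y v := by
          by_contra hcon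
          push Not at hcon
          exact h (funext hcon)
        obtain ⟨v, hv⟩ := h3
        apply Finset.prod_eq_zero (Finset.mem_univ v)
        have h2 : g v x = 0 := by
          simp only [g]
          rw [if_neg]
          exact hv
        rw [h2, Real.zero_rpow hm1]
    rw [Finset.sum_congr rfl (fun x _ => h1 x), Finset.sum_boole]
  rw [hL] at hfin
  refine hfin.trans ?_
  apply mul_le_mul_of_nonneg_left _ (by positivity)
  -- each factor
  set Bd := (univ : Finset V).filter
        (fun v => ¬ Set.InjOn (fun g : G => g⁻¹ • v) (F₀ : Set G)) with hBd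
  have hgood : ∀ v, v ∉ Bd → (∑ x : V → ZMod 2, g v x) / 2 ^ Fintype.card V ≤ p := by
    intro v hv
    have hinj : Set.InjOn (fun g : G => g⁻¹ • v) (F₀ : Set G) := by
      by_contra h
      exact hv (Finset.mem_filter.mpr ⟨Finset.mem_univ _, h⟩)
    have hθ : Function.Injective (fun h : F₀ => (h : G)⁻¹ • v) := by
      intro a b hab
      exact Subtype.ext (hinj a.2 b.2 hab)
    have h1 := window_count (fun h : F₀ => (h : G)⁻¹ • v) hθ
      ((univ : Finset (F₀ → ZMod 2)).filter (fun z => φ z = y v))
    rw [Fintype.card_coe] at h1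
    have h2 : ∑ x : V → ZMod 2, g v x
        = (((univ : Finset (V → ZMod 2)).filter (fun x => (fun h : F₀ => x ((h : G)⁻¹ • v))
          ∈ (univ : Finset (F₀ → ZMod 2)).filter (fun z => φ z = y v))).card : ℝ) := by
      simp only [g]
      rw [Finset.sum_boole]
      congr 2
      ext x
      simp
    rw [h2, div_le_iff₀ (by positivity)]
    have h3 := (Nat.cast_inj (R := ℝ)).mpr h1
    rw [Nat.cast_mul, Nat.cast_mul, Nat.cast_pow, Nat.cast_pow, Nat.cast_ofNat] at h3
    have h4 := hp (y v)
    have h5 : (0 : ℝ) < 2 ^ m := by positivity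
    have h6 : (((univ : Finset (V → ZMod 2)).filter (fun x => (fun h : F₀ => x ((h : G)⁻¹ • v))
          ∈ (univ : Finset (F₀ → ZMod 2)).filter (fun z => φ z = y v))).card : ℝ) * 2 ^ m
        ≤ (p * 2 ^ Fintype.card V) * 2 ^ m := by
      rw [h3]
      calc _ ≤ (p * 2 ^ m) * 2 ^ Fintype.card V := mul_le_mul_of_nonneg_right h4 (by positivity)
        _ = _ := by ring
    exact le_of_mul_le_mul_right h6 h5
  have hall : ∀ v, (∑ x : V → ZMod 2, g v x) / 2 ^ Fintype.card V ≤ 1 := by
    intro v
    rw [div_le_one (by positivity)]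
    calc ∑ x : V → ZMod 2, g v x ≤ ∑ x : V → ZMod 2, (1 : ℝ) := by
          apply Finset.sum_le_sum
          intro x _
          simp only [g]
          split_ifs <;> norm_num
      _ = 2 ^ Fintype.card V := by
        rw [Finset.sum_const, Finset.card_univ, Fintype.card_fun, ZMod.card, nsmul_eq_mul, mul_one]
        push_cast; rfl
  have hnn : ∀ v, 0 ≤ (∑ x : V → ZMod 2, g v x) / 2 ^ Fintype.card V := by
    intro v
    apply div_nonneg _ (by positivity)
    exact Finset.sum_nonneg (fun x _ => hg0 v x)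
  have h7 : ∏ v, ((∑ x : V → ZMod 2, g v x) / 2 ^ Fintype.card V) ^ (1 / (m : ℝ))
      ≤ ∏ v : V, (if v ∈ Bd then (1 : ℝ) else p ^ (1 / (m : ℝ))) := by
    apply Finset.prod_le_prod
    · intro v _
      exact Real.rpow_nonneg (hnn v) _
    · intro v _
      split_ifs with h
      · exact Real.rpow_le_one (hnn v) (hall v) (by positivity)
      · exact Real.rpow_le_rpow (hnn v) (hgood v h) (by positivity)
  refine h7.trans (le_of_eq ?_)
  rw [Finset.prod_ite, Finset.prod_const_one, one_mul, Finset.prod_const]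
  have h8 : (univ.filter (fun v => v ∉ Bd)).card = Fintype.card V - Bd.card := by
    rw [← Finset.card_compl]
    congr 1
    ext; simp
  have h9 : Bd.card ≤ Fintype.card V := Finset.card_le_univ _
  rw [h8, ← Real.rpow_natCast, ← Real.rpow_mul hp0.le, Nat.cast_sub h9]

end

end Pool.Agent.MP_9d0e09_an
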