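import Mathlib

/-!
# A random small set meets almost all large sets
-/

open Finset

namespace Pool.Agent.MP_9d0e09_an

theorem card_avoid {α : Type*} [Fintype α] [DecidableEq α] (q : ℕ) (t : Finset α) :
    ((Fintype.piFinset (fun a : α => if a ∈ t then (univ.erase (0 : Fin (q + 1))) else univ)).card : ℝ)
      = (q : ℝ) ^ t.card * ((q : ℝ) + 1) ^ (Fintype.card α - t.card) := by
  rw [Fintype.card_piFinset]
  push_cast
  have h1 : ∀ a : α, (((if a ∈ t then (univ.erase (0 : Fin (q + 1))) else univ).card : ℕ) : ℝ)
      = if a ∈ t then (q : ℝ) else (q : ℝ) + 1 := by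
    intro a
    split_ifs with h
    · simp
    · simp
  rw [Finset.prod_congr rfl (fun a _ => h1 a)]
  rw [Finset.prod_ite, Finset.prod_const, Finset.prod_const]
  have h2 : (univ.filter (fun a => a ∈ t)) = t := by ext; simp
  have h3 : (univ.filter (fun a => a ∉ t)).card = Fintype.card α - t.card := by
    rw [← Finset.card_compl]
    congr 1
    ext; simp
  rw [h2, h3]

/-- Averaging over all colourings. -/
theorem hit {α ι : Type*} [Fintype α] [DecidableEq α] [Fintype ι] (t : ι → Finset α)
    (M q : ℕ) (hq : 1 ≤ q) (hM : ∀ i, M ≤ (t i).card) :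
    ∃ D : Finset α, (D.card : ℝ) ≤ 2 * Fintype.card α / (q + 1) ∧
      ((univ.filter (fun i => Disjoint (t i) D)).card : ℝ)
        ≤ 2 * ((q : ℝ) / (q + 1)) ^ M * Fintype.card ι := by
  classical
  by_cases hα : Fintype.card α = 0
  · refine ⟨∅, by rw [Finset.card_empty, Nat.cast_zero]; positivity, ?_⟩
    have hM0 : ∀ i : ι, M = 0 := by
      intro i
      have := hM i
      have h2 : (t i).card ≤ Fintype.card α := Finset.card_le_univ _
      omega
    by_cases hι : Fintype.card ι = 0
    · have : IsEmpty ι := Fintype.card_eq_zero_iff.mp hι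
      simp
    · have : Nonempty ι := Fintype.card_pos_iff.mp (Nat.pos_of_ne_zero hι)
      obtain ⟨i⟩ := this
      rw [hM0 i]
      have h3 : ((univ.filter (fun i => Disjoint (t i) (∅ : Finset α))).card : ℝ)
          ≤ Fintype.card ι := by
        exact_mod_cast Finset.card_le_univ _
      have h4 : (0 : ℝ) ≤ Fintype.card ι := by positivity
      simp only [pow_zero]
      linarith
  by_cases hι : Fintype.card ι = 0
  · refine ⟨∅, by simp; positivity, ?_⟩
    have : IsEmpty ι := Fintype.card_eq_zero_iff.mp hι
    simp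
  set A : ℝ := Fintype.card α / (q + 1) with hA
  set B : ℝ := ((q : ℝ) / (q + 1)) ^ M * Fintype.card ι with hB
  have hApos : 0 < A := by
    have : 0 < (Fintype.card α : ℝ) := by exact_mod_cast Nat.pos_of_ne_zero hα
    positivity
  have hBpos : 0 < B := by
    have : 0 < (Fintype.card ι : ℝ) := by exact_mod_cast Nat.pos_of_ne_zero hι
    have h2 : 0 < (q : ℝ) := by exact_mod_cast hq
    positivity
  let Dd : (α → Fin (q + 1)) → Finset α := fun u => univ.filter (fun a => u a = 0)
  let Uh : (α → Fin (q + 1)) → Finset ι := fun u => univ.filter (fun i => Disjoint (t i) (Dd u))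
  have hN : (Fintype.card (α → Fin (q + 1)) : ℝ) = ((q : ℝ) + 1) ^ Fintype.card α := by
    rw [Fintype.card_fun]; push_cast; simp
  -- sum of |D|
  have hD : ∑ u : α → Fin (q + 1), ((Dd u).card : ℝ)
      = A * ((q : ℝ) + 1) ^ Fintype.card α := by
    have h1 : ∀ u : α → Fin (q + 1), ((Dd u).card : ℝ) = ∑ a : α, if u a = 0 then (1 : ℝ) else 0 := by
      intro u
      rw [Finset.sum_boole]
    rw [Finset.sum_congr rfl (fun u _ => h1 u), Finset.sum_comm]
    have h2 : ∀ a : α, (∑ u : α → Fin (q + 1), if u a = 0 then (1 : ℝ) else 0)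
        = ((q : ℝ) + 1) ^ (Fintype.card α - 1) := by
      intro a
      have h3 : ((Fintype.piFinset (fun b : α => if b ∈ ({a} : Finset α) then (univ.erase (0 : Fin (q + 1)))
          else univ)).card : ℝ) = (q : ℝ) * ((q : ℝ) + 1) ^ (Fintype.card α - 1) := by
        rw [card_avoid]; simp
      have h4 : (Fintype.piFinset (fun b : α => if b ∈ ({a} : Finset α) then (univ.erase (0 : Fin (q + 1)))
          else univ)) = univ.filter (fun u : α → Fin (q + 1) => ¬ u a = 0) := by
        ext u
        simp only [Fintype.mem_piFinset, Finset.mem_filter, Finset.mem_univ, true_and,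
          Finset.mem_singleton]
        constructor
        · intro h
          have := h a
          simpa using this
        · intro h b
          split_ifs with hb
          · subst hb; simpa using h
          · simp
      rw [h4] at h3
      have h5 : ((univ.filter (fun u : α → Fin (q + 1) => u a = 0)).card : ℝ)
          + ((univ.filter (fun u : α → Fin (q + 1) => ¬ u a = 0)).card : ℝ)
          = ((q : ℝ) + 1) ^ Fintype.card α := by
        rw [← hN]
        have := Finset.card_filter_add_card_filter_not (s := (univ : Finset (α → Fin (q + 1))))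
          (fun u => u a = 0)
        rw [Finset.card_univ] at this
        exact_mod_cast this
      rw [Finset.sum_boole]
      have h6 : ((q : ℝ) + 1) ^ Fintype.card α = ((q : ℝ) + 1) * ((q : ℝ) + 1) ^ (Fintype.card α - 1) := by
        rw [← pow_succ']
        congr 1
        omega
      rw [h3, h6] at h5
      linarith
    rw [Finset.sum_congr rfl (fun a _ => h2 a), Finset.sum_const, Finset.card_univ, nsmul_eq_mul]
    have h6 : ((q : ℝ) + 1) ^ Fintype.card α = ((q : ℝ) + 1) * ((q : ℝ) + 1) ^ (Fintype.card α - 1) := by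
      rw [← pow_succ']
      congr 1
      omega
    rw [hA, h6]
    field_simp
  have hU : ∑ u : α → Fin (q + 1), ((Uh u).card : ℝ)
      ≤ B * ((q : ℝ) + 1) ^ Fintype.card α := by
    have h1 : ∀ u : α → Fin (q + 1), ((Uh u).card : ℝ)
        = ∑ i : ι, if Disjoint (t i) (Dd u) then (1 : ℝ) else 0 := by
      intro u
      rw [Finset.sum_boole]
    rw [Finset.sum_congr rfl (fun u _ => h1 u), Finset.sum_comm]
    have h2 : ∀ i : ι, (∑ u : α → Fin (q + 1), if Disjoint (t i) (Dd u) then (1 : ℝ) else 0)
        ≤ ((q : ℝ) / (q + 1)) ^ M * ((q : ℝ) + 1) ^ Fintype.card α := by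
      intro i
      rw [Finset.sum_boole]
      have h4 : (Fintype.piFinset (fun b : α => if b ∈ t i then (univ.erase (0 : Fin (q + 1)))
          else univ)) = univ.filter (fun u : α → Fin (q + 1) => Disjoint (t i) (Dd u)) := by
        ext u
        simp only [Fintype.mem_piFinset, Finset.mem_filter, Finset.mem_univ, true_and,
          Finset.disjoint_left, Dd]
        constructor
        · intro h b hb
          have := h b
          rw [if_pos hb] at this
          simpa using this
        · intro h b
          split_ifs with hb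
          · simpa using h hb
          · simp
      rw [← h4, card_avoid]
      have h5 : (t i).card ≤ Fintype.card α := Finset.card_le_univ _
      have h6 : ((q : ℝ) + 1) ^ Fintype.card α
          = ((q : ℝ) + 1) ^ (t i).card * ((q : ℝ) + 1) ^ (Fintype.card α - (t i).card) := by
        rw [← pow_add]
        congr 1
        omega
      have h7 : (q : ℝ) ^ (t i).card = ((q : ℝ) / (q + 1)) ^ (t i).card * ((q : ℝ) + 1) ^ (t i).card := by
        rw [← mul_pow]
        congr 1
        field_simp
      rw [h7, h6]
      have h8 : ((q : ℝ) / (q + 1)) ^ (t i).card ≤ ((q : ℝ) / (q + 1)) ^ M := by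
        apply pow_le_pow_of_le_one
        · positivity
        · rw [div_le_one (by positivity)]; linarith
        · exact hM i
      have h9 : 0 ≤ ((q : ℝ) + 1) ^ (t i).card * ((q : ℝ) + 1) ^ (Fintype.card α - (t i).card) := by
        positivity
      nlinarith
    calc ∑ i : ι, (∑ u : α → Fin (q + 1), if Disjoint (t i) (Dd u) then (1 : ℝ) else 0)
        ≤ ∑ i : ι, ((q : ℝ) / (q + 1)) ^ M * ((q : ℝ) + 1) ^ Fintype.card α :=
          Finset.sum_le_sum (fun i _ => h2 i)
      _ = B * ((q : ℝ) + 1) ^ Fintype.card α := by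
          rw [Finset.sum_const, Finset.card_univ, nsmul_eq_mul, hB]; ring
  -- pick u
  have hex : ∃ u : α → Fin (q + 1), ((Dd u).card : ℝ) * B + ((Uh u).card : ℝ) * A ≤ 2 * A * B := by
    by_contra hcon
    push Not at hcon
    have h1 : ∑ u : α → Fin (q + 1), (2 * A * B)
        < ∑ u : α → Fin (q + 1), (((Dd u).card : ℝ) * B + ((Uh u).card : ℝ) * A) := by
      apply Finset.sum_lt_sum_of_nonempty
      · exact ⟨fun _ => 0, Finset.mem_univ _⟩
      · intro u _
        exact hcon u
    rw [Finset.sum_const, Finset.card_univ, nsmul_eq_mul, hN, Finset.sum_add_distrib,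
      ← Finset.sum_mul, ← Finset.sum_mul, hD] at h1
    have h2 := mul_le_mul_of_nonneg_right hU hApos.le
    nlinarith
  obtain ⟨u, hu⟩ := hex
  refine ⟨Dd u, ?_, ?_⟩
  · have h1 : ((Dd u).card : ℝ) * B ≤ 2 * A * B := by
      have : 0 ≤ ((Uh u).card : ℝ) * A := by positivity
      linarith
    have h2 : ((Dd u).card : ℝ) ≤ 2 * A := le_of_mul_le_mul_right h1 hBpos
    rw [hA] at h2
    calc ((Dd u).card : ℝ) ≤ 2 * (Fintype.card α / (q + 1)) := h2
      _ = 2 * Fintype.card α / (q + 1) := by ring
  · have h1 : ((Uh u).card : ℝ) * A ≤ (2 * B) * A := by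
      have : 0 ≤ ((Dd u).card : ℝ) * B := by positivity
      linarith
    have h2 : ((Uh u).card : ℝ) ≤ 2 * B := le_of_mul_le_mul_right h1 hApos
    rw [hB] at h2
    calc ((univ.filter (fun i => Disjoint (t i) (Dd u))).card : ℝ) = ((Uh u).card : ℝ) := rfl
      _ ≤ 2 * (((q : ℝ) / (q + 1)) ^ M * Fintype.card ι) := h2
      _ = 2 * ((q : ℝ) / (q + 1)) ^ M * Fintype.card ι := by ring

end Pool.Agent.MP_9d0e09_an
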