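import Pool.Agent.Lib.MP_9d0e09_an.Four
import Pool.Agent.Lib.MP_9d0e09_an.Hit

/-!
# The finite core: an enlarged code whose words are almost all microstates
-/

open MeasureTheory Filter Topology Finset

namespace Pool.Agent.MP_9d0e09_an

section

variable {G : Type} [Group G] [DecidableEq G] {d : ℕ} (s : Fin d → G) (k : ℕ)

theorem ball_base {B B' : Finset G} (h : B ⊆ B') (j : ℕ) : ball s k B j ⊆ ball s k B' j := by
  induction j with
  | zero => exact h
  | succ j ih =>
    rw [ball, ball]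
    apply Finset.union_subset_union ih
    apply Finset.image_subset_image
    exact Finset.product_subset_product_left ih

/-- The neighbourhood used for windows `F`, `S` and depth `M`. -/
def BB (F S : Finset G) (M : ℕ) : Finset G :=
  ball s k ((F ×ˢ S).image (fun p => p.1 * p.2)) (M + 1)

/-- Nontrivial characters supported on `F`. -/
noncomputable def NT (F S : Finset G) : Finset (Finset G) :=
  @Finset.filter (Finset G) (fun T : Finset G => ∃ x ∈ PX s k, ∑ p ∈ T ×ˢ S, x (p.1 * p.2) ≠ 0)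
    (Classical.decPred _) F.powerset

omit [DecidableEq G] in
theorem NT_card (F S : Finset G) : (NT s k F S).card ≤ 2 ^ F.card := by
  classical
  rw [← Finset.card_powerset]
  apply Finset.card_le_card
  intro T hT
  rw [NT, Finset.mem_filter] at hT
  exact hT.1

variable {V : Type} [Fintype V] [DecidableEq V] [MulAction G V]

open Classical in
/-- Points whose neighbourhood is not injective. -/
noncomputable def Bad (B : Finset G) : Finset V :=
  univ.filter (fun v : V => ¬ Set.InjOn (fun g : G => g⁻¹ • v) (B : Set G))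

open Classical in
/-- Points near `v`. -/
noncomputable def Near (F S B : Finset G) (v : V) : Finset V :=
  univ.filter (fun v' : V => ∃ p ∈ F ×ˢ S, ∃ g ∈ B, (p.1 * p.2)⁻¹ • v' = g⁻¹ • v)

omit [DecidableEq G] in
theorem near_card (F S B : Finset G) (v : V) :
    (Near F S B v).card ≤ F.card * S.card * B.card := by
  classical
  have hsub : Near F S B v ⊆ ((F ×ˢ S) ×ˢ B).image (fun r => (r.1.1 * r.1.2) • (r.2⁻¹ • v)) := by
    intro v' hv'
    rw [Near, Finset.mem_filter] at hv'
    obtain ⟨_, p, hp, g, hg, h⟩ := hv'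
    rw [Finset.mem_image]
    refine ⟨(p, g), Finset.mk_mem_product hp hg, ?_⟩
    simp only
    rw [← h, smul_smul, mul_inv_cancel, one_smul]
  calc _ ≤ _ := Finset.card_le_card hsub
    _ ≤ _ := Finset.card_image_le
    _ = _ := by rw [Finset.card_product, Finset.card_product]

theorem rep_large [Nonempty (Fin d)] (hk : 0 < k) (hs : ∀ i, s i ^ k = 1) (F S : Finset G) (M : ℕ)
    (T : Finset G) (hT : T ∈ NT s k F S) (v v' : V) (hv : v ∉ Bad (V := V) (BB s k F S M))
    (hv' : v' ∉ Near F S (BB s k F S M) v) (c : Finset (V → ZMod 2))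
    (hcw : ∀ β ∈ c, ∃ i u, β = cw s k i u)
    (hsum : lw (T ×ˢ S) (fun p : G × G => p.1 * p.2) v
      + lw (T ×ˢ S) (fun p : G × G => p.1 * p.2) v' = ∑ β ∈ c, β) :
    M + 1 ≤ c.card := by
  classical
  by_contra hcon
  have hcM : c.card ≤ M := by omega
  rw [NT, Finset.mem_filter, Finset.mem_powerset] at hT
  obtain ⟨hTF, x, hx, hne⟩ := hT
  apply hne
  have hsubB : ball s k ((T ×ˢ S).image (fun p : G × G => p.1 * p.2)) (M + 1) ⊆ BB s k F S M := by
    apply ball_base
    apply Finset.image_subset_image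
    exact Finset.product_subset_product_left hTF
  have hinj : Set.InjOn (fun g : G => g⁻¹ • v) (BB s k F S M : Set G) := by
    by_contra h
    exact hv (by rw [Bad, Finset.mem_filter]; exact ⟨Finset.mem_univ _, h⟩)
  refine local_word s k hk hs (T ×ˢ S) (fun p : G × G => p.1 * p.2) M v v' ?_ ?_ c hcM hcw hsum x hx
  · exact hinj.mono (by exact_mod_cast hsubB)
  · intro p hp g hg h
    apply hv'
    rw [Near, Finset.mem_filter]
    exact ⟨Finset.mem_univ _, p, Finset.product_subset_product_left hTF hp, g, hsubB hg, h⟩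

open Classical in
theorem core_D [Nonempty (Fin d)] (hk : 0 < k) (hs : ∀ i, s i ^ k = 1) (F S : Finset G) (M q : ℕ)
    (hq : 1 ≤ q) (b : Finset (V → ZMod 2))
    (hb0 : LinearIndepOn (ZMod 2) id (b : Set (V → ZMod 2)))
    (hb1 : (b : Set (V → ZMod 2)) ⊆ Set.range (fun q : Fin d × V => cw s k q.1 q.2)) :
    ∃ D ⊆ b, (D.card : ℝ) ≤ 2 * b.card / (q + 1) ∧ ∀ T ∈ NT s k F S,
      (((univ : Finset (V × V)).filter (fun r =>
        lw (T ×ˢ S) (fun p : G × G => p.1 * p.2) r.1 + lw (T ×ˢ S) (fun p : G × G => p.1 * p.2) r.2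
          ∈ Submodule.span (ZMod 2) ((b \ D : Finset (V → ZMod 2)) : Set (V → ZMod 2)))).card : ℝ)
      ≤ (Bad (V := V) (BB s k F S M)).card * Fintype.card V
        + Fintype.card V * (F.card * S.card * (BB s k F S M).card)
        + 2 * ((q : ℝ) / (q + 1)) ^ (M + 1) * (2 ^ F.card * (Fintype.card V) ^ 2) := by
  let B := BB s k F S M
  let L : Finset G → V → V → (V → ZMod 2) := fun T v v' =>
    lw (T ×ˢ S) (fun p : G × G => p.1 * p.2) v + lw (T ×ˢ S) (fun p : G × G => p.1 * p.2) v'
  let ι := {i : (NT s k F S) × V × V // i.2.1 ∉ Bad (V := V) B ∧ i.2.2 ∉ Near F S B i.2.1 ∧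
    L i.1.1 i.2.1 i.2.2 ∈ Submodule.span (ZMod 2) (b : Set (V → ZMod 2))}
  have hrep : ∀ i : ι, ∃ c ⊆ b, L i.1.1.1 i.1.2.1 i.1.2.2 = ∑ β ∈ c, β :=
    fun i => rep_of_mem_span b _ i.2.2.2
  choose c hcb hcs using hrep
  let t : ι → Finset b := fun i => univ.filter (fun β => β.1 ∈ c i)
  have htc : ∀ i, (t i).card = (c i).card := by
    intro i
    have h1 : (t i).image Subtype.val = c i := by
      ext β
      simp only [t, Finset.mem_image, Finset.mem_filter, Finset.mem_univ, true_and]
      constructor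
      · rintro ⟨β', h, rfl⟩; exact h
      · intro h; exact ⟨⟨β, hcb i h⟩, h, rfl⟩
    rw [← h1, Finset.card_image_of_injective _ Subtype.val_injective]
  have hM : ∀ i, M + 1 ≤ (t i).card := by
    intro i
    rw [htc i]
    refine rep_large s k hk hs F S M i.1.1.1 i.1.1.2 i.1.2.1 i.1.2.2 i.2.1 i.2.2.1 (c i) ?_ (hcs i)
    intro β hβ
    obtain ⟨q, hq⟩ := hb1 (hcb i hβ)
    exact ⟨q.1, q.2, hq.symm⟩
  obtain ⟨D0, hD1, hD2⟩ := hit t (M + 1) q hq hM
  have hDc : (D0.image Subtype.val : Finset (V → ZMod 2)).card = D0.card :=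
    Finset.card_image_of_injective _ Subtype.val_injective
  refine ⟨D0.image Subtype.val, ?_, ?_, ?_⟩
  · intro β hβ
    rw [Finset.mem_image] at hβ
    obtain ⟨β', _, rfl⟩ := hβ
    exact β'.2
  · rw [hDc]
    rwa [Fintype.card_coe] at hD1
  · intro T hT
    have hsub : (univ : Finset (V × V)).filter (fun r =>
        lw (T ×ˢ S) (fun p : G × G => p.1 * p.2) r.1 + lw (T ×ˢ S) (fun p : G × G => p.1 * p.2) r.2
          ∈ Submodule.span (ZMod 2) ((b \ (D0.image Subtype.val) : Finset (V → ZMod 2)) :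
            Set (V → ZMod 2)))
        ⊆ ((Bad (V := V) B) ×ˢ (univ : Finset V)
          ∪ (univ : Finset V).biUnion (fun v => (Near F S B v).image (fun v' => (v, v'))))
          ∪ (univ.filter (fun i => Disjoint (t i) D0)).image (fun i : ι => (i.1.2.1, i.1.2.2)) := by
      rintro ⟨v, v'⟩ hr
      rw [Finset.mem_filter] at hr
      by_cases h1 : v ∈ Bad (V := V) B
      · apply Finset.mem_union_left
        apply Finset.mem_union_left
        exact Finset.mk_mem_product h1 (Finset.mem_univ _)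
      by_cases h2 : v' ∈ Near F S B v
      · apply Finset.mem_union_left
        apply Finset.mem_union_right
        rw [Finset.mem_biUnion]
        exact ⟨v, Finset.mem_univ _, Finset.mem_image_of_mem _ h2⟩
      apply Finset.mem_union_right
      have h3 : L T v v' ∈ Submodule.span (ZMod 2) (b : Set (V → ZMod 2)) := by
        refine Submodule.span_mono ?_ hr.2
        exact_mod_cast Finset.sdiff_subset
      let i : ι := ⟨(⟨T, hT⟩, v, v'), h1, h2, h3⟩
      rw [Finset.mem_image]
      refine ⟨i, ?_, rfl⟩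
      rw [Finset.mem_filter]
      refine ⟨Finset.mem_univ _, ?_⟩
      obtain ⟨c', hc', hcs'⟩ := rep_of_mem_span _ _ hr.2
      have h4 : c i = c' := by
        apply rep_unique b hb0 _ _ (hcb i) (hc'.trans Finset.sdiff_subset)
        rw [← hcs i, ← hcs']
      rw [Finset.disjoint_left]
      intro β hβ hβD
      simp only [t, Finset.mem_filter, Finset.mem_univ, true_and] at hβ
      rw [h4] at hβ
      have h5 := hc' hβ
      rw [Finset.mem_sdiff] at h5
      exact h5.2 (Finset.mem_image_of_mem _ hβD)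
    have hcard := Finset.card_le_card hsub
    have hc1 : ((Bad (V := V) B) ×ˢ (univ : Finset V)).card = (Bad (V := V) B).card * Fintype.card V := by
      rw [Finset.card_product, Finset.card_univ]
    have hc2 : ((univ : Finset V).biUnion (fun v => (Near F S B v).image (fun v' => (v, v')))).card
        ≤ Fintype.card V * (F.card * S.card * B.card) := by
      calc _ ≤ _ := Finset.card_biUnion_le
        _ ≤ ∑ v : V, F.card * S.card * B.card := by
          apply Finset.sum_le_sum
          intro v _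
          exact Finset.card_image_le.trans (near_card F S B v)
        _ = _ := by rw [Finset.sum_const, Finset.card_univ, smul_eq_mul]
    have hc3 := Finset.card_image_le (s := univ.filter (fun i => Disjoint (t i) D0))
      (f := fun i : ι => (i.1.2.1, i.1.2.2))
    have hc4 : (Fintype.card ι : ℝ) ≤ 2 ^ F.card * (Fintype.card V) ^ 2 := by
      have h1 : Fintype.card ι ≤ Fintype.card ((NT s k F S) × V × V) :=
        Fintype.card_subtype_le _
      rw [Fintype.card_prod, Fintype.card_prod, Fintype.card_coe] at h1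
      have h2 : Fintype.card ι ≤ 2 ^ F.card * (Fintype.card V * Fintype.card V) :=
        h1.trans (Nat.mul_le_mul_right _ (NT_card s k F S))
      have h3 : (Fintype.card ι : ℝ) ≤ ((2 ^ F.card * (Fintype.card V * Fintype.card V) : ℕ) : ℝ) := by
        exact_mod_cast h2
      push_cast at h3
      rw [sq]; exact h3
    have hun := Finset.card_union_le ((Bad (V := V) B) ×ˢ (univ : Finset V)
          ∪ (univ : Finset V).biUnion (fun v => (Near F S B v).image (fun v' => (v, v'))))
          ((univ.filter (fun i => Disjoint (t i) D0)).image (fun i : ι => (i.1.2.1, i.1.2.2)))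
    have hun2 := Finset.card_union_le ((Bad (V := V) B) ×ˢ (univ : Finset V))
      ((univ : Finset V).biUnion (fun v => (Near F S B v).image (fun v' => (v, v'))))
    have htot : ((univ : Finset (V × V)).filter (fun r =>
        lw (T ×ˢ S) (fun p : G × G => p.1 * p.2) r.1 + lw (T ×ˢ S) (fun p : G × G => p.1 * p.2) r.2
          ∈ Submodule.span (ZMod 2) ((b \ (D0.image Subtype.val) : Finset (V → ZMod 2)) :
            Set (V → ZMod 2)))).card
        ≤ (Bad (V := V) B).card * Fintype.card V + Fintype.card V * (F.card * S.card * B.card)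
          + (univ.filter (fun i => Disjoint (t i) D0)).card := by
      omega
    have htot' := (Nat.cast_le (α := ℝ)).mpr htot
    rw [Nat.cast_add, Nat.cast_add, Nat.cast_mul, Nat.cast_mul, Nat.cast_mul, Nat.cast_mul] at htot'
    have h6 : 2 * ((q : ℝ) / (q + 1)) ^ (M + 1) * Fintype.card ι
        ≤ 2 * ((q : ℝ) / (q + 1)) ^ (M + 1) * (2 ^ F.card * (Fintype.card V) ^ 2) :=
      mul_le_mul_of_nonneg_left hc4 (by positivity)
    linarith

omit [DecidableEq G] in
open Classical in
/-- At least half of the words are balanced for all nontrivial characters. -/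
theorem good_many (F S : Finset G) (δ : ℝ) (hδ : 0 < δ) (hV : 0 < Fintype.card V)
    (A : Finset (V → ZMod 2)) (Pb : ℝ)
    (hP : ∀ T ∈ NT s k F S,
      (((univ : Finset (V × V)).filter (fun r =>
        lw (T ×ˢ S) (fun p : G × G => p.1 * p.2) r.1 + lw (T ×ˢ S) (fun p : G × G => p.1 * p.2) r.2
          ∈ Submodule.span (ZMod 2) (A : Set (V → ZMod 2)))).card : ℝ) ≤ Pb)
    (hPb : Pb * (2 * 2 ^ F.card) ≤ (δ * Fintype.card V) ^ 2) :
    ((Cd A).card : ℝ) ≤ 2 * (((Cd A).filter (fun x => ∀ T ∈ NT s k F S,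
      |∑ v : V, sg (dotProduct (lw (T ×ˢ S) (fun p : G × G => p.1 * p.2) v) x)|
        < δ * Fintype.card V)).card : ℝ) := by
  set τ : ℝ := δ * Fintype.card V with hτ
  have hτ0 : 0 < τ := by
    have : (0 : ℝ) < Fintype.card V := by exact_mod_cast hV
    positivity
  let bad : Finset G → Finset (V → ZMod 2) := fun T => (Cd A).filter (fun x =>
    τ ≤ |∑ v : V, sg (dotProduct (lw (T ×ˢ S) (fun p : G × G => p.1 * p.2) v) x)|)
  have h1 : ∀ T ∈ NT s k F S, ((bad T).card : ℝ) * (2 * 2 ^ F.card) ≤ (Cd A).card := by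
    intro T hT
    have h2 := cheb A (fun v : V => lw (T ×ˢ S) (fun p : G × G => p.1 * p.2) v) τ hτ0
    have h3 := hP T hT
    have h4 : ((bad T).card : ℝ) * τ ^ 2 ≤ (Cd A).card * Pb :=
      h2.trans (mul_le_mul_of_nonneg_left h3 (by positivity))
    have h5 : ((bad T).card : ℝ) * (2 * 2 ^ F.card) * τ ^ 2 ≤ (Cd A).card * τ ^ 2 := by
      calc ((bad T).card : ℝ) * (2 * 2 ^ F.card) * τ ^ 2
          = (((bad T).card : ℝ) * τ ^ 2) * (2 * 2 ^ F.card) := by ring
        _ ≤ ((Cd A).card * Pb) * (2 * 2 ^ F.card) :=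
          mul_le_mul_of_nonneg_right h4 (by positivity)
        _ = (Cd A).card * (Pb * (2 * 2 ^ F.card)) := by ring
        _ ≤ (Cd A).card * τ ^ 2 := mul_le_mul_of_nonneg_left hPb (by positivity)
    exact le_of_mul_le_mul_right h5 (by positivity)
  have hsub : Cd A ⊆ (Cd A).filter (fun x => ∀ T ∈ NT s k F S,
      |∑ v : V, sg (dotProduct (lw (T ×ˢ S) (fun p : G × G => p.1 * p.2) v) x)| < τ)
      ∪ (NT s k F S).biUnion bad := by
    intro x hx
    by_cases h : ∀ T ∈ NT s k F S,
      |∑ v : V, sg (dotProduct (lw (T ×ˢ S) (fun p : G × G => p.1 * p.2) v) x)| < τ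
    · exact Finset.mem_union_left _ (Finset.mem_filter.mpr ⟨hx, h⟩)
    · push Not at h
      obtain ⟨T, hT, h⟩ := h
      apply Finset.mem_union_right
      rw [Finset.mem_biUnion]
      exact ⟨T, hT, Finset.mem_filter.mpr ⟨hx, h⟩⟩
  have h2 : (((NT s k F S).biUnion bad).card : ℝ) * 2 ≤ (Cd A).card := by
    have h3 : (((NT s k F S).biUnion bad).card : ℝ) ≤ ∑ T ∈ NT s k F S, ((bad T).card : ℝ) := by
      exact_mod_cast Finset.card_biUnion_le
    have h4 : (∑ T ∈ NT s k F S, ((bad T).card : ℝ)) * (2 * 2 ^ F.card)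
        ≤ 2 ^ F.card * (Cd A).card := by
      rw [Finset.sum_mul]
      calc ∑ T ∈ NT s k F S, ((bad T).card : ℝ) * (2 * 2 ^ F.card)
          ≤ ∑ T ∈ NT s k F S, ((Cd A).card : ℝ) := Finset.sum_le_sum h1
        _ = (NT s k F S).card * (Cd A).card := by rw [Finset.sum_const, nsmul_eq_mul]
        _ ≤ 2 ^ F.card * (Cd A).card := by
          apply mul_le_mul_of_nonneg_right _ (by positivity)
          exact_mod_cast NT_card s k F S
    have h5 : (∑ T ∈ NT s k F S, ((bad T).card : ℝ)) * 2 * 2 ^ F.card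
        ≤ (Cd A).card * 2 ^ F.card := by linarith
    have h6 := le_of_mul_le_mul_right h5 (by positivity)
    linarith
  have h3 : ((Cd A).card : ℝ) ≤ (((Cd A).filter (fun x => ∀ T ∈ NT s k F S,
      |∑ v : V, sg (dotProduct (lw (T ×ˢ S) (fun p : G × G => p.1 * p.2) v) x)| < τ)).card : ℝ)
      + (((NT s k F S).biUnion bad).card : ℝ) := by
    exact_mod_cast (Finset.card_le_card hsub).trans (Finset.card_union_le _ _)
  linarith

omit [DecidableEq G] in
theorem triv_close (P : Finset (G × G)) (x : V → ZMod 2) (Q : Finset (G × Fin d))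
    (hQ : ∀ v : V, (∀ q ∈ Q, ∑ l ∈ Finset.range k, x ((s q.2 ^ l)⁻¹ • (q.1⁻¹ • v)) = 0) →
      ∑ p ∈ P, x ((p.1 * p.2)⁻¹ • v) = 0) :
    |(∑ v : V, sg (∑ p ∈ P, x ((p.1 * p.2)⁻¹ • v))) - Fintype.card V|
      ≤ 2 * (Q.card * ((univ : Finset (Fin d × V)).filter
        (fun q => dotProduct (cw s k q.1 q.2) x ≠ 0)).card : ℕ) := by
  classical
  set Z := (univ : Finset (Fin d × V)).filter (fun q => dotProduct (cw s k q.1 q.2) x ≠ 0) with hZ
  let W := (univ : Finset V).filter (fun v => ∑ p ∈ P, x ((p.1 * p.2)⁻¹ • v) ≠ 0)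
  have hW : W.card ≤ Q.card * Z.card := by
    have hsub : W ⊆ Q.biUnion (fun q => Z.image (fun z => q.1 • z.2)) := by
      intro v hv
      rw [Finset.mem_filter] at hv
      have h1 : ∃ q ∈ Q, ∑ l ∈ Finset.range k, x ((s q.2 ^ l)⁻¹ • (q.1⁻¹ • v)) ≠ 0 := by
        by_contra hcon
        push Not at hcon
        exact hv.2 (hQ v hcon)
      obtain ⟨q, hq, hne⟩ := h1
      rw [Finset.mem_biUnion]
      refine ⟨q, hq, ?_⟩
      rw [Finset.mem_image]
      refine ⟨(q.2, q.1⁻¹ • v), ?_, ?_⟩
      · rw [hZ, Finset.mem_filter]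
        refine ⟨Finset.mem_univ _, ?_⟩
        rw [cw_dot]; exact hne
      · simp only
        rw [smul_smul, mul_inv_cancel, one_smul]
    calc W.card ≤ _ := Finset.card_le_card hsub
      _ ≤ _ := Finset.card_biUnion_le
      _ ≤ ∑ q ∈ Q, Z.card := Finset.sum_le_sum (fun q _ => Finset.card_image_le)
      _ = _ := by rw [Finset.sum_const, smul_eq_mul]
  have h1 : (∑ v : V, sg (∑ p ∈ P, x ((p.1 * p.2)⁻¹ • v))) - Fintype.card V
      = ∑ v : V, (sg (∑ p ∈ P, x ((p.1 * p.2)⁻¹ • v)) - 1) := by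
    rw [Finset.sum_sub_distrib]; simp
  have h2 : ∀ v : V, |sg (∑ p ∈ P, x ((p.1 * p.2)⁻¹ • v)) - 1|
      = if ∑ p ∈ P, x ((p.1 * p.2)⁻¹ • v) ≠ 0 then 2 else 0 := by
    intro v
    split_ifs with h
    · rw [sg_ne h]; norm_num
    · push Not at h
      rw [h, sg_zero]; norm_num
  rw [h1]
  calc |∑ v : V, (sg (∑ p ∈ P, x ((p.1 * p.2)⁻¹ • v)) - 1)|
      ≤ ∑ v : V, |sg (∑ p ∈ P, x ((p.1 * p.2)⁻¹ • v)) - 1| := Finset.abs_sum_le_sum_abs _ _
    _ = ∑ v : V, if ∑ p ∈ P, x ((p.1 * p.2)⁻¹ • v) ≠ 0 then (2 : ℝ) else 0 :=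
        Finset.sum_congr rfl (fun v _ => h2 v)
    _ = W.card * 2 := by rw [← Finset.sum_filter, Finset.sum_const, nsmul_eq_mul]
    _ ≤ _ := by
        have : (W.card : ℝ) ≤ ((Q.card * Z.card : ℕ) : ℝ) := by exact_mod_cast hW
        linarith

end

end Pool.Agent.MP_9d0e09_an
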