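import Pool.Agent.Lib.MP_9d0e09_an.Up

/-!
# Block maps of powers of one element of infinite order
-/

open MeasureTheory Filter Topology Finset

namespace Pool.Agent.MP_9d0e09_an

section

variable {G : Type} [Group G]

/-- A linear recurrence along an orbit propagates zeros. -/
theorem zero_prop {V : Type} [MulAction G V] (g : G) (C : Finset ℕ) (D : ℕ) (hD : D ∈ C)
    (hC : ∀ c ∈ C, c ≤ D) (z : V → ZMod 2) (hz : ∀ v : V, ∑ c ∈ C, z (g ^ c • v) = 0)
    (a : V) (ha : ∀ i < D, z (g ^ i • a) = 0) : ∀ i, z (g ^ i • a) = 0 := by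
  intro i
  induction i using Nat.strong_induction_on with
  | _ i ih =>
    by_cases hi : i < D
    · exact ha i hi
    · have h1 := hz (g ^ (i - D) • a)
      rw [← Finset.add_sum_erase C _ hD] at h1
      have h2 : ∑ c ∈ C.erase D, z (g ^ c • g ^ (i - D) • a) = 0 := by
        apply Finset.sum_eq_zero
        intro c hc
        rw [Finset.mem_erase] at hc
        rw [smul_smul, ← pow_add]
        apply ih
        have := hC c hc.2
        have := hc.1
        omega
      rw [h2, add_zero, smul_smul, ← pow_add] at h1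
      have h3 : D + (i - D) = i := by omega
      rw [h3] at h1
      exact h1

theorem ker_bound {V : Type} [Fintype V] [DecidableEq V] [MulAction G V] (g : G)
    (C : Finset ℕ) (D : ℕ)
    (hD : D ∈ C) (hC : ∀ c ∈ C, c ≤ D) (L : ℕ) :
    ∃ A : ℕ, (L * A : ℕ) ≤ Fintype.card V + L * (univ.filter (fun v : V =>
        ¬ Set.InjOn (fun l : ℕ => g ^ l • v) (Finset.range L : Set ℕ))).card ∧
      ((univ : Finset (V → ZMod 2)).filter (fun x => ∀ v : V, ∑ c ∈ C, x (g ^ c • v) = 0)).card
        ≤ 2 ^ (D * A) := by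
  classical
  let σ : Equiv.Perm V := MulAction.toPerm g
  have hσ : ∀ (i : ℕ) (v : V), (σ ^ i) v = g ^ i • v := by
    intro i v
    induction i with
    | zero => simp
    | succ i ih =>
      rw [pow_succ', Equiv.Perm.mul_apply, ih, pow_succ', mul_smul]
      rfl
  let st := Equiv.Perm.SameCycle.setoid σ
  let A : Finset V := univ.image (fun c : Quotient st => c.out)
  have hA : ∀ v : V, ∃ a ∈ A, ∃ i : ℕ, v = g ^ i • a := by
    intro v
    refine ⟨(Quotient.mk st v).out, ?_, ?_⟩
    · rw [Finset.mem_image]; exact ⟨_, Finset.mem_univ _, rfl⟩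
    · have h1 : Equiv.Perm.SameCycle σ (Quotient.mk st v).out v := Quotient.mk_out (s := st) v
      obtain ⟨i, _, hi⟩ := h1.exists_pow_eq'
      exact ⟨i, hi.symm.trans (hσ i _)⟩
  have hAu : ∀ a ∈ A, ∀ a' ∈ A, Equiv.Perm.SameCycle σ a a' → a = a' := by
    intro a ha a' ha' h
    rw [Finset.mem_image] at ha ha'
    obtain ⟨c, _, rfl⟩ := ha
    obtain ⟨c', _, rfl⟩ := ha'
    have h2 : Quotient.mk st c.out = Quotient.mk st c'.out := Quotient.sound (s := st) h
    rw [Quotient.out_eq, Quotient.out_eq] at h2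
    rw [h2]
  let Sh := univ.filter (fun v : V =>
        ¬ Set.InjOn (fun l : ℕ => g ^ l • v) (Finset.range L : Set ℕ))
  refine ⟨A.card, ?_, ?_⟩
  · have h1 : (A \ Sh).card * L ≤ Fintype.card V := by
      rw [← Finset.card_range L, ← Finset.card_product]
      apply Finset.card_le_card_of_injOn (t := univ) (fun p : V × ℕ => g ^ p.2 • p.1)
      · intro p _; exact Finset.mem_coe.mpr (Finset.mem_univ _)
      · rintro ⟨a, i⟩ hp ⟨a', i'⟩ hp' h
        simp only [Finset.coe_product, Set.mem_prod, Finset.mem_coe, Finset.mem_sdiff,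
          Finset.mem_range] at hp hp'
        simp only at h
        have h2 : Equiv.Perm.SameCycle σ a a' := by
          have h3 : Equiv.Perm.SameCycle σ ((σ ^ i) a) ((σ ^ i') a') := by
            rw [hσ, hσ, h]
          exact (Equiv.Perm.sameCycle_pow_left.mp (Equiv.Perm.sameCycle_pow_right.mp h3))
        have h3 := hAu a hp.1.1 a' hp'.1.1 h2
        subst h3
        have h4 : Set.InjOn (fun l : ℕ => g ^ l • a) (Finset.range L : Set ℕ) := by
          by_contra h5
          exact hp.1.2 (Finset.mem_filter.mpr ⟨Finset.mem_univ _, h5⟩)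
        have h5 := h4 (Finset.mem_coe.mpr (Finset.mem_range.mpr hp.2))
          (Finset.mem_coe.mpr (Finset.mem_range.mpr hp'.2)) h
        rw [h5]
    have h2 : A.card ≤ (A \ Sh).card + Sh.card := by
      exact Finset.card_le_card_sdiff_add_card (s := A) (t := Sh)
    calc L * A.card ≤ L * ((A \ Sh).card + Sh.card) := Nat.mul_le_mul_left L h2
      _ = (A \ Sh).card * L + L * Sh.card := by ring
      _ ≤ _ := Nat.add_le_add_right h1 _
  · let K := (univ : Finset (V → ZMod 2)).filter (fun x => ∀ v : V, ∑ c ∈ C, x (g ^ c • v) = 0)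
    let f : K → (A × Fin D → ZMod 2) := fun x p => x.1 (g ^ (p.2 : ℕ) • p.1.1)
    have hf : Function.Injective f := by
      intro x y hxy
      apply Subtype.ext
      funext v
      obtain ⟨a, ha, i, rfl⟩ := hA v
      have hx := (Finset.mem_filter.mp x.2).2
      have hy := (Finset.mem_filter.mp y.2).2
      have h1 := zero_prop g C D hD hC (x.1 - y.1) (by
        intro v
        simp only [Pi.sub_apply, Finset.sum_sub_distrib]
        rw [hx v, hy v, sub_zero]) a (by
        intro j hj
        have := congrFun hxy (⟨a, ha⟩, ⟨j, hj⟩)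
        simp only [f] at this
        rw [Pi.sub_apply, this, sub_self]) i
      rw [Pi.sub_apply, sub_eq_zero] at h1
      exact h1
    have h1 := Fintype.card_le_of_injective f hf
    rw [Fintype.card_coe, Fintype.card_fun, Fintype.card_prod, Fintype.card_coe, Fintype.card_fin,
      ZMod.card] at h1
    rw [mul_comm D]
    exact h1

/-- Number of points with a short orbit. -/
theorem short_small (V : ℕ → Type) [∀ n, Finite (V n)] [∀ n, MulAction G (V n)]
    (hV : IsSofic G V) (g : G) (hg : Function.Injective (fun l : ℕ => g ^ l)) (L : ℕ) :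
    Tendsto (fun n => (Nat.card {v : V n // ¬ Set.InjOn (fun l : ℕ => g ^ l • v)
      (Finset.range L : Set ℕ)} : ℝ) / Nat.card (V n)) atTop (𝓝 0) := by
  classical
  have h1 := bad_small V hV ((Finset.range L).image (fun l => (g ^ l)⁻¹))
  refine squeeze_zero (fun n => by positivity) (fun n => ?_) h1
  apply div_le_div_of_nonneg_right _ (by positivity)
  have h2 : Nat.card {v : V n // ¬ Set.InjOn (fun l : ℕ => g ^ l • v) (Finset.range L : Set ℕ)}
      ≤ Nat.card {v : V n // ¬ Set.InjOn (fun g : G => g⁻¹ • v)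
        (((Finset.range L).image (fun l => (g ^ l)⁻¹) : Finset G) : Set G)} := by
    have hmem : ∀ v : {v : V n // ¬ Set.InjOn (fun l : ℕ => g ^ l • v)
        (Finset.range L : Set ℕ)}, ¬ Set.InjOn (fun g : G => g⁻¹ • v.1)
        (((Finset.range L).image (fun l => (g ^ l)⁻¹) : Finset G) : Set G) := by
      intro v hinj
      apply v.2
      intro i hi j hj hij
      have h3 : (g ^ i)⁻¹ = (g ^ j)⁻¹ := by
        apply hinj
        · rw [Finset.coe_image]; exact ⟨i, hi, rfl⟩
        · rw [Finset.coe_image]; exact ⟨j, hj, rfl⟩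
        · simp only [inv_inv]; exact hij
      exact hg (inv_injective h3)
    apply Nat.card_le_card_of_injective (fun v => (⟨v.1, hmem v⟩ : {v : V n //
      ¬ Set.InjOn (fun g : G => g⁻¹ • v)
        (((Finset.range L).image (fun l => (g ^ l)⁻¹) : Finset G) : Set G)}))
    intro v w h
    have h4 := congrArg Subtype.val h
    exact Subtype.ext h4
  exact_mod_cast h2

end

section

variable {G : Type} [Group G] [DecidableEq G] {d : ℕ} (s : Fin d → G) (k : ℕ)

theorem cyc_rate (V : ℕ → Type) [∀ n, Finite (V n)] [∀ n, Nonempty (V n)]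
    [∀ n, MulAction G (V n)] (hV : IsSofic G V) (g : G) (hg : ¬ IsOfFinOrder g)
    (J : Finset ℤ) (hJ : J.Nonempty) (ε : ℝ) (hε : 0 < ε) :
    ∀ᶠ n in atTop, exr s k (V n) - ε
      ≤ Real.log (Nat.card (blkV (J.image (fun j => g ^ j)) '' Ex s k (V n))) / Nat.card (V n) := by
  classical
  have hinjz : Function.Injective (fun j : ℤ => g ^ j) := injective_zpow_iff_not_isOfFinOrder.mpr hg
  set g' := g⁻¹ with hg'
  have hinjn : Function.Injective (fun l : ℕ => g' ^ l) := by
    intro a b h
    have h2 : g ^ (-(a : ℤ)) = g ^ (-(b : ℤ)) := by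
      simp only [hg', inv_pow] at h
      rw [zpow_neg, zpow_neg, zpow_natCast, zpow_natCast]
      exact h
    have := hinjz h2
    omega
  set m := J.min' hJ with hm
  set Mx := J.max' hJ with hMx
  let C : Finset ℕ := J.image (fun j => (j - m).toNat)
  let D : ℕ := (Mx - m).toNat
  have hmle : ∀ j ∈ J, m ≤ j := fun j hj => Finset.min'_le J j hj
  have hD : D ∈ C := Finset.mem_image_of_mem _ (Finset.max'_mem J hJ)
  have hC : ∀ c ∈ C, c ≤ D := by
    intro c hc
    rw [Finset.mem_image] at hc
    obtain ⟨j, hj, rfl⟩ := hc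
    have h1 := Finset.le_max' J j hj
    exact Int.toNat_le_toNat (by omega)
  -- the kernel
  have hker : ∀ (V : Type) [MulAction G V] (x : V → ZMod 2),
      blkV (J.image (fun j => g ^ j)) x = 0 → ∀ v : V, ∑ c ∈ C, x (g' ^ c • v) = 0 := by
    intro V _ x hx v
    have h1 := congrFun hx (g ^ m • v)
    rw [blkV, Finset.sum_image (fun a _ b _ h => hinjz h), Pi.zero_apply] at h1
    rw [Finset.sum_image]
    · rw [← h1]
      apply Finset.sum_congr rfl
      intro j hj
      congr 1
      rw [smul_smul, hg', inv_pow, ← zpow_natCast, Int.toNat_of_nonneg (by have := hmle j hj; omega),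
        ← zpow_neg, ← zpow_neg, ← zpow_add]
      congr 2
      ring
    · intro a ha b hb h
      have h2 := hmle a ha
      have h3 := hmle b hb
      have h4 : ((a - m).toNat : ℤ) = ((b - m).toNat : ℤ) := by exact_mod_cast h
      rw [Int.toNat_of_nonneg (by omega), Int.toNat_of_nonneg (by omega)] at h4
      omega
  have hlog2 : 0 < Real.log 2 := Real.log_pos (by norm_num)
  obtain ⟨L0, hL0⟩ := exists_nat_gt (D * Real.log 2 * 2 / ε)
  set L := L0 + 1 with hL
  have hLpos : 0 < L := by omega
  have hLb : D * Real.log 2 / L ≤ ε / 2 := by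
    have h1 : (L0 : ℝ) < L := by rw [hL]; push_cast; linarith
    rw [div_lt_iff₀ hε] at hL0
    rw [div_le_iff₀ (by exact_mod_cast hLpos)]
    nlinarith
  have hsh := short_small V hV g' hinjn L
  have e1 : ∀ᶠ n in atTop, D * Real.log 2 * ((Nat.card {v : V n // ¬ Set.InjOn
      (fun l : ℕ => g' ^ l • v) (Finset.range L : Set ℕ)} : ℝ) / Nat.card (V n)) < ε / 2 := by
    have h1 := hsh.const_mul (D * Real.log 2)
    rw [mul_zero] at h1
    exact h1.eventually (gt_mem_nhds (by positivity))
  filter_upwards [e1] with n h1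
  have := Fintype.ofFinite (V n)
  have hVpos : 0 < Fintype.card (V n) := Fintype.card_pos
  have hNpos : (0 : ℝ) < Fintype.card (V n) := by exact_mod_cast hVpos
  obtain ⟨A, hA1, hA2⟩ := ker_bound (V := V n) g' C D hD hC L
  obtain ⟨b, hb0, hb1, hb2⟩ := exists_basis s k (V := V n)
  have h2 := fib_count b (blkV (J.image (fun j => g ^ j)) : (V n → ZMod 2) → _) (blkV_add _)
  have h3 : ((Cd b).filter (fun x => blkV (J.image (fun j => g ^ j)) x = 0)).card ≤ 2 ^ (D * A) := by
    refine le_trans (Finset.card_le_card ?_) hA2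
    intro x hx
    rw [Finset.mem_filter] at hx ⊢
    exact ⟨Finset.mem_univ _, hker (V n) x hx.2⟩
  have hEx : Nat.card (Ex s k (V n)) = (Cd b).card := by
    rw [Nat.card_coe_set_eq, ← Set.ncard_coe_finset]
    congr 1
    ext x
    rw [mem_Ex_iff_Cd s k b hb1 hb2, Finset.mem_coe]
  have hIm : Nat.card (blkV (J.image (fun j => g ^ j)) '' Ex s k (V n))
      = ((Cd b).image (blkV (J.image (fun j => g ^ j)))).card := by
    rw [Nat.card_coe_set_eq, ← Set.ncard_coe_finset, Finset.coe_image]
    congr 2
    ext x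
    rw [mem_Ex_iff_Cd s k b hb1 hb2, Finset.mem_coe]
  rw [hIm]
  set im := ((Cd b).image (blkV (J.image (fun j => g ^ j)) : (V n → ZMod 2) → _)).card with him
  have h0 : (0 : V n → ZMod 2) ∈ Cd b := by
    rw [mem_Cd]; intro β _; simp
  have hcdpos : 0 < (Cd b).card := Finset.card_pos.mpr ⟨0, h0⟩
  have himpos : 0 < im := Finset.card_pos.mpr ⟨_, Finset.mem_image_of_mem _ h0⟩
  have h4 : (Cd b).card ≤ 2 ^ (D * A) * im := by
    rw [h2]; exact Nat.mul_le_mul_right _ h3
  have h5 : Real.log (Cd b).card ≤ (D * A) * Real.log 2 + Real.log im := by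
    have h6 : Real.log (Cd b).card ≤ Real.log ((2 ^ (D * A) * im : ℕ) : ℝ) := by
      apply Real.log_le_log (by exact_mod_cast hcdpos)
      exact_mod_cast h4
    rw [Nat.cast_mul, Nat.cast_pow, Real.log_mul (by positivity) (by positivity), Real.log_pow] at h6
    push_cast at h6
    exact h6
  have h6 : (A : ℝ) ≤ Fintype.card (V n) / L + (Nat.card {v : V n // ¬ Set.InjOn
      (fun l : ℕ => g' ^ l • v) (Finset.range L : Set ℕ)} : ℝ) := by
    have h7 : ((L * A : ℕ) : ℝ) ≤ ((Fintype.card (V n) + L * (univ.filter (fun v : V n =>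
        ¬ Set.InjOn (fun l : ℕ => g' ^ l • v) (Finset.range L : Set ℕ))).card : ℕ) : ℝ) := by
      exact_mod_cast hA1
    push_cast at h7
    rw [Nat.card_eq_fintype_card, Fintype.card_subtype]
    have hLp : (0 : ℝ) < L := by exact_mod_cast hLpos
    rw [← sub_nonneg]
    have h8 : (Fintype.card (V n) : ℝ) / L * L = Fintype.card (V n) := by field_simp
    by_contra hcon
    push Not at hcon
    have h9 := mul_neg_of_neg_of_pos hcon hLp
    rw [sub_mul, add_mul, h8] at h9
    push_cast [hL] at h7 h9 hLp ⊢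
    nlinarith
  rw [exr, hEx, Nat.card_eq_fintype_card, le_div_iff₀ hNpos, sub_mul, div_mul_cancel₀ _ hNpos.ne']
  rw [Nat.card_eq_fintype_card (α := V n)] at h1
  set sh : ℝ := (Nat.card {v : V n // ¬ Set.InjOn
      (fun l : ℕ => g' ^ l • v) (Finset.range L : Set ℕ)} : ℝ) with hshd
  have h7 : D * Real.log 2 * (sh / Fintype.card (V n)) * Fintype.card (V n)
      ≤ ε / 2 * Fintype.card (V n) := mul_le_mul_of_nonneg_right h1.le hNpos.le
  have h8 : D * Real.log 2 * (sh / Fintype.card (V n)) * Fintype.card (V n)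
      = D * Real.log 2 * sh := by field_simp
  have h9 : D * Real.log 2 / L * Fintype.card (V n) ≤ ε / 2 * Fintype.card (V n) :=
    mul_le_mul_of_nonneg_right hLb hNpos.le
  have h10 : (D * A : ℝ) * Real.log 2 ≤ D * Real.log 2 * (Fintype.card (V n) / L + sh) := by
    calc (D * A : ℝ) * Real.log 2 = D * Real.log 2 * A := by ring
      _ ≤ _ := mul_le_mul_of_nonneg_left h6 (by positivity)
  have h11 : D * Real.log 2 * (Fintype.card (V n) / L + sh)
      = D * Real.log 2 / L * Fintype.card (V n) + D * Real.log 2 * sh := by ring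
  linarith

end

end Pool.Agent.MP_9d0e09_an
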