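import Pool.Agent.Lib.MP_9d0e09_an.Chk

/-!
# Sofic entropy of symbolic systems
-/

open MeasureTheory Filter Topology

namespace Pool.Agent.MP_9d0e09_an

/-- `μ` is the Haar probability measure of the closed subgroup `X` of `(Z/2)^G`, seen as a
measure on `(Z/2)^G`: a probability measure with no mass off `X`, invariant under all
translations by elements of `X`. -/
structure IsHaarOn {G : Type} (X : Set (G → ZMod 2)) (μ : Measure (G → ZMod 2)) : Prop where
  prob : IsProbabilityMeasure μ
  supp : μ Xᶜ = 0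
  inv : ∀ x ∈ X, μ.map (fun y => x + y) = μ

/-- The finite `G`-sets `V n` form a sofic approximation to `G`. -/
def IsSofic (G : Type) [Group G] (V : ℕ → Type) [∀ n, MulAction G (V n)] : Prop :=
  ∀ g : G, g ≠ 1 →
    Tendsto (fun n => (Nat.card {v : V n // g • v = v} : ℝ) / Nat.card (V n)) atTop (𝓝 0)

/-- Fraction of the points `v` whose name `g ↦ x (g⁻¹ v)` agrees with `a` on `F`. -/
noncomputable def emp {G A : Type} [Group G] (V : Type) [MulAction G V] (F : Finset G)
    (x : V → A) (a : G → A) : ℝ :=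
  (Nat.card {v : V // ∀ g ∈ F, x (g⁻¹ • v) = a g} : ℝ) / Nat.card V

/-- Microstates: the statistics of the names on `F` are `δ`-close to the `F`-marginal of `μ`. -/
def Mic {G A : Type} [Group G] [MeasurableSpace A] (μ : Measure (G → A)) (V : Type)
    [MulAction G V] (F : Finset G) (δ : ℝ) : Set (V → A) :=
  {x | ∀ a : G → A, |emp V F x a - μ.real {y | ∀ g ∈ F, y g = a g}| < δ}

/-- Exponential rate `(1/|V|) log |S|`, with `log 0 = -∞`. -/
noncomputable def rate {V A : Type} (S : Set (V → A)) : EReal :=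
  if S = ∅ then ⊥ else ((Real.log (Nat.card S) / Nat.card V : ℝ) : EReal)

/-- Sofic entropy of the shift system `(A^G, μ)` along `V`. -/
noncomputable def soficEntropy {G A : Type} [Group G] [MeasurableSpace A] (μ : Measure (G → A))
    (V : ℕ → Type) [∀ n, MulAction G (V n)] : EReal :=
  ⨅ F : Finset G, ⨅ δ : {δ : ℝ // 0 < δ},
    limsup (fun n => rate (Mic μ (V n) F δ)) atTop

/-- The version of sofic entropy with the lower limit. -/
noncomputable def lowerSoficEntropy {G A : Type} [Group G] [MeasurableSpace A]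
    (μ : Measure (G → A)) (V : ℕ → Type) [∀ n, MulAction G (V n)] : EReal :=
  ⨅ F : Finset G, ⨅ δ : {δ : ℝ // 0 < δ},
    liminf (fun n => rate (Mic μ (V n) F δ)) atTop

/-- The block map of a finite set `S`: `x ↦ (g ↦ ∑ h ∈ S, x (g h))`. -/
def blk {G : Type} [Group G] (S : Finset G) (x : G → ZMod 2) : G → ZMod 2 :=
  fun g => ∑ h ∈ S, x (g * h)

/-- The same block map on a `G`-set. -/
def blkV {G : Type} [Group G] {V : Type} [MulAction G V] (S : Finset G) (x : V → ZMod 2) :
    V → ZMod 2 :=
  fun v => ∑ h ∈ S, x (h⁻¹ • v)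

/-- The block code of a map `φ` of the patterns on a finite window `F₀`:
`x ↦ (g ↦ φ (h ↦ x (g h)))`. -/
def code {G A : Type} [Group G] (F₀ : Finset G) (φ : (F₀ → ZMod 2) → A) (x : G → ZMod 2) :
    G → A :=
  fun g => φ (fun h => x (g * h))

/-- The same block code on a `G`-set. -/
def codeV {G A V : Type} [Group G] [MulAction G V] (F₀ : Finset G) (φ : (F₀ → ZMod 2) → A)
    (x : V → ZMod 2) : V → A :=
  fun v => φ (fun h => x ((h : G)⁻¹ • v))

end Pool.Agent.MP_9d0e09_an
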