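import Pool.Agent.Lib.MP_9d0e09_an.Sml2

/-!
# Approximation of measurable maps by block maps
-/

open MeasureTheory Filter Topology Finset

open scoped symmDiff

namespace Pool.Agent.MP_9d0e09_an

/-- Measurable maps to a finite set agree with a block map up to small measure. -/
theorem dens {G A B : Type} [MeasurableSpace A] [MeasurableSpace B] [MeasurableSingletonClass B]
    [Finite B] [Nonempty B] (ν : Measure (G → A)) [IsFiniteMeasure ν] (ψ : (G → A) → B)
    (hψ : Measurable ψ) (η : ℝ) (hη : 0 < η) :
    ∃ (W : Finset G) (θ : (W → A) → B), ν.real {y | ψ y ≠ θ (fun w => y w)} < η := by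
  classical
  have := Fintype.ofFinite B
  have hc : (0 : ℝ) < Fintype.card B + 1 := by positivity
  have h1 : ∀ b : B, ∃ t ∈ measurableCylinders (fun _ : G => A),
      ν (t ∆ (ψ ⁻¹' {b})) < ENNReal.ofReal (η / (Fintype.card B + 1)) := by
    intro b
    refine exists_measure_symmDiff_lt_of_generateFrom_isSetRing isSetRing_measurableCylinders
      ⟨{Set.univ}, Set.countable_singleton _, ?_, ?_⟩ generateFrom_measurableCylinders.symm
      (hψ (MeasurableSet.singleton b)) ?_
    · rw [Set.singleton_subset_iff]
      exact univ_mem_measurableCylinders _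
    · simp
    · rw [ENNReal.ofReal_pos]
      positivity
  choose t ht hμt using h1
  have h2 : ∀ b : B, ∃ (s : Finset G) (S : Set (∀ _ : s, A)), t b = cylinder s S := by
    intro b
    obtain ⟨s, S, _, h⟩ := (mem_measurableCylinders _).mp (ht b)
    exact ⟨s, S, h⟩
  choose s S hsS using h2
  let W : Finset G := univ.biUnion s
  have hW : ∀ b, ∀ g ∈ s b, g ∈ W := fun b g hg => Finset.mem_biUnion.mpr ⟨b, Finset.mem_univ _, hg⟩
  let P : (W → A) → B → Prop := fun z b => (fun i : s b => z ⟨i, hW b i i.2⟩) ∈ S b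
  refine ⟨W, fun z => if h : ∃ b, P z b then h.choose else Classical.arbitrary B, ?_⟩
  have hP : ∀ (y : G → A) (b : B), P (fun w => y w) b ↔ y ∈ t b := by
    intro y b
    rw [hsS b, mem_cylinder]
    rfl
  have hsub : {y : G → A | ψ y ≠ (if h : ∃ b, P (fun w => y w) b then h.choose
      else Classical.arbitrary B)} ⊆ ⋃ b : B, t b ∆ (ψ ⁻¹' {b}) := by
    intro y hy
    by_contra hcon
    rw [Set.mem_iUnion] at hcon
    push Not at hcon
    apply hy
    have h3 : ∀ b, y ∈ t b ↔ ψ y = b := by
      intro b
      have h4 := hcon b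
      rw [Set.mem_symmDiff] at h4
      push Not at h4
      constructor
      · intro h5
        exact h4.1 h5
      · intro h5
        exact h4.2 h5
    have h6 : ∃ b, P (fun w => y w) b := ⟨ψ y, (hP y _).mpr ((h3 _).mpr rfl)⟩
    rw [dif_pos h6]
    exact (h3 _).mp ((hP y _).mp h6.choose_spec)
  have h3 : ν (⋃ b : B, t b ∆ (ψ ⁻¹' {b}))
      ≤ ENNReal.ofReal (Fintype.card B * (η / (Fintype.card B + 1))) := by
    refine (measure_iUnion_fintype_le ν _).trans ?_
    calc ∑ b : B, ν (t b ∆ (ψ ⁻¹' {b}))
        ≤ ∑ b : B, ENNReal.ofReal (η / (Fintype.card B + 1)) :=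
          Finset.sum_le_sum (fun b _ => (hμt b).le)
      _ = ENNReal.ofReal (Fintype.card B * (η / (Fintype.card B + 1))) := by
          rw [Finset.sum_const, Finset.card_univ, nsmul_eq_mul, ENNReal.ofReal_mul (by positivity),
            ENNReal.ofReal_natCast]
  have h4 : ν.real {y : G → A | ψ y ≠ (if h : ∃ b, P (fun w => y w) b then h.choose
      else Classical.arbitrary B)} ≤ Fintype.card B * (η / (Fintype.card B + 1)) := by
    rw [Measure.real]
    apply ENNReal.toReal_le_of_le_ofReal (by positivity)
    exact (measure_mono hsub).trans h3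
  refine lt_of_le_of_lt h4 ?_
  rw [mul_div_assoc', div_lt_iff₀ hc]
  nlinarith

end Pool.Agent.MP_9d0e09_an
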