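import Pool.Agent.Lib.MP_9d0e09_an.Gen2

/-!
# Block codes: the bound by the cross entropy and by the Shannon entropy
-/

open MeasureTheory Filter Topology Finset

namespace Pool.Agent.MP_9d0e09_an

section

variable {V : Type} [Fintype V] [DecidableEq V]

open Classical in
/-- Fibres of a block code on a finite `G`-set, with weights. -/
theorem code_fiber_w {G : Type} [Group G] [MulAction G V] {A : Type} (F₀ : Finset G)
    (hF₀ : F₀.Nonempty) (φ : (F₀ → ZMod 2) → A) (w : A → ℝ) (hw0 : ∀ a, 0 < w a)
    (hw : ∀ a : A, (((univ : Finset (F₀ → ZMod 2)).filter (fun z => φ z = a)).card : ℝ)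
      ≤ w a * 2 ^ F₀.card) (K : ℝ) (hK : ∀ a, - Real.log (w a) ≤ K) (y : V → A) :
    (((univ : Finset (V → ZMod 2)).filter (fun x => codeV F₀ φ x = y)).card : ℝ)
      ≤ 2 ^ Fintype.card V * Real.exp ((1 / (F₀.card : ℝ)) * (∑ v, Real.log (w (y v))
        + K * ((univ : Finset V).filter
        (fun v => ¬ Set.InjOn (fun g : G => g⁻¹ • v) (F₀ : Set G))).card)) := by
  set m := F₀.card with hm
  have hm0 : 0 < m := Finset.card_pos.mpr hF₀
  have hmR : (0 : ℝ) < m := by exact_mod_cast hm0
  have hm1 : (1 / (m : ℝ)) ≠ 0 := by positivity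
  let g : V → (V → ZMod 2) → ℝ := fun v x =>
    if φ (fun h : F₀ => x ((h : G)⁻¹ • v)) = y v then 1 else 0
  have hg0 : ∀ v x, 0 ≤ g v x := by
    intro v x; simp only [g]; split_ifs <;> norm_num
  have hinv : ∀ u v, (∀ h ∈ F₀, u ≠ h⁻¹ • v) → ∀ x, g v (x + Pi.single u 1) = g v x := by
    intro u v h x
    simp only [g]
    have h1 : (fun h' : F₀ => (x + (Pi.single u 1 : V → ZMod 2)) ((h' : G)⁻¹ • v))
        = fun h' : F₀ => x ((h' : G)⁻¹ • v) := by
      funext h'
      rw [Pi.add_apply, Pi.single_eq_of_ne (Ne.symm (h h' h'.2)), add_zero]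
    rw [h1]
  have hcount : ∀ u, (univ.filter (fun v => ¬ ∀ x, g v (x + Pi.single u 1) = g v x)).card ≤ m := by
    intro u
    have hsub : univ.filter (fun v => ¬ ∀ x, g v (x + Pi.single u 1) = g v x)
        ⊆ F₀.image (fun h => h • u) := by
      intro v hv
      rw [Finset.mem_filter] at hv
      by_contra hcon
      apply hv.2
      apply hinv u v
      intro h hh he
      apply hcon
      rw [Finset.mem_image]
      exact ⟨h, hh, by rw [he, smul_smul, mul_inv_cancel, one_smul]⟩
    exact (Finset.card_le_card hsub).trans Finset.card_image_le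
  have hfin := finner m hm0 (univ : Finset V) g hg0
    (fun i u hu => absurd (Finset.mem_univ u) hu) hcount
  have hL : ∑ x : V → ZMod 2, ∏ v, (g v x) ^ (1 / (m : ℝ))
      = (((univ : Finset (V → ZMod 2)).filter (fun x => codeV F₀ φ x = y)).card : ℝ) := by
    have h1 : ∀ x : V → ZMod 2, ∏ v, (g v x) ^ (1 / (m : ℝ))
        = if codeV F₀ φ x = y then (1 : ℝ) else 0 := by
      intro x
      split_ifs with h
      · apply Finset.prod_eq_one
        intro v _
        have h2 : g v x = 1 := by
          simp only [g]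
          rw [if_pos]
          exact congrFun h v
        rw [h2, Real.one_rpow]
      · have h3 : ∃ v, codeV F₀ φ x v ≠ y v := by
          by_contra hcon
          push Not at hcon
          exact h (funext hcon)
        obtain ⟨v, hv⟩ := h3
        apply Finset.prod_eq_zero (Finset.mem_univ v)
        have h2 : g v x = 0 := by
          simp only [g]
          rw [if_neg]
          exact hv
        rw [h2, Real.zero_rpow hm1]
    rw [Finset.sum_congr rfl (fun x _ => h1 x), Finset.sum_boole]
  rw [hL] at hfin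
  refine hfin.trans ?_
  apply mul_le_mul_of_nonneg_left _ (by positivity)
  set Bd := (univ : Finset V).filter
        (fun v => ¬ Set.InjOn (fun g : G => g⁻¹ • v) (F₀ : Set G)) with hBd
  have hgood : ∀ v, v ∉ Bd → (∑ x : V → ZMod 2, g v x) / 2 ^ Fintype.card V ≤ w (y v) := by
    intro v hv
    have hinj : Set.InjOn (fun g : G => g⁻¹ • v) (F₀ : Set G) := by
      by_contra h
      exact hv (Finset.mem_filter.mpr ⟨Finset.mem_univ _, h⟩)
    have hθ : Function.Injective (fun h : F₀ => (h : G)⁻¹ • v) := by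
      intro a b hab
      exact Subtype.ext (hinj a.2 b.2 hab)
    have h1 := window_count (fun h : F₀ => (h : G)⁻¹ • v) hθ
      ((univ : Finset (F₀ → ZMod 2)).filter (fun z => φ z = y v))
    rw [Fintype.card_coe] at h1
    have h2 : ∑ x : V → ZMod 2, g v x
        = (((univ : Finset (V → ZMod 2)).filter (fun x => (fun h : F₀ => x ((h : G)⁻¹ • v))
          ∈ (univ : Finset (F₀ → ZMod 2)).filter (fun z => φ z = y v))).card : ℝ) := by
      simp only [g]
      rw [Finset.sum_boole]
      congr 2
      ext x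
      simp
    rw [h2, div_le_iff₀ (by positivity)]
    have h3 := (Nat.cast_inj (R := ℝ)).mpr h1
    rw [Nat.cast_mul, Nat.cast_mul, Nat.cast_pow, Nat.cast_pow, Nat.cast_ofNat] at h3
    have h4 := hw (y v)
    have h5 : (0 : ℝ) < 2 ^ m := by positivity
    have h6 : (((univ : Finset (V → ZMod 2)).filter (fun x => (fun h : F₀ => x ((h : G)⁻¹ • v))
          ∈ (univ : Finset (F₀ → ZMod 2)).filter (fun z => φ z = y v))).card : ℝ) * 2 ^ m
        ≤ (w (y v) * 2 ^ Fintype.card V) * 2 ^ m := by
      rw [h3]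
      calc _ ≤ (w (y v) * 2 ^ m) * 2 ^ Fintype.card V :=
            mul_le_mul_of_nonneg_right h4 (by positivity)
        _ = _ := by ring
    exact le_of_mul_le_mul_right h6 h5
  have hall : ∀ v, (∑ x : V → ZMod 2, g v x) / 2 ^ Fintype.card V ≤ 1 := by
    intro v
    rw [div_le_one (by positivity)]
    calc ∑ x : V → ZMod 2, g v x ≤ ∑ x : V → ZMod 2, (1 : ℝ) := by
          apply Finset.sum_le_sum
          intro x _
          simp only [g]
          split_ifs <;> norm_num
      _ = 2 ^ Fintype.card V := by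
        rw [Finset.sum_const, Finset.card_univ, Fintype.card_fun, ZMod.card, nsmul_eq_mul, mul_one]
        push_cast; rfl
  have hnn : ∀ v, 0 ≤ (∑ x : V → ZMod 2, g v x) / 2 ^ Fintype.card V := by
    intro v
    apply div_nonneg _ (by positivity)
    exact Finset.sum_nonneg (fun x _ => hg0 v x)
  have h7 : ∏ v, ((∑ x : V → ZMod 2, g v x) / 2 ^ Fintype.card V) ^ (1 / (m : ℝ))
      ≤ ∏ v : V, Real.exp ((1 / (m : ℝ)) * (Real.log (w (y v)) + (if v ∈ Bd then K else 0))) := by
    apply Finset.prod_le_prod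
    · intro v _
      exact Real.rpow_nonneg (hnn v) _
    · intro v _
      split_ifs with h
      · refine (Real.rpow_le_one (hnn v) (hall v) (by positivity)).trans ?_
        rw [← Real.exp_zero]
        apply Real.exp_le_exp.mpr
        apply mul_nonneg (by positivity)
        have := hK (y v)
        linarith
      · refine (Real.rpow_le_rpow (hnn v) (hgood v h) (by positivity)).trans ?_
        rw [Real.rpow_def_of_pos (hw0 _), add_zero, mul_comm]
  refine h7.trans (le_of_eq ?_)
  rw [← Real.exp_sum]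
  congr 1
  rw [← Finset.mul_sum, Finset.sum_add_distrib]
  congr 2
  rw [Finset.sum_ite_mem, Finset.univ_inter, Finset.sum_const, nsmul_eq_mul, mul_comm]

end

section

variable {G : Type} [Group G] {d : ℕ} (s : Fin d → G) (k : ℕ)
variable (V : ℕ → Type) [∀ n, Finite (V n)] [∀ n, Nonempty (V n)] [∀ n, MulAction G (V n)]

theorem lower_code_w [Infinite G] [Nonempty (Fin d)] (hk : 0 < k) (hs : ∀ i, s i ^ k = 1)
    (hinj : ∀ i, Set.InjOn (fun l : ℕ => s i ^ l) (Finset.range k : Set ℕ))
    (μ : Measure (G → ZMod 2)) (hμ : IsHaarOn (PX s k) μ)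
    (hV : IsSofic G V) (hr : DesignRate s k V)
    {A : Type} [Fintype A] [MeasurableSpace A] [MeasurableSingletonClass A]
    (F₀ : Finset G) (hF₀ : F₀.Nonempty) (φ : (F₀ → ZMod 2) → A) (w : A → ℝ)
    (hw0 : ∀ a, 0 < w a)
    (hw : ∀ a : A, (Nat.card {z : F₀ → ZMod 2 // φ z = a} : ℝ) ≤ w a * 2 ^ F₀.card) :
    (((∑ a, (μ.map (code F₀ φ)).real {y | y 1 = a} * (- Real.log (w a))) / F₀.card
        - (d : ℝ) / k * Real.log 2 : ℝ) : EReal)
      ≤ lowerSoficEntropy (μ.map (code F₀ φ)) V := by
  classical
  have := hμ.prob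
  have hex := exr_tendsto s k V hk hs hinj hV hr
  have hblk : blk ({1} : Finset G) = id := by
    funext x g
    simp [blk]
  set m := F₀.card with hm
  have hm0 : (0 : ℝ) < m := by exact_mod_cast Finset.card_pos.mpr hF₀
  have hw' : ∀ a : A, (((univ : Finset (F₀ → ZMod 2)).filter (fun z => φ z = a)).card : ℝ)
      ≤ w a * 2 ^ F₀.card := by
    intro a
    have h := hw a
    rw [Nat.card_eq_fintype_card, Fintype.card_subtype] at h
    exact h
  set K : ℝ := ∑ a, |Real.log (w a)| with hK
  have hKa : ∀ a, |Real.log (w a)| ≤ K := by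
    intro a
    exact Finset.single_le_sum (f := fun a => |Real.log (w a)|) (fun a _ => abs_nonneg _)
      (Finset.mem_univ a)
  have hK0 : 0 ≤ K := Finset.sum_nonneg (fun a _ => abs_nonneg _)
  have hKn : ∀ a, - Real.log (w a) ≤ K := fun a => (neg_le_abs _).trans (hKa a)
  set H : ℝ := ∑ a, (μ.map (code F₀ φ)).real {y | y 1 = a} * (- Real.log (w a)) with hH
  rw [lowerSoficEntropy]
  apply le_iInf
  intro F
  apply le_iInf
  rintro ⟨δ, hδ⟩
  rw [← EReal.ge_of_forall_gt_iff_ge]
  intro z hz
  set c : ℝ := H / m - (d : ℝ) / k * Real.log 2 with hc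
  have hz' : z < c := by exact_mod_cast hz
  refine le_liminf_of_le (by isBoundedDefault) ?_
  let F' : Finset G := ((insert 1 F) ×ˢ F₀).image (fun p : G × G => p.1 * p.2)
  have hF' : ∀ g ∈ F, ∀ h ∈ F₀, g * h ∈ F' := by
    intro g hg h hh
    exact Finset.mem_image.mpr ⟨(g, h), Finset.mk_mem_product (Finset.mem_insert_of_mem hg) hh,
      rfl⟩
  have hF1 : ∀ g ∈ ({1} : Finset G), ∀ h ∈ F₀, g * h ∈ F' := by
    intro g hg h hh
    rw [Finset.mem_singleton] at hg
    subst hg
    exact Finset.mem_image.mpr ⟨(1, h), Finset.mk_mem_product (Finset.mem_insert_self _ _) hh,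
      rfl⟩
  have h2F : (0 : ℝ) < 2 ^ F'.card := by positivity
  -- the tolerance for the frequencies
  set δ₃ : ℝ := (c - z) * m / (2 * (Fintype.card A * K + 1)) with hδ₃
  have hden : 0 < 2 * (Fintype.card A * K + 1) := by positivity
  have hδ₃0 : 0 < δ₃ := by
    rw [hδ₃]
    apply div_pos _ hden
    apply mul_pos _ hm0
    linarith
  have hδ₃b : 1 / (m : ℝ) * (δ₃ * (Fintype.card A * K)) ≤ (c - z) / 2 := by
    have e1 : δ₃ * (Fintype.card A * K + 1) = (c - z) * m / 2 := by
      rw [hδ₃]
      field_simp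
    have e2 : δ₃ * (Fintype.card A * K) ≤ (c - z) * m / 2 := by
      rw [← e1]
      apply mul_le_mul_of_nonneg_left _ hδ₃0.le
      linarith
    calc 1 / (m : ℝ) * (δ₃ * (Fintype.card A * K)) ≤ 1 / (m : ℝ) * ((c - z) * m / 2) :=
          mul_le_mul_of_nonneg_left e2 (by positivity)
      _ = (c - z) / 2 := by field_simp
  set δ' : ℝ := min δ δ₃ / 2 ^ F'.card with hδ'def
  have hδ' : 0 < δ' := by
    rw [hδ'def]
    exact div_pos (lt_min hδ hδ₃0) h2F
  have hδ'1 : 2 ^ F'.card * δ' ≤ δ := by
    rw [hδ'def, mul_div_cancel₀ _ h2F.ne']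
    exact min_le_left _ _
  have hδ'3 : 2 ^ F'.card * δ' ≤ δ₃ := by
    rw [hδ'def, mul_div_cancel₀ _ h2F.ne']
    exact min_le_right _ _
  have h1 := low_ev s k hk hs hinj μ hμ V hV hex F' {1} δ' hδ'
  have h3 := (card_large V hV).const_div_atTop (Real.log 2)
  have h4 := bad_small V hV F₀
  have h5 : Tendsto (fun n => exr s k (V n) - Real.log 2 / Nat.card (V n) - Real.log 2
      + H / m - K / m * ((Nat.card {v : V n // ¬ Set.InjOn (fun g : G => g⁻¹ • v)
        (F₀ : Set G)} : ℝ) / Nat.card (V n))) atTop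
      (𝓝 ((1 - (d : ℝ) / k) * Real.log 2 - 0 - Real.log 2 + H / m - K / m * 0)) := by
    apply Tendsto.sub
    · apply Tendsto.add_const
      apply Tendsto.sub
      · exact hex.sub h3
      · exact tendsto_const_nhds
    · apply Tendsto.const_mul
      exact h4
  have h6 : (1 - (d : ℝ) / k) * Real.log 2 - 0 - Real.log 2 + H / m - K / m * 0 = c := by
    rw [hc]; ring
  rw [h6] at h5
  filter_upwards [h1, h5.eventually (lt_mem_nhds (show (c + z) / 2 < c by linarith))] with n e1 e5
  have := Fintype.ofFinite (V n)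
  have hVpos : 0 < Fintype.card (V n) := Fintype.card_pos
  have hNpos : (0 : ℝ) < Fintype.card (V n) := by exact_mod_cast hVpos
  have hblkV : (blkV ({1} : Finset G) : (V n → ZMod 2) → _) = id := by
    funext x v
    simp [blkV]
  rw [hblk, Measure.map_id, hblkV, Set.image_id] at e1
  set M1 := Mic μ (V n) F' δ' with hM1
  set M2 := Mic (μ.map (code F₀ φ)) (V n) F δ with hM2
  have hpush : ∀ x ∈ M1, codeV F₀ φ x ∈ M2 := by
    intro x hx
    exact push_mic μ F₀ F F' hF' φ δ δ' hδ hδ'1 x hx
  have hpush3 : ∀ x ∈ M1, codeV F₀ φ x ∈ Mic (μ.map (code F₀ φ)) (V n) {1} δ₃ := by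
    intro x hx
    exact push_mic μ F₀ {1} F' hF1 φ δ₃ δ' hδ₃0 hδ'3 x hx
  have hExpos : (0 : ℝ) < Nat.card (Ex s k (V n)) := by
    have : Nonempty (Ex s k (V n)) := ⟨⟨0, by intro v g i; simp⟩⟩
    exact_mod_cast Nat.card_pos
  have hM1pos : (0 : ℝ) < Nat.card M1 := by linarith
  set N : ℝ := (Fintype.card (V n) : ℝ) with hN
  set bd : ℝ := (Nat.card {v : V n // ¬ Set.InjOn (fun g : G => g⁻¹ • v) (F₀ : Set G)} : ℝ)
      with hbd
  have hlogs : ∀ y ∈ Mic (μ.map (code F₀ φ)) (V n) {1} δ₃,
      ∑ v, Real.log (w (y v)) ≤ N * (- H + δ₃ * (Fintype.card A * K)) := by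
    intro y hy
    have e6 : ∑ v, Real.log (w (y v))
        = ∑ a : A, ((univ.filter (fun v => y v = a)).card : ℝ) * Real.log (w a) := by
      rw [← Finset.sum_fiberwise univ y (fun v => Real.log (w (y v)))]
      apply Finset.sum_congr rfl
      intro a _
      rw [Finset.sum_congr rfl (g := fun _ => Real.log (w a))
        (fun v hv => by rw [(Finset.mem_filter.mp hv).2]), Finset.sum_const, nsmul_eq_mul]
    rw [e6]
    have e7 : ∀ a : A, ((univ.filter (fun v => y v = a)).card : ℝ) * Real.log (w a)
        ≤ N * (- ((μ.map (code F₀ φ)).real {y | y 1 = a} * (- Real.log (w a))) + δ₃ * K) := by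
      intro a
      have e8 := hy (fun _ => a)
      have e9 : {y : G → A | ∀ g ∈ ({1} : Finset G), y g = a} = {y | y 1 = a} := by
        ext y; simp
      have e10 : emp (V n) ({1} : Finset G) y (fun _ => a)
          = ((univ.filter (fun v => y v = a)).card : ℝ) / N := by
        rw [emp, Nat.card_eq_fintype_card (α := V n), Nat.card_eq_fintype_card,
          Fintype.card_subtype]
        congr 3
        ext v
        simp
      rw [e10] at e8
      have e11 : |((univ.filter (fun v => y v = a)).card : ℝ) / N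
          - (μ.map (code F₀ φ)).real {y | y 1 = a}| < δ₃ := by
        rw [← e9]; exact e8
      set ν : ℝ := (μ.map (code F₀ φ)).real {y | y 1 = a} with hν
      set Na : ℝ := ((univ.filter (fun v => y v = a)).card : ℝ) with hNa
      have e12 : Na * Real.log (w a) = N * (ν * Real.log (w a) + (Na / N - ν) * Real.log (w a)) := by
        field_simp
        ring
      have e13 : (Na / N - ν) * Real.log (w a) ≤ δ₃ * K := by
        calc (Na / N - ν) * Real.log (w a) ≤ |(Na / N - ν) * Real.log (w a)| := le_abs_self _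
          _ = |Na / N - ν| * |Real.log (w a)| := abs_mul _ _
          _ ≤ δ₃ * K := mul_le_mul e11.le (hKa a) (abs_nonneg _) hδ₃0.le
      rw [e12]
      apply mul_le_mul_of_nonneg_left _ hNpos.le
      linarith
    calc ∑ a : A, ((univ.filter (fun v => y v = a)).card : ℝ) * Real.log (w a)
        ≤ ∑ a : A, N * (- ((μ.map (code F₀ φ)).real {y | y 1 = a} * (- Real.log (w a)))
          + δ₃ * K) := Finset.sum_le_sum (fun a _ => e7 a)
      _ = N * (- H + δ₃ * (Fintype.card A * K)) := by
        rw [← Finset.mul_sum, Finset.sum_add_distrib, Finset.sum_neg_distrib, Finset.sum_const,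
          Finset.card_univ, nsmul_eq_mul, hH]
        ring
  set B : ℝ := 2 ^ Fintype.card (V n) * Real.exp ((1 / (m : ℝ))
    * (N * (- H + δ₃ * (Fintype.card A * K)) + K * bd)) with hB
  have hBpos : 0 < B := by
    have := Real.exp_pos ((1 / (m : ℝ)) * (N * (- H + δ₃ * (Fintype.card A * K)) + K * bd))
    positivity
  have hfib : ∀ y ∈ Mic (μ.map (code F₀ φ)) (V n) {1} δ₃,
      (((univ : Finset (V n → ZMod 2)).filter (fun x => codeV F₀ φ x = y)).card : ℝ) ≤ B := by
    intro y hy
    have h := code_fiber_w F₀ hF₀ φ w hw0 hw' K hKn y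
    refine h.trans ?_
    rw [hB]
    apply mul_le_mul_of_nonneg_left _ (by positivity)
    apply Real.exp_le_exp.mpr
    apply mul_le_mul_of_nonneg_left _ (by positivity)
    have e14 : (((univ : Finset (V n)).filter
        (fun v => ¬ Set.InjOn (fun g : G => g⁻¹ • v) (F₀ : Set G))).card : ℝ) = bd := by
      rw [hbd, Nat.card_eq_fintype_card, Fintype.card_subtype]
    rw [e14]
    have := hlogs y hy
    linarith
  have hM12 : (Nat.card M1 : ℝ) ≤ Nat.card M2 * B := by
    have hc1 : Nat.card M1 = M1.toFinset.card := by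
      rw [Nat.card_coe_set_eq, Set.ncard_eq_toFinset_card']
    have hc2 : Nat.card M2 = M2.toFinset.card := by
      rw [Nat.card_coe_set_eq, Set.ncard_eq_toFinset_card']
    rw [hc1, hc2]
    have h7 : (M1.toFinset.card : ℝ)
        = ∑ y ∈ M1.toFinset.image (codeV F₀ φ),
          ((M1.toFinset.filter (fun x => codeV F₀ φ x = y)).card : ℝ) := by
      exact_mod_cast Finset.card_eq_sum_card_image (codeV F₀ φ) M1.toFinset
    rw [h7]
    calc ∑ y ∈ M1.toFinset.image (codeV F₀ φ),
          ((M1.toFinset.filter (fun x => codeV F₀ φ x = y)).card : ℝ)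
        ≤ ∑ y ∈ M1.toFinset.image (codeV F₀ φ), B := by
          apply Finset.sum_le_sum
          intro y hy
          rw [Finset.mem_image] at hy
          obtain ⟨x, hx, rfl⟩ := hy
          refine le_trans ?_ (hfib _ (hpush3 x (Set.mem_toFinset.mp hx)))
          exact_mod_cast Finset.card_le_card (Finset.filter_subset_filter _
            (Finset.subset_univ _))
      _ = (M1.toFinset.image (codeV F₀ φ)).card * B := by
          rw [Finset.sum_const, nsmul_eq_mul]
      _ ≤ M2.toFinset.card * B := by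
          apply mul_le_mul_of_nonneg_right _ hBpos.le
          have h8 : M1.toFinset.image (codeV F₀ φ) ⊆ M2.toFinset := by
            intro y hy
            rw [Finset.mem_image] at hy
            obtain ⟨x, hx, rfl⟩ := hy
            rw [Set.mem_toFinset] at hx ⊢
            exact hpush x hx
          exact_mod_cast Finset.card_le_card h8
  have hM2pos : (0 : ℝ) < Nat.card M2 := by
    by_contra hcon
    have h9 : (Nat.card M2 : ℝ) = 0 := le_antisymm (not_lt.mp hcon) (by positivity)
    rw [h9, zero_mul] at hM12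
    linarith
  have hM2ne : M2 ≠ ∅ := by
    intro h0
    rw [h0] at hM2pos
    simp at hM2pos
  simp only [rate]
  rw [if_neg hM2ne]
  have h7 : Real.log (Nat.card (Ex s k (V n)))
      ≤ Real.log 2 + (Real.log (Nat.card M2) + (Fintype.card (V n) * Real.log 2
        + (1 / (m : ℝ)) * (N * (- H + δ₃ * (Fintype.card A * K)) + K * bd))) := by
    have h8 : (Nat.card (Ex s k (V n)) : ℝ) ≤ 2 * (Nat.card M2 * B) := by linarith
    have h9 := Real.log_le_log hExpos h8
    rw [Real.log_mul (by norm_num) (by positivity), Real.log_mul hM2pos.ne' hBpos.ne', hB,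
      Real.log_mul (by positivity) (Real.exp_pos _).ne', Real.log_pow, Real.log_exp] at h9
    exact h9
  rw [exr, Nat.card_eq_fintype_card (α := V n)] at e5
  have h10 : z ≤ Real.log (Nat.card M2) / Nat.card (V n) := by
    rw [Nat.card_eq_fintype_card (α := V n), le_div_iff₀ hNpos]
    have h11 := mul_lt_mul_of_pos_right e5 hNpos
    have h12 : (Real.log (Nat.card (Ex s k (V n))) / N - Real.log 2 / N - Real.log 2
        + H / m - K / m * (bd / N)) * N
        = Real.log (Nat.card (Ex s k (V n))) - Real.log 2 - Real.log 2 * N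
          + H / m * N - K / m * bd := by
      field_simp
    rw [h12] at h11
    have h13 : (1 / (m : ℝ)) * (N * (- H + δ₃ * (Fintype.card A * K)) + K * bd)
        = - (H / m * N) + (1 / (m : ℝ) * (δ₃ * (Fintype.card A * K))) * N + K / m * bd := by
      ring
    rw [h13] at h7
    have h14 := mul_le_mul_of_nonneg_right hδ₃b hNpos.le
    have h15 : z * N = (c + z) / 2 * N - (c - z) / 2 * N := by ring
    rw [h15]
    linarith
  exact_mod_cast h10

end

end Pool.Agent.MP_9d0e09_an
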