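import Pool.Agent.Lib.MP_9d0e09_an.Ent

/-!
# Block codes: the bound by the Shannon entropy, for arbitrary sofic approximations
-/

open MeasureTheory Filter Topology Finset

namespace Pool.Agent.MP_9d0e09_an

theorem gibbs {A : Type} [Fintype A] (ν u w : A → ℝ) (hν : ∀ a, 0 ≤ ν a) (hu : ∀ a, 0 ≤ u a)
    (hsum : ∑ a, u a ≤ ∑ a, ν a) (hw : ∀ a, u a ≠ 0 → w a = u a) (hz : ∀ a, u a = 0 → ν a = 0) :
    ∑ a, Real.negMulLog (ν a) ≤ ∑ a, ν a * (- Real.log (w a)) := by
  have h1 : ∀ a, Real.negMulLog (ν a) ≤ ν a * (- Real.log (w a)) + (u a - ν a) := by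
    intro a
    by_cases h0 : u a = 0
    · rw [hz a h0, h0]; simp
    · rw [hw a h0]
      have hu' : 0 < u a := lt_of_le_of_ne (hu a) (Ne.symm h0)
      rcases (hν a).eq_or_lt with h | h
      · rw [← h]
        simpa using hu a
      · have h2 := Real.log_le_sub_one_of_pos (div_pos hu' h)
        rw [Real.log_div hu'.ne' h.ne'] at h2
        have h3 := mul_le_mul_of_nonneg_left h2 h.le
        have h4 : ν a * (u a / ν a - 1) = u a - ν a := by field_simp
        rw [h4] at h3
        rw [Real.negMulLog]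
        linarith
  calc ∑ a, Real.negMulLog (ν a) ≤ ∑ a, (ν a * (- Real.log (w a)) + (u a - ν a)) :=
        Finset.sum_le_sum (fun a _ => h1 a)
    _ = ∑ a, ν a * (- Real.log (w a)) + (∑ a, u a - ∑ a, ν a) := by
        rw [Finset.sum_add_distrib, Finset.sum_sub_distrib]
    _ ≤ _ := by linarith

section

variable {G : Type} [Group G] {d : ℕ} (s : Fin d → G) (k : ℕ)
variable (V : ℕ → Type) [∀ n, Finite (V n)] [∀ n, Nonempty (V n)] [∀ n, MulAction G (V n)]

theorem lower_code_H [Infinite G] [Nonempty (Fin d)] (hk : 0 < k) (hs : ∀ i, s i ^ k = 1)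
    (hinj : ∀ i, Set.InjOn (fun l : ℕ => s i ^ l) (Finset.range k : Set ℕ))
    (μ : Measure (G → ZMod 2)) (hμ : IsHaarOn (PX s k) μ)
    (hV : IsSofic G V) (hr : DesignRate s k V)
    {A : Type} [Fintype A] [MeasurableSpace A] [MeasurableSingletonClass A]
    (F₀ : Finset G) (hF₀ : F₀.Nonempty) (φ : (F₀ → ZMod 2) → A) :
    (((∑ a, Real.negMulLog ((μ.map (code F₀ φ)).real {y | y 1 = a})) / F₀.card
        - (d : ℝ) / k * Real.log 2 : ℝ) : EReal)
      ≤ lowerSoficEntropy (μ.map (code F₀ φ)) V := by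
  classical
  have := hμ.prob
  set ν : A → ℝ := fun a => (μ.map (code F₀ φ)).real {y | y 1 = a} with hνd
  set u : A → ℝ := fun a => (Nat.card {z : F₀ → ZMod 2 // φ z = a} : ℝ) / 2 ^ F₀.card with hud
  set w : A → ℝ := fun a => if u a = 0 then 1 else u a with hwd
  have hu : ∀ a, 0 ≤ u a := fun a => by simp only [hud]; positivity
  have hw0 : ∀ a, 0 < w a := by
    intro a
    simp only [hwd]
    split_ifs with h
    · exact one_pos
    · exact lt_of_le_of_ne (hu a) (Ne.symm h)
  have hw : ∀ a, (Nat.card {z : F₀ → ZMod 2 // φ z = a} : ℝ) ≤ w a * 2 ^ F₀.card := by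
    intro a
    have h1 : (Nat.card {z : F₀ → ZMod 2 // φ z = a} : ℝ) = u a * 2 ^ F₀.card := by
      simp only [hud]
      rw [div_mul_cancel₀ _ (by positivity)]
    rw [h1]
    apply mul_le_mul_of_nonneg_right _ (by positivity)
    simp only [hwd]
    split_ifs with h
    · rw [h]; norm_num
    · exact le_refl _
  have h1 := lower_code_w s k V hk hs hinj μ hμ hV hr F₀ hF₀ φ w hw0 hw
  refine le_trans ?_ h1
  have hpr : IsProbabilityMeasure (μ.map (code F₀ φ)) :=
    Measure.isProbabilityMeasure_map (meas_code F₀ φ).aemeasurable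
  have hsumu : ∑ a, u a = 1 := by
    simp only [hud]
    rw [← Finset.sum_div]
    have h2 : ∑ a : A, (Nat.card {z : F₀ → ZMod 2 // φ z = a} : ℝ) = 2 ^ F₀.card := by
      have h3 := Finset.card_eq_sum_card_fiberwise (f := φ) (s := univ) (t := univ)
        (fun _ _ => Finset.mem_coe.mpr (Finset.mem_univ _))
      rw [Finset.card_univ, Fintype.card_fun, ZMod.card, Fintype.card_coe] at h3
      have h4 := (Nat.cast_inj (R := ℝ)).mpr h3
      push_cast at h4
      rw [h4]
      apply Finset.sum_congr rfl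
      intro a _
      rw [Nat.card_eq_fintype_card, Fintype.card_subtype]
    rw [h2, div_self (by positivity)]
  have hsumν : 1 ≤ ∑ a, ν a := by
    have h2 : (μ.map (code F₀ φ)) Set.univ
        ≤ ∑ a : A, (μ.map (code F₀ φ)) {y : G → A | y 1 = a} := by
      have h3 : (Set.univ : Set (G → A)) = ⋃ a : A, {y : G → A | y 1 = a} := by
        ext y; simp
      rw [h3]
      exact measure_iUnion_fintype_le _ _
    rw [measure_univ] at h2
    have hne : ∑ a : A, (μ.map (code F₀ φ)) {y : G → A | y 1 = a} ≠ ⊤ :=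
      ENNReal.sum_ne_top.mpr (fun a _ => measure_ne_top _ _)
    have h4 := ENNReal.toReal_mono hne h2
    rw [ENNReal.toReal_one, ENNReal.toReal_sum (fun a _ => measure_ne_top _ _)] at h4
    exact h4
  have hz : ∀ a, u a = 0 → ν a = 0 := by
    intro a h
    have h2 : Nat.card {z : F₀ → ZMod 2 // φ z = a} = 0 := by
      simp only [hud] at h
      rw [div_eq_zero_iff] at h
      rcases h with h | h
      · exact_mod_cast h
      · exact absurd h (by positivity)
    have h3 : IsEmpty {z : F₀ → ZMod 2 // φ z = a} := by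
      rw [Nat.card_eq_fintype_card, Fintype.card_eq_zero_iff] at h2
      exact h2
    simp only [hνd]
    have hm0 : Measurable (fun y : G → A => y 1) := measurable_pi_apply 1
    have hm1 : MeasurableSet {y : G → A | y 1 = a} := hm0 (MeasurableSet.singleton a)
    rw [Measure.real, Measure.map_apply (meas_code F₀ φ) hm1]
    have h4 : code F₀ φ ⁻¹' {y : G → A | y 1 = a} = ∅ := by
      apply Set.eq_empty_of_forall_notMem
      intro x hx
      exact h3.false ⟨_, hx⟩
    rw [h4, measure_empty]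
    rfl
  have h5 := gibbs ν u w (fun a => measureReal_nonneg) hu (by rw [hsumu]; exact hsumν)
    (by intro a h; simp only [hwd]; rw [if_neg h]) hz
  rw [EReal.coe_le_coe_iff]
  apply sub_le_sub_right
  exact div_le_div_of_nonneg_right h5 (by positivity)

end

/-- Reduction of an approximation by maps to one by actions. -/
theorem transfer (d k : ℕ) (hk : 2 ≤ k) (V : ℕ → Type) [∀ n, Finite (V n)]
    [∀ n, Nonempty (V n)] (σ : ∀ n, Gam d k → Equiv.Perm (V n)) (hσ : IsSoficMap σ)
    (hr : TopRate (gen d k) k σ) :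
    ∃ _ : ∀ n, MulAction (Gam d k) (V n), IsSofic (Gam d k) V ∧ DesignRate (gen d k) k V ∧
      ∀ (A : Type) [Finite A] [MeasurableSpace A] (μ : Measure (Gam d k → A)),
        lowerSoficEntropyM μ σ = lowerSoficEntropy μ V := by
  have : NeZero k := ⟨by omega⟩
  let I : ∀ n, MulAction (Gam d k) (V n) :=
    fun n => MulAction.compHom (V n) (hom d k (σ n))
  have hc1 : ∀ g : Gam d k, Small (fun n v => σ n g v ≠ g • v) :=
    close_all σ hσ (by omega)
  have hc2 : ∀ g : Gam d k, Small (fun n v => (σ n g)⁻¹ v ≠ g⁻¹ • v) := by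
    intro g
    refine (close_inv σ hσ (by omega) g).mono ?_
    intro n v h h'
    apply h
    rw [h']
    show ((hom d k (σ n)) g)⁻¹ v = (hom d k (σ n)) g⁻¹ v
    rw [map_inv]
  exact ⟨I, sofic_of σ hσ hc1, design_of σ (gen d k) k hc2 hr,
    fun A _ _ μ => (soficEntropyM_eq σ μ hc2).2⟩

/-- Block codes for arbitrary sofic approximations by maps. -/
theorem block_map (d k : ℕ) (hd : 3 ≤ d) (hdk : d < k)
    (μ : Measure (Gam d k → ZMod 2)) (hμ : IsHaarOn (PX (gen d k) k) μ)
    (V : ℕ → Type) [∀ n, Finite (V n)] [∀ n, Nonempty (V n)]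
    (σ : ∀ n, Gam d k → Equiv.Perm (V n)) (hσ : IsSoficMap σ) (hr : TopRate (gen d k) k σ)
    (A : Type) [Fintype A] [MeasurableSpace A] [MeasurableSingletonClass A]
    (F₀ : Finset (Gam d k)) (φ : (F₀ → ZMod 2) → A) :
    (F₀.Nonempty → (((∑ a, Real.negMulLog ((μ.map (code F₀ φ)).real {y | y 1 = a})) / F₀.card
        - (d : ℝ) / k * Real.log 2 : ℝ) : EReal)
      ≤ lowerSoficEntropyM (μ.map (code F₀ φ)) σ) ∧
    (F₀.Nonempty → ∀ w : A → ℝ, (∀ a, 0 < w a) →
      (∀ a : A, (Nat.card {z : F₀ → ZMod 2 // φ z = a} : ℝ) ≤ w a * 2 ^ F₀.card) →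
      (((∑ a, (μ.map (code F₀ φ)).real {y | y 1 = a} * (- Real.log (w a))) / F₀.card
        - (d : ℝ) / k * Real.log 2 : ℝ) : EReal)
      ≤ lowerSoficEntropyM (μ.map (code F₀ φ)) σ) ∧
    ((∃ z z', φ z ≠ φ z') → d * (F₀.card * 2 ^ F₀.card) ≤ k →
      0 < lowerSoficEntropyM (μ.map (code F₀ φ)) σ) := by
  have h1 := gam_infinite d k (by omega) (by omega)
  have h2 : Nonempty (Fin d) := ⟨⟨0, by omega⟩⟩
  obtain ⟨I, hV, hD, hE⟩ := transfer d k (by omega) V σ hσ hr
  refine ⟨?_, ?_, ?_⟩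
  · intro hF₀
    rw [hE]
    exact lower_code_H (gen d k) k V (by omega) (gen_pow_k d k) (gen_inj d k) μ hμ hV hD F₀ hF₀ φ
  · intro hF₀ w hw0 hw
    rw [hE]
    exact lower_code_w (gen d k) k V (by omega) (gen_pow_k d k) (gen_inj d k) μ hμ hV hD F₀ hF₀
      φ w hw0 hw
  · intro hφ hdk'
    rw [hE]
    exact pos_code (gen d k) k V (by omega) (gen_pow_k d k) (gen_inj d k) μ hμ hV hD F₀ φ hφ hdk'

end Pool.Agent.MP_9d0e09_an
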