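import Pool.Agent.Lib.MP_9d0e09_an.Rel

/-!
# Measurable factors from which a block function with a small window is almost determined
-/

open MeasureTheory Filter Topology Finset

namespace Pool.Agent.MP_9d0e09_an

/-- The equivariant map with symbol `ψ`: `x ↦ (g ↦ ψ (h ↦ x (g h)))`. -/
def mcode {G A : Type} [Group G] (ψ : (G → ZMod 2) → A) (x : G → ZMod 2) : G → A :=
  fun g => ψ (fun h => x (g * h))

/-- The joint law of the word of the factor `mcode ψ` on `W` and of the letter of the block code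
`code F₁ φ₁` at `1`. -/
noncomputable def jlaw {G A B : Type} [Group G] (μ : Measure (G → ZMod 2)) (ψ : (G → ZMod 2) → A)
    (W : Finset G) (F₁ : Finset G) (φ₁ : (F₁ → ZMod 2) → B) (b : W → A) (a : B) : ℝ :=
  μ.real {x | (∀ w : W, mcode ψ x w = b w) ∧ code F₁ φ₁ x 1 = a}

section

variable {G : Type} [Group G]

theorem meas_mcode {A : Type} [MeasurableSpace A] (ψ : (G → ZMod 2) → A) (hψ : Measurable ψ) :
    Measurable (mcode ψ) := by
  rw [measurable_pi_iff]
  intro g
  have h : Measurable (fun (x : G → ZMod 2) (h : G) => x (g * h)) := by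
    rw [measurable_pi_iff]
    intro h
    exact measurable_pi_apply _
  exact hψ.comp h

/-- Simultaneous approximation of the factor by a block code on a finite set. -/
theorem approx {A : Type} [MeasurableSpace A] [MeasurableSingletonClass A] [Finite A] [Nonempty A]
    (μ : Measure (G → ZMod 2)) [IsProbabilityMeasure μ] (ψ : (G → ZMod 2) → A)
    (hψ : Measurable ψ) (S : Finset G) (η : ℝ) (hη : 0 < η) :
    ∃ (F₀ : Finset G) (φ : (F₀ → ZMod 2) → A), ∀ g ∈ S,
      μ.real {x | mcode ψ x g ≠ code F₀ φ x g} ≤ η := by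
  classical
  have hsh : ∀ g : G, Measurable (fun (x : G → ZMod 2) (h : G) => x (g * h)) := by
    intro g
    rw [measurable_pi_iff]
    intro h
    exact measurable_pi_apply _
  obtain ⟨F₀, φ, h1⟩ := dens (∑ g ∈ S, μ.map (fun (x : G → ZMod 2) (h : G) => x (g * h))) ψ hψ η hη
  refine ⟨F₀, φ, ?_⟩
  intro g hg
  have hφ : Measurable (fun y : G → ZMod 2 => φ (fun w => y w)) := by
    have h2 : Measurable φ := measurable_of_countable _
    have h3 : Measurable (fun (y : G → ZMod 2) (w : F₀) => y w) := by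
      rw [measurable_pi_iff]
      intro w
      exact measurable_pi_apply _
    exact h2.comp h3
  have hms : MeasurableSet {y : G → ZMod 2 | ψ y ≠ φ (fun w => y w)} := by
    have h4 : MeasurableSet {p : A × A | p.1 ≠ p.2} := (Set.toFinite _).measurableSet
    exact (hψ.prodMk hφ) h4
  have h5 : μ.real {x | mcode ψ x g ≠ code F₀ φ x g}
      = (μ.map (fun (x : G → ZMod 2) (h : G) => x (g * h))).real
        {y : G → ZMod 2 | ψ y ≠ φ (fun w => y w)} := by
    rw [Measure.real, Measure.real, Measure.map_apply (hsh g) hms]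
    rfl
  rw [h5]
  refine le_trans ?_ h1.le
  have h6 : μ.map (fun (x : G → ZMod 2) (h : G) => x (g * h))
      ≤ ∑ g ∈ S, μ.map (fun (x : G → ZMod 2) (h : G) => x (g * h)) :=
    Finset.single_le_sum (f := fun g : G => μ.map (fun (x : G → ZMod 2) (h : G) => x (g * h)))
      (fun _ _ => Measure.zero_le _) hg
  rw [Measure.real, Measure.real]
  exact ENNReal.toReal_mono (measure_ne_top _ _) (h6 _)

theorem real_sub_le {α : Type} [MeasurableSpace α] (μ : Measure α) [IsFiniteMeasure μ]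
    (P Q E : Set α) (h : ∀ x, x ∉ E → (x ∈ P ↔ x ∈ Q)) : |μ.real P - μ.real Q| ≤ μ.real E := by
  have h1 : μ.real P ≤ μ.real Q + μ.real E := by
    refine le_trans (measureReal_mono (s₂ := Q ∪ E) ?_) (measureReal_union_le _ _)
    intro x hx
    by_cases hE : x ∈ E
    · exact Or.inr hE
    · exact Or.inl ((h x hE).mp hx)
  have h2 : μ.real Q ≤ μ.real P + μ.real E := by
    refine le_trans (measureReal_mono (s₂ := P ∪ E) ?_) (measureReal_union_le _ _)
    intro x hx
    by_cases hE : x ∈ E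
    · exact Or.inr hE
    · exact Or.inl ((h x hE).mpr hx)
  rw [abs_le]
  constructor <;> linarith

theorem union_le {α : Type} [MeasurableSpace α] (μ : Measure α) [IsFiniteMeasure μ]
    {ι : Type} (S : Finset ι) (E : ι → Set α) (η : ℝ) (h : ∀ g ∈ S, μ.real (E g) ≤ η) :
    μ.real (⋃ g ∈ S, E g) ≤ S.card * η := by
  refine (measureReal_biUnion_finset_le S E).trans ?_
  calc ∑ g ∈ S, μ.real (E g) ≤ ∑ g ∈ S, η := Finset.sum_le_sum h
    _ = S.card * η := by rw [Finset.sum_const, nsmul_eq_mul]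

omit [Group G] in
theorem meas_cyl {B : Type} [MeasurableSpace B] [MeasurableSingletonClass B] (E : Finset G)
    (c : G → B) : MeasurableSet {y : G → B | ∀ g ∈ E, y g = c g} := by
  have : {y : G → B | ∀ g ∈ E, y g = c g} = ⋂ g ∈ E, (fun y : G → B => y g) ⁻¹' {c g} := by
    ext y; simp
  rw [this]
  apply Finset.measurableSet_biInter
  intro g _
  have hm : Measurable (fun y : G → B => y g) := measurable_pi_apply g
  exact hm (MeasurableSet.singleton _)

end

section

variable {G : Type} [Group G] {d : ℕ} (s : Fin d → G) (k : ℕ)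

/-- The key step for a measurable factor. -/
theorem key_meas (V : ℕ → Type) [∀ n, Finite (V n)] [∀ n, Nonempty (V n)]
    [∀ n, MulAction G (V n)] (hk : 0 < k) (hs : ∀ i, s i ^ k = 1)
    (hinj : ∀ i, Set.InjOn (fun l : ℕ => s i ^ l) (Finset.range k : Set ℕ))
    (μ : Measure (G → ZMod 2)) (hμ : IsHaarOn (PX s k) μ) (hV : IsSofic G V)
    (T : ℝ) (hT : ∀ ε : ℝ, 0 < ε → ∀ᶠ n in atTop, exr s k (V n) ≤ T + ε)
    {A : Type} [Fintype A] [MeasurableSpace A] [MeasurableSingletonClass A]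
    (ψ : (G → ZMod 2) → A) (hψ : Measurable ψ) (W : Finset G) [Fintype (W → A)]
    {B : Type} [Fintype B] [MeasurableSpace B] [MeasurableSingletonClass B]
    (F₁ : Finset G) (hF₁ : F₁.Nonempty) (φ₁ : (F₁ → ZMod 2) → B) (p : ℝ) (hp0 : 0 < p)
    (hp1 : p ≤ 1)
    (hp : ∀ a : B, (Nat.card {z : F₁ → ZMod 2 // φ₁ z = a} : ℝ) ≤ p * 2 ^ F₁.card)
    (q : (W → A) → B → ℝ) (hq0 : ∀ b a, 0 < q b a) (hq1 : ∀ b, ∑ a, q b a ≤ 1)
    (F : Finset G) (δ : ℝ) (hδ : 0 < δ) (z z' : ℝ)
    (hz : z' < z + ((1 / (F₁.card : ℝ) - d / k) * (- Real.log p) - T)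
      - ∑ b : W → A, ∑ a : B, jlaw μ ψ W F₁ φ₁ b a * (- Real.log (q b a))) :
    ∃ F' : Finset G, ∃ δ' : ℝ, 0 < δ' ∧ ∀ᶠ n in atTop,
      ((z : ℝ) : EReal) < rate (Mic μ (V n) F' δ') →
      ((z' : ℝ) : EReal) ≤ rate (Mic (μ.map (mcode ψ)) (V n) F δ) := by
  classical
  have := hμ.prob
  have : Nonempty A := ⟨ψ 0⟩
  set K : ℝ := ∑ b : W → A, ∑ a : B, |Real.log (q b a)| with hK
  have hK0 : 0 ≤ K := Finset.sum_nonneg (fun b _ => Finset.sum_nonneg (fun a _ => abs_nonneg _))
  set CE : ℝ := ∑ b : W → A, ∑ a : B, jlaw μ ψ W F₁ φ₁ b a * (- Real.log (q b a)) with hCE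
  set γ : ℝ := z + ((1 / (F₁.card : ℝ) - d / k) * (- Real.log p) - T) - CE - z' with hγ
  have hγ0 : 0 < γ := by rw [hγ]; linarith
  set η : ℝ := min (δ / (4 * (F.card + 1))) (γ / (2 * (W.card + 1) * (K + 1))) with hη
  have hη0 : 0 < η := by
    rw [hη]
    apply lt_min
    · positivity
    · have : 0 < 2 * ((W.card : ℝ) + 1) * (K + 1) := by positivity
      exact div_pos hγ0 this
  have hη1 : F.card * η < δ / 2 := by
    have h1 : η ≤ δ / (4 * (F.card + 1)) := min_le_left _ _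
    have h2 : F.card * η ≤ F.card * (δ / (4 * (F.card + 1))) :=
      mul_le_mul_of_nonneg_left h1 (by positivity)
    have h3 : F.card * (δ / (4 * ((F.card : ℝ) + 1))) ≤ δ / 4 := by
      rw [mul_div_assoc', div_le_iff₀ (by positivity)]
      nlinarith
    linarith
  have hη2 : W.card * η * K ≤ γ / 2 := by
    have h1 : η ≤ γ / (2 * (W.card + 1) * (K + 1)) := min_le_right _ _
    have h2 : 0 ≤ (W.card : ℝ) := by positivity
    calc W.card * η * K ≤ (W.card + 1) * η * (K + 1) := by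
          apply mul_le_mul _ (by linarith) hK0 (by positivity)
          apply mul_le_mul_of_nonneg_right _ hη0.le
          linarith
      _ ≤ (W.card + 1) * (γ / (2 * (W.card + 1) * (K + 1))) * (K + 1) := by
          apply mul_le_mul_of_nonneg_right _ (by linarith)
          exact mul_le_mul_of_nonneg_left h1 (by linarith)
      _ = γ / 2 := by
          have : (K + 1) ≠ 0 := by positivity
          field_simp
  obtain ⟨F₀, φ, happ⟩ := approx μ ψ hψ (F ∪ W) η hη0
  have hlam : ∀ (b : W → A) (a : B), |jlaw μ ψ W F₁ φ₁ b a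
      - μ.real {x | (∀ w : W, code F₀ φ x w = b w) ∧ code F₁ φ₁ x 1 = a}| ≤ W.card * η := by
    intro b a
    refine le_trans (real_sub_le μ _ _ (⋃ g ∈ W, {x | mcode ψ x g ≠ code F₀ φ x g}) ?_)
      (union_le μ W _ η (fun g hg => happ g (Finset.mem_union_right _ hg)))
    intro x hx
    have h1 : ∀ w : W, mcode ψ x w = code F₀ φ x w := by
      intro w
      by_contra hne
      exact hx (Set.mem_biUnion w.2 hne)
    simp only [Set.mem_ofPred_eq]
    constructor
    · rintro ⟨h2, h3⟩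
      exact ⟨fun w => (h1 w).symm.trans (h2 w), h3⟩
    · rintro ⟨h2, h3⟩
      exact ⟨fun w => (h1 w).trans (h2 w), h3⟩
  have hz2 : z' < z + ((1 / (F₁.card : ℝ) - d / k) * (- Real.log p) - T)
      - ∑ b : W → A, ∑ a : B,
        μ.real {x | (∀ w : W, code F₀ φ x w = b w) ∧ code F₁ φ₁ x 1 = a}
        * (- Real.log (q b a)) := by
    have h1 : ∑ b : W → A, ∑ a : B,
        μ.real {x | (∀ w : W, code F₀ φ x w = b w) ∧ code F₁ φ₁ x 1 = a}
        * (- Real.log (q b a)) ≤ CE + W.card * η * K := by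
      have h2 : CE + W.card * η * K = ∑ b : W → A, ∑ a : B,
          (jlaw μ ψ W F₁ φ₁ b a * (- Real.log (q b a)) + W.card * η * |Real.log (q b a)|) := by
        rw [hCE, hK, Finset.mul_sum, ← Finset.sum_add_distrib]
        apply Finset.sum_congr rfl
        intro b _
        rw [Finset.mul_sum, ← Finset.sum_add_distrib]
      rw [h2]
      apply Finset.sum_le_sum
      intro b _
      apply Finset.sum_le_sum
      intro a _
      have h3 := hlam b a
      have h4 : (μ.real {x | (∀ w : W, code F₀ φ x w = b w) ∧ code F₁ φ₁ x 1 = a}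
          - jlaw μ ψ W F₁ φ₁ b a) * (- Real.log (q b a)) ≤ W.card * η * |Real.log (q b a)| := by
        refine (le_abs_self _).trans ?_
        rw [abs_mul, abs_neg, abs_sub_comm]
        exact mul_le_mul_of_nonneg_right h3 (abs_nonneg _)
      linarith
    linarith
  obtain ⟨F', δ', hδ', hev⟩ := key_rel s k V hk hs hinj μ hμ hV T hT F₀ φ W F₁ hF₁ φ₁ p hp0 hp1 hp
    q hq0 hq1 F (δ / 2) (by linarith) z z' hz2
  refine ⟨F', δ', hδ', hev.mono ?_⟩
  intro n hn h
  refine (hn h).trans (rate_mono ?_)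
  intro x hx a
  have h1 := hx a
  have h2 : |(μ.map (mcode ψ)).real {y | ∀ g ∈ F, y g = a g}
      - (μ.map (code F₀ φ)).real {y | ∀ g ∈ F, y g = a g}| ≤ F.card * η := by
    rw [Measure.real, Measure.real, Measure.map_apply (meas_mcode ψ hψ) (meas_cyl F a),
      Measure.map_apply (meas_code F₀ φ) (meas_cyl F a)]
    refine le_trans (real_sub_le μ _ _ (⋃ g ∈ F, {x | mcode ψ x g ≠ code F₀ φ x g}) ?_)
      (union_le μ F _ η (fun g hg => happ g (Finset.mem_union_left _ hg)))
    intro x hx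
    have h1 : ∀ g ∈ F, mcode ψ x g = code F₀ φ x g := by
      intro g hg
      by_contra hne
      exact hx (Set.mem_biUnion hg hne)
    simp only [Set.mem_preimage, Set.mem_ofPred_eq]
    constructor
    · intro h2 g hg
      exact (h1 g hg).symm.trans (h2 g hg)
    · intro h2 g hg
      exact (h1 g hg).trans (h2 g hg)
  have h3 : |emp (V n) F x a - (μ.map (mcode ψ)).real {y | ∀ g ∈ F, y g = a g}|
      ≤ |emp (V n) F x a - (μ.map (code F₀ φ)).real {y | ∀ g ∈ F, y g = a g}|
        + |(μ.map (mcode ψ)).real {y | ∀ g ∈ F, y g = a g}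
          - (μ.map (code F₀ φ)).real {y | ∀ g ∈ F, y g = a g}| := by
    have h4 : emp (V n) F x a - (μ.map (mcode ψ)).real {y | ∀ g ∈ F, y g = a g}
        = (emp (V n) F x a - (μ.map (code F₀ φ)).real {y | ∀ g ∈ F, y g = a g})
          - ((μ.map (mcode ψ)).real {y | ∀ g ∈ F, y g = a g}
          - (μ.map (code F₀ φ)).real {y | ∀ g ∈ F, y g = a g}) := by ring
    rw [h4]
    exact abs_sub _ _
  linarith

/-- The code `φ₁` can be predicted from the factor `mcode ψ` at the cost `H`: for every `ε` there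
are a finite set `W` and a positive kernel from words of the factor on `W` to letters of `φ₁` with
mean logarithmic loss at most `H + ε`. -/
def Pred {A B : Type} [Fintype A] [Fintype B] (μ : Measure (G → ZMod 2)) (ψ : (G → ZMod 2) → A)
    (F₁ : Finset G) (φ₁ : (F₁ → ZMod 2) → B) (H : ℝ) : Prop :=
  ∀ ε : ℝ, 0 < ε → ∃ (W : Finset G) (_ : Fintype (W → A)) (q : (W → A) → B → ℝ),
    (∀ b a, 0 < q b a) ∧ (∀ b, ∑ a, q b a ≤ 1) ∧
    ∑ b : W → A, ∑ a : B, jlaw μ ψ W F₁ φ₁ b a * (- Real.log (q b a)) ≤ H + ε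

theorem gen_meas (V : ℕ → Type) [∀ n, Finite (V n)] [∀ n, Nonempty (V n)]
    [∀ n, MulAction G (V n)] (hk : 0 < k) (hs : ∀ i, s i ^ k = 1)
    (hinj : ∀ i, Set.InjOn (fun l : ℕ => s i ^ l) (Finset.range k : Set ℕ))
    (μ : Measure (G → ZMod 2)) (hμ : IsHaarOn (PX s k) μ) (hV : IsSofic G V)
    (T : ℝ) (hT : ∀ ε : ℝ, 0 < ε → ∀ᶠ n in atTop, exr s k (V n) ≤ T + ε)
    {A : Type} [Fintype A] [MeasurableSpace A] [MeasurableSingletonClass A]
    (ψ : (G → ZMod 2) → A) (hψ : Measurable ψ)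
    {B : Type} [Fintype B] [MeasurableSpace B] [MeasurableSingletonClass B]
    (F₁ : Finset G) (hF₁ : F₁.Nonempty) (φ₁ : (F₁ → ZMod 2) → B) (p : ℝ) (hp0 : 0 < p)
    (hp1 : p ≤ 1)
    (hp : ∀ a : B, (Nat.card {z : F₁ → ZMod 2 // φ₁ z = a} : ℝ) ≤ p * 2 ^ F₁.card)
    (H : ℝ) (hH : Pred μ ψ F₁ φ₁ H) :
    soficEntropy μ V + (((1 / (F₁.card : ℝ) - d / k) * (- Real.log p) - T - H : ℝ) : EReal)
      ≤ soficEntropy (μ.map (mcode ψ)) V ∧
    lowerSoficEntropy μ V + (((1 / (F₁.card : ℝ) - d / k) * (- Real.log p) - T - H : ℝ) : EReal)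
      ≤ lowerSoficEntropy (μ.map (mcode ψ)) V := by
  set c : ℝ := (1 / (F₁.card : ℝ) - d / k) * (- Real.log p) - T - H with hc
  have hred : ∀ a b : EReal, (∀ z : ℝ, (z : EReal) < a → ((z + c : ℝ) : EReal) ≤ b) →
      a + (c : EReal) ≤ b := by
    intro a b h
    rw [← EReal.le_sub_iff_add_le (Or.inl (EReal.coe_ne_bot c)) (Or.inl (EReal.coe_ne_top c)),
      ← EReal.ge_of_forall_gt_iff_ge]
    intro z hz
    rw [EReal.le_sub_iff_add_le (Or.inl (EReal.coe_ne_bot c)) (Or.inl (EReal.coe_ne_top c))]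
    have := h z hz
    rwa [EReal.coe_add] at this
  have hkey : ∀ (F : Finset G) (δ : ℝ), 0 < δ → ∀ z z' : ℝ, z' < z + c →
      ∃ F' : Finset G, ∃ δ' : ℝ, 0 < δ' ∧ ∀ᶠ n in atTop,
      ((z : ℝ) : EReal) < rate (Mic μ (V n) F' δ') →
      ((z' : ℝ) : EReal) ≤ rate (Mic (μ.map (mcode ψ)) (V n) F δ) := by
    intro F δ hδ z z' hz
    obtain ⟨W, _, q, hq0, hq1, hq2⟩ := hH ((z + c - z') / 2) (by linarith)
    apply key_meas s k V hk hs hinj μ hμ hV T hT ψ hψ W F₁ hF₁ φ₁ p hp0 hp1 hp q hq0 hq1 F δ hδ z z'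
    rw [hc] at hz hq2
    linarith
  constructor
  · apply hred
    intro z hz
    rw [soficEntropy]
    apply le_iInf
    intro F
    apply le_iInf
    rintro ⟨δ, hδ⟩
    rw [← EReal.ge_of_forall_gt_iff_ge]
    intro z' hz'
    have hz'' : z' < z + c := by exact_mod_cast hz'
    obtain ⟨F', δ', hδ', hev⟩ := hkey F δ hδ z z' hz''
    have h0 : soficEntropy μ V ≤ limsup (fun n => rate (Mic μ (V n) F' δ')) atTop :=
      iInf_le_of_le F' (iInf_le _ (⟨δ', hδ'⟩ : {δ : ℝ // 0 < δ}))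
    have h1 : (z : EReal) < limsup (fun n => rate (Mic μ (V n) F' δ')) atTop :=
      lt_of_lt_of_le hz h0
    have h2 := frequently_lt_of_lt_limsup (by isBoundedDefault) h1
    exact le_limsup_of_frequently_le ((h2.and_eventually hev).mono (fun n hn => hn.2 hn.1))
      (by isBoundedDefault)
  · apply hred
    intro z hz
    rw [lowerSoficEntropy]
    apply le_iInf
    intro F
    apply le_iInf
    rintro ⟨δ, hδ⟩
    rw [← EReal.ge_of_forall_gt_iff_ge]
    intro z' hz'
    have hz'' : z' < z + c := by exact_mod_cast hz'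
    obtain ⟨F', δ', hδ', hev⟩ := hkey F δ hδ z z' hz''
    have h0 : lowerSoficEntropy μ V ≤ liminf (fun n => rate (Mic μ (V n) F' δ')) atTop :=
      iInf_le_of_le F' (iInf_le _ (⟨δ', hδ'⟩ : {δ : ℝ // 0 < δ}))
    have h1 : (z : EReal) < liminf (fun n => rate (Mic μ (V n) F' δ')) atTop :=
      lt_of_lt_of_le hz h0
    have h2 := eventually_lt_of_lt_liminf h1 (by isBoundedDefault)
    exact le_liminf_of_le (by isBoundedDefault) ((h2.and hev).mono (fun n hn => hn.2 hn.1))

end

end Pool.Agent.MP_9d0e09_an
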