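import Pool.Agent.Lib.MP_9d0e09_an.Fac

/-!
# Measurable factors: prediction costs, approximations by maps
-/

open MeasureTheory Filter Topology Finset

namespace Pool.Agent.MP_9d0e09_an

section

variable {G : Type} [Group G]

open Classical in
/-- Sums of the joint law. -/
theorem jsum {A B : Type} [Fintype A] [MeasurableSpace A] [MeasurableSingletonClass A] [Fintype B]
    [MeasurableSpace B] [MeasurableSingletonClass B] (μ : Measure (G → ZMod 2))
    [IsProbabilityMeasure μ] (ψ : (G → ZMod 2) → A) (hψ : Measurable ψ) (W : Finset G)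
    [Fintype (W → A)] (F₁ : Finset G) (φ₁ : (F₁ → ZMod 2) → B) (P : (W → A) → B → Prop) :
    ∑ b : W → A, ∑ a : B, (if P b a then jlaw μ ψ W F₁ φ₁ b a else 0)
      = μ.real {x | P (fun w => mcode ψ x w) (code F₁ φ₁ x 1)} := by
  let Ψ : (G → ZMod 2) → (W → A) × B := fun x => (fun w => mcode ψ x w, code F₁ φ₁ x 1)
  have hΨ : Measurable Ψ := by
    apply Measurable.prodMk
    · rw [measurable_pi_iff]
      intro w
      exact (measurable_pi_apply (w : G)).comp (meas_mcode ψ hψ)
    · exact (measurable_pi_apply (1 : G)).comp (meas_code F₁ φ₁)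
  have h1 : ∀ c : (W → A) × B, jlaw μ ψ W F₁ φ₁ c.1 c.2 = (μ.map Ψ).real {c} := by
    intro c
    rw [jlaw, Measure.real, Measure.real, Measure.map_apply hΨ (MeasurableSet.singleton c)]
    congr 2
    ext x
    simp only [Set.mem_preimage, Set.mem_ofPred_eq, Set.mem_singleton_iff, Ψ]
    rw [Prod.ext_iff, funext_iff]
  have h2 : ∑ b : W → A, ∑ a : B, (if P b a then jlaw μ ψ W F₁ φ₁ b a else 0)
      = ∑ c : (W → A) × B, (if P c.1 c.2 then (μ.map Ψ).real {c} else 0) := by
    rw [Fintype.sum_prod_type]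
    apply Finset.sum_congr rfl
    intro b _
    apply Finset.sum_congr rfl
    intro a _
    rw [← h1 (b, a)]
  have : IsProbabilityMeasure (μ.map Ψ) := Measure.isProbabilityMeasure_map hΨ.aemeasurable
  rw [h2, ← Finset.sum_filter, sum_measureReal_singleton, Measure.real, Measure.real,
    Measure.map_apply hΨ (Finset.measurableSet _)]
  congr 2
  ext x
  simp [Ψ]

theorem jlaw_nonneg {A B : Type} (μ : Measure (G → ZMod 2)) (ψ : (G → ZMod 2) → A) (W : Finset G)
    (F₁ : Finset G) (φ₁ : (F₁ → ZMod 2) → B) (b : W → A) (a : B) :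
    0 ≤ jlaw μ ψ W F₁ φ₁ b a := measureReal_nonneg

/-- The prediction cost from the words on `W` is the conditional Shannon entropy. -/
theorem pred_cond {A B : Type} [Fintype A] [MeasurableSpace A] [MeasurableSingletonClass A]
    [Fintype B] [MeasurableSpace B] [MeasurableSingletonClass B] (μ : Measure (G → ZMod 2))
    [IsProbabilityMeasure μ] (ψ : (G → ZMod 2) → A) (hψ : Measurable ψ) (W : Finset G)
    [hW : Fintype (W → A)] (F₁ : Finset G) (φ₁ : (F₁ → ZMod 2) → B) :
    Pred μ ψ F₁ φ₁ (∑ b : W → A, ∑ a : B, Real.negMulLog (jlaw μ ψ W F₁ φ₁ b a)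
      - ∑ b : W → A, Real.negMulLog (μ.real {x | ∀ w : W, mcode ψ x w = b w})) := by
  classical
  intro ε hε
  have hB : Nonempty B := ⟨φ₁ 0⟩
  have hBpos : (0 : ℝ) < Fintype.card B := by exact_mod_cast Fintype.card_pos
  set marg : (W → A) → ℝ := fun b => μ.real {x | ∀ w : W, mcode ψ x w = b w} with hmarg
  have hmsum : ∀ b, ∑ a : B, jlaw μ ψ W F₁ φ₁ b a = marg b := by
    intro b
    have h1 := jsum μ ψ hψ W F₁ φ₁ (fun b' _ => b' = b)
    rw [Finset.sum_eq_single b] at h1
    · simp only [if_true] at h1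
      rw [h1, hmarg]
      simp only
      congr 1
      ext x
      simp only [Set.mem_ofPred_eq, funext_iff]
    · intro b' _ hb'
      apply Finset.sum_eq_zero
      intro a _
      rw [if_neg hb']
    · intro h
      exact absurd (Finset.mem_univ _) h
  have htot : ∑ b : W → A, ∑ a : B, jlaw μ ψ W F₁ φ₁ b a = 1 := by
    have h1 := jsum μ ψ hψ W F₁ φ₁ (fun _ _ => True)
    simp only [if_true] at h1
    rw [h1]
    simp
  set t : ℝ := 1 - Real.exp (-ε) with ht
  have hexp1 : Real.exp (-ε) < 1 := by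
    rw [Real.exp_lt_one_iff]
    linarith
  have ht0 : 0 < t := by rw [ht]; linarith
  have ht1 : 1 - t = Real.exp (-ε) := by rw [ht]; ring
  have h1t : 0 < 1 - t := by rw [ht1]; exact Real.exp_pos _
  set r : (W → A) → B → ℝ := fun b a =>
    if marg b = 0 then 1 / (Fintype.card B : ℝ) else jlaw μ ψ W F₁ φ₁ b a / marg b with hr
  have hmarg0 : ∀ b, 0 ≤ marg b := fun b => measureReal_nonneg
  have hr0 : ∀ b a, 0 ≤ r b a := by
    intro b a
    simp only [hr]
    split_ifs with h
    · positivity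
    · exact div_nonneg (jlaw_nonneg _ _ _ _ _ _ _) (hmarg0 b)
  have hr1 : ∀ b, ∑ a, r b a = 1 := by
    intro b
    by_cases h : marg b = 0
    · simp only [hr, if_pos h, Finset.sum_const, Finset.card_univ, nsmul_eq_mul]
      field_simp
    · simp only [hr, if_neg h]
      rw [← Finset.sum_div, hmsum b, div_self h]
  refine ⟨W, hW, fun b a => (1 - t) * r b a + t / Fintype.card B, ?_, ?_, ?_⟩
  · intro b a
    have h1 := mul_nonneg h1t.le (hr0 b a)
    have h2 : 0 < t / Fintype.card B := by positivity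
    linarith
  · intro b
    rw [Finset.sum_add_distrib, ← Finset.mul_sum, hr1 b, Finset.sum_const, Finset.card_univ,
      nsmul_eq_mul, mul_div_cancel₀ _ hBpos.ne']
    linarith
  · have hpt : ∀ (b : W → A) (a : B), jlaw μ ψ W F₁ φ₁ b a *
        (- Real.log ((1 - t) * r b a + t / Fintype.card B))
        ≤ Real.negMulLog (jlaw μ ψ W F₁ φ₁ b a) + jlaw μ ψ W F₁ φ₁ b a * Real.log (marg b)
          + jlaw μ ψ W F₁ φ₁ b a * ε := by
      intro b a
      rcases (jlaw_nonneg μ ψ W F₁ φ₁ b a).eq_or_lt with h0 | h0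
      · rw [← h0, Real.negMulLog_zero]
        simp
      · have hm : 0 < marg b := by
          rw [← hmsum b]
          exact lt_of_lt_of_le h0 (Finset.single_le_sum (f := fun a => jlaw μ ψ W F₁ φ₁ b a)
            (fun a _ => jlaw_nonneg _ _ _ _ _ _ _) (Finset.mem_univ a))
        have hrv : r b a = jlaw μ ψ W F₁ φ₁ b a / marg b := by
          simp only [hr, if_neg hm.ne']
        have h2 : 0 < (1 - t) * (jlaw μ ψ W F₁ φ₁ b a / marg b) := by positivity
        have h3 : Real.log ((1 - t) * (jlaw μ ψ W F₁ φ₁ b a / marg b))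
            ≤ Real.log ((1 - t) * r b a + t / Fintype.card B) := by
          apply Real.log_le_log h2
          rw [hrv]
          have : 0 < t / Fintype.card B := by positivity
          linarith
        rw [Real.log_mul h1t.ne' (by positivity), Real.log_div h0.ne' hm.ne', ht1,
          Real.log_exp] at h3
        rw [Real.negMulLog]
        have h4 : - Real.log ((1 - t) * r b a + t / Fintype.card B)
            ≤ ε - Real.log (jlaw μ ψ W F₁ φ₁ b a) + Real.log (marg b) := by
          rw [ht1]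
          linarith
        have h5 := mul_le_mul_of_nonneg_left h4 h0.le
        refine h5.trans (le_of_eq ?_)
        ring
    calc ∑ b : W → A, ∑ a : B, jlaw μ ψ W F₁ φ₁ b a *
          (- Real.log ((1 - t) * r b a + t / Fintype.card B))
        ≤ ∑ b : W → A, ∑ a : B, (Real.negMulLog (jlaw μ ψ W F₁ φ₁ b a)
          + jlaw μ ψ W F₁ φ₁ b a * Real.log (marg b) + jlaw μ ψ W F₁ φ₁ b a * ε) :=
          Finset.sum_le_sum (fun b _ => Finset.sum_le_sum (fun a _ => hpt b a))
      _ = ∑ b : W → A, ∑ a : B, Real.negMulLog (jlaw μ ψ W F₁ φ₁ b a)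
          - ∑ b : W → A, Real.negMulLog (marg b) + ε := by
          have e1 : ∀ b : W → A, ∑ a : B, (Real.negMulLog (jlaw μ ψ W F₁ φ₁ b a)
              + jlaw μ ψ W F₁ φ₁ b a * Real.log (marg b) + jlaw μ ψ W F₁ φ₁ b a * ε)
              = ∑ a : B, Real.negMulLog (jlaw μ ψ W F₁ φ₁ b a) - Real.negMulLog (marg b)
                + (∑ a : B, jlaw μ ψ W F₁ φ₁ b a) * ε := by
            intro b
            rw [Finset.sum_add_distrib, Finset.sum_add_distrib, ← Finset.sum_mul,
              ← Finset.sum_mul, hmsum b, Real.negMulLog, neg_mul, sub_neg_eq_add]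
          rw [Finset.sum_congr rfl (fun b _ => e1 b), Finset.sum_add_distrib,
            Finset.sum_sub_distrib, ← Finset.sum_mul, htot, one_mul]

/-- If the factor determines the code, the prediction cost is zero. -/
theorem pred_zero {A B : Type} [Fintype A] [MeasurableSpace A] [MeasurableSingletonClass A]
    [Fintype B] [MeasurableSpace B] [MeasurableSingletonClass B] (μ : Measure (G → ZMod 2))
    [IsProbabilityMeasure μ] (ψ : (G → ZMod 2) → A) (hψ : Measurable ψ)
    (F₁ : Finset G) (φ₁ : (F₁ → ZMod 2) → B) (Θ : (G → A) → B) (hΘ : Measurable Θ)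
    (hae : ∀ᵐ x ∂μ, code F₁ φ₁ x 1 = Θ (mcode ψ x)) : Pred μ ψ F₁ φ₁ 0 := by
  classical
  intro ε hε
  have hB : Nonempty B := ⟨φ₁ 0⟩
  have hBpos : (0 : ℝ) < Fintype.card B := by exact_mod_cast Fintype.card_pos
  have hB1 : (1 : ℝ) ≤ Fintype.card B := by exact_mod_cast Fintype.card_pos
  set t : ℝ := 1 - Real.exp (-(ε / 2)) with ht
  have hexp1 : Real.exp (-(ε / 2)) < 1 := by
    rw [Real.exp_lt_one_iff]
    linarith
  have ht0 : 0 < t := by rw [ht]; linarith
  have ht1 : 1 - t = Real.exp (-(ε / 2)) := by rw [ht]; ring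
  have h1t : 0 < 1 - t := by rw [ht1]; exact Real.exp_pos _
  set Lg : ℝ := - Real.log (t / Fintype.card B) with hLg
  have hLg0 : 0 ≤ Lg := by
    rw [hLg, neg_nonneg]
    apply Real.log_nonpos (by positivity)
    rw [div_le_one hBpos]
    linarith
  set η : ℝ := ε / (2 * (Lg + 1)) with hη
  have hη0 : 0 < η := by positivity
  have hηb : Lg * η ≤ ε / 2 := by
    rw [hη, mul_div_assoc', div_le_iff₀ (by positivity)]
    nlinarith
  have : IsProbabilityMeasure (μ.map (mcode ψ)) :=
    Measure.isProbabilityMeasure_map (meas_mcode ψ hψ).aemeasurable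
  obtain ⟨W, θ, hθ⟩ := dens (μ.map (mcode ψ)) Θ hΘ η hη0
  have htot : ∑ b : W → A, ∑ a : B, jlaw μ ψ W F₁ φ₁ b a = 1 := by
    have h1 := jsum μ ψ hψ W F₁ φ₁ (fun _ _ => True)
    simp only [if_true] at h1
    rw [h1]
    simp
  have herr : ∑ b : W → A, ∑ a : B, (if a ≠ θ b then jlaw μ ψ W F₁ φ₁ b a else 0) ≤ η := by
    have h6 : ∑ b : W → A, ∑ a : B, (if a ≠ θ b then jlaw μ ψ W F₁ φ₁ b a else 0)
        = μ.real {x | code F₁ φ₁ x 1 ≠ θ (fun w => mcode ψ x w)} := by
      rw [← jsum μ ψ hψ W F₁ φ₁ (fun b a => a ≠ θ b)]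
      apply Finset.sum_congr rfl
      intro b _
      apply Finset.sum_congr rfl
      intro a _
      by_cases h : a = θ b
      · rw [if_neg (not_not.mpr h), if_neg (not_not.mpr h)]
      · rw [if_pos h, if_pos h]
    rw [h6]
    have hms : MeasurableSet {y : G → A | Θ y ≠ θ (fun w => y w)} := by
      have h2 : Measurable θ := measurable_of_countable _
      have h3 : Measurable (fun (y : G → A) (w : W) => y w) := by
        rw [measurable_pi_iff]
        intro w
        exact measurable_pi_apply _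
      have h4 : MeasurableSet {p : B × B | p.1 ≠ p.2} := (Set.toFinite _).measurableSet
      exact (hΘ.prodMk (h2.comp h3)) h4
    have h5 : (μ.map (mcode ψ)).real {y : G → A | Θ y ≠ θ (fun w => y w)}
        = μ.real {x | Θ (mcode ψ x) ≠ θ (fun w => mcode ψ x w)} := by
      rw [Measure.real, Measure.real, Measure.map_apply (meas_mcode ψ hψ) hms]
      rfl
    rw [h5] at hθ
    refine le_trans (le_of_eq ?_) hθ.le
    apply measureReal_congr
    filter_upwards [hae] with x hx
    apply propext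
    show (code F₁ φ₁ x 1 ≠ θ (fun w => mcode ψ x w)) ↔ (Θ (mcode ψ x) ≠ θ (fun w => mcode ψ x w))
    rw [hx]
  refine ⟨W, inferInstance, fun b a => if a = θ b then 1 - t else t / Fintype.card B, ?_, ?_, ?_⟩
  · intro b a
    simp only
    split_ifs
    · exact h1t
    · positivity
  · intro b
    calc ∑ a : B, (if a = θ b then 1 - t else t / (Fintype.card B : ℝ))
        ≤ ∑ a : B, ((if a = θ b then 1 - t else 0) + t / (Fintype.card B : ℝ)) := by
          apply Finset.sum_le_sum
          intro a _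
          have : 0 < t / (Fintype.card B : ℝ) := by positivity
          split_ifs <;> linarith
      _ = 1 := by
          rw [Finset.sum_add_distrib, Finset.sum_ite_eq' univ (θ b) (fun _ => 1 - t),
            if_pos (Finset.mem_univ _), Finset.sum_const, Finset.card_univ, nsmul_eq_mul,
            mul_div_cancel₀ _ hBpos.ne']
          ring
  · have hpt : ∀ (b : W → A) (a : B), jlaw μ ψ W F₁ φ₁ b a *
        (- Real.log (if a = θ b then 1 - t else t / Fintype.card B))
        ≤ jlaw μ ψ W F₁ φ₁ b a * (ε / 2)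
          + Lg * (if a ≠ θ b then jlaw μ ψ W F₁ φ₁ b a else 0) := by
      intro b a
      have h0 := jlaw_nonneg μ ψ W F₁ φ₁ b a
      by_cases h : a = θ b
      · rw [if_pos h, if_neg (not_not.mpr h), ht1, Real.log_exp, neg_neg]
        simp
      · rw [if_neg h, if_pos h, ← hLg]
        have h1 : 0 ≤ jlaw μ ψ W F₁ φ₁ b a * (ε / 2) := by positivity
        linarith
    calc ∑ b : W → A, ∑ a : B, jlaw μ ψ W F₁ φ₁ b a *
          (- Real.log (if a = θ b then 1 - t else t / Fintype.card B))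
        ≤ ∑ b : W → A, ∑ a : B, (jlaw μ ψ W F₁ φ₁ b a * (ε / 2)
          + Lg * (if a ≠ θ b then jlaw μ ψ W F₁ φ₁ b a else 0)) :=
          Finset.sum_le_sum (fun b _ => Finset.sum_le_sum (fun a _ => hpt b a))
      _ = ε / 2 + Lg * ∑ b : W → A, ∑ a : B, (if a ≠ θ b then jlaw μ ψ W F₁ φ₁ b a else 0) := by
          simp only [Finset.sum_add_distrib, ← Finset.sum_mul, ← Finset.mul_sum]
          rw [htot, one_mul]
      _ ≤ 0 + ε := by
          have := mul_le_mul_of_nonneg_left herr hLg0
          linarith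

end

/-- Measurable factors, approximations by maps. -/
theorem meas_map (d k : ℕ) (hd : 3 ≤ d) (hdk : d < k)
    (μ : Measure (Gam d k → ZMod 2)) (hμ : IsHaarOn (PX (gen d k) k) μ)
    (V : ℕ → Type) [∀ n, Finite (V n)] [∀ n, Nonempty (V n)]
    (σ : ∀ n, Gam d k → Equiv.Perm (V n)) (hσ : IsSoficMap σ) (T : ℝ)
    (hT : TopLe (gen d k) k σ T)
    {A : Type} [Fintype A] [MeasurableSpace A] [MeasurableSingletonClass A]
    (ψ : (Gam d k → ZMod 2) → A) (hψ : Measurable ψ)
    {B : Type} [Fintype B] [MeasurableSpace B] [MeasurableSingletonClass B]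
    (F₁ : Finset (Gam d k)) (hF₁ : F₁.Nonempty) (φ₁ : (F₁ → ZMod 2) → B) (p : ℝ) (hp0 : 0 < p)
    (hp1 : p ≤ 1)
    (hp : ∀ a : B, (Nat.card {z : F₁ → ZMod 2 // φ₁ z = a} : ℝ) ≤ p * 2 ^ F₁.card)
    (H : ℝ) (hH : Pred μ ψ F₁ φ₁ H) :
    soficEntropyM μ σ + (((1 / (F₁.card : ℝ) - d / k) * (- Real.log p) - T - H : ℝ) : EReal)
      ≤ soficEntropyM (μ.map (mcode ψ)) σ ∧
    lowerSoficEntropyM μ σ + (((1 / (F₁.card : ℝ) - d / k) * (- Real.log p) - T - H : ℝ) : EReal)
      ≤ lowerSoficEntropyM (μ.map (mcode ψ)) σ := by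
  have : NeZero k := ⟨by omega⟩
  let I : ∀ n, MulAction (Gam d k) (V n) :=
    fun n => MulAction.compHom (V n) (hom d k (σ n))
  have hc1 : ∀ g : Gam d k, Small (fun n v => σ n g v ≠ g • v) :=
    close_all σ hσ (by omega)
  have hc2 : ∀ g : Gam d k, Small (fun n v => (σ n g)⁻¹ v ≠ g⁻¹ • v) := by
    intro g
    refine (close_inv σ hσ (by omega) g).mono ?_
    intro n v h h'
    apply h
    rw [h']
    show ((hom d k (σ n)) g)⁻¹ v = (hom d k (σ n)) g⁻¹ v
    rw [map_inv]
  have hV := sofic_of σ hσ hc1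
  have hE := exr_of (gen d k) k σ hc2 T hT
  rw [(soficEntropyM_eq σ μ hc2).1, (soficEntropyM_eq σ μ hc2).2,
    (soficEntropyM_eq σ (μ.map (mcode ψ)) hc2).1, (soficEntropyM_eq σ (μ.map (mcode ψ)) hc2).2]
  exact gen_meas (gen d k) k V (by omega) (gen_pow_k d k) (gen_inj d k) μ hμ hV T hE ψ hψ F₁ hF₁ φ₁
    p hp0 hp1 hp H hH

end Pool.Agent.MP_9d0e09_an
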