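import Pool.Agent.Lib.MP_9d0e09_an.Fac2

/-!
# Measurable factors that determine a nonconstant function of few coordinates
-/

open MeasureTheory Filter Topology Finset

namespace Pool.Agent.MP_9d0e09_an

/-- Fibres of a nonconstant map of words. -/
theorem share_lt {G A : Type} (F₀ : Finset G) (φ : (F₀ → ZMod 2) → A)
    (hφ : ∃ z z', φ z ≠ φ z') : F₀.Nonempty ∧ ∀ a : A,
      (Nat.card {w : F₀ → ZMod 2 // φ w = a} : ℝ) ≤ (1 - 1 / 2 ^ F₀.card) * 2 ^ F₀.card := by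
  classical
  obtain ⟨z, z', hzz⟩ := hφ
  have hF₀ : F₀.Nonempty := by
    by_contra hcon
    rw [Finset.not_nonempty_iff_eq_empty] at hcon
    subst hcon
    apply hzz
    congr 1
    funext h
    exact absurd h.2 (Finset.notMem_empty _)
  refine ⟨hF₀, ?_⟩
  intro a
  have hex : ∃ w0, φ w0 ≠ a := by
    by_cases h : φ z = a
    · exact ⟨z', fun h' => hzz (h.trans h'.symm)⟩
    · exact ⟨z, h⟩
  obtain ⟨w0, hw0⟩ := hex
  rw [Nat.card_eq_fintype_card, Fintype.card_subtype]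
  have h1 : (univ.filter (fun w : F₀ → ZMod 2 => φ w = a)) ⊆ univ.erase w0 := by
    intro w hw
    rw [Finset.mem_erase]
    refine ⟨?_, Finset.mem_univ _⟩
    rintro rfl
    exact hw0 (Finset.mem_filter.mp hw).2
  have h2 := Finset.card_le_card h1
  rw [Finset.card_erase_of_mem (Finset.mem_univ _), Finset.card_univ, Fintype.card_fun, ZMod.card,
    Fintype.card_coe] at h2
  have h3 : 1 ≤ 2 ^ F₀.card := Nat.one_le_two_pow
  have h4 : ((univ.filter (fun w : F₀ → ZMod 2 => φ w = a)).card : ℝ) ≤ 2 ^ F₀.card - 1 := by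
    have h5 : (univ.filter (fun w : F₀ → ZMod 2 => φ w = a)).card + 1 ≤ 2 ^ F₀.card := by omega
    have h6 : (((univ.filter (fun w : F₀ → ZMod 2 => φ w = a)).card + 1 : ℕ) : ℝ)
        ≤ ((2 ^ F₀.card : ℕ) : ℝ) := by exact_mod_cast h5
    push_cast at h6
    linarith
  have h7 : (1 - 1 / (2 : ℝ) ^ F₀.card) * 2 ^ F₀.card = 2 ^ F₀.card - 1 := by
    rw [sub_mul, one_mul, one_div, inv_mul_cancel₀ (by positivity)]
  rw [h7]
  exact h4

/-- The measurable factor determines a nonconstant function of fewer than `k / d` coordinates. -/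
theorem meas_pos (d k : ℕ) (hd : 3 ≤ d) (hdk : d < k)
    (μ : Measure (Gam d k → ZMod 2)) (hμ : IsHaarOn (PX (gen d k) k) μ)
    (V : ℕ → Type) [∀ n, Finite (V n)] [∀ n, Nonempty (V n)]
    (σ : ∀ n, Gam d k → Equiv.Perm (V n)) (hσ : IsSoficMap σ) (T : ℝ)
    (hT : TopLe (gen d k) k σ T)
    {A : Type} [Fintype A] [MeasurableSpace A] [MeasurableSingletonClass A]
    (ψ : (Gam d k → ZMod 2) → A) (hψ : Measurable ψ)
    {B : Type} [Fintype B] [MeasurableSpace B] [MeasurableSingletonClass B]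
    (F₁ : Finset (Gam d k)) (φ₁ : (F₁ → ZMod 2) → B) (hφ : ∃ z z', φ₁ z ≠ φ₁ z')
    (hm : d * F₁.card < k) (hH : Pred μ ψ F₁ φ₁ 0) :
    ((T : EReal) ≤ soficEntropyM μ σ → 0 < soficEntropyM (μ.map (mcode ψ)) σ) ∧
    ((T : EReal) ≤ lowerSoficEntropyM μ σ → 0 < lowerSoficEntropyM (μ.map (mcode ψ)) σ) := by
  obtain ⟨hF₁, hp⟩ := share_lt F₁ φ₁ hφ
  have hm1 : 1 ≤ F₁.card := Finset.card_pos.mpr hF₁
  have hm0 : (0 : ℝ) < F₁.card := by exact_mod_cast hm1
  have h2m : (2 : ℝ) ≤ 2 ^ F₁.card := by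
    calc (2 : ℝ) = 2 ^ 1 := by norm_num
      _ ≤ 2 ^ F₁.card := pow_le_pow_right₀ (by norm_num) hm1
  have hx0 : (0 : ℝ) < 1 / 2 ^ F₁.card := by positivity
  have hx1 : (1 : ℝ) / 2 ^ F₁.card ≤ 1 / 2 := one_div_le_one_div_of_le (by norm_num) h2m
  have h1 := meas_map d k hd hdk μ hμ V σ hσ T hT ψ hψ F₁ hF₁ φ₁ (1 - 1 / 2 ^ F₁.card)
    (by linarith) (by linarith) hp 0 hH
  have hlog : Real.log (1 - 1 / 2 ^ F₁.card) < 0 :=
    Real.log_neg (by linarith) (by linarith)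
  have hk0 : (0 : ℝ) < k := by
    have : 0 < k := by omega
    exact_mod_cast this
  have h2 : (d : ℝ) / k < 1 / F₁.card := by
    rw [div_lt_div_iff₀ hk0 hm0, one_mul]
    exact_mod_cast hm
  have h3 : 0 < (1 / (F₁.card : ℝ) - d / k) * (- Real.log (1 - 1 / 2 ^ F₁.card)) :=
    mul_pos (by linarith) (by linarith)
  set c : ℝ := (1 / (F₁.card : ℝ) - d / k) * (- Real.log (1 - 1 / 2 ^ F₁.card)) with hc
  have h4 : (0 : EReal) < ((T : ℝ) : EReal) + ((c - T - 0 : ℝ) : EReal) := by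
    rw [← EReal.coe_add]
    have h5 : T + (c - T - 0) = c := by ring
    rw [h5]
    exact_mod_cast h3
  constructor
  · intro h
    exact h4.trans_le ((add_le_add_left h _).trans h1.1)
  · intro h
    exact h4.trans_le ((add_le_add_left h _).trans h1.2)

end Pool.Agent.MP_9d0e09_an
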