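import Pool.Agent.Lib.MP_9d0e09_an.Def

/-!
# The group `Γ_{d,k}`
-/

namespace Pool.Agent.MP_9d0e09_an

/-- The free product of `d` copies of `Z/k`. -/
abbrev Gam (d k : ℕ) : Type := Monoid.CoprodI (fun _ : Fin d => Multiplicative (ZMod k))

/-- The generator `s_i`. -/
def gen (d k : ℕ) (i : Fin d) : Gam d k :=
  Monoid.CoprodI.of (i := i) (Multiplicative.ofAdd (1 : ZMod k))

theorem gen_pow (d k : ℕ) (i : Fin d) (l : ℕ) :
    gen d k i ^ l = Monoid.CoprodI.of (i := i) (Multiplicative.ofAdd (l : ZMod k)) := by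
  rw [gen, ← map_pow, ← ofAdd_nsmul]
  simp

theorem gen_pow_k (d k : ℕ) (i : Fin d) : gen d k i ^ k = 1 := by
  rw [gen_pow]
  simp

theorem gen_inj (d k : ℕ) (i : Fin d) :
    Set.InjOn (fun l : ℕ => gen d k i ^ l) (Finset.range k : Set ℕ) := by
  intro a ha b hb h
  simp only [gen_pow] at h
  have h1 := Monoid.CoprodI.of_injective (M := fun _ : Fin d => Multiplicative (ZMod k)) i h
  have h2 : (a : ZMod k) = (b : ZMod k) := Multiplicative.ofAdd.injective h1
  rw [ZMod.natCast_eq_natCast_iff] at h2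
  rw [Finset.coe_range, Set.mem_Iio] at ha hb
  exact Nat.ModEq.eq_of_lt_of_lt h2 ha hb

/-- An alternating word of length `n`. -/
def altW (d k : ℕ) (hd : 2 ≤ d) (hk : 2 ≤ k) (n : ℕ) :
    Monoid.CoprodI.Word (fun _ : Fin d => Multiplicative (ZMod k)) where
  toList := (List.range n).map (fun j => ⟨if j % 2 = 0 then ⟨0, by omega⟩ else ⟨1, by omega⟩,
    Multiplicative.ofAdd (1 : ZMod k)⟩)
  ne_one := by
    intro l hl
    rw [List.mem_map] at hl
    obtain ⟨j, _, rfl⟩ := hl
    simp only
    intro h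
    have h2 : (1 : ZMod k) = 0 := Multiplicative.ofAdd.injective h
    have : Fact (1 < k) := ⟨hk⟩
    exact one_ne_zero h2
  chain_ne := by
    rw [List.isChain_iff_getElem]
    intro i hi
    simp only [List.getElem_map, List.getElem_range]
    by_cases h : i % 2 = 0
    · have h2 : (i + 1) % 2 ≠ 0 := by omega
      rw [if_pos h, if_neg h2]
      simp
    · have h2 : (i + 1) % 2 = 0 := by omega
      rw [if_neg h, if_pos h2]
      simp

theorem gam_infinite (d k : ℕ) (hd : 2 ≤ d) (hk : 2 ≤ k) : Infinite (Gam d k) := by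
  classical
  have h1 : Function.Injective (altW d k hd hk) := by
    intro a b h
    have h2 := congrArg (fun w => w.toList.length) h
    simpa [altW] using h2
  have : Infinite (Monoid.CoprodI.Word (fun _ : Fin d => Multiplicative (ZMod k))) :=
    Infinite.of_injective _ h1
  exact Infinite.of_injective (Monoid.CoprodI.Word.equiv (M := fun _ : Fin d =>
    Multiplicative (ZMod k))).symm (Equiv.injective _)

end Pool.Agent.MP_9d0e09_an
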