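import Pool.Agent.Lib.MP_9d0e09_an.Code
import Pool.Agent.Lib.MP_9d0e09_an.Free

/-!
# Sofic entropies
-/

open MeasureTheory Filter Topology Finset

namespace Pool.Agent.MP_9d0e09_an

/-- The block map of the powers `g ^ j`, `j ∈ J`: `x ↦ (γ ↦ ∑ j ∈ J, x (γ g ^ j))`. -/
def powBlk {G : Type} [Group G] (g : G) (J : Finset ℤ) (x : G → ZMod 2) : G → ZMod 2 :=
  fun γ => ∑ j ∈ J, x (γ * g ^ j)

section

variable {G : Type} [Group G] {d : ℕ} (s : Fin d → G) (k : ℕ)

/-- The exact codes have at most the design rate. -/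
def DesignRate (V : ℕ → Type) [∀ n, MulAction G (V n)] : Prop :=
  ∀ ε : ℝ, 0 < ε → ∀ᶠ n in atTop,
    Real.log (Nat.card (Ex s k (V n))) / Nat.card (V n) ≤ (1 - (d : ℝ) / k) * Real.log 2 + ε

variable (V : ℕ → Type) [∀ n, Finite (V n)] [∀ n, Nonempty (V n)] [∀ n, MulAction G (V n)]

theorem exr_tendsto (hk : 0 < k) (hs : ∀ i, s i ^ k = 1)
    (hinj : ∀ i, Set.InjOn (fun l : ℕ => s i ^ l) (Finset.range k : Set ℕ))
    (hV : IsSofic G V) (hr : DesignRate s k V) :
    Tendsto (fun n => exr s k (V n)) atTop (𝓝 ((1 - (d : ℝ) / k) * Real.log 2)) := by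
  classical
  have hlog2 : 0 < Real.log 2 := Real.log_pos (by norm_num)
  have hk0 : (0 : ℝ) < k := by exact_mod_cast hk
  have hnf := bad_small V hV (pw s k)
  rw [tendsto_order]
  constructor
  · intro a ha
    have h1 := (hnf.const_mul (d * Real.log 2))
    rw [mul_zero] at h1
    have h2 : 0 < (1 - (d : ℝ) / k) * Real.log 2 - a := by linarith
    filter_upwards [h1.eventually (gt_mem_nhds h2)] with n hn
    have := Fintype.ofFinite (V n)
    have hVpos : 0 < Fintype.card (V n) := Fintype.card_pos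
    have hNpos : (0 : ℝ) < Fintype.card (V n) := by exact_mod_cast hVpos
    obtain ⟨b, hb0, hb1, hb2⟩ := exists_basis s k (V := V n)
    obtain ⟨hbc, hbN⟩ := basis_card s k hVpos b hb0 hb1 hb2
    have hfew := few_checks s k hs hinj b hb1
    have hcard : Nat.card {v : V n // ¬ Set.InjOn (fun g : G => g⁻¹ • v) (pw s k : Set G)}
        = ((univ : Finset (V n)).filter
        (fun v => ¬ Set.InjOn (fun g : G => g⁻¹ • v) (pw s k : Set G))).card := by
      rw [Nat.card_eq_fintype_card, Fintype.card_subtype]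
    rw [hcard, Nat.card_eq_fintype_card] at hn
    set nf : ℕ := ((univ : Finset (V n)).filter
        (fun v => ¬ Set.InjOn (fun g : G => g⁻¹ • v) (pw s k : Set G))).card with hnfd
    have h3 : k * b.card ≤ d * Fintype.card (V n) + k * (d * nf) := by omega
    have h4 := (Nat.cast_le (α := ℝ)).mpr h3
    push_cast at h4
    rw [hbc] at h4
    set N : ℝ := (Fintype.card (V n) : ℝ) with hN
    have h5 : (k : ℝ) * N * (1 - d / k - d * (nf / N)) ≤ k * N * (exr s k (V n) / Real.log 2) := by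
      have e1 : (k : ℝ) * N * (1 - d / k - d * (nf / N)) = k * N - d * N - k * (d * nf) := by
        field_simp
      rw [e1]
      have e2 : (k : ℝ) * (N * (1 - exr s k (V n) / Real.log 2))
          = k * N - k * N * (exr s k (V n) / Real.log 2) := by ring
      rw [e2] at h4
      linarith
    have h6 : 1 - d / k - d * (nf / N) ≤ exr s k (V n) / Real.log 2 :=
      le_of_mul_le_mul_left h5 (by positivity)
    rw [le_div_iff₀ hlog2] at h6
    have h7 : (1 - d / k - d * (nf / N)) * Real.log 2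
        = (1 - d / k) * Real.log 2 - d * Real.log 2 * (nf / N) := by ring
    rw [h7] at h6
    linarith
  · intro a ha
    have h2 : 0 < (a - (1 - (d : ℝ) / k) * Real.log 2) / 2 := by linarith
    filter_upwards [hr _ h2] with n hn
    rw [exr]
    linarith

theorem lower_of [DecidableEq G] [Infinite G] [Nonempty (Fin d)] (hk : 0 < k)
    (hs : ∀ i, s i ^ k = 1)
    (hinj : ∀ i, Set.InjOn (fun l : ℕ => s i ^ l) (Finset.range k : Set ℕ))
    (μ : Measure (G → ZMod 2)) (hμ : IsHaarOn (PX s k) μ)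
    (hV : IsSofic G V) (hr : DesignRate s k V) (S : Finset G) (c : ℝ)
    (hc : ∀ ε : ℝ, 0 < ε → ∀ᶠ n in atTop,
      c - ε ≤ Real.log (Nat.card (blkV S '' Ex s k (V n))) / Nat.card (V n)) :
    (c : EReal) ≤ lowerSoficEntropy (μ.map (blk S)) V := by
  have hex := exr_tendsto s k V hk hs hinj hV hr
  rw [lowerSoficEntropy]
  apply le_iInf
  intro F
  apply le_iInf
  rintro ⟨δ, hδ⟩
  rw [← EReal.ge_of_forall_gt_iff_ge]
  intro z hz
  have hz' : z < c := by exact_mod_cast hz
  refine le_liminf_of_le (by isBoundedDefault) ?_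
  have h1 := low_ev s k hk hs hinj μ hμ V hV hex F S δ hδ
  have h2 := hc ((c - z) / 2) (by linarith)
  have h3 := (card_large V hV).const_div_atTop (Real.log 2)
  have h4 := h3.eventually (gt_mem_nhds (show (0 : ℝ) < (c - z) / 2 by linarith))
  filter_upwards [h1, h2, h4] with n e1 e2 e4
  have hNpos : (0 : ℝ) < Nat.card (V n) := by exact_mod_cast Nat.card_pos
  have hne : (blkV S '' Ex s k (V n)).Nonempty :=
    ⟨_, 0, by intro v g i; simp, rfl⟩
  have him : (0 : ℝ) < Nat.card (blkV S '' Ex s k (V n)) := by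
    have : Nonempty (blkV S '' Ex s k (V n)) := hne.to_subtype
    exact_mod_cast Nat.card_pos
  have hm : (0 : ℝ) < Nat.card (Mic (μ.map (blk S)) (V n) F δ) := by linarith
  have hmne : Mic (μ.map (blk S)) (V n) F δ ≠ ∅ := by
    intro h0
    rw [h0] at hm
    simp at hm
  simp only [rate]
  rw [if_neg hmne]
  have h5 : Real.log (Nat.card (blkV S '' Ex s k (V n)))
      ≤ Real.log 2 + Real.log (Nat.card (Mic (μ.map (blk S)) (V n) F δ)) := by
    rw [← Real.log_mul (by norm_num) hm.ne']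
    exact Real.log_le_log him e1
  have h6 : Real.log (Nat.card (blkV S '' Ex s k (V n))) / Nat.card (V n)
      ≤ Real.log 2 / Nat.card (V n)
        + Real.log (Nat.card (Mic (μ.map (blk S)) (V n) F δ)) / Nat.card (V n) := by
    rw [← add_div]
    exact div_le_div_of_nonneg_right h5 hNpos.le
  have h7 : z ≤ Real.log (Nat.card (Mic (μ.map (blk S)) (V n) F δ)) / Nat.card (V n) := by
    linarith
  exact_mod_cast h7

theorem upper_of (hk : 0 < k) (hs : ∀ i, s i ^ k = 1)
    (hinj : ∀ i, Set.InjOn (fun l : ℕ => s i ^ l) (Finset.range k : Set ℕ))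
    (μ : Measure (G → ZMod 2)) (hμ : IsHaarOn (PX s k) μ)
    (hV : IsSofic G V) (hr : DesignRate s k V) :
    soficEntropy μ V ≤ (((1 - (d : ℝ) / k) * Real.log 2 : ℝ) : EReal) := by
  classical
  have hex := exr_tendsto s k V hk hs hinj hV hr
  rw [← EReal.le_of_forall_lt_iff_le]
  intro z hz
  have hz' : (1 - (d : ℝ) / k) * Real.log 2 < z := by exact_mod_cast hz
  set c := (1 - (d : ℝ) / k) * Real.log 2 with hc
  obtain ⟨δ, hδ, hup⟩ := up_rate s k μ hμ ((z - c) / 2) (by linarith)
  rw [soficEntropy]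
  refine (iInf_le _ (pw s k)).trans ((iInf_le _ ⟨δ, hδ⟩).trans ?_)
  refine limsup_le_of_le (by isBoundedDefault) ?_
  have h1 := hex.eventually (gt_mem_nhds (show c < c + (z - c) / 2 by linarith))
  filter_upwards [h1] with n e1
  simp only [rate]
  split_ifs with h0
  · exact bot_le
  · have h2 := hup (V n) (Set.nonempty_iff_ne_empty.mpr h0)
    have h3 : Real.log (Nat.card (Mic μ (V n) (pw s k) δ)) / Nat.card (V n) ≤ z := by linarith
    exact_mod_cast h3

omit [∀ n, Finite (V n)] [∀ n, Nonempty (V n)] in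
theorem lower_le_upper (μ : Measure (G → ZMod 2)) :
    lowerSoficEntropy μ V ≤ soficEntropy μ V := by
  rw [lowerSoficEntropy, soficEntropy]
  apply iInf_mono
  intro F
  apply iInf_mono
  intro δ
  exact liminf_le_limsup

theorem lower_code [Infinite G] [Nonempty (Fin d)] (hk : 0 < k) (hs : ∀ i, s i ^ k = 1)
    (hinj : ∀ i, Set.InjOn (fun l : ℕ => s i ^ l) (Finset.range k : Set ℕ))
    (μ : Measure (G → ZMod 2)) (hμ : IsHaarOn (PX s k) μ)
    (hV : IsSofic G V) (hr : DesignRate s k V)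
    {A : Type} [Finite A] [MeasurableSpace A] [MeasurableSingletonClass A]
    (F₀ : Finset G) (hF₀ : F₀.Nonempty) (φ : (F₀ → ZMod 2) → A) (p : ℝ) (hp0 : 0 < p)
    (hp : ∀ a : A, (Nat.card {z : F₀ → ZMod 2 // φ z = a} : ℝ) ≤ p * 2 ^ F₀.card) :
    ((- Real.log p / F₀.card - (d : ℝ) / k * Real.log 2 : ℝ) : EReal)
      ≤ lowerSoficEntropy (μ.map (code F₀ φ)) V := by
  classical
  have := hμ.prob
  have hex := exr_tendsto s k V hk hs hinj hV hr
  have hblk : blk ({1} : Finset G) = id := by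
    funext x g
    simp [blk]
  set m := F₀.card with hm
  have hm0 : (0 : ℝ) < m := by exact_mod_cast Finset.card_pos.mpr hF₀
  have hp' : ∀ a : A, (((univ : Finset (F₀ → ZMod 2)).filter (fun z => φ z = a)).card : ℝ)
      ≤ p * 2 ^ F₀.card := by
    intro a
    have h := hp a
    rw [Nat.card_eq_fintype_card, Fintype.card_subtype] at h
    exact h
  rw [lowerSoficEntropy]
  apply le_iInf
  intro F
  apply le_iInf
  rintro ⟨δ, hδ⟩
  rw [← EReal.ge_of_forall_gt_iff_ge]
  intro z hz
  set c : ℝ := - Real.log p / m - (d : ℝ) / k * Real.log 2 with hc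
  have hz' : z < c := by exact_mod_cast hz
  refine le_liminf_of_le (by isBoundedDefault) ?_
  let F' : Finset G := (F ×ˢ F₀).image (fun p : G × G => p.1 * p.2)
  have hF' : ∀ g ∈ F, ∀ h ∈ F₀, g * h ∈ F' := by
    intro g hg h hh
    exact Finset.mem_image.mpr ⟨(g, h), Finset.mk_mem_product hg hh, rfl⟩
  have h2F : (0 : ℝ) < 2 ^ F'.card := by positivity
  have hδ' : 0 < δ / 2 ^ F'.card := by positivity
  have h1 := low_ev s k hk hs hinj μ hμ V hV hex F' {1} (δ / 2 ^ F'.card) hδ'
  have h3 := (card_large V hV).const_div_atTop (Real.log 2)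
  have h4 := bad_small V hV F₀
  have h5 : Tendsto (fun n => exr s k (V n) - Real.log 2 / Nat.card (V n) - Real.log 2
      - Real.log p / m * (1 - (Nat.card {v : V n // ¬ Set.InjOn (fun g : G => g⁻¹ • v)
        (F₀ : Set G)} : ℝ) / Nat.card (V n))) atTop
      (𝓝 ((1 - (d : ℝ) / k) * Real.log 2 - 0 - Real.log 2 - Real.log p / m * (1 - 0))) := by
    apply Tendsto.sub
    · apply Tendsto.sub
      · exact hex.sub h3
      · exact tendsto_const_nhds
    · apply Tendsto.const_mul
      exact tendsto_const_nhds.sub h4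
  have h6 : (1 - (d : ℝ) / k) * Real.log 2 - 0 - Real.log 2 - Real.log p / m * (1 - 0) = c := by
    rw [hc]; ring
  rw [h6] at h5
  filter_upwards [h1, h5.eventually (lt_mem_nhds hz')] with n e1 e5
  have := Fintype.ofFinite (V n)
  have := Fintype.ofFinite A
  have hVpos : 0 < Fintype.card (V n) := Fintype.card_pos
  have hNpos : (0 : ℝ) < Fintype.card (V n) := by exact_mod_cast hVpos
  have hblkV : (blkV ({1} : Finset G) : (V n → ZMod 2) → _) = id := by
    funext x v
    simp [blkV]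
  rw [hblk, Measure.map_id, hblkV, Set.image_id] at e1
  set M1 := Mic μ (V n) F' (δ / 2 ^ F'.card) with hM1
  set M2 := Mic (μ.map (code F₀ φ)) (V n) F δ with hM2
  have hpush : ∀ x ∈ M1, codeV F₀ φ x ∈ M2 := by
    intro x hx
    refine push_mic μ F₀ F F' hF' φ δ (δ / 2 ^ F'.card) hδ ?_ x hx
    rw [mul_div_cancel₀ _ h2F.ne']
  have hExpos : (0 : ℝ) < Nat.card (Ex s k (V n)) := by
    have : Nonempty (Ex s k (V n)) := ⟨⟨0, by intro v g i; simp⟩⟩
    exact_mod_cast Nat.card_pos
  have hM1pos : (0 : ℝ) < Nat.card M1 := by linarith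
  set B : ℝ := 2 ^ Fintype.card (V n) * p ^ ((1 / (m : ℝ)) * (((Fintype.card (V n) : ℝ)
      - (Nat.card {v : V n // ¬ Set.InjOn (fun g : G => g⁻¹ • v) (F₀ : Set G)} : ℝ)))) with hB
  have hBpos : 0 < B := by
    have := Real.rpow_pos_of_pos hp0 ((1 / (m : ℝ)) * (((Fintype.card (V n) : ℝ)
      - (Nat.card {v : V n // ¬ Set.InjOn (fun g : G => g⁻¹ • v) (F₀ : Set G)} : ℝ))))
    positivity
  have hfib : ∀ y : V n → A,
      (((univ : Finset (V n → ZMod 2)).filter (fun x => codeV F₀ φ x = y)).card : ℝ) ≤ B := by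
    intro y
    have h := code_fiber F₀ hF₀ φ p hp0 hp' y
    rw [hB, Nat.card_eq_fintype_card, Fintype.card_subtype]
    exact h
  have hM12 : (Nat.card M1 : ℝ) ≤ Nat.card M2 * B := by
    have hc1 : Nat.card M1 = M1.toFinset.card := by
      rw [Nat.card_coe_set_eq, Set.ncard_eq_toFinset_card']
    have hc2 : Nat.card M2 = M2.toFinset.card := by
      rw [Nat.card_coe_set_eq, Set.ncard_eq_toFinset_card']
    rw [hc1, hc2]
    have h7 : (M1.toFinset.card : ℝ)
        = ∑ y ∈ M1.toFinset.image (codeV F₀ φ),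
          ((M1.toFinset.filter (fun x => codeV F₀ φ x = y)).card : ℝ) := by
      exact_mod_cast Finset.card_eq_sum_card_image (codeV F₀ φ) M1.toFinset
    rw [h7]
    calc ∑ y ∈ M1.toFinset.image (codeV F₀ φ),
          ((M1.toFinset.filter (fun x => codeV F₀ φ x = y)).card : ℝ)
        ≤ ∑ y ∈ M1.toFinset.image (codeV F₀ φ), B := by
          apply Finset.sum_le_sum
          intro y _
          refine le_trans ?_ (hfib y)
          exact_mod_cast Finset.card_le_card (Finset.filter_subset_filter _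
            (Finset.subset_univ _))
      _ = (M1.toFinset.image (codeV F₀ φ)).card * B := by
          rw [Finset.sum_const, nsmul_eq_mul]
      _ ≤ M2.toFinset.card * B := by
          apply mul_le_mul_of_nonneg_right _ hBpos.le
          have h8 : M1.toFinset.image (codeV F₀ φ) ⊆ M2.toFinset := by
            intro y hy
            rw [Finset.mem_image] at hy
            obtain ⟨x, hx, rfl⟩ := hy
            rw [Set.mem_toFinset] at hx ⊢
            exact hpush x hx
          exact_mod_cast Finset.card_le_card h8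
  have hM2pos : (0 : ℝ) < Nat.card M2 := by
    by_contra hcon
    have h9 : (Nat.card M2 : ℝ) = 0 := le_antisymm (not_lt.mp hcon) (by positivity)
    rw [h9, zero_mul] at hM12
    linarith
  have hM2ne : M2 ≠ ∅ := by
    intro h0
    rw [h0] at hM2pos
    simp at hM2pos
  simp only [rate]
  rw [if_neg hM2ne]
  have h7 : Real.log (Nat.card (Ex s k (V n)))
      ≤ Real.log 2 + (Real.log (Nat.card M2) + (Fintype.card (V n) * Real.log 2
        + (1 / (m : ℝ)) * (((Fintype.card (V n) : ℝ)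
      - (Nat.card {v : V n // ¬ Set.InjOn (fun g : G => g⁻¹ • v) (F₀ : Set G)} : ℝ)))
        * Real.log p)) := by
    have h8 : (Nat.card (Ex s k (V n)) : ℝ) ≤ 2 * (Nat.card M2 * B) := by linarith
    have h9 := Real.log_le_log hExpos h8
    rw [Real.log_mul (by norm_num) (by positivity), Real.log_mul hM2pos.ne' hBpos.ne', hB,
      Real.log_mul (by positivity) (Real.rpow_pos_of_pos hp0 _).ne', Real.log_pow,
      Real.log_rpow hp0] at h9
    exact h9
  rw [exr, Nat.card_eq_fintype_card (α := V n)] at e5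
  have h10 : z ≤ Real.log (Nat.card M2) / Nat.card (V n) := by
    rw [Nat.card_eq_fintype_card (α := V n), le_div_iff₀ hNpos]
    set N : ℝ := (Fintype.card (V n) : ℝ) with hN
    set bd : ℝ := (Nat.card {v : V n // ¬ Set.InjOn (fun g : G => g⁻¹ • v) (F₀ : Set G)} : ℝ)
      with hbd
    have h11 := mul_lt_mul_of_pos_right e5 hNpos
    have h12 : (Real.log (Nat.card (Ex s k (V n))) / N - Real.log 2 / N - Real.log 2
        - Real.log p / m * (1 - bd / N)) * N
        = Real.log (Nat.card (Ex s k (V n))) - Real.log 2 - Real.log 2 * N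
          - (1 / (m : ℝ)) * (N - bd) * Real.log p := by
      field_simp
    rw [h12] at h11
    linarith
  exact_mod_cast h10

theorem pos_code [Infinite G] [Nonempty (Fin d)] (hk : 0 < k) (hs : ∀ i, s i ^ k = 1)
    (hinj : ∀ i, Set.InjOn (fun l : ℕ => s i ^ l) (Finset.range k : Set ℕ))
    (μ : Measure (G → ZMod 2)) (hμ : IsHaarOn (PX s k) μ)
    (hV : IsSofic G V) (hr : DesignRate s k V)
    {A : Type} [Finite A] [MeasurableSpace A] [MeasurableSingletonClass A]
    (F₀ : Finset G) (φ : (F₀ → ZMod 2) → A) (hφ : ∃ z z', φ z ≠ φ z')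
    (hdk : d * (F₀.card * 2 ^ F₀.card) ≤ k) :
    0 < lowerSoficEntropy (μ.map (code F₀ φ)) V := by
  classical
  obtain ⟨z, z', hzz⟩ := hφ
  have hF₀ : F₀.Nonempty := by
    by_contra hcon
    rw [Finset.not_nonempty_iff_eq_empty] at hcon
    subst hcon
    apply hzz
    congr 1
    funext h
    exact absurd h.2 (Finset.notMem_empty _)
  set m := F₀.card with hm
  have hm1 : 1 ≤ m := Finset.card_pos.mpr hF₀
  have hm0 : (0 : ℝ) < m := by exact_mod_cast hm1
  have h2m : (2 : ℝ) ≤ 2 ^ m := by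
    calc (2 : ℝ) = 2 ^ 1 := by norm_num
      _ ≤ 2 ^ m := pow_le_pow_right₀ (by norm_num) hm1
  have hx0 : (0 : ℝ) < 1 / 2 ^ m := by positivity
  have hx1 : (1 : ℝ) / 2 ^ m ≤ 1 / 2 := by
    apply one_div_le_one_div_of_le (by norm_num) h2m
  have hp : ∀ a : A, (Nat.card {w : F₀ → ZMod 2 // φ w = a} : ℝ)
      ≤ (1 - 1 / 2 ^ m) * 2 ^ F₀.card := by
    intro a
    have hex : ∃ w0, φ w0 ≠ a := by
      by_cases h : φ z = a
      · exact ⟨z', fun h' => hzz (h.trans h'.symm)⟩
      · exact ⟨z, h⟩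
    obtain ⟨w0, hw0⟩ := hex
    rw [Nat.card_eq_fintype_card, Fintype.card_subtype]
    have h1 : (univ.filter (fun w : F₀ → ZMod 2 => φ w = a)) ⊆ univ.erase w0 := by
      intro w hw
      rw [Finset.mem_erase]
      refine ⟨?_, Finset.mem_univ _⟩
      rintro rfl
      exact hw0 (Finset.mem_filter.mp hw).2
    have h2 := Finset.card_le_card h1
    rw [Finset.card_erase_of_mem (Finset.mem_univ _), Finset.card_univ, Fintype.card_fun, ZMod.card,
      Fintype.card_coe] at h2
    have h3 : 1 ≤ 2 ^ F₀.card := Nat.one_le_two_pow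
    have h4 : ((univ.filter (fun w : F₀ → ZMod 2 => φ w = a)).card : ℝ) ≤ 2 ^ F₀.card - 1 := by
      have h5 : (univ.filter (fun w : F₀ → ZMod 2 => φ w = a)).card + 1 ≤ 2 ^ F₀.card := by omega
      have h6 : (((univ.filter (fun w : F₀ → ZMod 2 => φ w = a)).card + 1 : ℕ) : ℝ)
          ≤ ((2 ^ F₀.card : ℕ) : ℝ) := by exact_mod_cast h5
      push_cast at h6
      linarith
    have h7 : (1 - 1 / (2 : ℝ) ^ m) * 2 ^ F₀.card = 2 ^ F₀.card - 1 := by
      rw [← hm, sub_mul, one_mul, one_div, inv_mul_cancel₀ (by positivity)]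
    rw [h7]
    exact h4
  have hlow := lower_code s k V hk hs hinj μ hμ hV hr F₀ hF₀ φ (1 - 1 / 2 ^ m) (by linarith) hp
  refine lt_of_lt_of_le ?_ hlow
  have hlog : Real.log (1 - 1 / 2 ^ m) ≤ - (1 / 2 ^ m) := by
    have := Real.log_le_sub_one_of_pos (show (0 : ℝ) < 1 - 1 / 2 ^ m by linarith)
    linarith
  have hd0 : (0 : ℝ) < d := by
    have h8 : 0 < d := by
      have := Fin.pos_iff_nonempty.mpr (inferInstance : Nonempty (Fin d))
      exact this
    exact_mod_cast h8
  have hk0 : (0 : ℝ) < k := by exact_mod_cast hk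
  have hdk' : (d : ℝ) * (m * 2 ^ m) ≤ k := by exact_mod_cast hdk
  have hl2 : Real.log 2 < 1 := by
    have := Real.log_two_lt_d9
    linarith
  have h9 : (d : ℝ) / k ≤ 1 / (m * 2 ^ m) := by
    rw [div_le_div_iff₀ hk0 (by positivity)]
    linarith
  have h10 : (d : ℝ) / k * Real.log 2 < 1 / (m * 2 ^ m) := by
    calc (d : ℝ) / k * Real.log 2 < (d : ℝ) / k * 1 :=
          mul_lt_mul_of_pos_left hl2 (by positivity)
      _ = (d : ℝ) / k := by ring
      _ ≤ _ := h9
  have h11 : 1 / ((m : ℝ) * 2 ^ m) ≤ - Real.log (1 - 1 / 2 ^ m) / m := by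
    rw [le_div_iff₀ hm0]
    have h12 : 1 / ((m : ℝ) * 2 ^ m) * m = 1 / 2 ^ m := by
      field_simp
    rw [h12]
    linarith
  have h13 : 0 < - Real.log (1 - 1 / 2 ^ m) / m - (d : ℝ) / k * Real.log 2 := by linarith
  exact_mod_cast h13

theorem main [Infinite G] [Nonempty (Fin d)] (hk : 0 < k)
    (hs : ∀ i, s i ^ k = 1)
    (hinj : ∀ i, Set.InjOn (fun l : ℕ => s i ^ l) (Finset.range k : Set ℕ))
    (μ : Measure (G → ZMod 2)) (hμ : IsHaarOn (PX s k) μ)
    (hV : IsSofic G V) (hr : DesignRate s k V) :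
    soficEntropy μ V = (((1 - (d : ℝ) / k) * Real.log 2 : ℝ) : EReal) ∧
    lowerSoficEntropy μ V = (((1 - (d : ℝ) / k) * Real.log 2 : ℝ) : EReal) ∧
    (∀ g : G, ¬ IsOfFinOrder g → ∀ J : Finset ℤ, J.Nonempty →
      (((1 - (d : ℝ) / k) * Real.log 2 : ℝ) : EReal)
        ≤ lowerSoficEntropy (μ.map (powBlk g J)) V) ∧
    (∀ (A : Type) [Finite A] [MeasurableSpace A] [MeasurableSingletonClass A] (F₀ : Finset G)
      (φ : (F₀ → ZMod 2) → A) (p : ℝ), F₀.Nonempty → 0 < p →
      (∀ a : A, (Nat.card {z : F₀ → ZMod 2 // φ z = a} : ℝ) ≤ p * 2 ^ F₀.card) →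
      ((- Real.log p / F₀.card - (d : ℝ) / k * Real.log 2 : ℝ) : EReal)
        ≤ lowerSoficEntropy (μ.map (code F₀ φ)) V) ∧
    ∀ (A : Type) [Finite A] [MeasurableSpace A] [MeasurableSingletonClass A] (F₀ : Finset G)
      (φ : (F₀ → ZMod 2) → A), (∃ z z', φ z ≠ φ z') → d * (F₀.card * 2 ^ F₀.card) ≤ k →
      0 < lowerSoficEntropy (μ.map (code F₀ φ)) V := by
  classical
  set c := (1 - (d : ℝ) / k) * Real.log 2 with hc
  have hex := exr_tendsto s k V hk hs hinj hV hr
  have hup := upper_of s k V hk hs hinj μ hμ hV hr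
  have hlow : (c : EReal) ≤ lowerSoficEntropy μ V := by
    have h1 : blk ({1} : Finset G) = id := by
      funext x g
      simp [blk]
    have h2 := lower_of s k V hk hs hinj μ hμ hV hr {1} c (by
      intro ε hε
      have h3 := hex.eventually (lt_mem_nhds (show c - ε < c by linarith))
      filter_upwards [h3] with n hn
      have h4 : (blkV ({1} : Finset G) : (V n → ZMod 2) → _) = id := by
        funext x v
        simp [blkV]
      rw [h4, Set.image_id]
      exact hn.le)
    rw [h1, Measure.map_id] at h2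
    exact h2
  refine ⟨le_antisymm hup (hlow.trans (lower_le_upper V μ)),
    le_antisymm ((lower_le_upper V μ).trans hup) hlow, ?_,
    fun A _ _ _ F₀ φ p hF₀ hp0 hp => lower_code s k V hk hs hinj μ hμ hV hr F₀ hF₀ φ p hp0 hp,
    fun A _ _ _ F₀ φ hφ hdk => pos_code s k V hk hs hinj μ hμ hV hr F₀ φ hφ hdk⟩
  intro g hg J hJ
  have hinjz : Function.Injective (fun j : ℤ => g ^ j) := injective_zpow_iff_not_isOfFinOrder.mpr hg
  have h1 : powBlk g J = blk (J.image (fun j => g ^ j)) := by
    funext x γ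
    rw [powBlk, blk, Finset.sum_image (fun a _ b _ h => hinjz h)]
  rw [h1]
  apply lower_of s k V hk hs hinj μ hμ hV hr
  intro ε hε
  have h3 := hex.eventually (lt_mem_nhds (show c - ε / 2 < c by linarith))
  filter_upwards [h3, cyc_rate s k V hV g hg J hJ (ε / 2) (by linarith)] with n e1 e2
  linarith

end

end Pool.Agent.MP_9d0e09_an
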