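import Pool.Agent.Lib.MP_9d0e09_an.Def

/-!
# Characters and microstates
-/

open MeasureTheory Filter Topology Finset

namespace Pool.Agent.MP_9d0e09_an

section

variable {G : Type} [Group G]

omit [Group G] in
theorem cyl_expand [DecidableEq G] (F : Finset G) (a f : G → ZMod 2) :
    (if ∀ g ∈ F, f g = a g then (1 : ℝ) else 0)
      = (1 / 2) ^ F.card * ∑ T ∈ F.powerset, sg (∑ g ∈ T, a g) * sg (∑ g ∈ T, f g) := by
  have h1 : ∀ g, (if f g = a g then (1 : ℝ) else 0) = (1 / 2) * (1 + sg (a g) * sg (f g)) := by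
    intro g
    rw [← sg_add]
    split_ifs with h
    · rw [h]
      have : a g + a g = 0 := CharTwo.add_self_eq_zero _
      rw [this, sg_zero]; norm_num
    · have : a g + f g ≠ 0 := by
        intro h0
        apply h
        have h2 : f g = - a g := by
          rw [eq_neg_iff_add_eq_zero, add_comm]; exact h0
        rw [h2]
        exact CharTwo.neg_eq _
      rw [sg_ne this]; norm_num
  have h2 : (if ∀ g ∈ F, f g = a g then (1 : ℝ) else 0) = ∏ g ∈ F, (if f g = a g then (1 : ℝ) else 0) := by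
    rw [Finset.prod_ite_zero]
    simp
  rw [h2, Finset.prod_congr rfl (fun g _ => h1 g), Finset.prod_mul_distrib, Finset.prod_const]
  congr 1
  rw [Finset.prod_one_add]
  apply Finset.sum_congr rfl
  intro T _
  rw [Finset.prod_mul_distrib, sg_sum, sg_sum]

omit [Group G] in
theorem meas_sum {ι : Type} (P : Finset ι) (e : ι → G) :
    Measurable (fun y : G → ZMod 2 => ∑ p ∈ P, y (e p)) := by
  apply Finset.measurable_sum
  intro p _
  exact measurable_pi_apply _

theorem meas_sg : Measurable sg := measurable_of_countable _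

omit [Group G] in
theorem int_triv (X : Set (G → ZMod 2)) (μ : Measure (G → ZMod 2)) (hμ : IsHaarOn X μ)
    {ι : Type} (P : Finset ι) (e : ι → G) (h : ∀ x ∈ X, ∑ p ∈ P, x (e p) = 0) :
    ∫ y, sg (∑ p ∈ P, y (e p)) ∂μ = 1 := by
  have := hμ.prob
  have h1 : ∀ᵐ y ∂μ, sg (∑ p ∈ P, y (e p)) = 1 := by
    have h2 : ∀ᵐ y ∂μ, y ∈ X := by
      rw [ae_iff]; exact hμ.supp
    filter_upwards [h2] with y hy
    rw [h y hy, sg_zero]
  rw [integral_congr_ae h1]
  simp

omit [Group G] in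
theorem int_nontriv (X : Set (G → ZMod 2)) (μ : Measure (G → ZMod 2)) (hμ : IsHaarOn X μ)
    {ι : Type} (P : Finset ι) (e : ι → G) (h : ∃ x ∈ X, ∑ p ∈ P, x (e p) ≠ 0) :
    ∫ y, sg (∑ p ∈ P, y (e p)) ∂μ = 0 := by
  have := hμ.prob
  obtain ⟨x0, hx0, hne⟩ := h
  have hm : Measurable (fun y : G → ZMod 2 => sg (∑ p ∈ P, y (e p))) :=
    meas_sg.comp (meas_sum P e)
  have ht : Measurable (fun y : G → ZMod 2 => x0 + y) := by
    rw [measurable_pi_iff]
    intro g
    exact (measurable_of_countable (fun a : ZMod 2 => x0 g + a)).comp (measurable_pi_apply g)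
  have h1 : ∫ y, sg (∑ p ∈ P, y (e p)) ∂μ = ∫ y, sg (∑ p ∈ P, (x0 + y) (e p)) ∂μ := by
    conv_lhs => rw [← hμ.inv x0 hx0]
    rw [integral_map ht.aemeasurable hm.aestronglyMeasurable]
  have h2 : ∀ y : G → ZMod 2, sg (∑ p ∈ P, (x0 + y) (e p)) = - sg (∑ p ∈ P, y (e p)) := by
    intro y
    simp only [Pi.add_apply, Finset.sum_add_distrib]
    rw [sg_add, sg_ne hne]; ring
  simp only [h2] at h1
  rw [integral_neg] at h1
  linarith

omit [Group G] in
theorem int_bdd (μ : Measure (G → ZMod 2)) [IsProbabilityMeasure μ]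
    {ι : Type} (P : Finset ι) (e : ι → G) :
    Integrable (fun y : G → ZMod 2 => sg (∑ p ∈ P, y (e p))) μ := by
  have hm : Measurable (fun y : G → ZMod 2 => sg (∑ p ∈ P, y (e p))) :=
    meas_sg.comp (meas_sum P e)
  apply Integrable.of_bound hm.aestronglyMeasurable 1
  filter_upwards with y
  rw [Real.norm_eq_abs, abs_sg]

theorem meas_blk (S : Finset G) : Measurable (blk S) := by
  rw [measurable_pi_iff]
  intro g
  exact meas_sum S (fun h => g * h)

theorem real_cyl [DecidableEq G] (μ : Measure (G → ZMod 2)) [IsProbabilityMeasure μ] (S F : Finset G)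
    (a : G → ZMod 2) :
    (μ.map (blk S)).real {y | ∀ g ∈ F, y g = a g}
      = (1 / 2) ^ F.card * ∑ T ∈ F.powerset, sg (∑ g ∈ T, a g) *
        ∫ y, sg (∑ p ∈ T ×ˢ S, y (p.1 * p.2)) ∂μ := by
  classical
  have hms : MeasurableSet {y : G → ZMod 2 | ∀ g ∈ F, y g = a g} := by
    have : {y : G → ZMod 2 | ∀ g ∈ F, y g = a g} = ⋂ g ∈ F, {y | y g = a g} := by
      ext y; simp
    rw [this]
    apply Finset.measurableSet_biInter
    intro g _
    have h0 : {y : G → ZMod 2 | y g = a g} = (fun y : G → ZMod 2 => y g) ⁻¹' {a g} := rfl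
    rw [h0]
    have hm : Measurable (fun y : G → ZMod 2 => y g) := measurable_pi_apply g
    exact hm (MeasurableSet.singleton (a g))
  rw [Measure.real, Measure.map_apply (meas_blk S) hms]
  have hms2 : MeasurableSet (blk S ⁻¹' {y : G → ZMod 2 | ∀ g ∈ F, y g = a g}) :=
    meas_blk S hms
  have h1 : (μ (blk S ⁻¹' {y : G → ZMod 2 | ∀ g ∈ F, y g = a g})).toReal
      = ∫ y, (if ∀ g ∈ F, blk S y g = a g then (1 : ℝ) else 0) ∂μ := by
    have h2 : (fun y : G → ZMod 2 => if ∀ g ∈ F, blk S y g = a g then (1 : ℝ) else 0)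
        = (blk S ⁻¹' {y : G → ZMod 2 | ∀ g ∈ F, y g = a g}).indicator (fun _ => (1 : ℝ)) := by
      funext y
      simp [Set.indicator]
    rw [h2, integral_indicator hms2]
    simp [Measure.real]
  rw [h1]
  simp only [cyl_expand F a]
  rw [integral_const_mul, integral_finsetSum]
  · congr 1
    apply Finset.sum_congr rfl
    intro T _
    rw [integral_const_mul]
    congr 2
    funext y
    rw [Finset.sum_product]
    rfl
  · intro T _
    apply Integrable.const_mul
    have h3 : ∀ y : G → ZMod 2, ∑ g ∈ T, blk S y g = ∑ p ∈ T ×ˢ S, y (p.1 * p.2) := by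
      intro y
      rw [Finset.sum_product]; rfl
    simp only [h3]
    exact int_bdd μ (T ×ˢ S) (fun p => p.1 * p.2)

theorem emp_eq [DecidableEq G] {V : Type} [Fintype V] [MulAction G V] (S F : Finset G)
    (x : V → ZMod 2) (a : G → ZMod 2) :
    emp V F (blkV S x) a
      = (1 / 2) ^ F.card * ∑ T ∈ F.powerset, sg (∑ g ∈ T, a g) *
        ((∑ v : V, sg (∑ p ∈ T ×ˢ S, x ((p.1 * p.2)⁻¹ • v))) / Fintype.card V) := by
  classical
  have h1 : (Nat.card {v : V // ∀ g ∈ F, blkV S x (g⁻¹ • v) = a g} : ℝ)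
      = ∑ v : V, if ∀ g ∈ F, blkV S x (g⁻¹ • v) = a g then (1 : ℝ) else 0 := by
    rw [Finset.sum_boole, Nat.card_eq_fintype_card, Fintype.card_subtype]
  rw [emp, h1, Nat.card_eq_fintype_card]
  have h2 : ∀ v : V, (if ∀ g ∈ F, blkV S x (g⁻¹ • v) = a g then (1 : ℝ) else 0)
      = (1 / 2) ^ F.card * ∑ T ∈ F.powerset, sg (∑ g ∈ T, a g) *
        sg (∑ p ∈ T ×ˢ S, x ((p.1 * p.2)⁻¹ • v)) := by
    intro v
    rw [cyl_expand F a (fun g => blkV S x (g⁻¹ • v))]
    congr 1
    apply Finset.sum_congr rfl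
    intro T _
    congr 2
    rw [Finset.sum_product]
    apply Finset.sum_congr rfl
    intro g _
    rw [blkV]
    apply Finset.sum_congr rfl
    intro h _
    rw [mul_inv_rev, mul_smul]
  rw [Finset.sum_congr rfl (fun v _ => h2 v), ← Finset.mul_sum, Finset.sum_comm, mul_div_assoc,
    Finset.sum_div]
  congr 1
  apply Finset.sum_congr rfl
  intro T _
  rw [← Finset.mul_sum, mul_div_assoc]

theorem mic_of [DecidableEq G] {V : Type} [Fintype V] [MulAction G V] (μ : Measure (G → ZMod 2))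
    [IsProbabilityMeasure μ] (S F : Finset G) (δ : ℝ) (x : V → ZMod 2)
    (h : ∀ T ∈ F.powerset,
      |(∑ v : V, sg (∑ p ∈ T ×ˢ S, x ((p.1 * p.2)⁻¹ • v))) / Fintype.card V
        - ∫ y, sg (∑ p ∈ T ×ˢ S, y (p.1 * p.2)) ∂μ| < δ) :
    blkV S x ∈ Mic (μ.map (blk S)) V F δ := by
  intro a
  rw [emp_eq, real_cyl, ← mul_sub, ← Finset.sum_sub_distrib, abs_mul, abs_pow, abs_of_pos
    (by norm_num : (0 : ℝ) < 1 / 2)]
  have h1 : |∑ T ∈ F.powerset, (sg (∑ g ∈ T, a g) *
        ((∑ v : V, sg (∑ p ∈ T ×ˢ S, x ((p.1 * p.2)⁻¹ • v))) / Fintype.card V)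
        - sg (∑ g ∈ T, a g) * ∫ y, sg (∑ p ∈ T ×ˢ S, y (p.1 * p.2)) ∂μ)|
      < ∑ T ∈ F.powerset, δ := by
    refine lt_of_le_of_lt (Finset.abs_sum_le_sum_abs _ _) ?_
    apply Finset.sum_lt_sum_of_nonempty ⟨∅, Finset.empty_mem_powerset F⟩
    intro T hT
    rw [← mul_sub, abs_mul, abs_sg, one_mul]
    exact h T hT
  rw [Finset.sum_const, Finset.card_powerset, nsmul_eq_mul] at h1
  calc (1 / 2 : ℝ) ^ F.card * |∑ T ∈ F.powerset, (sg (∑ g ∈ T, a g) *
        ((∑ v : V, sg (∑ p ∈ T ×ˢ S, x ((p.1 * p.2)⁻¹ • v))) / Fintype.card V)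
        - sg (∑ g ∈ T, a g) * ∫ y, sg (∑ p ∈ T ×ˢ S, y (p.1 * p.2)) ∂μ)|
      < (1 / 2 : ℝ) ^ F.card * (((2 ^ F.card : ℕ) : ℝ) * δ) := by
        apply mul_lt_mul_of_pos_left h1; positivity
    _ = δ := by
        push_cast
        rw [← mul_assoc, ← mul_pow]
        norm_num

end

end Pool.Agent.MP_9d0e09_an
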