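import Pool.Agent.Lib.MP_9d0e09_an.Fin

/-!
# Arbitrary sofic approximations of the free product
-/

open MeasureTheory Filter Topology Finset

namespace Pool.Agent.MP_9d0e09_an

/-! ### Definitions for approximations by maps -/

/-- The maps `σ n : G → Sym(V n)` form a sofic approximation to `G`. -/
structure IsSoficMap {G : Type} [Group G] {V : ℕ → Type}
    (σ : ∀ n, G → Equiv.Perm (V n)) : Prop where
  mul : ∀ g h : G, Tendsto (fun n => (Nat.card {v : V n // σ n (g * h) v ≠ σ n g (σ n h v)} : ℝ)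
    / Nat.card (V n)) atTop (𝓝 0)
  free : ∀ g : G, g ≠ 1 → Tendsto (fun n => (Nat.card {v : V n // σ n g v = v} : ℝ)
    / Nat.card (V n)) atTop (𝓝 0)

/-- Fraction of the points `v` whose name `g ↦ x (σ(g)⁻¹ v)` agrees with `a` on `F`. -/
noncomputable def empM {G A V : Type} (σ : G → Equiv.Perm V) (F : Finset G)
    (x : V → A) (a : G → A) : ℝ :=
  (Nat.card {v : V // ∀ g ∈ F, x ((σ g)⁻¹ v) = a g} : ℝ) / Nat.card V

/-- Microstates along `σ`. -/
def MicM {G A V : Type} [MeasurableSpace A] (μ : Measure (G → A)) (σ : G → Equiv.Perm V)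
    (F : Finset G) (δ : ℝ) : Set (V → A) :=
  {x | ∀ a : G → A, |empM σ F x a - μ.real {y | ∀ g ∈ F, y g = a g}| < δ}

/-- Sofic entropy along `σ`. -/
noncomputable def soficEntropyM {G A : Type} [MeasurableSpace A] (μ : Measure (G → A))
    {V : ℕ → Type} (σ : ∀ n, G → Equiv.Perm (V n)) : EReal :=
  ⨅ F : Finset G, ⨅ δ : {δ : ℝ // 0 < δ}, limsup (fun n => rate (MicM μ (σ n) F δ)) atTop

/-- The version with the lower limit. -/
noncomputable def lowerSoficEntropyM {G A : Type} [MeasurableSpace A] (μ : Measure (G → A))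
    {V : ℕ → Type} (σ : ∀ n, G → Equiv.Perm (V n)) : EReal :=
  ⨅ F : Finset G, ⨅ δ : {δ : ℝ // 0 < δ}, liminf (fun n => rate (MicM μ (σ n) F δ)) atTop

/-- Configurations with at most `δ |V|` violated parity checks. -/
def App {G V : Type} [Group G] {d : ℕ} (s : Fin d → G) (k : ℕ) (σ : G → Equiv.Perm V) (δ : ℝ) :
    Set (V → ZMod 2) :=
  {x | (Nat.card {q : Fin d × V // ∑ j ∈ Finset.range k, x ((σ (s q.1 ^ j))⁻¹ q.2) ≠ 0} : ℝ)
    ≤ δ * Nat.card V}

/-- The topological sofic entropy of the parity-check subshift along `σ` is at most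
`(1 - d/k) log 2`. -/
def TopRate {G : Type} [Group G] {d : ℕ} (s : Fin d → G) (k : ℕ) {V : ℕ → Type}
    (σ : ∀ n, G → Equiv.Perm (V n)) : Prop :=
  ∀ ε : ℝ, 0 < ε → ∃ δ : ℝ, 0 < δ ∧ ∀ᶠ n in atTop,
    Real.log (Nat.card (App s k (σ n) δ)) / Nat.card (V n) ≤ (1 - (d : ℝ) / k) * Real.log 2 + ε

/-! ### Small sets -/

section small

variable {V : ℕ → Type} [∀ n, Finite (V n)]

/-- Sets of density tending to zero. -/
def Small (E : ∀ n, V n → Prop) : Prop :=
  Tendsto (fun n => (Nat.card {v : V n // E n v} : ℝ) / Nat.card (V n)) atTop (𝓝 0)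

theorem card_le_or {W : Type} [Finite W] (P Q R : W → Prop) (h : ∀ v, P v → Q v ∨ R v) :
    Nat.card {v : W // P v} ≤ Nat.card {v : W // Q v} + Nat.card {v : W // R v} := by
  classical
  have := Fintype.ofFinite W
  have hc : ∀ P : W → Prop, Nat.card {v : W // P v} = (univ.filter P).card := by
    intro P
    rw [Nat.card_eq_fintype_card, Fintype.card_subtype]
  rw [hc P, hc Q, hc R]
  refine (Finset.card_le_card ?_).trans (Finset.card_union_le _ _)
  intro v hv
  rw [Finset.mem_filter] at hv
  rw [Finset.mem_union, Finset.mem_filter, Finset.mem_filter]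
  rcases h v hv.2 with h | h
  · exact Or.inl ⟨Finset.mem_univ _, h⟩
  · exact Or.inr ⟨Finset.mem_univ _, h⟩

theorem Small.or {E E' D : ∀ n, V n → Prop} (hE : Small E) (hE' : Small E')
    (h : ∀ n v, D n v → E n v ∨ E' n v) : Small D := by
  have h1 := hE.add hE'
  rw [add_zero] at h1
  refine squeeze_zero (fun n => by positivity) (fun n => ?_) h1
  rw [← add_div]
  apply div_le_div_of_nonneg_right _ (by positivity)
  exact_mod_cast card_le_or (D n) (E n) (E' n) (h n)

theorem Small.mono {E D : ∀ n, V n → Prop} (hE : Small E) (h : ∀ n v, D n v → E n v) : Small D := by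
  refine squeeze_zero (fun n => by positivity) (fun n => ?_) hE
  apply div_le_div_of_nonneg_right _ (by positivity)
  have h1 : Nat.card {v : V n // D n v} ≤ Nat.card {v : V n // E n v} :=
    Nat.card_le_card_of_injective (fun v => (⟨v.1, h n v.1 v.2⟩ : {v : V n // E n v}))
      (fun v w hvw => Subtype.ext (by simpa using hvw))
  exact_mod_cast h1

omit [∀ n, Finite (V n)] in
theorem Small.comp {E : ∀ n, V n → Prop} (hE : Small E) (π : ∀ n, Equiv.Perm (V n)) :
    Small (fun n v => E n (π n v)) := by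
  have h1 : ∀ n, Nat.card {v : V n // E n (π n v)} = Nat.card {v : V n // E n v} := by
    intro n
    exact Nat.card_congr ((π n).subtypeEquiv (fun v => Iff.rfl))
  rw [Small]
  simp only [h1]
  exact hE

end small

/-! ### Correction of one permutation -/

theorem inv_app {W : Type} (P : Equiv.Perm W) (v : W) : P⁻¹ (P v) = v := by
  rw [← Equiv.Perm.mul_apply, inv_mul_cancel]; rfl

theorem app_inv {W : Type} (P : Equiv.Perm W) (v : W) : P (P⁻¹ v) = v := by
  rw [← Equiv.Perm.mul_apply, mul_inv_cancel]; rfl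

open Classical in
/-- Replace a permutation by one of order dividing `k`. -/
noncomputable def fixP {W : Type} (P : Equiv.Perm W) (k : ℕ) : Equiv.Perm W where
  toFun := fun v => if (P ^ k) v = v then P v else v
  invFun := fun v => if (P ^ k) v = v then P⁻¹ v else v
  left_inv := by
    intro v
    by_cases h : (P ^ k) v = v
    · have h1 : (P ^ k) (P v) = P v := by
        rw [← Equiv.Perm.mul_apply, ← pow_succ, pow_succ', Equiv.Perm.mul_apply, h]
      simp only [if_pos h, if_pos h1]
      exact inv_app P v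
    · simp only [if_neg h]
  right_inv := by
    intro v
    by_cases h : (P ^ k) v = v
    · have h1 : (P ^ k) (P⁻¹ v) = P⁻¹ v := by
        apply P.injective
        rw [← Equiv.Perm.mul_apply P, ← pow_succ', pow_succ, Equiv.Perm.mul_apply,
          app_inv, h]
      simp only [if_pos h, if_pos h1]
      exact app_inv P v
    · simp only [if_neg h]

theorem fixP_of_eq {W : Type} (P : Equiv.Perm W) (k : ℕ) (v : W) (h : (P ^ k) v = v) :
    fixP P k v = P v := by
  classical
  show (if (P ^ k) v = v then P v else v) = P v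
  rw [if_pos h]

theorem fixP_of_ne {W : Type} (P : Equiv.Perm W) (k : ℕ) (v : W) (h : (P ^ k) v ≠ v) :
    fixP P k v = v := by
  classical
  show (if (P ^ k) v = v then P v else v) = v
  rw [if_neg h]

theorem fixP_pow {W : Type} (P : Equiv.Perm W) (k : ℕ) (v : W) (h : (P ^ k) v = v) (l : ℕ) :
    (fixP P k ^ l) v = (P ^ l) v := by
  have h1 : ∀ l, (P ^ k) ((P ^ l) v) = (P ^ l) v := by
    intro l
    rw [← Equiv.Perm.mul_apply, ← pow_add, add_comm, pow_add, Equiv.Perm.mul_apply, h]
  induction l with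
  | zero => rfl
  | succ l ih =>
    rw [pow_succ', Equiv.Perm.mul_apply, ih, pow_succ', Equiv.Perm.mul_apply,
      fixP_of_eq _ _ _ (h1 l)]

theorem fixP_pow_ne {W : Type} (P : Equiv.Perm W) (k : ℕ) (v : W) (h : (P ^ k) v ≠ v) (l : ℕ) :
    (fixP P k ^ l) v = v := by
  induction l with
  | zero => rfl
  | succ l ih =>
    rw [pow_succ', Equiv.Perm.mul_apply, ih, fixP_of_ne _ _ _ h]

theorem fixP_k {W : Type} (P : Equiv.Perm W) (k : ℕ) : fixP P k ^ k = 1 := by
  apply Equiv.ext
  intro v
  by_cases h : (P ^ k) v = v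
  · rw [fixP_pow P k v h, h]; rfl
  · rw [fixP_pow_ne P k v h]; rfl

/-- The homomorphism `Z/k → H` of an element with `h ^ k = 1`. -/
def zhom {H : Type} [Group H] (k : ℕ) [NeZero k] (h : H) (hk : h ^ k = 1) :
    Multiplicative (ZMod k) →* H where
  toFun a := h ^ (Multiplicative.toAdd a).val
  map_one' := by simp
  map_mul' := by
    intro a b
    rw [toAdd_mul, ZMod.val_add, ← pow_add, ← pow_eq_pow_mod _ hk]

/-- The corrected homomorphism. -/
noncomputable def hom {W : Type} (d k : ℕ) [NeZero k] (σ : Gam d k → Equiv.Perm W) :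
    Gam d k →* Equiv.Perm W :=
  Monoid.CoprodI.lift (fun i => zhom k (fixP (σ (gen d k i)) k) (fixP_k _ _))

theorem hom_gen {W : Type} (d k : ℕ) [NeZero k] (hk : 1 < k) (σ : Gam d k → Equiv.Perm W)
    (i : Fin d) (l : ℕ) : hom d k σ (gen d k i ^ l) = fixP (σ (gen d k i)) k ^ l := by
  rw [map_pow]
  congr 1
  have h1 : hom d k σ (gen d k i)
      = zhom k (fixP (σ (gen d k i)) k) (fixP_k _ _) (Multiplicative.ofAdd (1 : ZMod k)) := by
    unfold hom
    conv_lhs => arg 2; unfold gen
    exact Monoid.CoprodI.lift_of _ _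
  rw [h1]
  show fixP (σ (gen d k i)) k ^ (ZMod.val (1 : ZMod k)) = _
  have : Fact (1 < k) := ⟨hk⟩
  rw [ZMod.val_one, pow_one]

section close

variable {d k : ℕ} [NeZero k] {V : ℕ → Type} [∀ n, Finite (V n)]
  (σ : ∀ n, Gam d k → Equiv.Perm (V n))

omit [NeZero k] in
theorem close_one (hσ : IsSoficMap σ) : Small (fun n v => σ n 1 v ≠ v) := by
  refine Small.mono (hσ.mul 1 1) ?_
  intro n v h h'
  rw [mul_one] at h'
  exact h ((σ n 1).injective h').symm

omit [NeZero k] in
theorem close_pow (hσ : IsSoficMap σ) (g : Gam d k) (l : ℕ) :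
    Small (fun n v => σ n (g ^ l) v ≠ (σ n g ^ l) v) := by
  induction l with
  | zero =>
    refine Small.mono (close_one σ hσ) ?_
    intro n v h
    simpa using h
  | succ l ih =>
    refine Small.or ih (hσ.mul g (g ^ l)) ?_
    intro n v h
    by_contra hcon
    push Not at hcon
    apply h
    rw [pow_succ', hcon.2, hcon.1, pow_succ', Equiv.Perm.mul_apply]

theorem close_gen (hσ : IsSoficMap σ) (hk : 1 < k) (i : Fin d) (l : ℕ) :
    Small (fun n v => σ n (gen d k i ^ l) v ≠ hom d k (σ n) (gen d k i ^ l) v) := by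
  have h1 : Small (fun n v => (σ n (gen d k i) ^ k) v ≠ v) := by
    refine Small.or (close_pow σ hσ (gen d k i) k) (close_one σ hσ) ?_
    intro n v h
    by_contra hcon
    push Not at hcon
    apply h
    rw [← hcon.1, gen_pow_k, hcon.2]
  refine Small.or h1 (close_pow σ hσ (gen d k i) l) ?_
  intro n v h
  by_contra hcon
  push Not at hcon
  apply h
  rw [hom_gen d k hk, fixP_pow _ _ _ hcon.1, hcon.2]

theorem close_all (hσ : IsSoficMap σ) (hk : 1 < k) (g : Gam d k) :
    Small (fun n v => σ n g v ≠ hom d k (σ n) g v) := by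
  induction g using Monoid.CoprodI.induction_on with
  | one =>
    refine Small.mono (close_one σ hσ) ?_
    intro n v h
    rw [map_one] at h
    exact h
  | of i m =>
    have h1 : (Monoid.CoprodI.of (i := i) m : Gam d k)
        = gen d k i ^ (Multiplicative.toAdd m).val := by
      rw [gen_pow]
      simp
    rw [h1]
    exact close_gen σ hσ hk i _
  | mul g h ihg ihh =>
    refine Small.or (Small.or (hσ.mul g h) ihh (fun n v h => h))
      (ihg.comp (fun n => hom d k (σ n) h)) ?_
    intro n v hne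
    by_contra hcon
    push Not at hcon
    obtain ⟨⟨h1, h2⟩, h3⟩ := hcon
    apply hne
    rw [h1, h2, h3, map_mul, Equiv.Perm.mul_apply]

theorem close_inv (hσ : IsSoficMap σ) (hk : 1 < k) (g : Gam d k) :
    Small (fun n v => (σ n g)⁻¹ v ≠ (hom d k (σ n) g)⁻¹ v) := by
  have h1 := (close_all σ hσ hk g).comp (fun n => (σ n g)⁻¹)
  refine h1.mono ?_
  intro n v h h'
  apply h
  rw [app_inv] at h'
  apply (hom d k (σ n) g).injective
  rw [app_inv, ← h']

end close

end Pool.Agent.MP_9d0e09_an
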