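import Pool.Agent.Lib.MP_9d0e09_an.Fin

/-!
# Existence of the Haar measure, and the four bounds for the free product
-/

open MeasureTheory Filter Topology

namespace Pool.Agent.MP_9d0e09_an

theorem countable_gam (d k : ℕ) (hk : 2 ≤ k) : Countable (Gam d k) := by
  classical
  have : NeZero k := ⟨by omega⟩
  have h1 : Function.Injective
      (fun w : Monoid.CoprodI.Word (fun _ : Fin d => Multiplicative (ZMod k)) => w.toList) := by
    intro a b h
    exact Monoid.CoprodI.Word.ext h
  have : Countable (Monoid.CoprodI.Word (fun _ : Fin d => Multiplicative (ZMod k))) :=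
    h1.countable
  exact (Monoid.CoprodI.Word.equiv (M := fun _ : Fin d =>
    Multiplicative (ZMod k))).injective.countable

/-- The Haar probability measure of the parity-check subshift exists: the hypothesis of the
theorem is satisfied by it. -/
theorem exists_haar (d k : ℕ) (hk : 2 ≤ k) :
    ∃ μ : Measure (Gam d k → ZMod 2), IsHaarOn (PX (gen d k) k) μ := by
  have := countable_gam d k hk
  let H : AddSubgroup (Gam d k → ZMod 2) :=
    { carrier := PX (gen d k) k
      add_mem' := by
        intro a b ha hb g i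
        simp only [Pi.add_apply, Finset.sum_add_distrib]
        rw [ha g i, hb g i, add_zero]
      zero_mem' := by intro g i; simp
      neg_mem' := by
        intro a ha g i
        simp only [Pi.neg_apply, Finset.sum_neg_distrib]
        rw [ha g i, neg_zero] }
  have hcl : IsClosed (H : Set (Gam d k → ZMod 2)) := by
    have h1 : (H : Set (Gam d k → ZMod 2)) = ⋂ g, ⋂ i, {x : Gam d k → ZMod 2 |
        ∑ j ∈ Finset.range k, x (g * gen d k i ^ j) = 0} := by
      ext x
      simp only [Set.mem_iInter, Set.mem_ofPred_eq]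
      rfl
    rw [h1]
    apply isClosed_iInter; intro g
    apply isClosed_iInter; intro i
    apply isClosed_eq _ continuous_const
    apply continuous_finsetSum
    intro j _
    exact continuous_apply _
  have : CompactSpace H := isCompact_iff_compactSpace.mp hcl.isCompact
  let ν : Measure H := Measure.addHaarMeasure ⊤
  have hν : ν Set.univ = 1 := by
    have := Measure.addHaarMeasure_self (K₀ := (⊤ : TopologicalSpace.PositiveCompacts H))
    simpa using this
  have hval : Measurable (Subtype.val : H → (Gam d k → ZMod 2)) := measurable_subtype_coe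
  refine ⟨ν.map Subtype.val, ?_, ?_, ?_⟩
  · constructor
    rw [Measure.map_apply hval MeasurableSet.univ, Set.preimage_univ, hν]
  · have hm : MeasurableSet (H : Set (Gam d k → ZMod 2)) := hcl.measurableSet
    have h2 : (PX (gen d k) k)ᶜ = (H : Set (Gam d k → ZMod 2))ᶜ := rfl
    rw [h2, Measure.map_apply hval hm.compl]
    have h3 : Subtype.val ⁻¹' (H : Set (Gam d k → ZMod 2))ᶜ = (∅ : Set H) := by
      ext x
      simp
    rw [h3, measure_empty]
  · intro x hx
    have hm : Measurable (fun y : Gam d k → ZMod 2 => x + y) := measurable_const_add x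
    rw [Measure.map_map hm hval]
    have h2 : (fun y : Gam d k → ZMod 2 => x + y) ∘ (Subtype.val : H → _)
        = Subtype.val ∘ (fun y : H => (⟨x, hx⟩ : H) + y) := by
      funext y; rfl
    have hm2 : Measurable (fun y : H => (⟨x, hx⟩ : H) + y) :=
      (continuous_const_add (⟨x, hx⟩ : H)).measurable
    rw [h2, ← Measure.map_map hval hm2, map_add_left_eq_self]

/-- The four bounds together. -/
theorem main_gam (d k : ℕ) (hd : 3 ≤ d) (hdk : d < k)
    (μ : Measure (Gam d k → ZMod 2)) (hμ : IsHaarOn (PX (gen d k) k) μ)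
    (V : ℕ → Type) [∀ n, Finite (V n)] [∀ n, Nonempty (V n)] [∀ n, MulAction (Gam d k) (V n)]
    (hV : IsSofic (Gam d k) V) (hr : DesignRate (gen d k) k V) :
    soficEntropy μ V = (((1 - (d : ℝ) / k) * Real.log 2 : ℝ) : EReal) ∧
    lowerSoficEntropy μ V = (((1 - (d : ℝ) / k) * Real.log 2 : ℝ) : EReal) ∧
    (∀ g : Gam d k, ¬ IsOfFinOrder g → ∀ J : Finset ℤ, J.Nonempty →
      (((1 - (d : ℝ) / k) * Real.log 2 : ℝ) : EReal)
        ≤ lowerSoficEntropy (μ.map (powBlk g J)) V) ∧
    (∀ (A : Type) [Finite A] [MeasurableSpace A] [MeasurableSingletonClass A]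
      (F₀ : Finset (Gam d k)) (φ : (F₀ → ZMod 2) → A) (p : ℝ), F₀.Nonempty → 0 < p →
      (∀ a : A, (Nat.card {z : F₀ → ZMod 2 // φ z = a} : ℝ) ≤ p * 2 ^ F₀.card) →
      ((- Real.log p / F₀.card - (d : ℝ) / k * Real.log 2 : ℝ) : EReal)
        ≤ lowerSoficEntropy (μ.map (code F₀ φ)) V) ∧
    ∀ (A : Type) [Finite A] [MeasurableSpace A] [MeasurableSingletonClass A]
      (F₀ : Finset (Gam d k)) (φ : (F₀ → ZMod 2) → A), (∃ z z', φ z ≠ φ z') →
      d * (F₀.card * 2 ^ F₀.card) ≤ k → 0 < lowerSoficEntropy (μ.map (code F₀ φ)) V := by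
  have h1 := gam_infinite d k (by omega) (by omega)
  have h2 : Nonempty (Fin d) := ⟨⟨0, by omega⟩⟩
  exact main (gen d k) k V (by omega) (gen_pow_k d k) (gen_inj d k) μ hμ hV hr

end Pool.Agent.MP_9d0e09_an
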