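import Pool.Agent.Lib.MP_9d0e09_an.Gen
import Pool.Agent.Lib.MP_9d0e09_an.Haar

/-!
# Reduction of arbitrary sofic approximations of the free product to homomorphisms
-/

open MeasureTheory Filter Topology Finset

namespace Pool.Agent.MP_9d0e09_an

theorem abs_card_le {W : Type} [Finite W] (P Q B : W → Prop) (h : ∀ v, ¬ B v → (P v ↔ Q v)) :
    |(Nat.card {v : W // P v} : ℝ) - Nat.card {v : W // Q v}| ≤ Nat.card {v : W // B v} := by
  have h1 : (Nat.card {v : W // P v} : ℝ)
      ≤ Nat.card {v : W // Q v} + Nat.card {v : W // B v} := by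
    exact_mod_cast card_le_or P Q B (fun v hv => by
      by_cases hb : B v
      · exact Or.inr hb
      · exact Or.inl ((h v hb).mp hv))
  have h2 : (Nat.card {v : W // Q v} : ℝ)
      ≤ Nat.card {v : W // P v} + Nat.card {v : W // B v} := by
    exact_mod_cast card_le_or Q P B (fun v hv => by
      by_cases hb : B v
      · exact Or.inr hb
      · exact Or.inl ((h v hb).mpr hv))
  rw [abs_le]
  constructor <;> linarith

theorem rate_mono {W A : Type} [Finite W] [Finite A] {S T : Set (W → A)} (h : S ⊆ T) :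
    rate S ≤ rate T := by
  unfold rate
  by_cases hS : S = ∅
  · rw [if_pos hS]; exact bot_le
  · have hT : T ≠ ∅ := fun hT => hS (Set.subset_eq_empty h hT)
    rw [if_neg hS, if_neg hT, EReal.coe_le_coe_iff]
    apply div_le_div_of_nonneg_right _ (by positivity)
    have hne : Nonempty S := (Set.nonempty_iff_ne_empty.mpr hS).to_subtype
    have hpos : 0 < Nat.card S := Nat.card_pos
    apply Real.log_le_log (by exact_mod_cast hpos)
    exact_mod_cast Nat.card_mono (Set.toFinite T) h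

section cmp

variable {G : Type} [Group G] {V : ℕ → Type} [∀ n, Finite (V n)] [∀ n, MulAction G (V n)]
  (σ : ∀ n, G → Equiv.Perm (V n))

theorem sofic_of (hσ : IsSoficMap σ) (hc : ∀ g : G, Small (fun n v => σ n g v ≠ g • v)) :
    IsSofic G V := by
  intro g hg
  refine Small.or (E := fun n v => σ n g v = v) (hσ.free g hg) (hc g) ?_
  intro n v h
  by_contra hcon
  push Not at hcon
  exact hcon.1 (hcon.2.trans h)

/-- Points where the two actions differ on `F`. -/
def BadM (F : Finset G) (n : ℕ) (v : V n) : Prop := ∃ g ∈ F, (σ n g)⁻¹ v ≠ g⁻¹ • v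

theorem badM_small (hc : ∀ g : G, Small (fun n v => (σ n g)⁻¹ v ≠ g⁻¹ • v)) (F : Finset G) :
    Small (BadM σ F) := by
  classical
  induction F using Finset.induction_on with
  | empty =>
    have h0 : ∀ n, Nat.card {v : V n // BadM σ ∅ n v} = 0 := by
      intro n
      have : IsEmpty {v : V n // BadM σ ∅ n v} :=
        ⟨fun v => by obtain ⟨g, hg, _⟩ := v.2; simp at hg⟩
      exact Nat.card_of_isEmpty
    rw [Small]
    simp [h0]
  | insert g F _ ih =>
    refine Small.or (hc g) ih ?_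
    rintro n v ⟨h, hh, hne⟩
    rw [Finset.mem_insert] at hh
    rcases hh with rfl | hh
    · exact Or.inl hne
    · exact Or.inr ⟨h, hh, hne⟩

theorem emp_close {A : Type} (F : Finset G) (n : ℕ) (x : V n → A) (a : G → A) :
    |empM (σ n) F x a - emp (V n) F x a|
      ≤ (Nat.card {v : V n // BadM σ F n v} : ℝ) / Nat.card (V n) := by
  rw [empM, emp, ← sub_div, abs_div,
    abs_of_nonneg (Nat.cast_nonneg (α := ℝ) (Nat.card (V n)))]
  apply div_le_div_of_nonneg_right _ (by positivity)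
  apply abs_card_le
  intro v hv
  have hb : ∀ g ∈ F, (σ n g)⁻¹ v = g⁻¹ • v := by
    intro g hg
    by_contra hne
    exact hv ⟨g, hg, hne⟩
  constructor
  · intro h g hg
    rw [← hb g hg]
    exact h g hg
  · intro h g hg
    rw [hb g hg]
    exact h g hg

theorem soficEntropyM_eq {A : Type} [Finite A] [MeasurableSpace A] (μ : Measure (G → A))
    (hc : ∀ g : G, Small (fun n v => (σ n g)⁻¹ v ≠ g⁻¹ • v)) :
    soficEntropyM μ σ = soficEntropy μ V ∧
    lowerSoficEntropyM μ σ = lowerSoficEntropy μ V := by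
  have key1 : ∀ (F : Finset G) (δ : ℝ), 0 < δ → ∀ᶠ n in atTop,
      rate (Mic μ (V n) F (δ / 2)) ≤ rate (MicM μ (σ n) F δ) := by
    intro F δ hδ
    filter_upwards [(tendsto_order.1 (badM_small σ hc F)).2 (δ / 2) (by linarith)] with n hn
    apply rate_mono
    intro x hx a
    have h1 := hx a
    have h2 := emp_close σ F n x a
    have h3 : empM (σ n) F x a - μ.real {y | ∀ g ∈ F, y g = a g}
        = (empM (σ n) F x a - emp (V n) F x a)
          + (emp (V n) F x a - μ.real {y | ∀ g ∈ F, y g = a g}) := by ring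
    rw [h3]
    refine (abs_add_le _ _).trans_lt ?_
    linarith
  have key2 : ∀ (F : Finset G) (δ : ℝ), 0 < δ → ∀ᶠ n in atTop,
      rate (MicM μ (σ n) F (δ / 2)) ≤ rate (Mic μ (V n) F δ) := by
    intro F δ hδ
    filter_upwards [(tendsto_order.1 (badM_small σ hc F)).2 (δ / 2) (by linarith)] with n hn
    apply rate_mono
    intro x hx a
    have h1 := hx a
    have h2 := emp_close σ F n x a
    rw [abs_sub_comm] at h2
    have h3 : emp (V n) F x a - μ.real {y | ∀ g ∈ F, y g = a g}
        = (emp (V n) F x a - empM (σ n) F x a)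
          + (empM (σ n) F x a - μ.real {y | ∀ g ∈ F, y g = a g}) := by ring
    rw [h3]
    refine (abs_add_le _ _).trans_lt ?_
    linarith
  refine ⟨le_antisymm ?_ ?_, le_antisymm ?_ ?_⟩
  · refine le_iInf fun F => le_iInf fun δ => ?_
    refine (iInf_le_of_le F (iInf_le _ ⟨δ.1 / 2, half_pos δ.2⟩)).trans ?_
    exact limsup_le_limsup (key2 F δ.1 δ.2)
  · refine le_iInf fun F => le_iInf fun δ => ?_
    refine (iInf_le_of_le F (iInf_le _ ⟨δ.1 / 2, half_pos δ.2⟩)).trans ?_
    exact limsup_le_limsup (key1 F δ.1 δ.2)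
  · refine le_iInf fun F => le_iInf fun δ => ?_
    refine (iInf_le_of_le F (iInf_le _ ⟨δ.1 / 2, half_pos δ.2⟩)).trans ?_
    exact liminf_le_liminf (key2 F δ.1 δ.2)
  · refine le_iInf fun F => le_iInf fun δ => ?_
    refine (iInf_le_of_le F (iInf_le _ ⟨δ.1 / 2, half_pos δ.2⟩)).trans ?_
    exact liminf_le_liminf (key1 F δ.1 δ.2)

theorem design_of {d : ℕ} (s : Fin d → G) (k : ℕ) [∀ n, Nonempty (V n)]
    (hc : ∀ g : G, Small (fun n v => (σ n g)⁻¹ v ≠ g⁻¹ • v)) (hr : TopRate s k σ) :
    DesignRate s k V := by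
  classical
  intro ε hε
  obtain ⟨δ, hδ, h1⟩ := hr ε hε
  let F : Finset G :=
    (univ : Finset (Fin d)).biUnion fun i => (Finset.range k).image fun j => s i ^ j
  filter_upwards [h1, (tendsto_order.1 (badM_small σ hc F)).2 (δ / (d + 1)) (by positivity)]
    with n e1 e2
  refine le_trans ?_ e1
  apply div_le_div_of_nonneg_right _ (by positivity)
  have hN : (0 : ℝ) < Nat.card (V n) := by exact_mod_cast Nat.card_pos
  have hsub : Ex s k (V n) ⊆ App s k (σ n) δ := by
    intro x hx
    have h4 : Nat.card {q : Fin d × V n //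
          ∑ j ∈ Finset.range k, x ((σ n (s q.1 ^ j))⁻¹ q.2) ≠ 0}
        ≤ d * Nat.card {v : V n // BadM σ F n v} := by
      have h5 : Nat.card (Fin d × {v : V n // BadM σ F n v})
          = d * Nat.card {v : V n // BadM σ F n v} := by
        rw [Nat.card_prod, Nat.card_fin]
      rw [← h5]
      have hbad : ∀ q : {q : Fin d × V n //
          ∑ j ∈ Finset.range k, x ((σ n (s q.1 ^ j))⁻¹ q.2) ≠ 0}, BadM σ F n q.1.2 := by
        rintro ⟨⟨i, v⟩, hq⟩
        by_contra hv
        apply hq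
        have h6 : ∑ j ∈ Finset.range k, x ((1 * s i ^ j)⁻¹ • v) = 0 := hx v 1 i
        rw [← h6]
        apply Finset.sum_congr rfl
        intro j hj
        rw [one_mul]
        have hmem : s i ^ j ∈ F :=
          Finset.mem_biUnion.mpr ⟨i, Finset.mem_univ _, Finset.mem_image.mpr ⟨j, hj, rfl⟩⟩
        have h7 : (σ n (s i ^ j))⁻¹ v = (s i ^ j)⁻¹ • v := by
          by_contra hne
          exact hv ⟨_, hmem, hne⟩
        exact congrArg x h7
      apply Nat.card_le_card_of_injective
        (fun q => ((q.1.1, ⟨q.1.2, hbad q⟩) : Fin d × {v : V n // BadM σ F n v}))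
      intro q q' hqq
      apply Subtype.ext
      have h8 := congrArg Prod.fst hqq
      have h9 := congrArg (fun z => (Prod.snd z).1) hqq
      exact Prod.ext h8 h9
    show (Nat.card _ : ℝ) ≤ δ * Nat.card (V n)
    have h10 : (Nat.card {q : Fin d × V n //
          ∑ j ∈ Finset.range k, x ((σ n (s q.1 ^ j))⁻¹ q.2) ≠ 0} : ℝ)
        ≤ d * Nat.card {v : V n // BadM σ F n v} := by exact_mod_cast h4
    refine h10.trans ?_
    rw [div_lt_iff₀ hN] at e2
    have h11 : (d : ℝ) * (δ / (d + 1) * Nat.card (V n)) ≤ δ * Nat.card (V n) := by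
      have h12 : (d : ℝ) / (d + 1) ≤ 1 := by
        rw [div_le_one (by positivity)]
        linarith
      have h13 : (d : ℝ) * (δ / (d + 1) * Nat.card (V n))
          = (d : ℝ) / (d + 1) * (δ * Nat.card (V n)) := by ring
      rw [h13]
      have h14 : 0 ≤ δ * (Nat.card (V n) : ℝ) := by positivity
      nlinarith
    refine le_trans ?_ h11
    exact mul_le_mul_of_nonneg_left e2.le (by positivity)
  have hne : Nonempty (Ex s k (V n)) := by
    refine ⟨⟨0, ?_⟩⟩
    intro v g i
    simp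
  have hpos : 0 < Nat.card (Ex s k (V n)) := Nat.card_pos
  apply Real.log_le_log (by exact_mod_cast hpos)
  exact_mod_cast Nat.card_mono (Set.toFinite _) hsub

end cmp

/-- The four bounds for arbitrary sofic approximations by maps. -/
theorem main_map (d k : ℕ) (hd : 3 ≤ d) (hdk : d < k)
    (μ : Measure (Gam d k → ZMod 2)) (hμ : IsHaarOn (PX (gen d k) k) μ)
    (V : ℕ → Type) [∀ n, Finite (V n)] [∀ n, Nonempty (V n)]
    (σ : ∀ n, Gam d k → Equiv.Perm (V n)) (hσ : IsSoficMap σ) (hr : TopRate (gen d k) k σ) :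
    soficEntropyM μ σ = (((1 - (d : ℝ) / k) * Real.log 2 : ℝ) : EReal) ∧
    lowerSoficEntropyM μ σ = (((1 - (d : ℝ) / k) * Real.log 2 : ℝ) : EReal) ∧
    (∀ g : Gam d k, ¬ IsOfFinOrder g → ∀ J : Finset ℤ, J.Nonempty →
      (((1 - (d : ℝ) / k) * Real.log 2 : ℝ) : EReal)
        ≤ lowerSoficEntropyM (μ.map (powBlk g J)) σ) ∧
    (∀ (A : Type) [Finite A] [MeasurableSpace A] [MeasurableSingletonClass A]
      (F₀ : Finset (Gam d k)) (φ : (F₀ → ZMod 2) → A) (p : ℝ), F₀.Nonempty → 0 < p →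
      (∀ a : A, (Nat.card {z : F₀ → ZMod 2 // φ z = a} : ℝ) ≤ p * 2 ^ F₀.card) →
      ((- Real.log p / F₀.card - (d : ℝ) / k * Real.log 2 : ℝ) : EReal)
        ≤ lowerSoficEntropyM (μ.map (code F₀ φ)) σ) ∧
    ∀ (A : Type) [Finite A] [MeasurableSpace A] [MeasurableSingletonClass A]
      (F₀ : Finset (Gam d k)) (φ : (F₀ → ZMod 2) → A), (∃ z z', φ z ≠ φ z') →
      d * (F₀.card * 2 ^ F₀.card) ≤ k →
      0 < lowerSoficEntropyM (μ.map (code F₀ φ)) σ := by
  have : NeZero k := ⟨by omega⟩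
  let _ : ∀ n, MulAction (Gam d k) (V n) :=
    fun n => MulAction.compHom (V n) (hom d k (σ n))
  have hc1 : ∀ g : Gam d k, Small (fun n v => σ n g v ≠ g • v) :=
    close_all σ hσ (by omega)
  have hc2 : ∀ g : Gam d k, Small (fun n v => (σ n g)⁻¹ v ≠ g⁻¹ • v) := by
    intro g
    refine (close_inv σ hσ (by omega) g).mono ?_
    intro n v h h'
    apply h
    rw [h']
    show ((hom d k (σ n)) g)⁻¹ v = (hom d k (σ n)) g⁻¹ v
    rw [map_inv]
  have hV := sofic_of σ hσ hc1
  have hD := design_of σ (gen d k) k hc2 hr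
  obtain ⟨h1, h2, h3, h4, h5⟩ := main_gam d k hd hdk μ hμ V hV hD
  refine ⟨(soficEntropyM_eq σ μ hc2).1.trans h1, (soficEntropyM_eq σ μ hc2).2.trans h2,
    ?_, ?_, ?_⟩
  · intro g hg J hJ
    rw [(soficEntropyM_eq σ (μ.map (powBlk g J)) hc2).2]
    exact h3 g hg J hJ
  · intro A _ _ _ F₀ φ p hF hp hφ
    rw [(soficEntropyM_eq σ (μ.map (code F₀ φ)) hc2).2]
    exact h4 A F₀ φ p hF hp hφ
  · intro A _ _ _ F₀ φ hne hk
    rw [(soficEntropyM_eq σ (μ.map (code F₀ φ)) hc2).2]
    exact h5 A F₀ φ hne hk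

end Pool.Agent.MP_9d0e09_an
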