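import Pool.Agent.Lib.MP_9d0e09_an.Mrg2

/-!
# Block codes along arbitrary sofic approximations
-/

open MeasureTheory Filter Topology Finset

namespace Pool.Agent.MP_9d0e09_an

section

variable {G : Type} [Group G]
variable (V : ℕ → Type) [∀ n, Finite (V n)] [∀ n, Nonempty (V n)] [∀ n, MulAction G (V n)]

theorem key_code (μ : Measure (G → ZMod 2)) [IsProbabilityMeasure μ] (hV : IsSofic G V)
    {A : Type} [Fintype A] [MeasurableSpace A] [MeasurableSingletonClass A]
    (F₀ : Finset G) (hF₀ : F₀.Nonempty) (φ : (F₀ → ZMod 2) → A) (w : A → ℝ)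
    (hw0 : ∀ a, 0 < w a)
    (hw : ∀ a : A, (Nat.card {z : F₀ → ZMod 2 // φ z = a} : ℝ) ≤ w a * 2 ^ F₀.card)
    (F : Finset G) (δ : ℝ) (hδ : 0 < δ) (z z' : ℝ)
    (hz : z' < z + ((∑ a, (μ.map (code F₀ φ)).real {y | y 1 = a} * (- Real.log (w a)))
      / F₀.card - Real.log 2)) :
    ∃ F' : Finset G, ∃ δ' : ℝ, 0 < δ' ∧ ∀ᶠ n in atTop,
      ((z : ℝ) : EReal) < rate (Mic μ (V n) F' δ') →
      ((z' : ℝ) : EReal) ≤ rate (Mic (μ.map (code F₀ φ)) (V n) F δ) := by
  classical
  set m := F₀.card with hm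
  have hm0 : (0 : ℝ) < m := by exact_mod_cast Finset.card_pos.mpr hF₀
  have hw' : ∀ a : A, (((univ : Finset (F₀ → ZMod 2)).filter (fun z => φ z = a)).card : ℝ)
      ≤ w a * 2 ^ F₀.card := by
    intro a
    have h := hw a
    rw [Nat.card_eq_fintype_card, Fintype.card_subtype] at h
    exact h
  set K : ℝ := ∑ a, |Real.log (w a)| with hK
  have hKa : ∀ a, |Real.log (w a)| ≤ K := by
    intro a
    exact Finset.single_le_sum (f := fun a => |Real.log (w a)|) (fun a _ => abs_nonneg _)
      (Finset.mem_univ a)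
  have hK0 : 0 ≤ K := Finset.sum_nonneg (fun a _ => abs_nonneg _)
  have hKn : ∀ a, - Real.log (w a) ≤ K := fun a => (neg_le_abs _).trans (hKa a)
  set H : ℝ := ∑ a, (μ.map (code F₀ φ)).real {y | y 1 = a} * (- Real.log (w a)) with hH
  set γ : ℝ := z + (H / m - Real.log 2) - z' with hγ
  have hγ0 : 0 < γ := by rw [hγ]; linarith
  let F' : Finset G := ((insert 1 F) ×ˢ F₀).image (fun p : G × G => p.1 * p.2)
  have hF' : ∀ g ∈ F, ∀ h ∈ F₀, g * h ∈ F' := by
    intro g hg h hh
    exact Finset.mem_image.mpr ⟨(g, h), Finset.mk_mem_product (Finset.mem_insert_of_mem hg) hh,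
      rfl⟩
  have hF1 : ∀ g ∈ ({1} : Finset G), ∀ h ∈ F₀, g * h ∈ F' := by
    intro g hg h hh
    rw [Finset.mem_singleton] at hg
    subst hg
    exact Finset.mem_image.mpr ⟨(1, h), Finset.mk_mem_product (Finset.mem_insert_self _ _) hh,
      rfl⟩
  have h2F : (0 : ℝ) < 2 ^ F'.card := by positivity
  set δ₃ : ℝ := γ * m / (2 * (Fintype.card A * K + 1)) with hδ₃
  have hden : 0 < 2 * (Fintype.card A * K + 1) := by positivity
  have hδ₃0 : 0 < δ₃ := by
    rw [hδ₃]
    exact div_pos (mul_pos hγ0 hm0) hden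
  have hδ₃b : 1 / (m : ℝ) * (δ₃ * (Fintype.card A * K)) ≤ γ / 2 := by
    have e1 : δ₃ * (Fintype.card A * K + 1) = γ * m / 2 := by
      rw [hδ₃]
      field_simp
    have e2 : δ₃ * (Fintype.card A * K) ≤ γ * m / 2 := by
      rw [← e1]
      apply mul_le_mul_of_nonneg_left _ hδ₃0.le
      linarith
    calc 1 / (m : ℝ) * (δ₃ * (Fintype.card A * K)) ≤ 1 / (m : ℝ) * (γ * m / 2) :=
          mul_le_mul_of_nonneg_left e2 (by positivity)
      _ = γ / 2 := by field_simp
  set δ' : ℝ := min δ δ₃ / 2 ^ F'.card with hδ'def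
  have hδ' : 0 < δ' := by
    rw [hδ'def]
    exact div_pos (lt_min hδ hδ₃0) h2F
  have hδ'1 : 2 ^ F'.card * δ' ≤ δ := by
    rw [hδ'def, mul_div_cancel₀ _ h2F.ne']
    exact min_le_left _ _
  have hδ'3 : 2 ^ F'.card * δ' ≤ δ₃ := by
    rw [hδ'def, mul_div_cancel₀ _ h2F.ne']
    exact min_le_right _ _
  refine ⟨F', δ', hδ', ?_⟩
  have h4 := bad_small V hV F₀
  have h5 : Tendsto (fun n => K / m * ((Nat.card {v : V n // ¬ Set.InjOn (fun g : G => g⁻¹ • v)
        (F₀ : Set G)} : ℝ) / Nat.card (V n))) atTop (𝓝 (K / m * 0)) := h4.const_mul _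
  rw [mul_zero] at h5
  filter_upwards [h5.eventually (gt_mem_nhds (show 0 < γ / 2 by linarith))] with n e5
  intro e1
  have := Fintype.ofFinite (V n)
  have hVpos : 0 < Fintype.card (V n) := Fintype.card_pos
  have hNpos : (0 : ℝ) < Fintype.card (V n) := by exact_mod_cast hVpos
  set M1 := Mic μ (V n) F' δ' with hM1
  set M2 := Mic (μ.map (code F₀ φ)) (V n) F δ with hM2
  have hM1ne : M1 ≠ ∅ := by
    intro h0
    rw [rate, if_pos h0] at e1
    exact not_lt_bot e1
  have hM1pos : (0 : ℝ) < Nat.card M1 := by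
    have : Nonempty M1 := (Set.nonempty_iff_ne_empty.mpr hM1ne).to_subtype
    exact_mod_cast Nat.card_pos
  have hzM1 : z < Real.log (Nat.card M1) / Nat.card (V n) := by
    rw [rate, if_neg hM1ne] at e1
    exact_mod_cast e1
  have hpush : ∀ x ∈ M1, codeV F₀ φ x ∈ M2 := by
    intro x hx
    exact push_mic μ F₀ F F' hF' φ δ δ' hδ hδ'1 x hx
  have hpush3 : ∀ x ∈ M1, codeV F₀ φ x ∈ Mic (μ.map (code F₀ φ)) (V n) {1} δ₃ := by
    intro x hx
    exact push_mic μ F₀ {1} F' hF1 φ δ₃ δ' hδ₃0 hδ'3 x hx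
  set N : ℝ := (Fintype.card (V n) : ℝ) with hN
  set bd : ℝ := (Nat.card {v : V n // ¬ Set.InjOn (fun g : G => g⁻¹ • v) (F₀ : Set G)} : ℝ)
      with hbd
  have hlogs : ∀ y ∈ Mic (μ.map (code F₀ φ)) (V n) {1} δ₃,
      ∑ v, Real.log (w (y v)) ≤ N * (- H + δ₃ * (Fintype.card A * K)) := by
    intro y hy
    have e6 : ∑ v, Real.log (w (y v))
        = ∑ a : A, ((univ.filter (fun v => y v = a)).card : ℝ) * Real.log (w a) := by
      rw [← Finset.sum_fiberwise univ y (fun v => Real.log (w (y v)))]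
      apply Finset.sum_congr rfl
      intro a _
      rw [Finset.sum_congr rfl (g := fun _ => Real.log (w a))
        (fun v hv => by rw [(Finset.mem_filter.mp hv).2]), Finset.sum_const, nsmul_eq_mul]
    rw [e6]
    have e7 : ∀ a : A, ((univ.filter (fun v => y v = a)).card : ℝ) * Real.log (w a)
        ≤ N * (- ((μ.map (code F₀ φ)).real {y | y 1 = a} * (- Real.log (w a))) + δ₃ * K) := by
      intro a
      have e8 := hy (fun _ => a)
      have e9 : {y : G → A | ∀ g ∈ ({1} : Finset G), y g = a} = {y | y 1 = a} := by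
        ext y; simp
      have e10 : emp (V n) ({1} : Finset G) y (fun _ => a)
          = ((univ.filter (fun v => y v = a)).card : ℝ) / N := by
        rw [emp, Nat.card_eq_fintype_card (α := V n), Nat.card_eq_fintype_card,
          Fintype.card_subtype]
        congr 3
        ext v
        simp
      rw [e10] at e8
      have e11 : |((univ.filter (fun v => y v = a)).card : ℝ) / N
          - (μ.map (code F₀ φ)).real {y | y 1 = a}| < δ₃ := by
        rw [← e9]; exact e8
      set ν : ℝ := (μ.map (code F₀ φ)).real {y | y 1 = a} with hν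
      set Na : ℝ := ((univ.filter (fun v => y v = a)).card : ℝ) with hNa
      have e12 : Na * Real.log (w a) = N * (ν * Real.log (w a) + (Na / N - ν) * Real.log (w a)) := by
        field_simp
        ring
      have e13 : (Na / N - ν) * Real.log (w a) ≤ δ₃ * K := by
        calc (Na / N - ν) * Real.log (w a) ≤ |(Na / N - ν) * Real.log (w a)| := le_abs_self _
          _ = |Na / N - ν| * |Real.log (w a)| := abs_mul _ _
          _ ≤ δ₃ * K := mul_le_mul e11.le (hKa a) (abs_nonneg _) hδ₃0.le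
      rw [e12]
      apply mul_le_mul_of_nonneg_left _ hNpos.le
      linarith
    calc ∑ a : A, ((univ.filter (fun v => y v = a)).card : ℝ) * Real.log (w a)
        ≤ ∑ a : A, N * (- ((μ.map (code F₀ φ)).real {y | y 1 = a} * (- Real.log (w a)))
          + δ₃ * K) := Finset.sum_le_sum (fun a _ => e7 a)
      _ = N * (- H + δ₃ * (Fintype.card A * K)) := by
        rw [← Finset.mul_sum, Finset.sum_add_distrib, Finset.sum_neg_distrib, Finset.sum_const,
          Finset.card_univ, nsmul_eq_mul, hH]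
        ring
  set B : ℝ := 2 ^ Fintype.card (V n) * Real.exp ((1 / (m : ℝ))
    * (N * (- H + δ₃ * (Fintype.card A * K)) + K * bd)) with hB
  have hBpos : 0 < B := by
    have := Real.exp_pos ((1 / (m : ℝ)) * (N * (- H + δ₃ * (Fintype.card A * K)) + K * bd))
    positivity
  have hfib : ∀ y ∈ Mic (μ.map (code F₀ φ)) (V n) {1} δ₃,
      (((univ : Finset (V n → ZMod 2)).filter (fun x => codeV F₀ φ x = y)).card : ℝ) ≤ B := by
    intro y hy
    have h := code_fiber_w F₀ hF₀ φ w hw0 hw' K hKn y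
    refine h.trans ?_
    rw [hB]
    apply mul_le_mul_of_nonneg_left _ (by positivity)
    apply Real.exp_le_exp.mpr
    apply mul_le_mul_of_nonneg_left _ (by positivity)
    have e14 : (((univ : Finset (V n)).filter
        (fun v => ¬ Set.InjOn (fun g : G => g⁻¹ • v) (F₀ : Set G))).card : ℝ) = bd := by
      rw [hbd, Nat.card_eq_fintype_card, Fintype.card_subtype]
    rw [e14]
    have := hlogs y hy
    linarith
  have hM12 : (Nat.card M1 : ℝ) ≤ Nat.card M2 * B := by
    have hc1 : Nat.card M1 = M1.toFinset.card := by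
      rw [Nat.card_coe_set_eq, Set.ncard_eq_toFinset_card']
    have hc2 : Nat.card M2 = M2.toFinset.card := by
      rw [Nat.card_coe_set_eq, Set.ncard_eq_toFinset_card']
    rw [hc1, hc2]
    have h7 : (M1.toFinset.card : ℝ)
        = ∑ y ∈ M1.toFinset.image (codeV F₀ φ),
          ((M1.toFinset.filter (fun x => codeV F₀ φ x = y)).card : ℝ) := by
      exact_mod_cast Finset.card_eq_sum_card_image (codeV F₀ φ) M1.toFinset
    rw [h7]
    calc ∑ y ∈ M1.toFinset.image (codeV F₀ φ),
          ((M1.toFinset.filter (fun x => codeV F₀ φ x = y)).card : ℝ)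
        ≤ ∑ y ∈ M1.toFinset.image (codeV F₀ φ), B := by
          apply Finset.sum_le_sum
          intro y hy
          rw [Finset.mem_image] at hy
          obtain ⟨x, hx, rfl⟩ := hy
          refine le_trans ?_ (hfib _ (hpush3 x (Set.mem_toFinset.mp hx)))
          exact_mod_cast Finset.card_le_card (Finset.filter_subset_filter _
            (Finset.subset_univ _))
      _ = (M1.toFinset.image (codeV F₀ φ)).card * B := by
          rw [Finset.sum_const, nsmul_eq_mul]
      _ ≤ M2.toFinset.card * B := by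
          apply mul_le_mul_of_nonneg_right _ hBpos.le
          have h8 : M1.toFinset.image (codeV F₀ φ) ⊆ M2.toFinset := by
            intro y hy
            rw [Finset.mem_image] at hy
            obtain ⟨x, hx, rfl⟩ := hy
            rw [Set.mem_toFinset] at hx ⊢
            exact hpush x hx
          exact_mod_cast Finset.card_le_card h8
  have hM2pos : (0 : ℝ) < Nat.card M2 := by
    by_contra hcon
    have h9 : (Nat.card M2 : ℝ) = 0 := le_antisymm (not_lt.mp hcon) (by positivity)
    rw [h9, zero_mul] at hM12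
    linarith
  have hM2ne : M2 ≠ ∅ := by
    intro h0
    rw [h0] at hM2pos
    simp at hM2pos
  rw [rate, if_neg hM2ne]
  have h7 : Real.log (Nat.card M1)
      ≤ Real.log (Nat.card M2) + (Fintype.card (V n) * Real.log 2
        + (1 / (m : ℝ)) * (N * (- H + δ₃ * (Fintype.card A * K)) + K * bd)) := by
    have h9 := Real.log_le_log hM1pos hM12
    rw [Real.log_mul hM2pos.ne' hBpos.ne', hB,
      Real.log_mul (by positivity) (Real.exp_pos _).ne', Real.log_pow, Real.log_exp] at h9
    exact h9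
  rw [Nat.card_eq_fintype_card (α := V n)] at e5 hzM1
  have h10 : z' ≤ Real.log (Nat.card M2) / Nat.card (V n) := by
    rw [Nat.card_eq_fintype_card (α := V n), le_div_iff₀ hNpos]
    rw [lt_div_iff₀ hNpos] at hzM1
    have h11 := mul_lt_mul_of_pos_right e5 hNpos
    have h12 : K / m * (bd / N) * N = K / m * bd := by
      field_simp
    rw [h12] at h11
    have h13 : (1 / (m : ℝ)) * (N * (- H + δ₃ * (Fintype.card A * K)) + K * bd)
        = - (H / m * N) + (1 / (m : ℝ) * (δ₃ * (Fintype.card A * K))) * N + K / m * bd := by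
      ring
    rw [h13] at h7
    have h14 := mul_le_mul_of_nonneg_right hδ₃b hNpos.le
    have h15 : z' * N = z * N + (H / m * N - Real.log 2 * N) - γ * N := by
      rw [hγ]; ring
    have h16 : Real.log 2 * N = N * Real.log 2 := mul_comm _ _
    rw [h15]
    linarith
  exact_mod_cast h10

/-- The upper and the lower entropy of a block factor, weighted form. -/
theorem gen_code (μ : Measure (G → ZMod 2)) [IsProbabilityMeasure μ] (hV : IsSofic G V)
    {A : Type} [Fintype A] [MeasurableSpace A] [MeasurableSingletonClass A]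
    (F₀ : Finset G) (hF₀ : F₀.Nonempty) (φ : (F₀ → ZMod 2) → A) (w : A → ℝ)
    (hw0 : ∀ a, 0 < w a)
    (hw : ∀ a : A, (Nat.card {z : F₀ → ZMod 2 // φ z = a} : ℝ) ≤ w a * 2 ^ F₀.card) :
    soficEntropy μ V + (((∑ a, (μ.map (code F₀ φ)).real {y | y 1 = a} * (- Real.log (w a)))
      / F₀.card - Real.log 2 : ℝ) : EReal) ≤ soficEntropy (μ.map (code F₀ φ)) V ∧
    lowerSoficEntropy μ V + (((∑ a, (μ.map (code F₀ φ)).real {y | y 1 = a} * (- Real.log (w a)))
      / F₀.card - Real.log 2 : ℝ) : EReal) ≤ lowerSoficEntropy (μ.map (code F₀ φ)) V := by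
  set c : ℝ := (∑ a, (μ.map (code F₀ φ)).real {y | y 1 = a} * (- Real.log (w a)))
      / F₀.card - Real.log 2 with hc
  have hred : ∀ a b : EReal, (∀ z : ℝ, (z : EReal) < a → ((z + c : ℝ) : EReal) ≤ b) →
      a + (c : EReal) ≤ b := by
    intro a b h
    rw [← EReal.le_sub_iff_add_le (Or.inl (EReal.coe_ne_bot c)) (Or.inl (EReal.coe_ne_top c)),
      ← EReal.ge_of_forall_gt_iff_ge]
    intro z hz
    rw [EReal.le_sub_iff_add_le (Or.inl (EReal.coe_ne_bot c)) (Or.inl (EReal.coe_ne_top c))]
    have := h z hz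
    rwa [EReal.coe_add] at this
  constructor
  · apply hred
    intro z hz
    rw [soficEntropy]
    apply le_iInf
    intro F
    apply le_iInf
    rintro ⟨δ, hδ⟩
    rw [← EReal.ge_of_forall_gt_iff_ge]
    intro z' hz'
    have hz'' : z' < z + c := by exact_mod_cast hz'
    obtain ⟨F', δ', hδ', hev⟩ := key_code V μ hV F₀ hF₀ φ w hw0 hw F δ hδ z z' hz''
    have h0 : soficEntropy μ V ≤ limsup (fun n => rate (Mic μ (V n) F' δ')) atTop :=
      iInf_le_of_le F' (iInf_le _ (⟨δ', hδ'⟩ : {δ : ℝ // 0 < δ}))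
    have h1 : (z : EReal) < limsup (fun n => rate (Mic μ (V n) F' δ')) atTop :=
      lt_of_lt_of_le hz h0
    have h2 := frequently_lt_of_lt_limsup (by isBoundedDefault) h1
    exact le_limsup_of_frequently_le ((h2.and_eventually hev).mono (fun n hn => hn.2 hn.1))
      (by isBoundedDefault)
  · apply hred
    intro z hz
    rw [lowerSoficEntropy]
    apply le_iInf
    intro F
    apply le_iInf
    rintro ⟨δ, hδ⟩
    rw [← EReal.ge_of_forall_gt_iff_ge]
    intro z' hz'
    have hz'' : z' < z + c := by exact_mod_cast hz'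
    obtain ⟨F', δ', hδ', hev⟩ := key_code V μ hV F₀ hF₀ φ w hw0 hw F δ hδ z z' hz''
    have h0 : lowerSoficEntropy μ V ≤ liminf (fun n => rate (Mic μ (V n) F' δ')) atTop :=
      iInf_le_of_le F' (iInf_le _ (⟨δ', hδ'⟩ : {δ : ℝ // 0 < δ}))
    have h1 : (z : EReal) < liminf (fun n => rate (Mic μ (V n) F' δ')) atTop :=
      lt_of_lt_of_le hz h0
    have h2 := eventually_lt_of_lt_liminf h1 (by isBoundedDefault)
    exact le_liminf_of_le (by isBoundedDefault) ((h2.and hev).mono (fun n hn => hn.2 hn.1))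

end

end Pool.Agent.MP_9d0e09_an
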