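import Pool.Agent.Lib.MP_9d0e09_an.Gnl

/-!
# Block codes along arbitrary sofic approximations: Shannon form, maps, positivity
-/

open MeasureTheory Filter Topology Finset

namespace Pool.Agent.MP_9d0e09_an

/-- Weights that turn the weighted bound into the Shannon bound. -/
theorem cross_ge {G : Type} [Group G] (μ : Measure (G → ZMod 2)) [IsProbabilityMeasure μ]
    {A : Type} [Fintype A] [MeasurableSpace A] [MeasurableSingletonClass A]
    (F₀ : Finset G) (φ : (F₀ → ZMod 2) → A) :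
    ∃ w : A → ℝ, (∀ a, 0 < w a) ∧
      (∀ a : A, (Nat.card {z : F₀ → ZMod 2 // φ z = a} : ℝ) ≤ w a * 2 ^ F₀.card) ∧
      ∑ a, Real.negMulLog ((μ.map (code F₀ φ)).real {y | y 1 = a})
        ≤ ∑ a, (μ.map (code F₀ φ)).real {y | y 1 = a} * (- Real.log (w a)) := by
  classical
  set ν : A → ℝ := fun a => (μ.map (code F₀ φ)).real {y | y 1 = a} with hνd
  set u : A → ℝ := fun a => (Nat.card {z : F₀ → ZMod 2 // φ z = a} : ℝ) / 2 ^ F₀.card with hud
  set w : A → ℝ := fun a => if u a = 0 then 1 else u a with hwd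
  have hu : ∀ a, 0 ≤ u a := fun a => by simp only [hud]; positivity
  refine ⟨w, ?_, ?_, ?_⟩
  · intro a
    simp only [hwd]
    split_ifs with h
    · exact one_pos
    · exact lt_of_le_of_ne (hu a) (Ne.symm h)
  · intro a
    have h1 : (Nat.card {z : F₀ → ZMod 2 // φ z = a} : ℝ) = u a * 2 ^ F₀.card := by
      simp only [hud]
      rw [div_mul_cancel₀ _ (by positivity)]
    rw [h1]
    apply mul_le_mul_of_nonneg_right _ (by positivity)
    simp only [hwd]
    split_ifs with h
    · rw [h]; norm_num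
    · exact le_refl _
  have hpr : IsProbabilityMeasure (μ.map (code F₀ φ)) :=
    Measure.isProbabilityMeasure_map (meas_code F₀ φ).aemeasurable
  have hsumu : ∑ a, u a = 1 := by
    simp only [hud]
    rw [← Finset.sum_div]
    have h2 : ∑ a : A, (Nat.card {z : F₀ → ZMod 2 // φ z = a} : ℝ) = 2 ^ F₀.card := by
      have h3 := Finset.card_eq_sum_card_fiberwise (f := φ) (s := univ) (t := univ)
        (fun _ _ => Finset.mem_coe.mpr (Finset.mem_univ _))
      rw [Finset.card_univ, Fintype.card_fun, ZMod.card, Fintype.card_coe] at h3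
      have h4 := (Nat.cast_inj (R := ℝ)).mpr h3
      push_cast at h4
      rw [h4]
      apply Finset.sum_congr rfl
      intro a _
      rw [Nat.card_eq_fintype_card, Fintype.card_subtype]
    rw [h2, div_self (by positivity)]
  have hsumν : 1 ≤ ∑ a, ν a := by
    have h2 : (μ.map (code F₀ φ)) Set.univ
        ≤ ∑ a : A, (μ.map (code F₀ φ)) {y : G → A | y 1 = a} := by
      have h3 : (Set.univ : Set (G → A)) = ⋃ a : A, {y : G → A | y 1 = a} := by
        ext y; simp
      rw [h3]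
      exact measure_iUnion_fintype_le _ _
    rw [measure_univ] at h2
    have hne : ∑ a : A, (μ.map (code F₀ φ)) {y : G → A | y 1 = a} ≠ ⊤ :=
      ENNReal.sum_ne_top.mpr (fun a _ => measure_ne_top _ _)
    have h4 := ENNReal.toReal_mono hne h2
    rw [ENNReal.toReal_one, ENNReal.toReal_sum (fun a _ => measure_ne_top _ _)] at h4
    exact h4
  have hz : ∀ a, u a = 0 → ν a = 0 := by
    intro a h
    have h2 : Nat.card {z : F₀ → ZMod 2 // φ z = a} = 0 := by
      simp only [hud] at h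
      rw [div_eq_zero_iff] at h
      rcases h with h | h
      · exact_mod_cast h
      · exact absurd h (by positivity)
    have h3 : IsEmpty {z : F₀ → ZMod 2 // φ z = a} := by
      rw [Nat.card_eq_fintype_card, Fintype.card_eq_zero_iff] at h2
      exact h2
    simp only [hνd]
    have hm0 : Measurable (fun y : G → A => y 1) := measurable_pi_apply 1
    have hm1 : MeasurableSet {y : G → A | y 1 = a} := hm0 (MeasurableSet.singleton a)
    rw [Measure.real, Measure.map_apply (meas_code F₀ φ) hm1]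
    have h4 : code F₀ φ ⁻¹' {y : G → A | y 1 = a} = ∅ := by
      apply Set.eq_empty_of_forall_notMem
      intro x hx
      exact h3.false ⟨_, hx⟩
    rw [h4, measure_empty]
    rfl
  exact gibbs ν u w (fun a => measureReal_nonneg) hu (by rw [hsumu]; exact hsumν)
    (by intro a h; simp only [hwd]; rw [if_neg h]) hz

/-- Reduction of a sofic approximation by maps to one by actions. -/
theorem transfer' (d k : ℕ) (hk : 2 ≤ k) (V : ℕ → Type) [∀ n, Finite (V n)]
    [∀ n, Nonempty (V n)] (σ : ∀ n, Gam d k → Equiv.Perm (V n)) (hσ : IsSoficMap σ) :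
    ∃ _ : ∀ n, MulAction (Gam d k) (V n), IsSofic (Gam d k) V ∧
      ∀ (A : Type) [Finite A] [MeasurableSpace A] (μ : Measure (Gam d k → A)),
        soficEntropyM μ σ = soficEntropy μ V ∧
        lowerSoficEntropyM μ σ = lowerSoficEntropy μ V := by
  have : NeZero k := ⟨by omega⟩
  let I : ∀ n, MulAction (Gam d k) (V n) :=
    fun n => MulAction.compHom (V n) (hom d k (σ n))
  have hc1 : ∀ g : Gam d k, Small (fun n v => σ n g v ≠ g • v) :=
    close_all σ hσ (by omega)
  have hc2 : ∀ g : Gam d k, Small (fun n v => (σ n g)⁻¹ v ≠ g⁻¹ • v) := by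
    intro g
    refine (close_inv σ hσ (by omega) g).mono ?_
    intro n v h h'
    apply h
    rw [h']
    show ((hom d k (σ n)) g)⁻¹ v = (hom d k (σ n)) g⁻¹ v
    rw [map_inv]
  exact ⟨I, sofic_of σ hσ hc1, fun A _ _ μ => soficEntropyM_eq σ μ hc2⟩

/-- Block factors along arbitrary sofic approximations. -/
theorem block_gen (d k : ℕ) (hd : 3 ≤ d) (hdk : d < k)
    (μ : Measure (Gam d k → ZMod 2)) (hμ : IsHaarOn (PX (gen d k) k) μ)
    (V : ℕ → Type) [∀ n, Finite (V n)] [∀ n, Nonempty (V n)]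
    (σ : ∀ n, Gam d k → Equiv.Perm (V n)) (hσ : IsSoficMap σ)
    (A : Type) [Fintype A] [MeasurableSpace A] [MeasurableSingletonClass A]
    (F₀ : Finset (Gam d k)) (hF₀ : F₀.Nonempty) (φ : (F₀ → ZMod 2) → A) :
    (∀ w : A → ℝ, (∀ a, 0 < w a) →
      (∀ a : A, (Nat.card {z : F₀ → ZMod 2 // φ z = a} : ℝ) ≤ w a * 2 ^ F₀.card) →
      soficEntropyM μ σ + (((∑ a, (μ.map (code F₀ φ)).real {y | y 1 = a} *
        (- Real.log (w a))) / F₀.card - Real.log 2 : ℝ) : EReal)
        ≤ soficEntropyM (μ.map (code F₀ φ)) σ ∧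
      lowerSoficEntropyM μ σ + (((∑ a, (μ.map (code F₀ φ)).real {y | y 1 = a} *
        (- Real.log (w a))) / F₀.card - Real.log 2 : ℝ) : EReal)
        ≤ lowerSoficEntropyM (μ.map (code F₀ φ)) σ) ∧
    soficEntropyM μ σ + (((∑ a, Real.negMulLog ((μ.map (code F₀ φ)).real {y | y 1 = a}))
        / F₀.card - Real.log 2 : ℝ) : EReal) ≤ soficEntropyM (μ.map (code F₀ φ)) σ ∧
    lowerSoficEntropyM μ σ + (((∑ a, Real.negMulLog ((μ.map (code F₀ φ)).real {y | y 1 = a}))
        / F₀.card - Real.log 2 : ℝ) : EReal) ≤ lowerSoficEntropyM (μ.map (code F₀ φ)) σ := by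
  have := hμ.prob
  obtain ⟨I, hV, hE⟩ := transfer' d k (by omega) V σ hσ
  have h1 : ∀ w : A → ℝ, (∀ a, 0 < w a) →
      (∀ a : A, (Nat.card {z : F₀ → ZMod 2 // φ z = a} : ℝ) ≤ w a * 2 ^ F₀.card) →
      soficEntropyM μ σ + (((∑ a, (μ.map (code F₀ φ)).real {y | y 1 = a} *
        (- Real.log (w a))) / F₀.card - Real.log 2 : ℝ) : EReal)
        ≤ soficEntropyM (μ.map (code F₀ φ)) σ ∧
      lowerSoficEntropyM μ σ + (((∑ a, (μ.map (code F₀ φ)).real {y | y 1 = a} *
        (- Real.log (w a))) / F₀.card - Real.log 2 : ℝ) : EReal)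
        ≤ lowerSoficEntropyM (μ.map (code F₀ φ)) σ := by
    intro w hw0 hw
    rw [(hE (ZMod 2) μ).1, (hE (ZMod 2) μ).2, (hE A (μ.map (code F₀ φ))).1,
      (hE A (μ.map (code F₀ φ))).2]
    exact gen_code V μ hV F₀ hF₀ φ w hw0 hw
  obtain ⟨w, hw0, hw, hwH⟩ := cross_ge μ F₀ φ
  have h2 := h1 w hw0 hw
  have h3 : (((∑ a, Real.negMulLog ((μ.map (code F₀ φ)).real {y | y 1 = a}))
        / F₀.card - Real.log 2 : ℝ) : EReal)
      ≤ (((∑ a, (μ.map (code F₀ φ)).real {y | y 1 = a} *
        (- Real.log (w a))) / F₀.card - Real.log 2 : ℝ) : EReal) := by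
    rw [EReal.coe_le_coe_iff]
    apply sub_le_sub_right
    exact div_le_div_of_nonneg_right hwH (by positivity)
  exact ⟨h1, (add_le_add_right h3 _).trans h2.1, (add_le_add_right h3 _).trans h2.2⟩

/-- Small windows: positivity as soon as the entropy of the subshift is at least the design
entropy. -/
theorem pos_gen (d k : ℕ) (hd : 3 ≤ d) (hdk : d < k)
    (μ : Measure (Gam d k → ZMod 2)) (hμ : IsHaarOn (PX (gen d k) k) μ)
    (V : ℕ → Type) [∀ n, Finite (V n)] [∀ n, Nonempty (V n)]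
    (σ : ∀ n, Gam d k → Equiv.Perm (V n)) (hσ : IsSoficMap σ)
    (A : Type) [Fintype A] [MeasurableSpace A] [MeasurableSingletonClass A]
    (F₀ : Finset (Gam d k)) (φ : (F₀ → ZMod 2) → A) (hφ : ∃ z z', φ z ≠ φ z')
    (hk : d * 2 ^ F₀.card ≤ k) :
    ((((1 - (d : ℝ) / k) * Real.log 2 : ℝ) : EReal) ≤ soficEntropyM μ σ →
      0 < soficEntropyM (μ.map (code F₀ φ)) σ) ∧
    ((((1 - (d : ℝ) / k) * Real.log 2 : ℝ) : EReal) ≤ lowerSoficEntropyM μ σ →
      0 < lowerSoficEntropyM (μ.map (code F₀ φ)) σ) := by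
  classical
  have : NeZero k := ⟨by omega⟩
  have := hμ.prob
  obtain ⟨z, z', hzz⟩ := hφ
  have hF₀ : F₀.Nonempty := by
    by_contra hcon
    rw [Finset.not_nonempty_iff_eq_empty] at hcon
    subst hcon
    apply hzz
    congr 1
    funext h
    exact absurd h.2 (Finset.notMem_empty _)
  have hm1 : 1 ≤ F₀.card := Finset.card_pos.mpr hF₀
  have hm0 : (0 : ℝ) < F₀.card := by exact_mod_cast hm1
  have hcard : F₀.card + 2 ≤ k := by
    have h1 : F₀.card < 2 ^ F₀.card := Nat.lt_two_pow_self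
    have h2 : 3 * 2 ^ F₀.card ≤ d * 2 ^ F₀.card := Nat.mul_le_mul_right _ hd
    omega
  have hpr : IsProbabilityMeasure (μ.map (code F₀ φ)) :=
    Measure.isProbabilityMeasure_map (meas_code F₀ φ).aemeasurable
  have h1 := shannon_pos (fun a => (μ.map (code F₀ φ)).real {y | y 1 = a}) F₀.card hm1
    (fun a => measureReal_nonneg) (law_sum_le _) (φ z) (φ z') hzz
    (law_ge d k μ hμ F₀ hcard φ z) (law_ge d k μ hμ F₀ hcard φ z')
  obtain ⟨_, h2, h3⟩ := block_gen d k hd hdk μ hμ V σ hσ A F₀ hF₀ φ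
  have hl2 : 0 < Real.log 2 := Real.log_pos (by norm_num)
  have hk0 : (0 : ℝ) < k := by
    have : 0 < k := by omega
    exact_mod_cast this
  have h4 : (d : ℝ) / k ≤ (1 / 2) ^ F₀.card := by
    rw [one_div, inv_pow, ← one_div, div_le_div_iff₀ hk0 (by positivity), one_mul]
    exact_mod_cast hk
  have h5 : (1 / 2 : ℝ) ^ F₀.card * Real.log 2
      < (∑ a, Real.negMulLog ((μ.map (code F₀ φ)).real {y | y 1 = a})) / F₀.card := by
    rw [lt_div_iff₀ hm0]
    calc (1 / 2 : ℝ) ^ F₀.card * Real.log 2 * F₀.card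
        = F₀.card * (1 / 2 : ℝ) ^ F₀.card * Real.log 2 := by ring
      _ < _ := h1
  have h6 : (d : ℝ) / k * Real.log 2 ≤ (1 / 2 : ℝ) ^ F₀.card * Real.log 2 :=
    mul_le_mul_of_nonneg_right h4 hl2.le
  have h7 : 0 < (1 - (d : ℝ) / k) * Real.log 2
      + ((∑ a, Real.negMulLog ((μ.map (code F₀ φ)).real {y | y 1 = a})) / F₀.card
      - Real.log 2) := by
    have : (1 - (d : ℝ) / k) * Real.log 2 = Real.log 2 - (d : ℝ) / k * Real.log 2 := by ring
    rw [this]
    linarith
  have h8 : (0 : EReal) < (((1 - (d : ℝ) / k) * Real.log 2 : ℝ) : EReal)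
      + (((∑ a, Real.negMulLog ((μ.map (code F₀ φ)).real {y | y 1 = a})) / F₀.card
      - Real.log 2 : ℝ) : EReal) := by
    rw [← EReal.coe_add]
    exact_mod_cast h7
  constructor
  · intro h
    exact h8.trans_le ((add_le_add_left h _).trans h2)
  · intro h
    exact h8.trans_le ((add_le_add_left h _).trans h3)

end Pool.Agent.MP_9d0e09_an
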