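import Pool.Agent.Lib.MP_9d0e09_an.Low2

/-!
# Many images of microstates under block codes without periods
-/

open MeasureTheory Filter Topology Finset

namespace Pool.Agent.MP_9d0e09_an

/-- Adding any word `u` with `∑ g ∈ T, u g ≠ 0` changes `φ₁` at `a` patterns of `X` or more. -/
def Sens {G B : Type} (X : Set (G → ZMod 2)) (F₁ : Finset G) (φ₁ : (F₁ → ZMod 2) → B)
    (T : Finset G) (a : ℕ) : Prop :=
  ∀ u : G → ZMod 2, ∑ g ∈ T, u g ≠ 0 → a ≤ Nat.card {z : F₁ → ZMod 2 //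
    (∃ x ∈ X, ∀ g : F₁, x g = z g) ∧ φ₁ (fun g => z g + u g) ≠ φ₁ z}

section

variable {G : Type} [Group G] {d : ℕ} (s : Fin d → G) (k : ℕ)

theorem lw_one_dot {V : Type} [Fintype V] [DecidableEq V] [MulAction G V] (T : Finset G) (v : V)
    (x : V → ZMod 2) :
    dotProduct (lw (T ×ˢ ({1} : Finset G)) (fun p : G × G => p.1 * p.2) v) x
      = ∑ g ∈ T, x (g⁻¹ • v) := by
  rw [lw_dot, Finset.sum_product]
  apply Finset.sum_congr rfl
  intro g _
  rw [Finset.sum_singleton, mul_one]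

open Classical in
/-- Patterns of points of `X` are frequent at a good point. -/
theorem pattern_ge {V : Type} [Fintype V] [DecidableEq V] [MulAction G V]
    (A : Finset (V → ZMod 2)) (F₁ : Finset G) (v : V)
    (hv : ∀ T ∈ F₁.powerset, (∃ x ∈ PX s k, ∑ g ∈ T, x g ≠ 0) →
      lw (T ×ˢ ({1} : Finset G)) (fun p : G × G => p.1 * p.2) v
        ∉ Submodule.span (ZMod 2) (A : Set (V → ZMod 2)))
    (x₀ : G → ZMod 2) (hx₀ : x₀ ∈ PX s k) :
    ((Cd A).card : ℝ) ≤ 2 ^ F₁.card *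
      (((Cd A).filter (fun x => ∀ g ∈ F₁, x (g⁻¹ • v) = x₀ g)).card : ℝ) := by
  have h1 : (((Cd A).filter (fun x => ∀ g ∈ F₁, x (g⁻¹ • v) = x₀ g)).card : ℝ)
      = ∑ x ∈ Cd A, (if ∀ g ∈ F₁, x (g⁻¹ • v) = x₀ g then (1 : ℝ) else 0) := by
    rw [Finset.sum_boole]
  have h2 : ∑ x ∈ Cd A, (if ∀ g ∈ F₁, x (g⁻¹ • v) = x₀ g then (1 : ℝ) else 0)
      = (1 / 2) ^ F₁.card * ∑ T ∈ F₁.powerset, sg (∑ g ∈ T, x₀ g) *
        ∑ x ∈ Cd A, sg (dotProduct
          (lw (T ×ˢ ({1} : Finset G)) (fun p : G × G => p.1 * p.2) v) x) := by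
    rw [Finset.sum_congr rfl (fun x _ => cyl_expand F₁ x₀ (fun g => x (g⁻¹ • v))),
      ← Finset.mul_sum, Finset.sum_comm]
    congr 1
    apply Finset.sum_congr rfl
    intro T _
    rw [Finset.mul_sum]
    apply Finset.sum_congr rfl
    intro x _
    rw [lw_one_dot]
  have h3 : ∀ T ∈ F₁.powerset, 0 ≤ sg (∑ g ∈ T, x₀ g) *
        ∑ x ∈ Cd A, sg (dotProduct
          (lw (T ×ˢ ({1} : Finset G)) (fun p : G × G => p.1 * p.2) v) x) := by
    intro T hT
    by_cases h4 : lw (T ×ˢ ({1} : Finset G)) (fun p : G × G => p.1 * p.2) v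
        ∈ Submodule.span (ZMod 2) (A : Set (V → ZMod 2))
    · have h5 : ∑ g ∈ T, x₀ g = 0 := by
        by_contra hne
        exact hv T hT ⟨x₀, hx₀, hne⟩ h4
      rw [h5, sg_zero, one_mul]
      apply Finset.sum_nonneg
      intro x hx
      have h6 : dotProduct (lw (T ×ˢ ({1} : Finset G)) (fun p : G × G => p.1 * p.2) v) x = 0 :=
        dot_span (A : Set (V → ZMod 2)) x (fun β hβ => (mem_Cd A x).mp hx β hβ) _ h4
      rw [h6, sg_zero]
      norm_num
    · rw [sum_sg_zero A _ h4, mul_zero]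
  have h4 : ((Cd A).card : ℝ) ≤ ∑ T ∈ F₁.powerset, sg (∑ g ∈ T, x₀ g) *
        ∑ x ∈ Cd A, sg (dotProduct
          (lw (T ×ˢ ({1} : Finset G)) (fun p : G × G => p.1 * p.2) v) x) := by
    refine le_trans ?_ (Finset.single_le_sum h3 (Finset.empty_mem_powerset F₁))
    have h5 : ∀ x : V → ZMod 2, sg (dotProduct
          (lw ((∅ : Finset G) ×ˢ ({1} : Finset G)) (fun p : G × G => p.1 * p.2) v) x) = 1 := by
      intro x
      rw [lw_one_dot, Finset.sum_empty, sg_zero]
    rw [Finset.sum_empty, sg_zero, one_mul, Finset.sum_congr rfl (fun x _ => h5 x),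
      Finset.sum_const, nsmul_eq_mul, mul_one]
  rw [h1, h2, ← mul_assoc, ← mul_pow, show (2 : ℝ) * (1 / 2) = 1 by norm_num, one_pow, one_mul]
  exact h4

open Classical in
/-- Few exceptional points. -/
theorem exc_few {V : Type} [Fintype V] [DecidableEq V] [MulAction G V]
    (A : Finset (V → ZMod 2)) (F₁ F : Finset G) (hF : F₁ ⊆ F) (δ C : ℝ) (hδ : 0 < δ)
    (hC : 1 ≤ C)
    (hA : ∀ T ∈ NT s k F {1}, (Nat.card {r : V × V //
        lw (T ×ˢ ({1} : Finset G)) (fun p : G × G => p.1 * p.2) r.1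
          + lw (T ×ˢ ({1} : Finset G)) (fun p : G × G => p.1 * p.2) r.2
          ∈ Submodule.span (ZMod 2) (A : Set (V → ZMod 2))} : ℝ) * (C * 2 ^ F.card)
        ≤ (δ * Fintype.card V) ^ 2) :
    (((univ : Finset V).filter (fun v => ∃ T ∈ F₁.powerset, (∃ x ∈ PX s k, ∑ g ∈ T, x g ≠ 0) ∧
      lw (T ×ˢ ({1} : Finset G)) (fun p : G × G => p.1 * p.2) v
        ∈ Submodule.span (ZMod 2) (A : Set (V → ZMod 2)))).card : ℝ)
      ≤ 2 ^ F.card * (δ * Fintype.card V) := by
  let E : Finset G → Finset V := fun T => (univ : Finset V).filter (fun v =>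
    lw (T ×ˢ ({1} : Finset G)) (fun p : G × G => p.1 * p.2) v
        ∈ Submodule.span (ZMod 2) (A : Set (V → ZMod 2)))
  have hN : (0 : ℝ) ≤ Fintype.card V := by positivity
  have h1 : ∀ T ∈ NT s k F {1}, ((E T).card : ℝ) ≤ δ * Fintype.card V := by
    intro T hT
    have h2 := hA T hT
    rw [Nat.card_eq_fintype_card, Fintype.card_subtype] at h2
    have h3 : (E T) ×ˢ (E T) ⊆ (univ : Finset (V × V)).filter (fun r =>
        lw (T ×ˢ ({1} : Finset G)) (fun p : G × G => p.1 * p.2) r.1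
          + lw (T ×ˢ ({1} : Finset G)) (fun p : G × G => p.1 * p.2) r.2
          ∈ Submodule.span (ZMod 2) (A : Set (V → ZMod 2))) := by
      intro r hr
      rw [Finset.mem_product, Finset.mem_filter, Finset.mem_filter] at hr
      rw [Finset.mem_filter]
      exact ⟨Finset.mem_univ _, Submodule.add_mem _ hr.1.2 hr.2.2⟩
    have h4 := Finset.card_le_card h3
    rw [Finset.card_product] at h4
    have h5 : ((E T).card : ℝ) * (E T).card ≤ (δ * Fintype.card V) ^ 2 := by
      refine le_trans ?_ h2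
      have h6 : (((E T).card * (E T).card : ℕ) : ℝ) ≤ _ := Nat.cast_le.mpr h4
      rw [Nat.cast_mul] at h6
      refine h6.trans ?_
      have h7 : (1 : ℝ) ≤ C * 2 ^ F.card := by
        have : (1 : ℝ) ≤ 2 ^ F.card := one_le_pow₀ (by norm_num)
        nlinarith
      exact le_mul_of_one_le_right (by positivity) h7
    have h8 : 0 ≤ δ * (Fintype.card V : ℝ) := by positivity
    nlinarith
  have hsub : (univ : Finset V).filter (fun v => ∃ T ∈ F₁.powerset,
      (∃ x ∈ PX s k, ∑ g ∈ T, x g ≠ 0) ∧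
      lw (T ×ˢ ({1} : Finset G)) (fun p : G × G => p.1 * p.2) v
        ∈ Submodule.span (ZMod 2) (A : Set (V → ZMod 2)))
      ⊆ (NT s k F {1}).biUnion E := by
    intro v hv
    rw [Finset.mem_filter] at hv
    obtain ⟨_, T, hT, ⟨x, hx, hne⟩, hsp⟩ := hv
    rw [Finset.mem_biUnion]
    refine ⟨T, ?_, Finset.mem_filter.mpr ⟨Finset.mem_univ _, hsp⟩⟩
    rw [NT, Finset.mem_filter, Finset.mem_powerset]
    refine ⟨(Finset.mem_powerset.mp hT).trans hF, x, hx, ?_⟩
    rw [Finset.sum_product]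
    simpa using hne
  have h2 : (((univ : Finset V).filter (fun v => ∃ T ∈ F₁.powerset,
      (∃ x ∈ PX s k, ∑ g ∈ T, x g ≠ 0) ∧
      lw (T ×ˢ ({1} : Finset G)) (fun p : G × G => p.1 * p.2) v
        ∈ Submodule.span (ZMod 2) (A : Set (V → ZMod 2)))).card : ℝ)
      ≤ ∑ T ∈ NT s k F {1}, ((E T).card : ℝ) := by
    exact_mod_cast (Finset.card_le_card hsub).trans Finset.card_biUnion_le
  refine h2.trans ?_
  calc ∑ T ∈ NT s k F {1}, ((E T).card : ℝ)
      ≤ ∑ T ∈ NT s k F {1}, (δ * Fintype.card V) := Finset.sum_le_sum h1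
    _ = (NT s k F {1}).card * (δ * Fintype.card V) := by rw [Finset.sum_const, nsmul_eq_mul]
    _ ≤ 2 ^ F.card * (δ * Fintype.card V) := by
        apply mul_le_mul_of_nonneg_right _ (by positivity)
        exact_mod_cast NT_card s k F {1}

open Classical in
/-- The counting step. -/
theorem img_fin {V : Type} [Fintype V] [DecidableEq V] [Nonempty V] [MulAction G V]
    (A : Finset (V → ZMod 2)) {B : Type} (F₁ T : Finset G) (hm : 1 ≤ F₁.card)
    (φ₁ : (F₁ → ZMod 2) → B) (a : ℕ) (hφ : Sens (PX s k) F₁ φ₁ T a)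
    (hA1 : ∀ x ∈ Ex s k V, x ∈ Cd A) (P : (V → ZMod 2) → Prop) (C : ℝ) (hC : 0 < C)
    (hP : C * (((Cd A).filter (fun x => ¬ P x)).card : ℝ) ≤ (Cd A).card)
    (bad : Finset V) (hbad : ∀ u, u ∉ bad → ∀ T ∈ F₁.powerset,
      (∃ x ∈ PX s k, ∑ g ∈ T, x g ≠ 0) →
      lw (T ×ˢ ({1} : Finset G)) (fun p : G × G => p.1 * p.2) u
        ∉ Submodule.span (ZMod 2) (A : Set (V → ZMod 2)))
    (b : ℕ) (hb : ((univ : Finset (V → ZMod 2)).filter (fun x => ∀ u, u ∉ bad →
      ∑ g ∈ T, x (g⁻¹ • u) = 0)).card ≤ 2 ^ b)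
    (D₀ : ℕ) (hD : 2 ^ D₀ ≤ Nat.card (Ex s k V)) (r n : ℕ)
    (hr : b + r * F₁.card ≤ D₀) :
    (2 : ℝ) ^ n * (r * (a / 2 ^ F₁.card - 1 / C) - n)
      ≤ r * (((Cd A).filter P).image (codeV F₁ φ₁)).card := by
  let S : Finset (V → ZMod 2) := (Ex s k V).toFinset
  have hScard : Nat.card (Ex s k V) = S.card := by
    rw [Nat.card_coe_set_eq, Set.ncard_eq_toFinset_card']
  have hSadd : ∀ x ∈ S, ∀ y ∈ S, x + y ∈ S := by
    intro x hx y hy
    rw [Set.mem_toFinset, mem_Ex] at hx hy ⊢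
    intro q
    rw [dotProduct_add, hx q, hy q, add_zero]
  let Wn : V → Finset V := fun u => F₁.image (fun g : G => g⁻¹ • u)
  obtain ⟨t, v, htu⟩ := greedy S hSadd (fun x u => ∑ g ∈ T, x (g⁻¹ • u)) bad b hb D₀
    (by rw [← hScard]; exact hD) Wn F₁.card hm (fun u => Finset.card_image_le) r hr
  have hAs : ∀ j < r, ∀ x ∈ Cd A, x + t j ∈ Cd A := by
    intro j hj x hx
    have h1 := hA1 (t j) (Set.mem_toFinset.mp (htu j hj).1)
    rw [mem_Cd] at hx h1 ⊢
    intro β hβ
    rw [dotProduct_add, hx β hβ, h1 β hβ, add_zero]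
  have hy : ∀ j < r, ∀ i < j, ∀ x, codeV F₁ φ₁ (x + t j) (v i) = codeV F₁ φ₁ x (v i) := by
    intro j hj i hi x
    show φ₁ (fun g : F₁ => (x + t j) ((g : G)⁻¹ • v i)) = φ₁ (fun g : F₁ => x ((g : G)⁻¹ • v i))
    congr 1
    funext g
    have h1 := (htu j hj).2.2.2 i hi ((g : G)⁻¹ • v i)
      (Finset.mem_image.mpr ⟨(g : G), g.2, rfl⟩)
    rw [Pi.add_apply, h1, add_zero]
  -- activity
  let act : (V → ZMod 2) → Finset ℕ := fun x => (Finset.range r).filter
      (fun j => codeV F₁ φ₁ (x + t j) (v j) ≠ codeV F₁ φ₁ x (v j))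
  have hact : ∀ j < r, (a : ℝ) * (Cd A).card ≤ 2 ^ F₁.card * (((Cd A).filter (fun x =>
      codeV F₁ φ₁ (x + t j) (v j) ≠ codeV F₁ φ₁ x (v j))).card : ℝ) := by
    intro j hj
    obtain ⟨_, h2, h3, _⟩ := htu j hj
    have h4 := hφ (fun g : G => t j (g⁻¹ • v j)) h2
    rw [Nat.card_eq_fintype_card, Fintype.card_subtype] at h4
    set Z : Finset (F₁ → ZMod 2) := univ.filter (fun z =>
      (∃ x ∈ PX s k, ∀ g : F₁, x g = z g) ∧
      φ₁ (fun g => z g + t j ((g : G)⁻¹ • v j)) ≠ φ₁ z) with hZ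
    let pat : (V → ZMod 2) → (F₁ → ZMod 2) := fun x g => x ((g : G)⁻¹ • v j)
    have h5 : ∀ z ∈ Z, ((Cd A).card : ℝ) ≤ 2 ^ F₁.card *
        (((Cd A).filter (fun x => pat x = z)).card : ℝ) := by
      intro z hz
      rw [hZ, Finset.mem_filter] at hz
      obtain ⟨_, ⟨x₀, hx₀, hxz⟩, _⟩ := hz
      have h6 := pattern_ge s k A F₁ (v j) (hbad (v j) h3) x₀ hx₀
      have h7 : (Cd A).filter (fun x => ∀ g ∈ F₁, x (g⁻¹ • v j) = x₀ g)
          = (Cd A).filter (fun x => pat x = z) := by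
        apply Finset.filter_congr
        intro x _
        constructor
        · intro hall
          funext g
          show x ((g : G)⁻¹ • v j) = z g
          rw [hall g g.2, hxz g]
        · intro heq g hg
          have h8 : x (g⁻¹ • v j) = z ⟨g, hg⟩ := congrFun heq ⟨g, hg⟩
          rw [h8, ← hxz ⟨g, hg⟩]
      rw [h7] at h6
      exact h6
    have h6 : (((Cd A).filter (fun x => pat x ∈ Z)).card : ℝ)
        = ∑ z ∈ Z, (((Cd A).filter (fun x => pat x = z)).card : ℝ) := by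
      have h7 := Finset.card_eq_sum_card_fiberwise (s := (Cd A).filter (fun x => pat x ∈ Z))
        (t := Z) (f := pat) (by
          intro x hx
          exact (Finset.mem_filter.mp (Finset.mem_coe.mp hx)).2)
      have h8 : ∀ z ∈ Z, ((Cd A).filter (fun x => pat x ∈ Z)).filter (fun x => pat x = z)
          = (Cd A).filter (fun x => pat x = z) := by
        intro z hz
        rw [Finset.filter_filter]
        apply Finset.filter_congr
        intro x _
        constructor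
        · exact fun h => h.2
        · intro h; exact ⟨h ▸ hz, h⟩
      rw [h7, Nat.cast_sum]
      apply Finset.sum_congr rfl
      intro z hz
      rw [h8 z hz]
    have hsub : (Cd A).filter (fun x => pat x ∈ Z)
        ⊆ (Cd A).filter (fun x => codeV F₁ φ₁ (x + t j) (v j) ≠ codeV F₁ φ₁ x (v j)) := by
      intro x hx
      rw [Finset.mem_filter] at hx ⊢
      refine ⟨hx.1, ?_⟩
      have hx2 := hx.2
      rw [hZ, Finset.mem_filter] at hx2
      exact hx2.2.2
    have h9 : (a : ℝ) ≤ Z.card := by exact_mod_cast h4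
    calc (a : ℝ) * (Cd A).card ≤ Z.card * (Cd A).card :=
          mul_le_mul_of_nonneg_right h9 (by positivity)
      _ = ∑ z ∈ Z, ((Cd A).card : ℝ) := by rw [Finset.sum_const, nsmul_eq_mul]
      _ ≤ ∑ z ∈ Z, 2 ^ F₁.card * (((Cd A).filter (fun x => pat x = z)).card : ℝ) :=
          Finset.sum_le_sum h5
      _ = 2 ^ F₁.card * (((Cd A).filter (fun x => pat x ∈ Z)).card : ℝ) := by
          rw [h6, Finset.mul_sum]
      _ ≤ _ := by
        apply mul_le_mul_of_nonneg_left _ (by positivity)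
        exact_mod_cast Finset.card_le_card hsub
  -- double counting
  have hsum : ((a : ℝ) * r * (Cd A).card) ≤ 2 ^ F₁.card * ∑ x ∈ Cd A, ((act x).card : ℝ) := by
    have h1 : ∑ x ∈ Cd A, ((act x).card : ℝ) = ∑ j ∈ Finset.range r, (((Cd A).filter (fun x =>
      codeV F₁ φ₁ (x + t j) (v j) ≠ codeV F₁ φ₁ x (v j))).card : ℝ) := by
      simp only [act, Finset.card_filter]
      push_cast
      rw [Finset.sum_comm]
    rw [h1, Finset.mul_sum]
    calc ((a : ℝ) * r * (Cd A).card) = ∑ j ∈ Finset.range r, ((a : ℝ) * (Cd A).card) := by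
          rw [Finset.sum_const, Finset.card_range, nsmul_eq_mul]; ring
      _ ≤ _ := Finset.sum_le_sum (fun j hj => hact j (Finset.mem_range.mp hj))
  let A' : Finset (V → ZMod 2) := (Cd A).filter (fun x => P x ∧ n ≤ (act x).card)
  have hA'sub : A' ⊆ Cd A := Finset.filter_subset _ _
  have htree := tree_image (codeV F₁ φ₁) v t (Cd A) A' hA'sub r n hAs hy (by
    intro x hx
    exact (Finset.mem_filter.mp hx).2.2)
  have hbd : ∑ x ∈ Cd A, ((act x).card : ℝ)
      ≤ n * (Cd A).card + r * (A'.card + ((Cd A).filter (fun x => ¬ P x)).card) := by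
    have h1 : ∀ x ∈ Cd A, ((act x).card : ℝ) ≤ n + r * ((if P x ∧ n ≤ (act x).card then (1 : ℝ) else 0)
        + (if ¬ P x then (1 : ℝ) else 0)) := by
      intro x _
      have hle : ((act x).card : ℝ) ≤ r := by
        have h2 : (act x).card ≤ (Finset.range r).card := Finset.card_filter_le _ _
        rw [Finset.card_range] at h2
        exact_mod_cast h2
      have hn0 : (0 : ℝ) ≤ n := by positivity
      have hr0 : (0 : ℝ) ≤ r := by positivity
      by_cases hPx : P x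
      · by_cases hnx : n ≤ (act x).card
        · rw [if_pos ⟨hPx, hnx⟩, if_neg (not_not.mpr hPx)]
          linarith
        · rw [if_neg (fun h => hnx h.2), if_neg (not_not.mpr hPx)]
          have : ((act x).card : ℝ) ≤ n := by exact_mod_cast (not_le.mp hnx).le
          linarith
      · rw [if_neg (fun h => hPx h.1), if_pos hPx]
        linarith
    calc ∑ x ∈ Cd A, ((act x).card : ℝ) ≤ ∑ x ∈ Cd A, ((n : ℝ) + r *
          ((if P x ∧ n ≤ (act x).card then (1 : ℝ) else 0) + (if ¬ P x then (1 : ℝ) else 0))) :=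
          Finset.sum_le_sum h1
      _ = n * (Cd A).card + r * (A'.card + ((Cd A).filter (fun x => ¬ P x)).card) := by
        rw [Finset.sum_add_distrib, Finset.sum_const, nsmul_eq_mul, ← Finset.mul_sum,
          Finset.sum_add_distrib, Finset.sum_boole, Finset.sum_boole]
        ring
  have hCd : (0 : ℝ) < (Cd A).card := by
    have : 0 < (Cd A).card := by
      apply Finset.card_pos.mpr
      refine ⟨0, ?_⟩
      rw [mem_Cd]; intro β _; simp
    exact_mod_cast this
  have hPb : (((Cd A).filter (fun x => ¬ P x)).card : ℝ) ≤ (Cd A).card * (1 / C) := by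
    rw [mul_one_div, le_div_iff₀ hC, mul_comm]
    exact hP
  have h2m : (0 : ℝ) < 2 ^ F₁.card := by positivity
  have h1 : (r : ℝ) * (a / 2 ^ F₁.card) * (Cd A).card
      ≤ n * (Cd A).card + r * (A'.card + (Cd A).card * (1 / C)) := by
    have e1 : (r : ℝ) * (a / 2 ^ F₁.card) * (Cd A).card ≤ ∑ x ∈ Cd A, ((act x).card : ℝ) := by
      have e2 : (r : ℝ) * (a / 2 ^ F₁.card) * (Cd A).card
          = ((a : ℝ) * r * (Cd A).card) / 2 ^ F₁.card := by ring
      rw [e2, div_le_iff₀ h2m, mul_comm _ ((2 : ℝ) ^ F₁.card)]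
      exact hsum
    refine (e1.trans hbd).trans ?_
    have hr0 : (0 : ℝ) ≤ r := by positivity
    have := mul_le_mul_of_nonneg_left hPb hr0
    linarith
  have h2 : ((r : ℝ) * (a / 2 ^ F₁.card - 1 / C) - n) * (Cd A).card ≤ r * A'.card := by
    have e : ((r : ℝ) * (a / 2 ^ F₁.card - 1 / C) - n) * (Cd A).card
        = (r : ℝ) * (a / 2 ^ F₁.card) * (Cd A).card - n * (Cd A).card
          - r * ((Cd A).card * (1 / C)) := by ring
    rw [e]
    linarith
  have h3 : (2 : ℝ) ^ n * (((r : ℝ) * (a / 2 ^ F₁.card - 1 / C) - n)) * (Cd A).card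
      ≤ r * (A'.image (codeV F₁ φ₁)).card * (Cd A).card := by
    calc (2 : ℝ) ^ n * (((r : ℝ) * (a / 2 ^ F₁.card - 1 / C) - n)) * (Cd A).card
        = (2 : ℝ) ^ n * ((((r : ℝ) * (a / 2 ^ F₁.card - 1 / C) - n)) * (Cd A).card) := by ring
      _ ≤ (2 : ℝ) ^ n * (r * A'.card) := mul_le_mul_of_nonneg_left h2 (by positivity)
      _ = r * ((2 : ℝ) ^ n * A'.card) := by ring
      _ ≤ r * ((A'.image (codeV F₁ φ₁)).card * (Cd A).card) :=
          mul_le_mul_of_nonneg_left htree (by positivity)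
      _ = r * (A'.image (codeV F₁ φ₁)).card * (Cd A).card := by ring
  refine (le_of_mul_le_mul_right h3 hCd).trans ?_
  apply mul_le_mul_of_nonneg_left _ (by positivity)
  have h4 : A'.image (codeV F₁ φ₁) ⊆ ((Cd A).filter P).image (codeV F₁ φ₁) := by
    apply Finset.image_subset_image
    intro x hx
    rw [Finset.mem_filter] at hx ⊢
    exact ⟨hx.1, hx.2.1⟩
  exact_mod_cast Finset.card_le_card h4

end

end Pool.Agent.MP_9d0e09_an
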