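import Pool.Agent.Lib.MP_9d0e09_an.Gnl2

/-!
# Permutive codes along an element of infinite order
-/

open MeasureTheory Filter Topology Finset

namespace Pool.Agent.MP_9d0e09_an

/-- The block code of `ψ` along the powers `h ^ a, …, h ^ (a + D)`:
`x ↦ (g ↦ ψ (x (g h ^ a), …, x (g h ^ (a + D))))`. -/
def pcode {G A : Type} [Group G] (h : G) (a : ℤ) (D : ℕ) (ψ : (Fin (D + 1) → ZMod 2) → A)
    (x : G → ZMod 2) : G → A :=
  fun g => ψ (fun i => x (g * h ^ (a + (i : ℕ))))

/-- `ψ` is permutive in its last coordinate. -/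
def Permutive {A : Type} {D : ℕ} (ψ : (Fin (D + 1) → ZMod 2) → A) : Prop :=
  ∀ u v : Fin (D + 1) → ZMod 2, (∀ i, i ≠ Fin.last D → u i = v i) → ψ u = ψ v → u = v

section

variable {G : Type} [Group G]

/-- A permutive recurrence along an orbit propagates equality. -/
theorem eq_prop {V A : Type} [MulAction G V] (g : G) (D : ℕ) (ψ : (Fin (D + 1) → ZMod 2) → A)
    (hψ : Permutive ψ) (x y : V → ZMod 2)
    (hxy : ∀ v : V, ψ (fun i : Fin (D + 1) => x (g ^ (i : ℕ) • v))
      = ψ (fun i : Fin (D + 1) => y (g ^ (i : ℕ) • v)))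
    (a : V) (ha : ∀ i < D, x (g ^ i • a) = y (g ^ i • a)) :
    ∀ i, x (g ^ i • a) = y (g ^ i • a) := by
  intro i
  induction i using Nat.strong_induction_on with
  | _ i ih =>
    by_cases hi : i < D
    · exact ha i hi
    · have h1 := hψ _ _ (by
        intro j hj
        show x (g ^ (j : ℕ) • g ^ (i - D) • a) = y (g ^ (j : ℕ) • g ^ (i - D) • a)
        rw [smul_smul, ← pow_add]
        apply ih
        have h2 : (j : ℕ) < D := by
          have h3 := j.2
          have h4 : (j : ℕ) ≠ D := by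
            intro h5
            exact hj (Fin.ext (by rw [h5]; rfl))
          omega
        omega) (hxy (g ^ (i - D) • a))
      have h2 := congrFun h1 (Fin.last D)
      simp only [Fin.val_last] at h2
      rw [smul_smul, ← pow_add] at h2
      have h3 : D + (i - D) = i := by omega
      rw [h3] at h2
      exact h2

theorem fib_bound {V A : Type} [Fintype V] [DecidableEq V] [MulAction G V] (g : G) (D : ℕ)
    (ψ : (Fin (D + 1) → ZMod 2) → A) (hψ : Permutive ψ) (L : ℕ) :
    ∃ m : ℕ, (L * m : ℕ) ≤ Fintype.card V + L * Nat.card {v : V //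
        ¬ Set.InjOn (fun l : ℕ => g ^ l • v) (Finset.range L : Set ℕ)} ∧
      ∀ c : V → A, Nat.card {x : V → ZMod 2 //
        ∀ v : V, ψ (fun i : Fin (D + 1) => x (g ^ (i : ℕ) • v)) = c v} ≤ 2 ^ (D * m) := by
  classical
  let σ : Equiv.Perm V := MulAction.toPerm g
  have hσ : ∀ (i : ℕ) (v : V), (σ ^ i) v = g ^ i • v := by
    intro i v
    induction i with
    | zero => simp
    | succ i ih =>
      rw [pow_succ', Equiv.Perm.mul_apply, ih, pow_succ', mul_smul]
      rfl
  let st := Equiv.Perm.SameCycle.setoid σ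
  let A' : Finset V := univ.image (fun c : Quotient st => c.out)
  have hA : ∀ v : V, ∃ a ∈ A', ∃ i : ℕ, v = g ^ i • a := by
    intro v
    refine ⟨(Quotient.mk st v).out, ?_, ?_⟩
    · rw [Finset.mem_image]; exact ⟨_, Finset.mem_univ _, rfl⟩
    · have h1 : Equiv.Perm.SameCycle σ (Quotient.mk st v).out v := Quotient.mk_out (s := st) v
      obtain ⟨i, _, hi⟩ := h1.exists_pow_eq'
      exact ⟨i, hi.symm.trans (hσ i _)⟩
  have hAu : ∀ a ∈ A', ∀ a' ∈ A', Equiv.Perm.SameCycle σ a a' → a = a' := by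
    intro a ha a' ha' h
    rw [Finset.mem_image] at ha ha'
    obtain ⟨c, _, rfl⟩ := ha
    obtain ⟨c', _, rfl⟩ := ha'
    have h2 : Quotient.mk st c.out = Quotient.mk st c'.out := Quotient.sound (s := st) h
    rw [Quotient.out_eq, Quotient.out_eq] at h2
    rw [h2]
  let Sh := univ.filter (fun v : V =>
        ¬ Set.InjOn (fun l : ℕ => g ^ l • v) (Finset.range L : Set ℕ))
  have hSh : Nat.card {v : V // ¬ Set.InjOn (fun l : ℕ => g ^ l • v) (Finset.range L : Set ℕ)}
      = Sh.card := by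
    rw [Nat.card_eq_fintype_card, Fintype.card_subtype]
  refine ⟨A'.card, ?_, ?_⟩
  · rw [hSh]
    have h1 : (A' \ Sh).card * L ≤ Fintype.card V := by
      rw [← Finset.card_range L, ← Finset.card_product]
      apply Finset.card_le_card_of_injOn (t := univ) (fun p : V × ℕ => g ^ p.2 • p.1)
      · intro p _; exact Finset.mem_coe.mpr (Finset.mem_univ _)
      · rintro ⟨a, i⟩ hp ⟨a', i'⟩ hp' h
        simp only [Finset.coe_product, Set.mem_prod, Finset.mem_coe, Finset.mem_sdiff,
          Finset.mem_range] at hp hp'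
        simp only at h
        have h2 : Equiv.Perm.SameCycle σ a a' := by
          have h3 : Equiv.Perm.SameCycle σ ((σ ^ i) a) ((σ ^ i') a') := by
            rw [hσ, hσ, h]
          exact (Equiv.Perm.sameCycle_pow_left.mp (Equiv.Perm.sameCycle_pow_right.mp h3))
        have h3 := hAu a hp.1.1 a' hp'.1.1 h2
        subst h3
        have h4 : Set.InjOn (fun l : ℕ => g ^ l • a) (Finset.range L : Set ℕ) := by
          by_contra h5
          exact hp.1.2 (Finset.mem_filter.mpr ⟨Finset.mem_univ _, h5⟩)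
        have h5 := h4 (Finset.mem_coe.mpr (Finset.mem_range.mpr hp.2))
          (Finset.mem_coe.mpr (Finset.mem_range.mpr hp'.2)) h
        rw [h5]
    have h2 : A'.card ≤ (A' \ Sh).card + Sh.card := by
      exact Finset.card_le_card_sdiff_add_card (s := A') (t := Sh)
    calc L * A'.card ≤ L * ((A' \ Sh).card + Sh.card) := Nat.mul_le_mul_left L h2
      _ = (A' \ Sh).card * L + L * Sh.card := by ring
      _ ≤ _ := Nat.add_le_add_right h1 _
  · intro c
    let f : {x : V → ZMod 2 // ∀ v : V, ψ (fun i : Fin (D + 1) => x (g ^ (i : ℕ) • v)) = c v}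
        → (A' × Fin D → ZMod 2) := fun x p => x.1 (g ^ (p.2 : ℕ) • p.1.1)
    have hf : Function.Injective f := by
      intro x y hxy
      apply Subtype.ext
      funext v
      obtain ⟨a, ha, i, rfl⟩ := hA v
      exact eq_prop g D ψ hψ x.1 y.1 (fun v => (x.2 v).trans (y.2 v).symm) a (by
        intro j hj
        exact congrFun hxy (⟨a, ha⟩, ⟨j, hj⟩)) i
    have h1 := Nat.card_le_card_of_injective f hf
    rw [Nat.card_eq_fintype_card (α := A' × Fin D → ZMod 2), Fintype.card_fun,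
      Fintype.card_prod, Fintype.card_coe, Fintype.card_fin, ZMod.card] at h1
    rw [mul_comm D]
    exact h1

theorem fib_small (V : ℕ → Type) [∀ n, Finite (V n)] [∀ n, Nonempty (V n)]
    [∀ n, MulAction G (V n)] (hV : IsSofic G V) (h : G) (hh : ¬ IsOfFinOrder h) {A : Type}
    (D : ℕ) (ψ : (Fin (D + 1) → ZMod 2) → A) (hψ : Permutive ψ) (ε : ℝ) (hε : 0 < ε) :
    ∀ᶠ n in atTop, ∀ c : V n → A, (Nat.card {x : V n → ZMod 2 //
        ∀ v : V n, ψ (fun i : Fin (D + 1) => x (h⁻¹ ^ (i : ℕ) • v)) = c v} : ℝ)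
      ≤ Real.exp (ε * Nat.card (V n)) := by
  classical
  have hinjz : Function.Injective (fun j : ℤ => h ^ j) := injective_zpow_iff_not_isOfFinOrder.mpr hh
  have hinjn : Function.Injective (fun l : ℕ => h⁻¹ ^ l) := by
    intro a b h1
    have h2 : h ^ (-(a : ℤ)) = h ^ (-(b : ℤ)) := by
      simp only [inv_pow] at h1
      rw [zpow_neg, zpow_neg, zpow_natCast, zpow_natCast]
      exact h1
    have := hinjz h2
    omega
  have hlog2 : 0 < Real.log 2 := Real.log_pos (by norm_num)
  obtain ⟨L0, hL0⟩ := exists_nat_gt (D * Real.log 2 * 2 / ε)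
  set L := L0 + 1 with hL
  have hLpos : 0 < L := by omega
  have hLR : (0 : ℝ) < L := by exact_mod_cast hLpos
  have hLb : D * Real.log 2 / L ≤ ε / 2 := by
    have h1 : (L0 : ℝ) < L := by rw [hL]; push_cast; linarith
    rw [div_lt_iff₀ hε] at hL0
    rw [div_le_iff₀ hLR]
    nlinarith
  have hsh := short_small V hV h⁻¹ hinjn L
  have e1 : ∀ᶠ n in atTop, D * Real.log 2 * ((Nat.card {v : V n // ¬ Set.InjOn
      (fun l : ℕ => h⁻¹ ^ l • v) (Finset.range L : Set ℕ)} : ℝ) / Nat.card (V n)) < ε / 2 := by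
    have h1 := hsh.const_mul (D * Real.log 2)
    rw [mul_zero] at h1
    exact h1.eventually (gt_mem_nhds (by positivity))
  filter_upwards [e1] with n h1
  have := Fintype.ofFinite (V n)
  have hVpos : 0 < Fintype.card (V n) := Fintype.card_pos
  have hNpos : (0 : ℝ) < Fintype.card (V n) := by exact_mod_cast hVpos
  obtain ⟨m, hm1, hm2⟩ := fib_bound (V := V n) h⁻¹ D ψ hψ L
  intro c
  have h2 : (Nat.card {x : V n → ZMod 2 //
        ∀ v : V n, ψ (fun i : Fin (D + 1) => x (h⁻¹ ^ (i : ℕ) • v)) = c v} : ℝ)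
      ≤ 2 ^ (D * m) := by exact_mod_cast hm2 c
  refine h2.trans ?_
  have h3 : (2 : ℝ) ^ (D * m) = Real.exp (D * m * Real.log 2) := by
    rw [← Real.exp_log (show (0 : ℝ) < 2 ^ (D * m) by positivity), Real.log_pow]
    push_cast
    rfl
  rw [h3]
  apply Real.exp_le_exp.mpr
  rw [Nat.card_eq_fintype_card (α := V n)] at h1 ⊢
  set N : ℝ := (Fintype.card (V n) : ℝ) with hN
  set sh : ℝ := (Nat.card {v : V n // ¬ Set.InjOn
      (fun l : ℕ => h⁻¹ ^ l • v) (Finset.range L : Set ℕ)} : ℝ) with hsd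
  have h4 : (L : ℝ) * m ≤ N + L * sh := by
    obtain ⟨t, ht⟩ : ∃ t : ℕ, t = Nat.card {v : V n // ¬ Set.InjOn
      (fun l : ℕ => h⁻¹ ^ l • v) (Finset.range L : Set ℕ)} := ⟨_, rfl⟩
    rw [← ht] at hm1
    rw [hsd, ← ht]
    obtain ⟨L', hL'⟩ : ∃ L' : ℕ, L' = L := ⟨_, rfl⟩
    rw [← hL'] at hm1 ⊢
    rw [hN]
    exact_mod_cast hm1
  have h5 : (m : ℝ) ≤ N / L + sh := by
    have h6 : (m : ℝ) = L * m / L := by field_simp
    rw [h6, div_le_iff₀ hLR]
    have h7 : (N / L + sh) * L = N + L * sh := by field_simp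
    rw [h7]
    exact h4
  have h6 : D * Real.log 2 * m ≤ D * Real.log 2 * (N / L + sh) :=
    mul_le_mul_of_nonneg_left h5 (by positivity)
  have h7 : D * Real.log 2 * (N / L + sh) = D * Real.log 2 / L * N + D * Real.log 2 * (sh / N) * N := by
    field_simp
  have h8 := mul_le_mul_of_nonneg_right hLb hNpos.le
  have h9 := mul_le_mul_of_nonneg_right h1.le hNpos.le
  calc (D : ℝ) * m * Real.log 2 = D * Real.log 2 * m := by ring
    _ ≤ D * Real.log 2 / L * N + D * Real.log 2 * (sh / N) * N := by rw [← h7]; exact h6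
    _ ≤ ε / 2 * N + ε / 2 * N := add_le_add h8 h9
    _ = ε * N := by ring

variable (V : ℕ → Type) [∀ n, Finite (V n)] [∀ n, Nonempty (V n)] [∀ n, MulAction G (V n)]

/-- Block codes with subexponential fibres do not lower the sofic entropy: the key step. -/
theorem key_fib (μ : Measure (G → ZMod 2)) [IsProbabilityMeasure μ]
    {A : Type} [Finite A] [MeasurableSpace A] [MeasurableSingletonClass A]
    (F₀ : Finset G) (φ : (F₀ → ZMod 2) → A)
    (hfib : ∀ ε : ℝ, 0 < ε → ∀ᶠ n in atTop, ∀ y : V n → A,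
      (Nat.card {x : V n → ZMod 2 // codeV F₀ φ x = y} : ℝ) ≤ Real.exp (ε * Nat.card (V n)))
    (F : Finset G) (δ : ℝ) (hδ : 0 < δ) (z z' : ℝ) (hz : z' < z) :
    ∃ F' : Finset G, ∃ δ' : ℝ, 0 < δ' ∧ ∀ᶠ n in atTop,
      ((z : ℝ) : EReal) < rate (Mic μ (V n) F' δ') →
      ((z' : ℝ) : EReal) ≤ rate (Mic (μ.map (code F₀ φ)) (V n) F δ) := by
  classical
  let F' : Finset G := (F ×ˢ F₀).image (fun p : G × G => p.1 * p.2)
  have hF' : ∀ g ∈ F, ∀ h ∈ F₀, g * h ∈ F' := by
    intro g hg h hh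
    exact Finset.mem_image.mpr ⟨(g, h), Finset.mk_mem_product hg hh, rfl⟩
  have h2F : (0 : ℝ) < 2 ^ F'.card := by positivity
  refine ⟨F', δ / 2 ^ F'.card, div_pos hδ h2F, ?_⟩
  filter_upwards [hfib (z - z') (by linarith)] with n hn
  intro e1
  have := Fintype.ofFinite (V n)
  have := Fintype.ofFinite A
  have hVpos : 0 < Fintype.card (V n) := Fintype.card_pos
  have hNpos : (0 : ℝ) < Fintype.card (V n) := by exact_mod_cast hVpos
  set M1 := Mic μ (V n) F' (δ / 2 ^ F'.card) with hM1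
  set M2 := Mic (μ.map (code F₀ φ)) (V n) F δ with hM2
  have hM1ne : M1 ≠ ∅ := by
    intro h0
    rw [rate, if_pos h0] at e1
    exact not_lt_bot e1
  have hM1pos : (0 : ℝ) < Nat.card M1 := by
    have : Nonempty M1 := (Set.nonempty_iff_ne_empty.mpr hM1ne).to_subtype
    exact_mod_cast Nat.card_pos
  have hzM1 : z < Real.log (Nat.card M1) / Nat.card (V n) := by
    rw [rate, if_neg hM1ne] at e1
    exact_mod_cast e1
  have hpush : ∀ x ∈ M1, codeV F₀ φ x ∈ M2 := by
    intro x hx
    refine push_mic μ F₀ F F' hF' φ δ (δ / 2 ^ F'.card) hδ ?_ x hx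
    rw [mul_div_cancel₀ _ h2F.ne']
  set B : ℝ := Real.exp ((z - z') * Nat.card (V n)) with hB
  have hBpos : 0 < B := Real.exp_pos _
  have hM12 : (Nat.card M1 : ℝ) ≤ Nat.card M2 * B := by
    have hc1 : Nat.card M1 = M1.toFinset.card := by
      rw [Nat.card_coe_set_eq, Set.ncard_eq_toFinset_card']
    have hc2 : Nat.card M2 = M2.toFinset.card := by
      rw [Nat.card_coe_set_eq, Set.ncard_eq_toFinset_card']
    rw [hc1, hc2]
    have h7 : (M1.toFinset.card : ℝ)
        = ∑ y ∈ M1.toFinset.image (codeV F₀ φ),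
          ((M1.toFinset.filter (fun x => codeV F₀ φ x = y)).card : ℝ) := by
      exact_mod_cast Finset.card_eq_sum_card_image (codeV F₀ φ) M1.toFinset
    rw [h7]
    calc ∑ y ∈ M1.toFinset.image (codeV F₀ φ),
          ((M1.toFinset.filter (fun x => codeV F₀ φ x = y)).card : ℝ)
        ≤ ∑ y ∈ M1.toFinset.image (codeV F₀ φ), B := by
          apply Finset.sum_le_sum
          intro y _
          have h9 := hn y
          rw [Nat.card_eq_fintype_card, Fintype.card_subtype] at h9
          refine le_trans ?_ h9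
          exact_mod_cast Finset.card_le_card (Finset.filter_subset_filter _
            (Finset.subset_univ _))
      _ = (M1.toFinset.image (codeV F₀ φ)).card * B := by
          rw [Finset.sum_const, nsmul_eq_mul]
      _ ≤ M2.toFinset.card * B := by
          apply mul_le_mul_of_nonneg_right _ hBpos.le
          have h8 : M1.toFinset.image (codeV F₀ φ) ⊆ M2.toFinset := by
            intro y hy
            rw [Finset.mem_image] at hy
            obtain ⟨x, hx, rfl⟩ := hy
            rw [Set.mem_toFinset] at hx ⊢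
            exact hpush x hx
          exact_mod_cast Finset.card_le_card h8
  have hM2pos : (0 : ℝ) < Nat.card M2 := by
    by_contra hcon
    have h9 : (Nat.card M2 : ℝ) = 0 := le_antisymm (not_lt.mp hcon) (by positivity)
    rw [h9, zero_mul] at hM12
    linarith
  have hM2ne : M2 ≠ ∅ := by
    intro h0
    rw [h0] at hM2pos
    simp at hM2pos
  rw [rate, if_neg hM2ne]
  have h7 : Real.log (Nat.card M1) ≤ Real.log (Nat.card M2) + (z - z') * Nat.card (V n) := by
    have h9 := Real.log_le_log hM1pos hM12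
    rw [Real.log_mul hM2pos.ne' hBpos.ne', hB, Real.log_exp] at h9
    exact h9
  have h10 : z' ≤ Real.log (Nat.card M2) / Nat.card (V n) := by
    rw [Nat.card_eq_fintype_card (α := V n)] at h7 hzM1 ⊢
    rw [le_div_iff₀ hNpos]
    rw [lt_div_iff₀ hNpos] at hzM1
    linarith
  exact_mod_cast h10

theorem gen_fib (μ : Measure (G → ZMod 2)) [IsProbabilityMeasure μ]
    {A : Type} [Finite A] [MeasurableSpace A] [MeasurableSingletonClass A]
    (F₀ : Finset G) (φ : (F₀ → ZMod 2) → A)
    (hfib : ∀ ε : ℝ, 0 < ε → ∀ᶠ n in atTop, ∀ y : V n → A,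
      (Nat.card {x : V n → ZMod 2 // codeV F₀ φ x = y} : ℝ) ≤ Real.exp (ε * Nat.card (V n))) :
    soficEntropy μ V ≤ soficEntropy (μ.map (code F₀ φ)) V ∧
    lowerSoficEntropy μ V ≤ lowerSoficEntropy (μ.map (code F₀ φ)) V := by
  constructor
  · rw [← EReal.ge_of_forall_gt_iff_ge]
    intro z hz
    rw [soficEntropy]
    apply le_iInf
    intro F
    apply le_iInf
    rintro ⟨δ, hδ⟩
    rw [← EReal.ge_of_forall_gt_iff_ge]
    intro z' hz'
    have hz'' : z' < z := by exact_mod_cast hz'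
    obtain ⟨F', δ', hδ', hev⟩ := key_fib V μ F₀ φ hfib F δ hδ z z' hz''
    have h0 : soficEntropy μ V ≤ limsup (fun n => rate (Mic μ (V n) F' δ')) atTop :=
      iInf_le_of_le F' (iInf_le _ (⟨δ', hδ'⟩ : {δ : ℝ // 0 < δ}))
    have h1 : (z : EReal) < limsup (fun n => rate (Mic μ (V n) F' δ')) atTop :=
      lt_of_lt_of_le hz h0
    have h2 := frequently_lt_of_lt_limsup (by isBoundedDefault) h1
    exact le_limsup_of_frequently_le ((h2.and_eventually hev).mono (fun n hn => hn.2 hn.1))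
      (by isBoundedDefault)
  · rw [← EReal.ge_of_forall_gt_iff_ge]
    intro z hz
    rw [lowerSoficEntropy]
    apply le_iInf
    intro F
    apply le_iInf
    rintro ⟨δ, hδ⟩
    rw [← EReal.ge_of_forall_gt_iff_ge]
    intro z' hz'
    have hz'' : z' < z := by exact_mod_cast hz'
    obtain ⟨F', δ', hδ', hev⟩ := key_fib V μ F₀ φ hfib F δ hδ z z' hz''
    have h0 : lowerSoficEntropy μ V ≤ liminf (fun n => rate (Mic μ (V n) F' δ')) atTop :=
      iInf_le_of_le F' (iInf_le _ (⟨δ', hδ'⟩ : {δ : ℝ // 0 < δ}))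
    have h1 : (z : EReal) < liminf (fun n => rate (Mic μ (V n) F' δ')) atTop :=
      lt_of_lt_of_le hz h0
    have h2 := eventually_lt_of_lt_liminf h1 (by isBoundedDefault)
    exact le_liminf_of_le (by isBoundedDefault) ((h2.and hev).mono (fun n hn => hn.2 hn.1))

/-- Permutive codes along an element of infinite order do not lower the sofic entropy. -/
theorem gen_perm (μ : Measure (G → ZMod 2)) [IsProbabilityMeasure μ] (hV : IsSofic G V)
    (h : G) (hh : ¬ IsOfFinOrder h) (a : ℤ) (D : ℕ)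
    {A : Type} [Finite A] [MeasurableSpace A] [MeasurableSingletonClass A]
    (ψ : (Fin (D + 1) → ZMod 2) → A) (hψ : Permutive ψ) :
    soficEntropy μ V ≤ soficEntropy (μ.map (pcode h a D ψ)) V ∧
    lowerSoficEntropy μ V ≤ lowerSoficEntropy (μ.map (pcode h a D ψ)) V := by
  classical
  let F₀ : Finset G := (univ : Finset (Fin (D + 1))).image
    (fun i : Fin (D + 1) => h ^ (a + ((i : ℕ) : ℤ)))
  have hmem : ∀ i : Fin (D + 1), h ^ (a + (i : ℕ)) ∈ F₀ := fun i =>
    Finset.mem_image_of_mem _ (Finset.mem_univ _)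
  let φ : (F₀ → ZMod 2) → A := fun z => ψ (fun i => z ⟨h ^ (a + (i : ℕ)), hmem i⟩)
  have hcode : pcode h a D ψ = code F₀ φ := by
    funext x g
    rfl
  rw [hcode]
  apply gen_fib V μ F₀ φ
  intro ε hε
  filter_upwards [fib_small V hV h hh D ψ hψ ε hε] with n hn
  intro y
  refine le_trans ?_ (hn (fun v => y (h ^ a • v)))
  have h1 : Nat.card {x : V n → ZMod 2 // codeV F₀ φ x = y}
      ≤ Nat.card {x : V n → ZMod 2 //
        ∀ v : V n, ψ (fun i : Fin (D + 1) => x (h⁻¹ ^ (i : ℕ) • v)) = y (h ^ a • v)} := by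
    have hmap : ∀ x : {x : V n → ZMod 2 // codeV F₀ φ x = y},
        ∀ v : V n, ψ (fun i : Fin (D + 1) => x.1 (h⁻¹ ^ (i : ℕ) • v)) = y (h ^ a • v) := by
      intro x v
      have h2 := congrFun x.2 (h ^ a • v)
      rw [← h2]
      show _ = ψ (fun i => x.1 ((h ^ (a + (i : ℕ)))⁻¹ • h ^ a • v))
      congr 1
      funext i
      have e : (h ^ (a + ((i : ℕ) : ℤ)))⁻¹ * h ^ a = h⁻¹ ^ (i : ℕ) := by
        rw [← zpow_neg, ← zpow_add, inv_pow, ← zpow_natCast, ← zpow_neg]
        congr 1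
        ring
      rw [smul_smul, e]
    apply Nat.card_le_card_of_injective (fun x => (⟨x.1, hmap x⟩ :
      {x : V n → ZMod 2 // ∀ v : V n, ψ (fun i : Fin (D + 1) => x (h⁻¹ ^ (i : ℕ) • v))
        = y (h ^ a • v)}))
    intro x x' hxx
    have h3 := congrArg Subtype.val hxx
    exact Subtype.ext h3
  exact_mod_cast h1

end

/-- The same for the free product and approximations by maps. -/
theorem perm_map (d k : ℕ) (hk : 2 ≤ k) (μ : Measure (Gam d k → ZMod 2))
    [IsProbabilityMeasure μ]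
    (V : ℕ → Type) [∀ n, Finite (V n)] [∀ n, Nonempty (V n)]
    (σ : ∀ n, Gam d k → Equiv.Perm (V n)) (hσ : IsSoficMap σ)
    (h : Gam d k) (hh : ¬ IsOfFinOrder h) (a : ℤ) (D : ℕ)
    (A : Type) [Finite A] [MeasurableSpace A] [MeasurableSingletonClass A]
    (ψ : (Fin (D + 1) → ZMod 2) → A) (hψ : Permutive ψ) :
    soficEntropyM μ σ ≤ soficEntropyM (μ.map (pcode h a D ψ)) σ ∧
    lowerSoficEntropyM μ σ ≤ lowerSoficEntropyM (μ.map (pcode h a D ψ)) σ := by
  obtain ⟨I, hV, hE⟩ := transfer' d k hk V σ hσ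
  rw [(hE (ZMod 2) μ).1, (hE (ZMod 2) μ).2, (hE A (μ.map (pcode h a D ψ))).1,
    (hE A (μ.map (pcode h a D ψ))).2]
  exact gen_perm V μ hV h hh a D ψ hψ

end Pool.Agent.MP_9d0e09_an
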