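import Pool.Agent.Lib.MP_9d0e09_an.Uni
import Pool.Agent.Lib.MP_9d0e09_an.Prm

/-!
# Measurable factors: three bounds on fibres
-/

open MeasureTheory Filter Topology Finset

namespace Pool.Agent.MP_9d0e09_an

section

variable {G : Type} [Group G]

/-- Fibres of a block code, weighted bound. -/
theorem fib_weight (V : ℕ → Type) [∀ n, Finite (V n)] [∀ n, Nonempty (V n)]
    [∀ n, MulAction G (V n)] (μ : Measure (G → ZMod 2)) [IsProbabilityMeasure μ]
    (hV : IsSofic G V)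
    {A₁ : Type} [Fintype A₁] [MeasurableSpace A₁] [MeasurableSingletonClass A₁]
    (F₁ : Finset G) (hF₁ : F₁.Nonempty) (φ₁ : (F₁ → ZMod 2) → A₁)
    (w : A₁ → ℝ) (hw0 : ∀ a, 0 < w a)
    (hw : ∀ a : A₁, (Nat.card {z : F₁ → ZMod 2 // φ₁ z = a} : ℝ) ≤ w a * 2 ^ F₁.card) :
    FibLe V μ F₁ φ₁ (Real.log 2 - (∑ a, (μ.map (code F₁ φ₁)).real {y | y 1 = a} *
      (- Real.log (w a))) / F₁.card) := by
  classical
  intro γ hγ0
  set m := F₁.card with hm
  have hm0 : (0 : ℝ) < m := by exact_mod_cast Finset.card_pos.mpr hF₁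
  have hw' : ∀ a : A₁, (((univ : Finset (F₁ → ZMod 2)).filter (fun z => φ₁ z = a)).card : ℝ)
      ≤ w a * 2 ^ F₁.card := by
    intro a
    have h := hw a
    rw [Nat.card_eq_fintype_card, Fintype.card_subtype] at h
    exact h
  set K : ℝ := ∑ a, |Real.log (w a)| with hK
  have hKa : ∀ a, |Real.log (w a)| ≤ K := by
    intro a
    exact Finset.single_le_sum (f := fun a => |Real.log (w a)|) (fun a _ => abs_nonneg _)
      (Finset.mem_univ a)
  have hK0 : 0 ≤ K := Finset.sum_nonneg (fun a _ => abs_nonneg _)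
  have hKn : ∀ a, - Real.log (w a) ≤ K := fun a => (neg_le_abs _).trans (hKa a)
  set H : ℝ := ∑ a, (μ.map (code F₁ φ₁)).real {y | y 1 = a} * (- Real.log (w a)) with hH
  have hF1 : ∀ g ∈ ({1} : Finset G), ∀ h ∈ F₁, g * h ∈ F₁ := by
    intro g hg h hh
    rw [Finset.mem_singleton] at hg
    subst hg
    rw [one_mul]
    exact hh
  have h2F : (0 : ℝ) < 2 ^ F₁.card := by positivity
  set δ₃ : ℝ := γ * m / (2 * (Fintype.card A₁ * K + 1)) with hδ₃
  have hden : 0 < 2 * (Fintype.card A₁ * K + 1) := by positivity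
  have hδ₃0 : 0 < δ₃ := by
    rw [hδ₃]
    exact div_pos (mul_pos hγ0 hm0) hden
  have hδ₃b : 1 / (m : ℝ) * (δ₃ * (Fintype.card A₁ * K)) ≤ γ / 2 := by
    have e1 : δ₃ * (Fintype.card A₁ * K + 1) = γ * m / 2 := by
      rw [hδ₃]
      field_simp
    have e2 : δ₃ * (Fintype.card A₁ * K) ≤ γ * m / 2 := by
      rw [← e1]
      apply mul_le_mul_of_nonneg_left _ hδ₃0.le
      linarith
    calc 1 / (m : ℝ) * (δ₃ * (Fintype.card A₁ * K)) ≤ 1 / (m : ℝ) * (γ * m / 2) :=
          mul_le_mul_of_nonneg_left e2 (by positivity)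
      _ = γ / 2 := by field_simp
  refine ⟨F₁, δ₃ / 2 ^ F₁.card, div_pos hδ₃0 h2F, ?_⟩
  have h4 := bad_small V hV F₁
  have h5 : Tendsto (fun n => K / m * ((Nat.card {v : V n // ¬ Set.InjOn (fun g : G => g⁻¹ • v)
        (F₁ : Set G)} : ℝ) / Nat.card (V n))) atTop (𝓝 (K / m * 0)) := h4.const_mul _
  rw [mul_zero] at h5
  filter_upwards [h5.eventually (gt_mem_nhds (show 0 < γ / 2 by linarith))] with n e5
  intro u
  have := Fintype.ofFinite (V n)
  have hVpos : 0 < Fintype.card (V n) := Fintype.card_pos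
  have hNpos : (0 : ℝ) < Fintype.card (V n) := by exact_mod_cast hVpos
  by_cases hemp : IsEmpty {x : V n → ZMod 2 // x ∈ Mic μ (V n) F₁ (δ₃ / 2 ^ F₁.card) ∧
      codeV F₁ φ₁ x = u}
  · rw [Nat.card_of_isEmpty, Nat.cast_zero]
    exact (Real.exp_pos _).le
  rw [not_isEmpty_iff] at hemp
  obtain ⟨x₀, hx₀, hu⟩ := hemp
  have hu1 : u ∈ Mic (μ.map (code F₁ φ₁)) (V n) {1} δ₃ := by
    rw [← hu]
    refine push_mic μ F₁ {1} F₁ hF1 φ₁ δ₃ (δ₃ / 2 ^ F₁.card) hδ₃0 ?_ x₀ hx₀
    rw [mul_div_cancel₀ _ h2F.ne']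
  set N : ℝ := (Fintype.card (V n) : ℝ) with hN
  set bd : ℝ := (Nat.card {v : V n // ¬ Set.InjOn (fun g : G => g⁻¹ • v) (F₁ : Set G)} : ℝ)
      with hbd
  have hlogs : ∀ y ∈ Mic (μ.map (code F₁ φ₁)) (V n) {1} δ₃,
      ∑ v, Real.log (w (y v)) ≤ N * (- H + δ₃ * (Fintype.card A₁ * K)) := by
    intro y hy
    have e6 : ∑ v, Real.log (w (y v))
        = ∑ a : A₁, ((univ.filter (fun v => y v = a)).card : ℝ) * Real.log (w a) := by
      rw [← Finset.sum_fiberwise univ y (fun v => Real.log (w (y v)))]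
      apply Finset.sum_congr rfl
      intro a _
      rw [Finset.sum_congr rfl (g := fun _ => Real.log (w a))
        (fun v hv => by rw [(Finset.mem_filter.mp hv).2]), Finset.sum_const, nsmul_eq_mul]
    rw [e6]
    have e7 : ∀ a : A₁, ((univ.filter (fun v => y v = a)).card : ℝ) * Real.log (w a)
        ≤ N * (- ((μ.map (code F₁ φ₁)).real {y | y 1 = a} * (- Real.log (w a))) + δ₃ * K) := by
      intro a
      have e8 := hy (fun _ => a)
      have e9 : {y : G → A₁ | ∀ g ∈ ({1} : Finset G), y g = a} = {y | y 1 = a} := by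
        ext y; simp
      have e10 : emp (V n) ({1} : Finset G) y (fun _ => a)
          = ((univ.filter (fun v => y v = a)).card : ℝ) / N := by
        rw [emp, Nat.card_eq_fintype_card (α := V n), Nat.card_eq_fintype_card,
          Fintype.card_subtype]
        congr 3
        ext v
        simp
      rw [e10] at e8
      have e11 : |((univ.filter (fun v => y v = a)).card : ℝ) / N
          - (μ.map (code F₁ φ₁)).real {y | y 1 = a}| < δ₃ := by
        rw [← e9]; exact e8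
      set ν : ℝ := (μ.map (code F₁ φ₁)).real {y | y 1 = a} with hν
      set Na : ℝ := ((univ.filter (fun v => y v = a)).card : ℝ) with hNa
      have e12 : Na * Real.log (w a) = N * (ν * Real.log (w a) + (Na / N - ν) * Real.log (w a)) := by
        field_simp
        ring
      have e13 : (Na / N - ν) * Real.log (w a) ≤ δ₃ * K := by
        calc (Na / N - ν) * Real.log (w a) ≤ |(Na / N - ν) * Real.log (w a)| := le_abs_self _
          _ = |Na / N - ν| * |Real.log (w a)| := abs_mul _ _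
          _ ≤ δ₃ * K := mul_le_mul e11.le (hKa a) (abs_nonneg _) hδ₃0.le
      rw [e12]
      apply mul_le_mul_of_nonneg_left _ hNpos.le
      linarith
    calc ∑ a : A₁, ((univ.filter (fun v => y v = a)).card : ℝ) * Real.log (w a)
        ≤ ∑ a : A₁, N * (- ((μ.map (code F₁ φ₁)).real {y | y 1 = a} * (- Real.log (w a)))
          + δ₃ * K) := Finset.sum_le_sum (fun a _ => e7 a)
      _ = N * (- H + δ₃ * (Fintype.card A₁ * K)) := by
        rw [← Finset.mul_sum, Finset.sum_add_distrib, Finset.sum_neg_distrib, Finset.sum_const,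
          Finset.card_univ, nsmul_eq_mul, hH]
        ring
  have hfib : (((univ : Finset (V n → ZMod 2)).filter (fun x => codeV F₁ φ₁ x = u)).card : ℝ)
      ≤ 2 ^ Fintype.card (V n) * Real.exp ((1 / (m : ℝ))
        * (N * (- H + δ₃ * (Fintype.card A₁ * K)) + K * bd)) := by
    have h := code_fiber_w F₁ hF₁ φ₁ w hw0 hw' K hKn u
    refine h.trans ?_
    apply mul_le_mul_of_nonneg_left _ (by positivity)
    apply Real.exp_le_exp.mpr
    apply mul_le_mul_of_nonneg_left _ (by positivity)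
    have e14 : (((univ : Finset (V n)).filter
        (fun v => ¬ Set.InjOn (fun g : G => g⁻¹ • v) (F₁ : Set G))).card : ℝ) = bd := by
      rw [hbd, Nat.card_eq_fintype_card, Fintype.card_subtype]
    rw [e14]
    have := hlogs u hu1
    linarith
  have hle : (Nat.card {x : V n → ZMod 2 // x ∈ Mic μ (V n) F₁ (δ₃ / 2 ^ F₁.card) ∧
      codeV F₁ φ₁ x = u} : ℝ)
      ≤ (((univ : Finset (V n → ZMod 2)).filter (fun x => codeV F₁ φ₁ x = u)).card : ℝ) := by
    rw [Nat.card_eq_fintype_card, Fintype.card_subtype]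
    have h1 : univ.filter (fun x : V n → ZMod 2 => x ∈ Mic μ (V n) F₁ (δ₃ / 2 ^ F₁.card) ∧
        codeV F₁ φ₁ x = u) ⊆ univ.filter (fun x => codeV F₁ φ₁ x = u) := by
      intro x hx
      rw [Finset.mem_filter] at hx ⊢
      exact ⟨hx.1, hx.2.2⟩
    exact_mod_cast Finset.card_le_card h1
  refine hle.trans (hfib.trans ?_)
  have h20 : (2 : ℝ) ^ Fintype.card (V n) = Real.exp (N * Real.log 2) := by
    rw [← Real.exp_log (show (0 : ℝ) < 2 ^ Fintype.card (V n) by positivity), Real.log_pow]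
  rw [h20, ← Real.exp_add, Nat.card_eq_fintype_card (α := V n), ← hN]
  apply Real.exp_le_exp.mpr
  rw [Nat.card_eq_fintype_card (α := V n), ← hN] at e5
  have h11 := mul_lt_mul_of_pos_right e5 hNpos
  have h12 : K / m * (bd / N) * N = K / m * bd := by
    field_simp
  rw [h12] at h11
  have h13 : (1 / (m : ℝ)) * (N * (- H + δ₃ * (Fintype.card A₁ * K)) + K * bd)
      = - (H / m * N) + (1 / (m : ℝ) * (δ₃ * (Fintype.card A₁ * K))) * N + K / m * bd := by
    ring
  have h14 := mul_le_mul_of_nonneg_right hδ₃b hNpos.le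
  rw [h13]
  have h15 : (Real.log 2 - H / m + γ) * N = Real.log 2 * N - H / m * N + γ * N := by ring
  rw [h15]
  linarith

open Classical in
/-- The window of `pcode`. -/
noncomputable def pwin (h : G) (a : ℤ) (D : ℕ) : Finset G :=
  (univ : Finset (Fin (D + 1))).image (fun i : Fin (D + 1) => h ^ (a + ((i : ℕ) : ℤ)))

theorem mem_pwin (h : G) (a : ℤ) (D : ℕ) (i : Fin (D + 1)) : h ^ (a + (i : ℕ)) ∈ pwin h a D := by
  classical
  exact Finset.mem_image.mpr ⟨i, Finset.mem_univ _, rfl⟩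

/-- The local rule of `pcode`. -/
def pphi {A : Type} (h : G) (a : ℤ) (D : ℕ) (ψ : (Fin (D + 1) → ZMod 2) → A)
    (z : pwin h a D → ZMod 2) : A :=
  ψ (fun i => z ⟨h ^ (a + (i : ℕ)), mem_pwin h a D i⟩)

theorem pcode_eq {A : Type} (h : G) (a : ℤ) (D : ℕ) (ψ : (Fin (D + 1) → ZMod 2) → A) :
    pcode h a D ψ = code (pwin h a D) (pphi h a D ψ) := by
  funext x g
  rfl

/-- Fibres of permutive codes along an element of infinite order. -/
theorem fib_perm (V : ℕ → Type) [∀ n, Finite (V n)] [∀ n, Nonempty (V n)]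
    [∀ n, MulAction G (V n)] (μ : Measure (G → ZMod 2)) (hV : IsSofic G V)
    (h : G) (hh : ¬ IsOfFinOrder h) (a : ℤ) (D : ℕ) {A : Type}
    (ψ : (Fin (D + 1) → ZMod 2) → A) (hψ : Permutive ψ) :
    FibLe V μ (pwin h a D) (pphi h a D ψ) 0 := by
  classical
  intro γ hγ
  refine ⟨∅, 1, one_pos, ?_⟩
  filter_upwards [fib_small V hV h hh D ψ hψ γ hγ] with n hn
  intro y
  rw [zero_add]
  refine le_trans ?_ (hn (fun v => y (h ^ a • v)))
  have h1 : Nat.card {x : V n → ZMod 2 // x ∈ Mic μ (V n) ∅ 1 ∧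
      codeV (pwin h a D) (pphi h a D ψ) x = y}
      ≤ Nat.card {x : V n → ZMod 2 //
        ∀ v : V n, ψ (fun i : Fin (D + 1) => x (h⁻¹ ^ (i : ℕ) • v)) = y (h ^ a • v)} := by
    have hmap : ∀ x : {x : V n → ZMod 2 // x ∈ Mic μ (V n) ∅ 1 ∧
        codeV (pwin h a D) (pphi h a D ψ) x = y},
        ∀ v : V n, ψ (fun i : Fin (D + 1) => x.1 (h⁻¹ ^ (i : ℕ) • v)) = y (h ^ a • v) := by
      intro x v
      have h2 := congrFun x.2.2 (h ^ a • v)
      rw [← h2]
      show _ = ψ (fun i => x.1 ((h ^ (a + (i : ℕ)))⁻¹ • h ^ a • v))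
      congr 1
      funext i
      have e : (h ^ (a + ((i : ℕ) : ℤ)))⁻¹ * h ^ a = h⁻¹ ^ (i : ℕ) := by
        rw [← zpow_neg, ← zpow_add, inv_pow, ← zpow_natCast, ← zpow_neg]
        congr 1
        ring
      rw [smul_smul, e]
    apply Nat.card_le_card_of_injective (fun x => (⟨x.1, hmap x⟩ :
      {x : V n → ZMod 2 // ∀ v : V n, ψ (fun i : Fin (D + 1) => x (h⁻¹ ^ (i : ℕ) • v))
        = y (h ^ a • v)}))
    intro x x' hxx
    have h3 := congrArg Subtype.val hxx
    exact Subtype.ext h3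
  exact_mod_cast h1

end

/-- Measurable factors that almost determine a permutive code, approximations by maps. -/
theorem uni_perm (d k : ℕ) (hk : 2 ≤ k) (μ : Measure (Gam d k → ZMod 2))
    [IsProbabilityMeasure μ]
    (V : ℕ → Type) [∀ n, Finite (V n)] [∀ n, Nonempty (V n)]
    (σ : ∀ n, Gam d k → Equiv.Perm (V n)) (hσ : IsSoficMap σ)
    (h : Gam d k) (hh : ¬ IsOfFinOrder h) (a : ℤ) (D : ℕ)
    {B : Type} [Fintype B] [MeasurableSpace B] [MeasurableSingletonClass B]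
    (ψ₀ : (Fin (D + 1) → ZMod 2) → B) (hψ₀ : Permutive ψ₀)
    {A : Type} [Fintype A] [MeasurableSpace A] [MeasurableSingletonClass A]
    (ψ : (Gam d k → ZMod 2) → A) (hψ : Measurable ψ) (H : ℝ)
    (hH : Pred μ ψ (pwin h a D) (pphi h a D ψ₀) H) :
    soficEntropyM μ σ + ((- H : ℝ) : EReal) ≤ soficEntropyM (μ.map (mcode ψ)) σ ∧
    lowerSoficEntropyM μ σ + ((- H : ℝ) : EReal) ≤ lowerSoficEntropyM (μ.map (mcode ψ)) σ := by
  obtain ⟨I, hV, hE⟩ := transfer' d k hk V σ hσ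
  rw [(hE (ZMod 2) μ).1, (hE (ZMod 2) μ).2, (hE A (μ.map (mcode ψ))).1,
    (hE A (μ.map (mcode ψ))).2]
  have h1 := gen_uni V μ ψ hψ (pwin h a D) (pphi h a D ψ₀) 0 (fib_perm V μ hV h hh a D ψ₀ hψ₀) H hH
  have e : (-0 - H : ℝ) = - H := by ring
  rw [e] at h1
  exact h1

/-- Measurable factors that almost determine a block code, approximations by maps. -/
theorem uni_block (d k : ℕ) (hk : 2 ≤ k) (μ : Measure (Gam d k → ZMod 2))
    [IsProbabilityMeasure μ]
    (V : ℕ → Type) [∀ n, Finite (V n)] [∀ n, Nonempty (V n)]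
    (σ : ∀ n, Gam d k → Equiv.Perm (V n)) (hσ : IsSoficMap σ)
    {B : Type} [Fintype B] [MeasurableSpace B] [MeasurableSingletonClass B]
    (F₁ : Finset (Gam d k)) (hF₁ : F₁.Nonempty) (φ₁ : (F₁ → ZMod 2) → B)
    {A : Type} [Fintype A] [MeasurableSpace A] [MeasurableSingletonClass A]
    (ψ : (Gam d k → ZMod 2) → A) (hψ : Measurable ψ) (H : ℝ)
    (hH : Pred μ ψ F₁ φ₁ H) :
    soficEntropyM μ σ + (((∑ a, Real.negMulLog ((μ.map (code F₁ φ₁)).real {y | y 1 = a}))
      / F₁.card - Real.log 2 - H : ℝ) : EReal) ≤ soficEntropyM (μ.map (mcode ψ)) σ ∧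
    lowerSoficEntropyM μ σ + (((∑ a, Real.negMulLog ((μ.map (code F₁ φ₁)).real {y | y 1 = a}))
      / F₁.card - Real.log 2 - H : ℝ) : EReal) ≤ lowerSoficEntropyM (μ.map (mcode ψ)) σ := by
  obtain ⟨I, hV, hE⟩ := transfer' d k hk V σ hσ
  rw [(hE (ZMod 2) μ).1, (hE (ZMod 2) μ).2, (hE A (μ.map (mcode ψ))).1,
    (hE A (μ.map (mcode ψ))).2]
  obtain ⟨w, hw0, hw, hwH⟩ := cross_ge μ F₁ φ₁
  have h1 := gen_uni V μ ψ hψ F₁ φ₁ _ (fib_weight V μ hV F₁ hF₁ φ₁ w hw0 hw) H hH
  have h3 : (((∑ a, Real.negMulLog ((μ.map (code F₁ φ₁)).real {y | y 1 = a}))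
      / F₁.card - Real.log 2 - H : ℝ) : EReal)
      ≤ ((- (Real.log 2 - (∑ a, (μ.map (code F₁ φ₁)).real {y | y 1 = a} *
      (- Real.log (w a))) / F₁.card) - H : ℝ) : EReal) := by
    rw [EReal.coe_le_coe_iff]
    have := div_le_div_of_nonneg_right hwH (show (0 : ℝ) ≤ F₁.card by positivity)
    linarith
  exact ⟨(add_le_add_right h3 _).trans h1.1, (add_le_add_right h3 _).trans h1.2⟩

/-- Measurable factors that determine a nonconstant function of few coordinates. -/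
theorem uni_pos (d k : ℕ) (hd : 3 ≤ d) (hdk : d < k)
    (μ : Measure (Gam d k → ZMod 2)) (hμ : IsHaarOn (PX (gen d k) k) μ)
    (V : ℕ → Type) [∀ n, Finite (V n)] [∀ n, Nonempty (V n)]
    (σ : ∀ n, Gam d k → Equiv.Perm (V n)) (hσ : IsSoficMap σ)
    {B : Type} [Fintype B] [MeasurableSpace B] [MeasurableSingletonClass B]
    (F₀ : Finset (Gam d k)) (φ : (F₀ → ZMod 2) → B) (hφ : ∃ z z', φ z ≠ φ z')
    (hk : d * 2 ^ F₀.card ≤ k)
    {A : Type} [Fintype A] [MeasurableSpace A] [MeasurableSingletonClass A]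
    (ψ : (Gam d k → ZMod 2) → A) (hψ : Measurable ψ) (hH : Pred μ ψ F₀ φ 0) :
    ((((1 - (d : ℝ) / k) * Real.log 2 : ℝ) : EReal) ≤ soficEntropyM μ σ →
      0 < soficEntropyM (μ.map (mcode ψ)) σ) ∧
    ((((1 - (d : ℝ) / k) * Real.log 2 : ℝ) : EReal) ≤ lowerSoficEntropyM μ σ →
      0 < lowerSoficEntropyM (μ.map (mcode ψ)) σ) := by
  classical
  have : NeZero k := ⟨by omega⟩
  have := hμ.prob
  obtain ⟨z, z', hzz⟩ := hφ
  have hF₀ : F₀.Nonempty := by
    by_contra hcon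
    rw [Finset.not_nonempty_iff_eq_empty] at hcon
    subst hcon
    apply hzz
    congr 1
    funext h
    exact absurd h.2 (Finset.notMem_empty _)
  have hm1 : 1 ≤ F₀.card := Finset.card_pos.mpr hF₀
  have hm0 : (0 : ℝ) < F₀.card := by exact_mod_cast hm1
  have hcard : F₀.card + 2 ≤ k := by
    have h1 : F₀.card < 2 ^ F₀.card := Nat.lt_two_pow_self
    have h2 : 3 * 2 ^ F₀.card ≤ d * 2 ^ F₀.card := Nat.mul_le_mul_right _ hd
    omega
  have hpr : IsProbabilityMeasure (μ.map (code F₀ φ)) :=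
    Measure.isProbabilityMeasure_map (meas_code F₀ φ).aemeasurable
  have h1 := shannon_pos (fun a => (μ.map (code F₀ φ)).real {y | y 1 = a}) F₀.card hm1
    (fun a => measureReal_nonneg) (law_sum_le _) (φ z) (φ z') hzz
    (law_ge d k μ hμ F₀ hcard φ z) (law_ge d k μ hμ F₀ hcard φ z')
  obtain ⟨h2, h3⟩ := uni_block d k (by omega) μ V σ hσ F₀ hF₀ φ ψ hψ 0 hH
  have hl2 : 0 < Real.log 2 := Real.log_pos (by norm_num)
  have hk0 : (0 : ℝ) < k := by
    have : 0 < k := by omega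
    exact_mod_cast this
  have h4 : (d : ℝ) / k ≤ (1 / 2) ^ F₀.card := by
    rw [one_div, inv_pow, ← one_div, div_le_div_iff₀ hk0 (by positivity), one_mul]
    exact_mod_cast hk
  have h5 : (1 / 2 : ℝ) ^ F₀.card * Real.log 2
      < (∑ a, Real.negMulLog ((μ.map (code F₀ φ)).real {y | y 1 = a})) / F₀.card := by
    rw [lt_div_iff₀ hm0]
    calc (1 / 2 : ℝ) ^ F₀.card * Real.log 2 * F₀.card
        = F₀.card * (1 / 2 : ℝ) ^ F₀.card * Real.log 2 := by ring
      _ < _ := h1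
  have h6 : (d : ℝ) / k * Real.log 2 ≤ (1 / 2 : ℝ) ^ F₀.card * Real.log 2 :=
    mul_le_mul_of_nonneg_right h4 hl2.le
  have h7 : 0 < (1 - (d : ℝ) / k) * Real.log 2
      + ((∑ a, Real.negMulLog ((μ.map (code F₀ φ)).real {y | y 1 = a})) / F₀.card
      - Real.log 2 - 0) := by
    have : (1 - (d : ℝ) / k) * Real.log 2 = Real.log 2 - (d : ℝ) / k * Real.log 2 := by ring
    rw [this]
    linarith
  have h8 : (0 : EReal) < (((1 - (d : ℝ) / k) * Real.log 2 : ℝ) : EReal)
      + (((∑ a, Real.negMulLog ((μ.map (code F₀ φ)).real {y | y 1 = a})) / F₀.card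
      - Real.log 2 - 0 : ℝ) : EReal) := by
    rw [← EReal.coe_add]
    exact_mod_cast h7
  constructor
  · intro h
    exact h8.trans_le ((add_le_add_left h _).trans h2)
  · intro h
    exact h8.trans_le ((add_le_add_left h _).trans h3)

end Pool.Agent.MP_9d0e09_an
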