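import Pool.Agent.Lib.MP_9d0e09_an.Fac3
import Pool.Agent.Lib.MP_9d0e09_an.Uni2

/-!
# Measurable factors: the statements
-/

open MeasureTheory Filter Topology Finset

namespace Pool.Agent.MP_9d0e09_an

open Classical in
/-- The conditional Shannon entropy of `φ₁` of the pattern of `x` on `F₁` given the word of the
factor `mcode ψ` on `W`. -/
noncomputable def condH {G A B : Type} [Group G] [Fintype A] [Fintype B]
    (μ : Measure (G → ZMod 2)) (ψ : (G → ZMod 2) → A) (W F₁ : Finset G)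
    (φ₁ : (F₁ → ZMod 2) → B) : ℝ :=
  ∑ b : W → A, ∑ a : B, Real.negMulLog (jlaw μ ψ W F₁ φ₁ b a)
    - ∑ b : W → A, Real.negMulLog (μ.real {x | ∀ w : W, mcode ψ x w = b w})

/-- The Shannon entropy of `φ₁` of the pattern of `x` on `F₁`. -/
noncomputable def blockH {G B : Type} [Group G] [Fintype B] [MeasurableSpace B]
    (μ : Measure (G → ZMod 2)) (F₁ : Finset G) (φ₁ : (F₁ → ZMod 2) → B) : ℝ :=
  ∑ a : B, Real.negMulLog ((μ.map (code F₁ φ₁)).real {y | y 1 = a})

/-- Almost surely, `φ₁` of the pattern of `x` on `F₁` is a measurable function of the factor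
`mcode ψ`. -/
def Determines {G A B : Type} [Group G] [MeasurableSpace A] [MeasurableSpace B]
    (μ : Measure (G → ZMod 2)) (ψ : (G → ZMod 2) → A) (F₁ : Finset G)
    (φ₁ : (F₁ → ZMod 2) → B) : Prop :=
  ∃ Θ : (G → A) → B, Measurable Θ ∧ ∀ᵐ x ∂μ, code F₁ φ₁ x 1 = Θ (mcode ψ x)

/-- Along `σ` the upper and the lower sofic entropy of `ν` are at least those of `μ` plus `c`. -/
def EntGe {G A : Type} [MeasurableSpace A] (μ : Measure (G → ZMod 2)) (ν : Measure (G → A))
    {V : ℕ → Type} (σ : ∀ n, G → Equiv.Perm (V n)) (c : ℝ) : Prop :=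
  soficEntropyM μ σ + (c : EReal) ≤ soficEntropyM ν σ ∧
  lowerSoficEntropyM μ σ + (c : EReal) ≤ lowerSoficEntropyM ν σ

section

variable {G : Type} [Group G]

theorem pred_condH {A B : Type} [Fintype A] [MeasurableSpace A] [MeasurableSingletonClass A]
    [Fintype B] [MeasurableSpace B] [MeasurableSingletonClass B] (μ : Measure (G → ZMod 2))
    [IsProbabilityMeasure μ] (ψ : (G → ZMod 2) → A) (hψ : Measurable ψ) (W F₁ : Finset G)
    (φ₁ : (F₁ → ZMod 2) → B) : Pred μ ψ F₁ φ₁ (condH μ ψ W F₁ φ₁) := by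
  classical
  exact pred_cond μ ψ hψ W F₁ φ₁

theorem pred_det {A B : Type} [Fintype A] [MeasurableSpace A] [MeasurableSingletonClass A]
    [Fintype B] [MeasurableSpace B] [MeasurableSingletonClass B] (μ : Measure (G → ZMod 2))
    [IsProbabilityMeasure μ] (ψ : (G → ZMod 2) → A) (hψ : Measurable ψ) (F₁ : Finset G)
    (φ₁ : (F₁ → ZMod 2) → B) (h : Determines μ ψ F₁ φ₁) : Pred μ ψ F₁ φ₁ 0 := by
  obtain ⟨Θ, hΘ, hae⟩ := h
  exact pred_zero μ ψ hψ F₁ φ₁ Θ hΘ hae

end

end Pool.Agent.MP_9d0e09_an
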