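import Pool.Agent.Lib.MP_9d0e09_an.Img
import Pool.Agent.Lib.MP_9d0e09_an.Unj
import Pool.Agent.Lib.MP_9d0e09_an.Stm

/-!
# Many images of microstates: asymptotics
-/

open MeasureTheory Filter Topology Finset

namespace Pool.Agent.MP_9d0e09_an

/-- The parameters. -/
theorem num_par (κ M c : ℝ) (hκ0 : 0 < κ) (hM0 : 0 < M) (hc : c < κ / M * Real.log 2) :
    ∃ c' θ ρ C : ℝ, c ≤ c' ∧ 0 < θ ∧ 0 < ρ ∧ ρ < κ ∧ 0 < ρ / M - θ ∧ 0 < C ∧ 1 ≤ C ∧
      1 / C ≤ (ρ / M - θ) / 4 ∧ 0 < θ * Real.log 2 - c' := by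
  have hlog2 : 0 < Real.log 2 := Real.log_pos (by norm_num)
  obtain ⟨c', hc', hc'0, hc'1⟩ : ∃ c' : ℝ, c ≤ c' ∧ 0 < c' ∧ c' < κ / M * Real.log 2 := by
    have h2 : 0 < κ / M * Real.log 2 := by positivity
    exact ⟨max c (κ / M * Real.log 2 / 2), le_max_left _ _,
      lt_of_lt_of_le (by linarith) (le_max_right _ _), max_lt hc (by linarith)⟩
  obtain ⟨θ, hθ1, hθ2⟩ : ∃ θ : ℝ, c' / Real.log 2 < θ ∧ θ < κ / M :=
    exists_between (by rw [div_lt_iff₀ hlog2]; exact hc'1)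
  have hθ0 : 0 < θ := lt_trans (by positivity) hθ1
  have hθM : θ * M < κ := by rwa [lt_div_iff₀ hM0] at hθ2
  obtain ⟨ρ, hρ1, hρ2⟩ : ∃ ρ : ℝ, θ * M < ρ ∧ ρ < κ := exists_between hθM
  have hρ0 : 0 < ρ := lt_trans (by positivity) hρ1
  have hη0 : 0 < ρ / M - θ := by
    have := (lt_div_iff₀ hM0).mpr hρ1
    linarith
  have h4η : 0 < 4 / (ρ / M - θ) := by positivity
  refine ⟨c', θ, ρ, 4 / (ρ / M - θ) + 1, hc', hθ0, hρ0, hρ2, hη0, by linarith, by linarith,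
    ?_, ?_⟩
  · rw [div_le_div_iff₀ (by linarith) (by norm_num)]
    have h1 : (ρ / M - θ) * (4 / (ρ / M - θ)) = 4 := mul_div_cancel₀ _ hη0.ne'
    rw [mul_add, h1]
    linarith
  · have := (div_lt_iff₀ hlog2).mp hθ1
    linarith

/-- The numerical part of the count. -/
theorem num_fin (M θ ρ c' C N I : ℝ) (r n₀ : ℕ) (hM0 : 0 < M) (hM1 : 1 / M ≤ 1)
    (hη0 : 0 < ρ / M - θ) (hρ0 : 0 < ρ) (hρ1 : ρ ≤ 1) (hC0 : 0 < C)
    (hC2 : 1 / C ≤ (ρ / M - θ) / 4) (hN0 : 0 < N)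
    (h2 : 4 / (ρ / M - θ) + 4 / ρ ≤ N) (hgap : 0 < θ * Real.log 2 - c')
    (h3 : Real.log (4 / (ρ / M - θ)) / (θ * Real.log 2 - c') ≤ N)
    (hr1 : (r : ℝ) ≤ ρ * N) (hr2 : ρ * N < r + 1) (hn1 : (n₀ : ℝ) ≤ θ * N)
    (hn2 : θ * N < n₀ + 1) (hI0 : 0 ≤ I)
    (himg : (2 : ℝ) ^ n₀ * (r * (1 / M - 1 / C) - n₀) ≤ r * I) :
    Real.exp (c' * N) ≤ I := by
  have hlog2 : 0 < Real.log 2 := Real.log_pos (by norm_num)
  obtain ⟨η, hη⟩ : ∃ η : ℝ, η = ρ / M - θ := ⟨_, rfl⟩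
  rw [← hη] at hη0 hC2 h2 h3
  have h4η : 0 < 4 / η := by positivity
  have h4ρ : 0 < 4 / ρ := by positivity
  have h4η' : 4 / η ≤ N := by linarith
  have h4ρ' : 4 / ρ ≤ N := by linarith
  have hηN : 4 ≤ N * η := (div_le_iff₀ hη0).mp h4η'
  have hρN4 : 4 ≤ N * ρ := (div_le_iff₀ hρ0).mp h4ρ'
  have hr0 : (0 : ℝ) < r := by linarith
  have hrN : (r : ℝ) ≤ N := by
    refine hr1.trans ?_
    calc ρ * N ≤ 1 * N := mul_le_mul_of_nonneg_right hρ1 hN0.le
      _ = N := one_mul N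
  have hmain : η * N / 2 ≤ (r : ℝ) * (1 / M - 1 / C) - n₀ := by
    have h5 : (r : ℝ) * (1 / C) ≤ N * (η / 4) :=
      mul_le_mul hrN hC2 (by positivity) hN0.le
    have h6 : (ρ * N - 1) * (1 / M) ≤ (r : ℝ) * (1 / M) :=
      mul_le_mul_of_nonneg_right (by linarith) (by positivity)
    have h7 : (ρ * N - 1) * (1 / M) = ρ / M * N - 1 / M := by ring
    have h8 : η * N = ρ / M * N - θ * N := by rw [hη]; ring
    rw [h7] at h6
    have h9 : (r : ℝ) * (1 / M - 1 / C) = (r : ℝ) * (1 / M) - (r : ℝ) * (1 / C) := by ring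
    rw [h9]
    linarith
  have hIN : (2 : ℝ) ^ n₀ * (η * N / 2) ≤ N * I := by
    calc (2 : ℝ) ^ n₀ * (η * N / 2) ≤ (2 : ℝ) ^ n₀ * ((r : ℝ) * (1 / M - 1 / C) - n₀) :=
          mul_le_mul_of_nonneg_left hmain (by positivity)
      _ ≤ r * I := himg
      _ ≤ N * I := mul_le_mul_of_nonneg_right hrN hI0
  have hI2 : (2 : ℝ) ^ n₀ * (η / 2) ≤ I := by
    have h5 : ((2 : ℝ) ^ n₀ * (η / 2)) * N ≤ I * N := by linarith
    exact le_of_mul_le_mul_right h5 hN0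
  refine le_trans ?_ hI2
  have h5 : (2 : ℝ) ^ (n₀ + 1) = 2 ^ n₀ * 2 := pow_succ _ _
  have h6 : Real.exp (θ * N * Real.log 2) ≤ 2 ^ (n₀ + 1) := by
    rw [← Real.exp_log (show (0 : ℝ) < 2 ^ (n₀ + 1) by positivity), Real.log_pow]
    apply Real.exp_le_exp.mpr
    apply mul_le_mul_of_nonneg_right _ hlog2.le
    push_cast
    linarith
  have h7 : 4 / η ≤ Real.exp ((θ * Real.log 2 - c') * N) := by
    rw [← Real.exp_log h4η]
    apply Real.exp_le_exp.mpr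
    rw [div_le_iff₀ hgap] at h3
    linarith
  have h8 : Real.exp (c' * N) * (4 / η) ≤ 2 ^ n₀ * 2 := by
    calc Real.exp (c' * N) * (4 / η)
        ≤ Real.exp (c' * N) * Real.exp ((θ * Real.log 2 - c') * N) :=
          mul_le_mul_of_nonneg_left h7 (Real.exp_pos _).le
      _ = Real.exp (θ * N * Real.log 2) := by rw [← Real.exp_add]; congr 1; ring
      _ ≤ 2 ^ (n₀ + 1) := h6
      _ = 2 ^ n₀ * 2 := h5
  have h9 : Real.exp (c' * N) = Real.exp (c' * N) * (4 / η) * (η / 4) := by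
    field_simp
  rw [h9]
  calc Real.exp (c' * N) * (4 / η) * (η / 4) ≤ 2 ^ n₀ * 2 * (η / 4) :=
        mul_le_mul_of_nonneg_right h8 (by positivity)
    _ = 2 ^ n₀ * (η / 2) := by ring

/-- The block map of `T` is almost injective on the words on `V n`. -/
def KerSmall {G : Type} [Group G] (V : ℕ → Type) [∀ n, MulAction G (V n)] (T : Finset G) : Prop :=
  ∀ γ : ℝ, 0 < γ → ∀ᶠ n in atTop, ∀ y : V n → ZMod 2,
    (Nat.card {x : V n → ZMod 2 // ∀ v, ∑ g ∈ T, x (g⁻¹ • v) = y v} : ℝ)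
      ≤ Real.exp (γ * Nat.card (V n))

theorem ker_off {V : Type} [Fintype V] [DecidableEq V] (L : (V → ZMod 2) → V → ZMod 2)
    (bad : Finset V) (K : ℝ)
    (hK : ∀ y : V → ZMod 2, (((univ : Finset (V → ZMod 2)).filter
      (fun x => ∀ v, L x v = y v)).card : ℝ) ≤ K) :
    (((univ : Finset (V → ZMod 2)).filter (fun x => ∀ u, u ∉ bad → L x u = 0)).card : ℝ)
      ≤ 2 ^ bad.card * K := by
  have h1 := Finset.card_eq_sum_card_fiberwise
    (s := (univ : Finset (V → ZMod 2)).filter (fun x => ∀ u, u ∉ bad → L x u = 0))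
    (t := (univ : Finset (bad → ZMod 2))) (f := fun x (z : bad) => L x z)
    (fun x _ => Finset.mem_coe.mpr (Finset.mem_univ _))
  rw [h1, Nat.cast_sum]
  refine (Finset.sum_le_sum (g := fun _ => K) ?_).trans (le_of_eq ?_)
  · intro y _
    let y' : V → ZMod 2 := fun v => if h : v ∈ bad then y ⟨v, h⟩ else 0
    refine le_trans ?_ (hK y')
    have hsub : ((univ : Finset (V → ZMod 2)).filter (fun x => ∀ u, u ∉ bad → L x u = 0)).filter
        (fun x => (fun z : bad => L x z) = y)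
        ⊆ (univ : Finset (V → ZMod 2)).filter (fun x => ∀ v, L x v = y' v) := by
      intro x hx
      rw [Finset.mem_filter, Finset.mem_filter] at hx
      refine Finset.mem_filter.mpr ⟨Finset.mem_univ _, fun v => ?_⟩
      by_cases h : v ∈ bad
      · have h2 : L x v = y ⟨v, h⟩ := congrFun hx.2 ⟨v, h⟩
        rw [h2]
        simp only [y', dif_pos h]
      · rw [hx.1.2 v h]
        simp only [y', dif_neg h]
    exact_mod_cast Finset.card_le_card hsub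
  · rw [Finset.sum_const, Finset.card_univ, Fintype.card_fun, ZMod.card, Fintype.card_coe,
      nsmul_eq_mul]
    push_cast
    ring

section

variable {G : Type} [Group G] {d : ℕ} (s : Fin d → G) (k : ℕ)

theorem img_ev [Infinite G] [Nonempty (Fin d)] (hk : 0 < k) (hdk : d < k)
    (hs : ∀ i, s i ^ k = 1)
    (hinj : ∀ i, Set.InjOn (fun l : ℕ => s i ^ l) (Finset.range k : Set ℕ))
    (μ : Measure (G → ZMod 2)) (hμ : IsHaarOn (PX s k) μ)
    (V : ℕ → Type) [∀ n, Finite (V n)] [∀ n, Nonempty (V n)] [∀ n, MulAction G (V n)]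
    (hV : IsSofic G V)
    (hr : Tendsto (fun n => exr s k (V n)) atTop (𝓝 ((1 - (d : ℝ) / k) * Real.log 2)))
    {B : Type} (F₁ T : Finset G) (hm : 1 ≤ F₁.card) (hT0 : T.Nonempty) (hT : KerSmall V T)
    (φ₁ : (F₁ → ZMod 2) → B) (a : ℕ) (ha : 0 < a)
    (hφ : Sens (PX s k) F₁ φ₁ T a)
    (c : ℝ) (hc : c < a * ((1 - (d : ℝ) / k) * Real.log 2) / (F₁.card * 2 ^ F₁.card)) :
    ImgGe V μ F₁ φ₁ c := by
  classical
  have := hμ.prob
  have hlog2 : 0 < Real.log 2 := Real.log_pos (by norm_num)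
  have hk0 : (0 : ℝ) < k := by exact_mod_cast hk
  set m : ℝ := (F₁.card : ℝ) with hmdef
  have hm1 : (1 : ℝ) ≤ m := by rw [hmdef]; exact_mod_cast hm
  have hm0 : 0 < m := by linarith
  have hdk' : (d : ℝ) / k < 1 := by rw [div_lt_one hk0]; exact_mod_cast hdk
  have hd0 : (0 : ℝ) ≤ (d : ℝ) / k := by positivity
  set κ : ℝ := (1 - (d : ℝ) / k) / m with hκ
  have hκ0 : 0 < κ := div_pos (by linarith) hm0
  have hκm : κ * m = 1 - (d : ℝ) / k := by rw [hκ, div_mul_cancel₀ _ hm0.ne']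
  have hκ1 : κ ≤ 1 := by
    have h1 : κ ≤ κ * m := le_mul_of_one_le_right hκ0.le hm1
    linarith
  have ha0 : (0 : ℝ) < a := by exact_mod_cast ha
  have h2m : (0 : ℝ) < 2 ^ F₁.card := by positivity
  set M : ℝ := 2 ^ F₁.card / a with hM
  have hM0 : 0 < M := div_pos h2m ha0
  have hMa : 1 / M = a / 2 ^ F₁.card := by rw [hM, one_div_div]
  obtain ⟨c', θ, ρ, C, hc', hθ0, hρ0, hρ2, hη0, hC0, hC1, hC2, hgap⟩ :=
    num_par κ M c hκ0 hM0 (by
      have h1 : a * ((1 - (d : ℝ) / k) * Real.log 2) / (m * 2 ^ F₁.card)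
          = κ / M * Real.log 2 := by
        have e : κ / M = κ * (1 / M) := by ring
        rw [e, hMa, hκ]; field_simp
      rw [← h1]; exact hc)
  intro F' δ' hδ'
  set F : Finset G := F' ∪ F₁ with hF
  set ε₂ : ℝ := (κ - ρ) * m / 2 with hε₂
  have hε₂0 : 0 < ε₂ := by
    have : 0 < (κ - ρ) * m := mul_pos (sub_pos.mpr hρ2) hm0
    rw [hε₂]; linarith
  have h2F : (0 : ℝ) < 2 ^ F.card := by positivity
  have hε₄ : 0 < ε₂ / 4 := by linarith
  set δ : ℝ := min δ' (ε₂ / 4) / 2 ^ F.card with hδdef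
  have hδ : 0 < δ := div_pos (lt_min hδ' hε₄) h2F
  have hδ1 : 2 ^ F.card * δ ≤ δ' := by
    rw [hδdef, mul_div_cancel₀ _ h2F.ne']
    exact min_le_left _ _
  have hδ2 : 2 ^ F.card * δ ≤ ε₂ / 4 := by
    rw [hδdef, mul_div_cancel₀ _ h2F.ne']
    exact min_le_right _ _
  have e1 : ∀ᶠ n in atTop, (ε₂ + ρ * m) * Real.log 2 < exr s k (V n) := by
    apply (tendsto_order.1 hr).1
    apply mul_lt_mul_of_pos_right _ hlog2
    rw [← hκm, hε₂]
    have : 0 < (κ - ρ) * m := mul_pos (sub_pos.mpr hρ2) hm0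
    linarith
  have hN := card_large V hV
  have e2 : ∀ᶠ n in atTop, 4 / (ρ / M - θ) + 4 / ρ ≤ (Nat.card (V n) : ℝ) :=
    hN.eventually_ge_atTop _
  have e3 : ∀ᶠ n in atTop, Real.log (4 / (ρ / M - θ)) / (θ * Real.log 2 - c')
      ≤ (Nat.card (V n) : ℝ) := hN.eventually_ge_atTop _
  have e4 := hT (ε₂ / 4 * Real.log 2) (mul_pos hε₄ hlog2)
  have e5 : ∀ᶠ n in atTop, 1 / (ε₂ / 4) ≤ (Nat.card (V n) : ℝ) := hN.eventually_ge_atTop _
  have e0 := low2_ev s k hk hs hinj μ hμ V hV hr F {1} δ hδ C hC0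
  filter_upwards [e0, e1, e2, e3, e4, e5] with n h0 h1 h2 h3 h4 h5
  obtain ⟨_, _, A, hA1, hA2, hA3⟩ := h0
  rw [Nat.card_eq_fintype_card (α := V n)] at h2 h3 h4 h5
  set N : ℝ := (Fintype.card (V n) : ℝ) with hNdef
  have hVpos : 0 < Fintype.card (V n) := Fintype.card_pos
  have hN0 : 0 < N := by rw [hNdef]; exact_mod_cast hVpos
  -- the exceptional points
  let E : Finset (V n) := (univ : Finset (V n)).filter (fun v => ∃ T ∈ F₁.powerset,
      (∃ x ∈ PX s k, ∑ g ∈ T, x g ≠ 0) ∧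
      lw (T ×ˢ ({1} : Finset G)) (fun p : G × G => p.1 * p.2) v
        ∈ Submodule.span (ZMod 2) (A : Set (V n → ZMod 2)))
  have hE : (E.card : ℝ) ≤ 2 ^ F.card * (δ * N) :=
    exc_few s k A F₁ F Finset.subset_union_right δ C hδ hC1 hA3
  have hEc : (E.card : ℝ) ≤ ε₂ / 4 * N := by
    refine hE.trans ?_
    rw [← mul_assoc]
    exact mul_le_mul_of_nonneg_right hδ2 hN0.le
  have hbad : ∀ u, u ∉ E → ∀ T ∈ F₁.powerset,
      (∃ x ∈ PX s k, ∑ g ∈ T, x g ≠ 0) →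
      lw (T ×ˢ ({1} : Finset G)) (fun p : G × G => p.1 * p.2) u
        ∉ Submodule.span (ZMod 2) (A : Set (V n → ZMod 2)) := by
    intro u hu T hT hx hsp
    apply hu
    exact Finset.mem_filter.mpr ⟨Finset.mem_univ _, T, hT, hx, hsp⟩
  obtain ⟨b, hb, hbR⟩ : ∃ b : ℕ, ((univ : Finset (V n → ZMod 2)).filter (fun x => ∀ u, u ∉ E →
      ∑ g ∈ T, x (g⁻¹ • u) = 0)).card ≤ 2 ^ b ∧ (b : ℝ) ≤ ε₂ * N := by
    have hεN : 0 ≤ ε₂ / 4 * N := by positivity
    refine ⟨E.card + ⌈ε₂ / 4 * N⌉₊, ?_, ?_⟩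
    · have h6 := ker_off (fun (x : V n → ZMod 2) u => ∑ g ∈ T, x (g⁻¹ • u)) E
        (Real.exp (ε₂ / 4 * Real.log 2 * N)) (by
          intro y
          have h7 := h4 y
          rw [Nat.card_eq_fintype_card, Fintype.card_subtype] at h7
          exact h7)
      have h8 : Real.exp (ε₂ / 4 * Real.log 2 * N) ≤ 2 ^ ⌈ε₂ / 4 * N⌉₊ := by
        rw [← Real.exp_log (show (0 : ℝ) < 2 ^ ⌈ε₂ / 4 * N⌉₊ by positivity), Real.log_pow]
        apply Real.exp_le_exp.mpr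
        have h9 := mul_le_mul_of_nonneg_right (Nat.le_ceil (ε₂ / 4 * N)) hlog2.le
        linarith
      have h10 : (((univ : Finset (V n → ZMod 2)).filter (fun x => ∀ u, u ∉ E →
          ∑ g ∈ T, x (g⁻¹ • u) = 0)).card : ℝ) ≤ 2 ^ (E.card + ⌈ε₂ / 4 * N⌉₊) := by
        rw [pow_add]
        exact h6.trans (mul_le_mul_of_nonneg_left h8 (by positivity))
      exact_mod_cast h10
    · have h6 : (⌈ε₂ / 4 * N⌉₊ : ℝ) < ε₂ / 4 * N + 1 := Nat.ceil_lt_add_one hεN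
      have h7 : 1 ≤ N * (ε₂ / 4) := (div_le_iff₀ hε₄).mp h5
      push_cast
      linarith
  let P : (V n → ZMod 2) → Prop := fun x => x ∈ Mic μ (V n) F' δ'
  have hblk : blk ({1} : Finset G) = id := by
    funext x g
    show ∑ h ∈ ({1} : Finset G), x (g * h) = x g
    rw [Finset.sum_singleton, mul_one]
  have hblkV : ∀ x : V n → ZMod 2, blkV ({1} : Finset G) x = x := by
    intro x
    funext v
    show ∑ h ∈ ({1} : Finset G), x (h⁻¹ • v) = x v
    rw [Finset.sum_singleton, inv_one, one_smul]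
  have hP : C * (((Cd A).filter (fun x => ¬ P x)).card : ℝ) ≤ (Cd A).card := by
    refine le_trans ?_ hA2
    apply mul_le_mul_of_nonneg_left _ hC0.le
    rw [hblk, Measure.map_id, Nat.card_eq_fintype_card, Fintype.card_subtype]
    have hsub : (Cd A).filter (fun x => ¬ P x)
        ⊆ univ.filter (fun x => x ∈ Cd A ∧ blkV ({1} : Finset G) x ∉ Mic μ (V n) F δ) := by
      intro x hx
      rw [Finset.mem_filter] at hx
      rw [Finset.mem_filter, hblkV]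
      refine ⟨Finset.mem_univ _, hx.1, ?_⟩
      intro hmem
      exact hx.2 (mic_mono μ F' F Finset.subset_union_left δ' δ hδ' hδ1 x hmem)
    exact_mod_cast Finset.card_le_card hsub
  set r : ℕ := ⌊ρ * N⌋₊ with hrdef
  set n₀ : ℕ := ⌊θ * N⌋₊ with hn₀
  have hρN : 0 ≤ ρ * N := by positivity
  have hθN : 0 ≤ θ * N := by positivity
  have hr1 : (r : ℝ) ≤ ρ * N := Nat.floor_le hρN
  have hr2 : ρ * N < r + 1 := Nat.lt_floor_add_one _
  have hn1 : (n₀ : ℝ) ≤ θ * N := Nat.floor_le hθN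
  have hn2 : θ * N < n₀ + 1 := Nat.lt_floor_add_one _
  have hExpos : (0 : ℝ) < Nat.card (Ex s k (V n)) := by
    have h5 : (0 : V n → ZMod 2) ∈ Ex s k (V n) := by
      rw [mem_Ex]; intro q; simp
    have : Nonempty (Ex s k (V n)) := ⟨⟨0, h5⟩⟩
    exact_mod_cast Nat.card_pos
  have hD : 2 ^ (b + r * F₁.card) ≤ Nat.card (Ex s k (V n)) := by
    have h5 : ((b + r * F₁.card : ℕ) : ℝ) ≤ (ε₂ + ρ * m) * N := by
      rw [Nat.cast_add, Nat.cast_mul, ← hmdef]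
      calc (b : ℝ) + r * m ≤ ε₂ * N + ρ * N * m :=
            add_le_add hbR (mul_le_mul_of_nonneg_right hr1 hm0.le)
        _ = (ε₂ + ρ * m) * N := by ring
    have h6 : (ε₂ + ρ * m) * Real.log 2 * N ≤ Real.log (Nat.card (Ex s k (V n))) := by
      rw [exr, Nat.card_eq_fintype_card (α := V n), ← hNdef, lt_div_iff₀ hN0] at h1
      exact h1.le
    have h7 : ((b + r * F₁.card : ℕ) : ℝ) * Real.log 2
        ≤ Real.log (Nat.card (Ex s k (V n))) := by
      calc ((b + r * F₁.card : ℕ) : ℝ) * Real.log 2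
          ≤ (ε₂ + ρ * m) * N * Real.log 2 := mul_le_mul_of_nonneg_right h5 hlog2.le
        _ = (ε₂ + ρ * m) * Real.log 2 * N := by ring
        _ ≤ _ := h6
    have h8 : (2 : ℝ) ^ (b + r * F₁.card) ≤ Nat.card (Ex s k (V n)) := by
      rw [← Real.log_le_log_iff (by positivity) hExpos, Real.log_pow]
      exact h7
    exact_mod_cast h8
  have himg := img_fin s k A F₁ T hm φ₁ a hφ hA1 P C hC0 hP E hbad b hb (b + r * F₁.card) hD r n₀
    le_rfl
  have hM1 : 1 / M ≤ 1 := by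
    rw [hMa, div_le_one h2m]
    obtain ⟨t₀, ht₀⟩ := hT0
    have h5 := hφ (fun g => if g = t₀ then 1 else 0) (by
      rw [Finset.sum_ite_eq' T t₀, if_pos ht₀]
      exact one_ne_zero)
    have h6 : Nat.card {z : F₁ → ZMod 2 // (∃ x ∈ PX s k, ∀ g : F₁, x g = z g) ∧
        φ₁ (fun g => z g + if (g : G) = t₀ then 1 else 0) ≠ φ₁ z} ≤ Nat.card (F₁ → ZMod 2) :=
      Nat.card_le_card_of_injective _ Subtype.val_injective
    have h7 : Nat.card (F₁ → ZMod 2) = 2 ^ F₁.card := by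
      rw [Nat.card_eq_fintype_card, Fintype.card_fun, ZMod.card, Fintype.card_coe]
    rw [h7] at h6
    exact_mod_cast h5.trans h6
  rw [← hMa] at himg
  have hI3 := num_fin M θ ρ c' C N ((((Cd A).filter P).image (codeV F₁ φ₁)).card : ℝ) r n₀ hM0 hM1
    hη0 hρ0 (hρ2.le.trans hκ1) hC0 hC2 hN0 h2 hgap h3 hr1 hr2 hn1 hn2 (Nat.cast_nonneg _) himg
  have hI4 : ((((Cd A).filter P).image (codeV F₁ φ₁)).card : ℝ)
      ≤ (Nat.card (codeV F₁ φ₁ '' Mic μ (V n) F' δ') : ℝ) := by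
    have h5 : (((Cd A).filter P).image (codeV F₁ φ₁) : Set (V n → B))
        ⊆ codeV F₁ φ₁ '' Mic μ (V n) F' δ' := by
      intro y hy
      rw [Finset.mem_coe, Finset.mem_image] at hy
      obtain ⟨x, hx, rfl⟩ := hy
      exact ⟨x, (Finset.mem_filter.mp hx).2, rfl⟩
    have h6 : (((Cd A).filter P).image (codeV F₁ φ₁)).card
        ≤ Nat.card (codeV F₁ φ₁ '' Mic μ (V n) F' δ') := by
      rw [Nat.card_coe_set_eq, ← Set.ncard_coe_finset]
      exact Set.ncard_le_ncard h5 (Set.toFinite _)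
    exact_mod_cast h6
  rw [Nat.card_eq_fintype_card (α := V n), ← hNdef]
  refine le_trans ?_ (hI3.trans hI4)
  apply Real.exp_le_exp.mpr
  exact mul_le_mul_of_nonneg_right hc' hN0.le

/-- Factors that almost determine a block function without periods, for actions. -/
theorem gen_cyl [Infinite G] [Nonempty (Fin d)] (hk : 0 < k) (hdk : d < k)
    (hs : ∀ i, s i ^ k = 1)
    (hinj : ∀ i, Set.InjOn (fun l : ℕ => s i ^ l) (Finset.range k : Set ℕ))
    (μ : Measure (G → ZMod 2)) (hμ : IsHaarOn (PX s k) μ)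
    (V : ℕ → Type) [∀ n, Finite (V n)] [∀ n, Nonempty (V n)] [∀ n, MulAction G (V n)]
    (hV : IsSofic G V)
    (hr : Tendsto (fun n => exr s k (V n)) atTop (𝓝 ((1 - (d : ℝ) / k) * Real.log 2)))
    {A : Type} [Fintype A] [MeasurableSpace A] [MeasurableSingletonClass A]
    (ψ : (G → ZMod 2) → A) (hψ : Measurable ψ)
    {B : Type} [Fintype B] [MeasurableSpace B] [MeasurableSingletonClass B]
    (F₁ T : Finset G) (hm : 1 ≤ F₁.card) (hT0 : T.Nonempty) (hT : KerSmall V T)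
    (φ₁ : (F₁ → ZMod 2) → B) (a : ℕ) (ha : 0 < a)
    (hφ : Sens (PX s k) F₁ φ₁ T a)
    (H : ℝ) (hH : Pred μ ψ F₁ φ₁ H) :
    ((a * ((1 - (d : ℝ) / k) * Real.log 2) / (F₁.card * 2 ^ F₁.card) - H : ℝ) : EReal)
      ≤ lowerSoficEntropy (μ.map (mcode ψ)) V := by
  have := hμ.prob
  exact gen_img V μ ψ hψ F₁ φ₁ _ (fun c hc => img_ev s k hk hdk hs hinj μ hμ V hV hr F₁ T hm
    hT0 hT φ₁ a ha hφ c hc)
    H hH

end

end Pool.Agent.MP_9d0e09_an
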