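import Pool.Agent.Lib.MP_9d0e09_an.Gnl2

/-!
# Information sets, and fibres of block codes on cosets
-/

open MeasureTheory Filter Topology Finset

namespace Pool.Agent.MP_9d0e09_an

section

variable {V : Type} [Fintype V] [DecidableEq V]

/-- A finite group of words has an information set. -/
theorem info_set (K : Finset (V → ZMod 2)) (h0 : (0 : V → ZMod 2) ∈ K)
    (hadd : ∀ x ∈ K, ∀ y ∈ K, x + y ∈ K) :
    ∃ U : Finset V, K.card = 2 ^ U.card ∧
      ∀ x ∈ K, ∀ y ∈ K, (∀ u ∈ U, x u = y u) → x = y := by
  classical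
  let P : Finset V → Prop := fun U => ∀ x ∈ K, (∀ u ∈ U, x u = 0) → x = 0
  have hP : P univ := by
    intro x _ h
    funext v
    exact h v (Finset.mem_univ v)
  obtain ⟨U, hU, hmin⟩ := Finset.exists_min_image ((univ : Finset (Finset V)).filter P)
    Finset.card ⟨univ, Finset.mem_filter.mpr ⟨Finset.mem_univ _, hP⟩⟩
  rw [Finset.mem_filter] at hU
  have hzz : ∀ z : V → ZMod 2, z + z = 0 := by
    intro z; funext v; exact CharTwo.add_self_eq_zero _
  have hinj : ∀ x ∈ K, ∀ y ∈ K, (∀ u ∈ U, x u = y u) → x = y := by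
    intro x hx y hy h
    have h1 := hU.2 (x + y) (hadd x hx y hy) (by
      intro u hu
      rw [Pi.add_apply, h u hu]
      exact CharTwo.add_self_eq_zero _)
    have h2 : x = x + (y + y) := by rw [hzz, add_zero]
    rw [h2, ← add_assoc, h1, zero_add]
  refine ⟨U, le_antisymm ?_ ?_, hinj⟩
  · have h1 : Fintype.card K ≤ Fintype.card (U → ZMod 2) :=
      Fintype.card_le_of_injective (fun x : K => fun u : U => x.1 u) (by
        intro x y h
        apply Subtype.ext
        exact hinj x.1 x.2 y.1 y.2 (fun u hu => congrFun h ⟨u, hu⟩))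
    rw [Fintype.card_coe, Fintype.card_fun, ZMod.card, Fintype.card_coe] at h1
    exact h1
  · have hex : ∀ u : U, ∃ x ∈ K, (∀ u' ∈ U, u' ≠ u.1 → x u' = 0) ∧ x u.1 = 1 := by
      intro u
      have h1 : ¬ P (U.erase u.1) := by
        intro hP'
        have h2 := hmin (U.erase u.1) (Finset.mem_filter.mpr ⟨Finset.mem_univ _, hP'⟩)
        rw [Finset.card_erase_of_mem u.2] at h2
        have h3 : 0 < U.card := Finset.card_pos.mpr ⟨u.1, u.2⟩
        omega
      have h2 : ∃ x ∈ K, (∀ u' ∈ U.erase u.1, x u' = 0) ∧ x ≠ 0 := by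
        by_contra hcon
        push Not at hcon
        exact h1 hcon
      obtain ⟨x, hx, hx0, hxn⟩ := h2
      refine ⟨x, hx, fun u' hu' hne => hx0 u' (Finset.mem_erase.mpr ⟨hne, hu'⟩), ?_⟩
      apply zmod2_ne
      intro h3
      apply hxn
      apply hU.2 x hx
      intro u' hu'
      by_cases h4 : u' = u.1
      · rw [h4]; exact h3
      · exact hx0 u' (Finset.mem_erase.mpr ⟨h4, hu'⟩)
    choose e heK he0 he1 using hex
    let f : (U → ZMod 2) → (V → ZMod 2) := fun z => ∑ u : U, z u • e u
    have hfK : ∀ z, f z ∈ K := by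
      intro z
      have h1 : ∀ S : Finset U, ∑ u ∈ S, z u • e u ∈ K := by
        intro S
        induction S using Finset.induction_on with
        | empty => rw [Finset.sum_empty]; exact h0
        | insert u S hu ih =>
          rw [Finset.sum_insert hu]
          apply hadd _ _ _ ih
          by_cases h2 : z u = 0
          · rw [h2, zero_smul]; exact h0
          · rw [zmod2_ne _ h2, one_smul]; exact heK u
      exact h1 univ
    have hfe : ∀ z (u : U), f z u.1 = z u := by
      intro z u
      show (∑ u' : U, z u' • e u') u.1 = z u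
      rw [Finset.sum_apply, Finset.sum_eq_single u]
      · rw [Pi.smul_apply, he1, smul_eq_mul, mul_one]
      · intro u' _ hne
        rw [Pi.smul_apply, he0 u' u.1 u.2 (fun h => hne (Subtype.ext h).symm), smul_zero]
      · intro h
        exact absurd (Finset.mem_univ _) h
    have h1 : Fintype.card (U → ZMod 2) ≤ Fintype.card K :=
      Fintype.card_le_of_injective (fun z => (⟨f z, hfK z⟩ : K)) (by
        intro z z' h
        have h2 : f z = f z' := congrArg Subtype.val h
        funext u
        rw [← hfe z u, ← hfe z' u, h2])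
    rw [Fintype.card_coe, Fintype.card_fun, ZMod.card, Fintype.card_coe] at h1
    exact h1

open Classical in
/-- Points whose window is injective and lies in `U`. -/
noncomputable def Gd {G : Type} [Group G] [MulAction G V] (F₀ : Finset G) (U : Finset V) :
    Finset V :=
  univ.filter (fun v : V => Set.InjOn (fun g : G => g⁻¹ • v) (F₀ : Set G) ∧
    ∀ h ∈ F₀, h⁻¹ • v ∈ U)

open Classical in
theorem Gd_card {G : Type} [Group G] [MulAction G V] (F₀ : Finset G) (U : Finset V) :
    (Fintype.card V : ℝ) - (Bad (V := V) F₀).card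
      - F₀.card * ((Fintype.card V : ℝ) - U.card) ≤ (Gd (V := V) F₀ U).card := by
  have hsub : (univ : Finset V) ⊆ Gd (V := V) F₀ U ∪ (Bad (V := V) F₀ ∪
      F₀.biUnion (fun h => (univ \ U).image (fun u => h • u))) := by
    intro v _
    by_cases h1 : v ∈ Bad (V := V) F₀
    · exact Finset.mem_union_right _ (Finset.mem_union_left _ h1)
    by_cases h2 : ∀ h ∈ F₀, h⁻¹ • v ∈ U
    · apply Finset.mem_union_left
      rw [Gd, Finset.mem_filter]
      refine ⟨Finset.mem_univ _, ?_, h2⟩
      by_contra h3
      exact h1 (Finset.mem_filter.mpr ⟨Finset.mem_univ _, h3⟩)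
    · push Not at h2
      obtain ⟨h, hh, hn⟩ := h2
      apply Finset.mem_union_right
      apply Finset.mem_union_right
      rw [Finset.mem_biUnion]
      refine ⟨h, hh, Finset.mem_image.mpr ⟨h⁻¹ • v, ?_, ?_⟩⟩
      · rw [Finset.mem_sdiff]; exact ⟨Finset.mem_univ _, hn⟩
      · rw [smul_smul, mul_inv_cancel, one_smul]
  have h1 : Fintype.card V ≤ (Gd (V := V) F₀ U).card + ((Bad (V := V) F₀).card
      + F₀.card * (Fintype.card V - U.card)) := by
    calc Fintype.card V = (univ : Finset V).card := Finset.card_univ.symm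
      _ ≤ _ := Finset.card_le_card hsub
      _ ≤ _ := Finset.card_union_le _ _
      _ ≤ (Gd (V := V) F₀ U).card + ((Bad (V := V) F₀).card
          + (F₀.biUnion (fun h => (univ \ U).image (fun u => h • u))).card) :=
        Nat.add_le_add_left (Finset.card_union_le _ _) _
      _ ≤ _ := by
        apply Nat.add_le_add_left
        apply Nat.add_le_add_left
        calc (F₀.biUnion (fun h => (univ \ U).image (fun u => h • u))).card
            ≤ ∑ h ∈ F₀, ((univ \ U).image (fun u => h • u)).card := Finset.card_biUnion_le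
          _ ≤ ∑ h ∈ F₀, (univ \ U).card := Finset.sum_le_sum (fun h _ => Finset.card_image_le)
          _ = F₀.card * (Fintype.card V - U.card) := by
            rw [Finset.sum_const, smul_eq_mul, Finset.card_sdiff_of_subset (Finset.subset_univ _),
              Finset.card_univ]
  have hUV : U.card ≤ Fintype.card V := Finset.card_le_univ _
  have h2 := (Nat.cast_le (α := ℝ)).mpr h1
  rw [Nat.cast_add, Nat.cast_add, Nat.cast_mul, Nat.cast_sub hUV] at h2
  linarith

open Classical in
/-- Fibres of a block code on a set of words determined by their restriction to `U`. -/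
theorem fiber_U {G : Type} [Group G] [MulAction G V] {A : Type} (F₀ : Finset G)
    (hF₀ : F₀.Nonempty) (φ : (F₀ → ZMod 2) → A) (p : ℝ) (hp0 : 0 < p)
    (hp : ∀ a : A, (((univ : Finset (F₀ → ZMod 2)).filter (fun z => φ z = a)).card : ℝ)
      ≤ p * 2 ^ F₀.card) (U : Finset V) (C : Finset (V → ZMod 2))
    (hC : ∀ x ∈ C, ∀ x' ∈ C, (∀ u ∈ U, x u = x' u) → x = x') (y : V → A)
    (hCy : ∀ x ∈ C, codeV F₀ φ x = y) :
    (C.card : ℝ) ≤ 2 ^ U.card * p ^ ((1 / (F₀.card : ℝ)) * ((Gd (V := V) F₀ U).card : ℝ)) := by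
  set m := F₀.card with hm
  have hm0 : 0 < m := Finset.card_pos.mpr hF₀
  have hmR : (0 : ℝ) < m := by exact_mod_cast hm0
  have hm1 : (1 / (m : ℝ)) ≠ 0 := by positivity
  set Gs := Gd (V := V) F₀ U with hGs
  have hGmem : ∀ v, v ∈ Gs ↔ Set.InjOn (fun g : G => g⁻¹ • v) (F₀ : Set G) ∧
      ∀ h ∈ F₀, h⁻¹ • v ∈ U := by
    intro v
    rw [hGs, Gd, Finset.mem_filter]
    simp
  let g : V → (V → ZMod 2) → ℝ := fun v x =>
    if v ∈ Gs then (if φ (fun h : F₀ => x ((h : G)⁻¹ • v)) = y v then 1 else 0) else 1
  have hg0 : ∀ v x, 0 ≤ g v x := by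
    intro v x; simp only [g]; split_ifs <;> norm_num
  have hinv : ∀ u v, (∀ h ∈ F₀, u ≠ h⁻¹ • v) → ∀ x, g v (x + Pi.single u 1) = g v x := by
    intro u v h x
    simp only [g]
    have h1 : (fun h' : F₀ => (x + (Pi.single u 1 : V → ZMod 2)) ((h' : G)⁻¹ • v))
        = fun h' : F₀ => x ((h' : G)⁻¹ • v) := by
      funext h'
      rw [Pi.add_apply, Pi.single_eq_of_ne (Ne.symm (h h' h'.2)), add_zero]
    rw [h1]
  have hcount : ∀ u, (univ.filter (fun v => ¬ ∀ x, g v (x + Pi.single u 1) = g v x)).card ≤ m := by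
    intro u
    have hsub : univ.filter (fun v => ¬ ∀ x, g v (x + Pi.single u 1) = g v x)
        ⊆ F₀.image (fun h => h • u) := by
      intro v hv
      rw [Finset.mem_filter] at hv
      by_contra hcon
      apply hv.2
      apply hinv u v
      intro h hh he
      apply hcon
      rw [Finset.mem_image]
      exact ⟨h, hh, by rw [he, smul_smul, mul_inv_cancel, one_smul]⟩
    exact (Finset.card_le_card hsub).trans Finset.card_image_le
  have hfin := finner m hm0 (univ : Finset V) g hg0
    (fun i u hu => absurd (Finset.mem_univ u) hu) hcount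
  set S := (univ : Finset (V → ZMod 2)).filter
    (fun x => ∀ v ∈ Gs, φ (fun h : F₀ => x ((h : G)⁻¹ • v)) = y v) with hS
  have hL : ∑ x : V → ZMod 2, ∏ v, (g v x) ^ (1 / (m : ℝ)) = (S.card : ℝ) := by
    have h1 : ∀ x : V → ZMod 2, ∏ v, (g v x) ^ (1 / (m : ℝ))
        = if ∀ v ∈ Gs, φ (fun h : F₀ => x ((h : G)⁻¹ • v)) = y v then (1 : ℝ) else 0 := by
      intro x
      split_ifs with h
      · apply Finset.prod_eq_one
        intro v _
        have h2 : g v x = 1 := by
          simp only [g]
          split_ifs with h3 h4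
          · rfl
          · exact absurd (h v h3) h4
          · rfl
        rw [h2, Real.one_rpow]
      · push Not at h
        obtain ⟨v, hv, hv2⟩ := h
        apply Finset.prod_eq_zero (Finset.mem_univ v)
        have h2 : g v x = 0 := by
          simp only [g]
          rw [if_pos hv, if_neg hv2]
        rw [h2, Real.zero_rpow hm1]
    rw [Finset.sum_congr rfl (fun x _ => h1 x), Finset.sum_boole]
  rw [hL] at hfin
  have hgood : ∀ v, v ∈ Gs → (∑ x : V → ZMod 2, g v x) / 2 ^ Fintype.card V ≤ p := by
    intro v hv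
    have hinj := ((hGmem v).mp hv).1
    have hθ : Function.Injective (fun h : F₀ => (h : G)⁻¹ • v) := by
      intro a b hab
      exact Subtype.ext (hinj a.2 b.2 hab)
    have h1 := window_count (fun h : F₀ => (h : G)⁻¹ • v) hθ
      ((univ : Finset (F₀ → ZMod 2)).filter (fun z => φ z = y v))
    rw [Fintype.card_coe] at h1
    have h2 : ∑ x : V → ZMod 2, g v x
        = (((univ : Finset (V → ZMod 2)).filter (fun x => (fun h : F₀ => x ((h : G)⁻¹ • v))
          ∈ (univ : Finset (F₀ → ZMod 2)).filter (fun z => φ z = y v))).card : ℝ) := by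
      simp only [g]
      simp only [if_pos hv]
      rw [Finset.sum_boole]
      congr 2
      ext x
      simp
    rw [h2, div_le_iff₀ (by positivity)]
    have h3 := (Nat.cast_inj (R := ℝ)).mpr h1
    rw [Nat.cast_mul, Nat.cast_mul, Nat.cast_pow, Nat.cast_pow, Nat.cast_ofNat] at h3
    have h4 := hp (y v)
    have h5 : (0 : ℝ) < 2 ^ m := by positivity
    have h6 : (((univ : Finset (V → ZMod 2)).filter (fun x => (fun h : F₀ => x ((h : G)⁻¹ • v))
          ∈ (univ : Finset (F₀ → ZMod 2)).filter (fun z => φ z = y v))).card : ℝ) * 2 ^ m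
        ≤ (p * 2 ^ Fintype.card V) * 2 ^ m := by
      rw [h3]
      calc _ ≤ (p * 2 ^ m) * 2 ^ Fintype.card V :=
            mul_le_mul_of_nonneg_right h4 (by positivity)
        _ = _ := by ring
    exact le_of_mul_le_mul_right h6 h5
  have hall : ∀ v, v ∉ Gs → (∑ x : V → ZMod 2, g v x) / 2 ^ Fintype.card V = 1 := by
    intro v hv
    have h1 : ∀ x, g v x = 1 := by
      intro x
      simp only [g]
      rw [if_neg hv]
    rw [Finset.sum_congr rfl (fun x _ => h1 x), Finset.sum_const, Finset.card_univ,
      Fintype.card_fun, ZMod.card, nsmul_eq_mul, mul_one, Nat.cast_pow, Nat.cast_ofNat]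
    exact div_self (by positivity)
  have hnn : ∀ v, 0 ≤ (∑ x : V → ZMod 2, g v x) / 2 ^ Fintype.card V := by
    intro v
    apply div_nonneg _ (by positivity)
    exact Finset.sum_nonneg (fun x _ => hg0 v x)
  have h7 : ∏ v, ((∑ x : V → ZMod 2, g v x) / 2 ^ Fintype.card V) ^ (1 / (m : ℝ))
      ≤ ∏ v : V, (if v ∈ Gs then p ^ (1 / (m : ℝ)) else 1) := by
    apply Finset.prod_le_prod
    · intro v _
      exact Real.rpow_nonneg (hnn v) _
    · intro v _
      split_ifs with h
      · exact Real.rpow_le_rpow (hnn v) (hgood v h) (by positivity)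
      · rw [hall v h, Real.one_rpow]
  have h8 : ∏ v : V, (if v ∈ Gs then p ^ (1 / (m : ℝ)) else 1)
      = p ^ ((1 / (m : ℝ)) * (Gs.card : ℝ)) := by
    rw [Finset.prod_ite, Finset.prod_const_one, mul_one, Finset.prod_const,
      Real.rpow_mul hp0.le, Real.rpow_natCast]
    congr 2
    ext v
    simp
  rw [h8] at h7
  have h9 : (S.card : ℝ) ≤ 2 ^ Fintype.card V * p ^ ((1 / (m : ℝ)) * (Gs.card : ℝ)) :=
    hfin.trans (mul_le_mul_of_nonneg_left h7 (by positivity))
  -- the injection
  have hUV : U.card ≤ Fintype.card V := Finset.card_le_univ _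
  have h10 : C.card * 2 ^ (Fintype.card V - U.card) ≤ S.card := by
    let f : C × ((Uᶜ : Finset V) → ZMod 2) → (V → ZMod 2) := fun q v =>
      if h : v ∈ U then q.1.1 v else q.2 ⟨v, Finset.mem_compl.mpr h⟩
    have hfS : ∀ q, f q ∈ S := by
      intro q
      rw [hS, Finset.mem_filter]
      refine ⟨Finset.mem_univ _, ?_⟩
      intro v hv
      have h11 : (fun h : F₀ => f q ((h : G)⁻¹ • v)) = fun h : F₀ => q.1.1 ((h : G)⁻¹ • v) := by
        funext h
        simp only [f]
        rw [dif_pos (((hGmem v).mp hv).2 h h.2)]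
      rw [h11]
      exact congrFun (hCy q.1.1 q.1.2) v
    have hfi : Function.Injective f := by
      rintro ⟨x, t⟩ ⟨x', t'⟩ h
      have h12 : x = x' := by
        apply Subtype.ext
        apply hC x.1 x.2 x'.1 x'.2
        intro u hu
        have h13 := congrFun h u
        simp only [f] at h13
        rw [dif_pos hu, dif_pos hu] at h13
        exact h13
      have h14 : t = t' := by
        funext u
        have h15 := congrFun h u.1
        simp only [f] at h15
        rw [dif_neg (Finset.mem_compl.mp u.2), dif_neg (Finset.mem_compl.mp u.2)] at h15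
        exact h15
      rw [h12, h14]
    have h16 : Fintype.card (C × ((Uᶜ : Finset V) → ZMod 2)) ≤ Fintype.card S :=
      Fintype.card_le_of_injective (fun q => (⟨f q, hfS q⟩ : S)) (by
        intro q q' h
        exact hfi (congrArg Subtype.val h))
    rw [Fintype.card_prod, Fintype.card_fun, ZMod.card, Fintype.card_coe, Fintype.card_coe,
      Fintype.card_coe, Finset.card_compl] at h16
    exact h16
  have h11 := (Nat.cast_le (α := ℝ)).mpr h10
  rw [Nat.cast_mul, Nat.cast_pow, Nat.cast_ofNat] at h11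
  have h12 : (2 : ℝ) ^ Fintype.card V = 2 ^ U.card * 2 ^ (Fintype.card V - U.card) := by
    rw [← pow_add]
    congr 1
    omega
  have h13 : (C.card : ℝ) * 2 ^ (Fintype.card V - U.card)
      ≤ (2 ^ U.card * p ^ ((1 / (m : ℝ)) * (Gs.card : ℝ))) * 2 ^ (Fintype.card V - U.card) := by
    calc _ ≤ _ := h11
      _ ≤ _ := h9
      _ = _ := by rw [h12]; ring
  exact le_of_mul_le_mul_right h13 (by positivity)

end

end Pool.Agent.MP_9d0e09_an
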