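import Pool.Agent.Lib.MP_9d0e09_an.Low

/-!
# Passage to the limit along a sofic approximation
-/

open MeasureTheory Filter Topology Finset

namespace Pool.Agent.MP_9d0e09_an

section

variable {G : Type} [Group G] (V : ℕ → Type) [∀ n, Finite (V n)] [∀ n, Nonempty (V n)]
  [∀ n, MulAction G (V n)]

omit [∀ n, Nonempty (V n)] in
theorem bad_small (hV : IsSofic G V) (B : Finset G) :
    Tendsto (fun n => (Nat.card {v : V n // ¬ Set.InjOn (fun g : G => g⁻¹ • v) (B : Set G)} : ℝ)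
      / Nat.card (V n)) atTop (𝓝 0) := by
  classical
  let E : Finset (G × G) := (B ×ˢ B).filter (fun r => r.2 * r.1⁻¹ ≠ 1)
  have h1 : Tendsto (fun n => ∑ r ∈ E, (Nat.card {v : V n // (r.2 * r.1⁻¹) • v = v} : ℝ)
      / Nat.card (V n)) atTop (𝓝 (∑ r ∈ E, (0 : ℝ))) := by
    apply tendsto_finsetSum
    intro r hr
    exact hV _ (Finset.mem_filter.mp hr).2
  rw [Finset.sum_const_zero] at h1
  refine squeeze_zero (fun n => by positivity) (fun n => ?_) h1
  rw [← Finset.sum_div]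
  apply div_le_div_of_nonneg_right _ (by positivity)
  have := Fintype.ofFinite (V n)
  have h2 : ∀ P : V n → Prop, Nat.card {v : V n // P v} = (univ.filter P).card := by
    intro P
    rw [Nat.card_eq_fintype_card, Fintype.card_subtype]
  have h5 : Nat.card {v : V n // ¬ Set.InjOn (fun g : G => g⁻¹ • v) (B : Set G)}
      ≤ ∑ r ∈ E, Nat.card {v : V n // (r.2 * r.1⁻¹) • v = v} := by
    simp only [h2]
    refine le_trans (Finset.card_le_card ?_) Finset.card_biUnion_le
    intro v hv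
    have h4 := (@Finset.mem_filter _ _ (_) _ _).mp hv
    have h4 := h4.2
    rw [Set.InjOn] at h4
    push Not at h4
    obtain ⟨g, hg, h, hh, heq, hne⟩ := h4
    rw [Finset.mem_biUnion]
    refine ⟨(g, h), ?_, ?_⟩
    · rw [Finset.mem_filter]
      refine ⟨Finset.mk_mem_product hg hh, ?_⟩
      intro h5
      exact hne (mul_inv_eq_one.mp h5).symm
    · apply (@Finset.mem_filter _ _ (_) _ _).mpr
      refine ⟨Finset.mem_univ _, ?_⟩
      simp only at heq ⊢
      rw [mul_smul, heq, smul_smul, mul_inv_cancel, one_smul]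
  exact_mod_cast h5

theorem card_large [Infinite G] (hV : IsSofic G V) :
    Tendsto (fun n => (Nat.card (V n) : ℝ)) atTop atTop := by
  classical
  rw [tendsto_atTop]
  intro C
  obtain ⟨m, hm⟩ := exists_nat_ge C
  obtain ⟨E, hE⟩ := Infinite.exists_subset_card_eq G m
  have h1 := (bad_small V hV E).eventually (gt_mem_nhds (by norm_num : (0 : ℝ) < 1))
  filter_upwards [h1] with n hn
  have := Fintype.ofFinite (V n)
  have hNpos : (0 : ℝ) < Nat.card (V n) := by exact_mod_cast Nat.card_pos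
  have h2 : ∃ v : V n, Set.InjOn (fun g : G => g⁻¹ • v) (E : Set G) := by
    by_contra hcon
    push Not at hcon
    have h3 : Nat.card {v : V n // ¬ Set.InjOn (fun g : G => g⁻¹ • v) (E : Set G)}
        = Nat.card (V n) := by
      apply Nat.card_congr
      exact Equiv.subtypeUnivEquiv hcon
    rw [h3, div_self hNpos.ne'] at hn
    exact lt_irrefl _ hn
  obtain ⟨v, hv⟩ := h2
  have h3 : E.card ≤ Fintype.card (V n) := by
    rw [← Finset.card_image_of_injOn hv]
    exact Finset.card_le_univ _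
  rw [hE] at h3
  refine hm.trans ?_
  rw [Nat.card_eq_fintype_card]
  exact_mod_cast h3

end

section

variable {G : Type} [Group G] {d : ℕ} (s : Fin d → G) (k : ℕ)

open Classical in
theorem exists_basis {V : Type} [Fintype V] [MulAction G V] :
    ∃ b : Finset (V → ZMod 2), LinearIndepOn (ZMod 2) id (b : Set (V → ZMod 2)) ∧
      (b : Set (V → ZMod 2)) ⊆ Set.range (fun q : Fin d × V => cw s k q.1 q.2) ∧
      (∀ q : Fin d × V, cw s k q.1 q.2 ∈ Submodule.span (ZMod 2) (b : Set (V → ZMod 2))) := by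
  obtain ⟨b, hb1, hb2, hb3⟩ := exists_linearIndependent (ZMod 2)
    (Set.range (fun q : Fin d × V => cw s k q.1 q.2))
  refine ⟨b.toFinset, ?_, ?_, ?_⟩
  · rw [Set.coe_toFinset]; exact hb3
  · rw [Set.coe_toFinset]; exact hb1
  · intro q
    rw [Set.coe_toFinset, hb2]
    exact Submodule.subset_span ⟨q, rfl⟩

/-- The rate of the exact code. -/
noncomputable def exr (V : Type) [MulAction G V] : ℝ :=
  Real.log (Nat.card (Ex s k V)) / Nat.card V

open Classical in
theorem basis_card {V : Type} [Fintype V] [MulAction G V] (hV : 0 < Fintype.card V)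
    (b : Finset (V → ZMod 2)) (hb0 : LinearIndepOn (ZMod 2) id (b : Set (V → ZMod 2)))
    (hb1 : (b : Set (V → ZMod 2)) ⊆ Set.range (fun q : Fin d × V => cw s k q.1 q.2))
    (hb2 : ∀ q : Fin d × V, cw s k q.1 q.2 ∈ Submodule.span (ZMod 2) (b : Set (V → ZMod 2))) :
    (b.card : ℝ) = Fintype.card V * (1 - exr s k V / Real.log 2) ∧
      (b.card : ℝ) ≤ Fintype.card V := by
  have h1 := card_Cd b hb0
  have h2 : Nat.card (Ex s k V) = (Cd b).card := by
    rw [Nat.card_coe_set_eq, ← Set.ncard_coe_finset]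
    congr 1
    ext x
    rw [mem_Ex_iff_Cd s k b hb1 hb2, Finset.mem_coe]
  have hpos : 0 < (Cd b).card := by
    apply Finset.card_pos.mpr
    refine ⟨0, ?_⟩
    rw [mem_Cd]; intro β _; simp
  have hN : (0 : ℝ) < Fintype.card V := by exact_mod_cast hV
  have hlog2 : 0 < Real.log 2 := Real.log_pos (by norm_num)
  have h3 : (b.card : ℝ) * Real.log 2 + Real.log (Cd b).card = Fintype.card V * Real.log 2 := by
    have h4 : Real.log ((2 ^ b.card * (Cd b).card : ℕ) : ℝ) = Real.log ((2 ^ Fintype.card V : ℕ) : ℝ) := by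
      rw [h1]
    push_cast at h4
    rw [Real.log_mul (by positivity) (by positivity), Real.log_pow, Real.log_pow] at h4
    exact h4
  constructor
  · rw [exr, h2, Nat.card_eq_fintype_card]
    field_simp
    linarith
  · have h5 : 0 ≤ Real.log (Cd b).card := Real.log_nonneg (by exact_mod_cast hpos)
    have h6 : (b.card : ℝ) * Real.log 2 ≤ Fintype.card V * Real.log 2 := by linarith
    exact le_of_mul_le_mul_right h6 hlog2

theorem low_ev [Infinite G] [Nonempty (Fin d)] (hk : 0 < k) (hs : ∀ i, s i ^ k = 1)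
    (hinj : ∀ i, Set.InjOn (fun l : ℕ => s i ^ l) (Finset.range k : Set ℕ))
    (μ : Measure (G → ZMod 2)) (hμ : IsHaarOn (PX s k) μ)
    (V : ℕ → Type) [∀ n, Finite (V n)] [∀ n, Nonempty (V n)] [∀ n, MulAction G (V n)]
    (hV : IsSofic G V)
    (hr : Tendsto (fun n => exr s k (V n)) atTop (𝓝 ((1 - (d : ℝ) / k) * Real.log 2)))
    (F S : Finset G) (δ : ℝ) (hδ : 0 < δ) :
    ∀ᶠ n in atTop, (Nat.card (blkV S '' Ex s k (V n)) : ℝ)
      ≤ 2 * Nat.card (Mic (μ.map (blk S)) (V n) F δ) := by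
  classical
  -- the checks behind the trivial characters
  have hQ0 : ∀ T : Finset G, ∃ Q : Finset (G × Fin d),
      (∀ x ∈ PX s k, ∑ p ∈ T ×ˢ S, x (p.1 * p.2) = 0) →
      ∀ (V : Type) [MulAction G V] (v : V) (x : V → ZMod 2),
        (∀ q ∈ Q, ∑ l ∈ Finset.range k, x ((s q.2 ^ l)⁻¹ • (q.1⁻¹ • v)) = 0) →
        ∑ p ∈ T ×ˢ S, x ((p.1 * p.2)⁻¹ • v) = 0 := by
    intro T
    by_cases h : ∀ x ∈ PX s k, ∑ p ∈ T ×ˢ S, x (p.1 * p.2) = 0
    · obtain ⟨Q, hQ⟩ := triv_checks s k (T ×ˢ S) (fun p => p.1 * p.2) h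
      exact ⟨Q, fun _ => hQ⟩
    · exact ⟨∅, fun h' => absurd h' h⟩
  choose Qf hQf using hQ0
  let Q : Finset (G × Fin d) := F.powerset.biUnion Qf
  have hQ : ∀ T ∈ F.powerset, (∀ x ∈ PX s k, ∑ p ∈ T ×ˢ S, x (p.1 * p.2) = 0) →
      ∀ (V : Type) [MulAction G V] (v : V) (x : V → ZMod 2),
        (∀ q ∈ Q, ∑ l ∈ Finset.range k, x ((s q.2 ^ l)⁻¹ • (q.1⁻¹ • v)) = 0) →
        ∑ p ∈ T ×ˢ S, x ((p.1 * p.2)⁻¹ • v) = 0 := by
    intro T hT hx V _ v x hq
    exact hQf T hx V v x (fun q hqT => hq q (Finset.mem_biUnion.mpr ⟨T, hT, hqT⟩))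
  -- choose q
  obtain ⟨q0, hq0⟩ := exists_nat_gt (2 * (Q.card * (d * k * 2 : ℝ)) * 2 / δ)
  set q := max q0 1 with hqdef
  have hq1 : 1 ≤ q := le_max_right _ _
  have hqb : 2 * (Q.card * (d * k * 2 : ℝ)) / (q + 1) < δ / 2 := by
    have h1 : (q0 : ℝ) ≤ q := by exact_mod_cast le_max_left _ _
    rw [div_lt_iff₀ hδ] at hq0
    rw [div_lt_iff₀ (by positivity)]
    nlinarith
  -- choose M
  have hρ0 : (0 : ℝ) ≤ (q : ℝ) / (q + 1) := by positivity
  have hρ1 : (q : ℝ) / (q + 1) < 1 := by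
    rw [div_lt_one (by positivity)]; linarith
  have hcF : (0 : ℝ) < 2 ^ F.card := by positivity
  obtain ⟨M, hM⟩ : ∃ M : ℕ, 2 * ((q : ℝ) / (q + 1)) ^ (M + 1) * 2 ^ F.card * (2 * 2 ^ F.card)
      ≤ δ ^ 2 / 3 := by
    have h1 := tendsto_pow_atTop_nhds_zero_of_lt_one hρ0 hρ1
    have h2 : Tendsto (fun M : ℕ => 2 * ((q : ℝ) / (q + 1)) ^ (M + 1) * 2 ^ F.card * (2 * 2 ^ F.card))
        atTop (𝓝 (2 * 0 * 2 ^ F.card * (2 * 2 ^ F.card))) := by
      apply Tendsto.mul_const
      apply Tendsto.mul_const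
      apply Tendsto.const_mul
      exact (tendsto_add_atTop_iff_nat 1).mpr h1
    have h3 : (2 * 0 * 2 ^ F.card * (2 * 2 ^ F.card) : ℝ) < δ ^ 2 / 3 := by
      have : 0 < δ ^ 2 / 3 := by positivity
      simpa using this
    obtain ⟨M, hM⟩ := (h2.eventually (gt_mem_nhds h3)).exists
    exact ⟨M, hM.le⟩
  -- eventual smallness
  have hb := bad_small V hV (BB s k F S M)
  have hnf := bad_small V hV (pw s k)
  have hN := card_large V hV
  have e1 : ∀ᶠ n in atTop, (Nat.card {v : V n // ¬ Set.InjOn (fun g : G => g⁻¹ • v)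
      (BB s k F S M : Set G)} : ℝ) / Nat.card (V n) * (2 * 2 ^ F.card) < δ ^ 2 / 3 := by
    have h1 := hb.mul_const (2 * 2 ^ F.card : ℝ)
    rw [zero_mul] at h1
    exact h1.eventually (gt_mem_nhds (by positivity))
  have e2 : ∀ᶠ n in atTop, (F.card * S.card * (BB s k F S M).card : ℝ) * (2 * 2 ^ F.card)
      / Nat.card (V n) < δ ^ 2 / 3 := by
    have h1 := hN.const_div_atTop ((F.card * S.card * (BB s k F S M).card : ℝ) * (2 * 2 ^ F.card))
    exact h1.eventually (gt_mem_nhds (by positivity))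
  have e3 : ∀ᶠ n in atTop, 2 * (Q.card : ℝ) * (k * d * ((Nat.card {v : V n //
      ¬ Set.InjOn (fun g : G => g⁻¹ • v) (pw s k : Set G)} : ℝ) / Nat.card (V n))
      + (d - k + k * (exr s k (V n) / Real.log 2))) < δ / 2 := by
    have h1 : Tendsto (fun n => 2 * (Q.card : ℝ) * (k * d * ((Nat.card {v : V n //
      ¬ Set.InjOn (fun g : G => g⁻¹ • v) (pw s k : Set G)} : ℝ) / Nat.card (V n))
      + (d - k + k * (exr s k (V n) / Real.log 2)))) atTop
      (𝓝 (2 * (Q.card : ℝ) * (k * d * 0 + (d - k + k * ((1 - (d : ℝ) / k) * Real.log 2 / Real.log 2))))) := by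
      apply Tendsto.const_mul
      apply Tendsto.add
      · exact hnf.const_mul _
      · apply Tendsto.const_add
        apply Tendsto.const_mul
        exact hr.div_const _
    have h2 : (2 * (Q.card : ℝ) * (k * d * 0 + (d - k + k * ((1 - (d : ℝ) / k) * Real.log 2 / Real.log 2))))
        = 0 := by
      have hlog2 : Real.log 2 ≠ 0 := (Real.log_pos (by norm_num)).ne'
      have hk0 : (k : ℝ) ≠ 0 := by exact_mod_cast hk.ne'
      field_simp
      ring
    rw [h2] at h1
    exact h1.eventually (gt_mem_nhds (by positivity))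
  filter_upwards [e1, e2, e3] with n h1 h2 h3
  have := Fintype.ofFinite (V n)
  have hVpos : 0 < Fintype.card (V n) := Fintype.card_pos
  have hNpos : (0 : ℝ) < Fintype.card (V n) := by exact_mod_cast hVpos
  obtain ⟨b, hb0, hb1, hb2⟩ := exists_basis s k (V := V n)
  obtain ⟨hbc, hbN⟩ := basis_card s k hVpos b hb0 hb1 hb2
  have hcard : ∀ B : Finset G, Nat.card {v : V n // ¬ Set.InjOn (fun g : G => g⁻¹ • v) (B : Set G)}
      = (Bad (V := V n) B).card := by
    intro B
    rw [Nat.card_eq_fintype_card, Fintype.card_subtype, Bad]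
  rw [hcard, Nat.card_eq_fintype_card] at h1
  rw [Nat.card_eq_fintype_card] at h2
  rw [hcard, Nat.card_eq_fintype_card] at h3
  have hfew := few_checks s k hs hinj b hb1
  refine low_fin s k hk hs μ hμ F S δ hδ M q hq1 Q (fun T hT hx => hQ T hT hx (V n)) b hb0 hb1 hb2
    hVpos ?_ ?_
  · -- h1
    set N : ℝ := (Fintype.card (V n) : ℝ) with hNdef
    set a : ℝ := ((Bad (V := V n) (BB s k F S M)).card : ℝ) with hadef
    set κ : ℝ := (F.card * S.card * (BB s k F S M).card : ℝ) with hκ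
    have h4 : a / N * (2 * 2 ^ F.card) * N ^ 2 ≤ δ ^ 2 / 3 * N ^ 2 :=
      mul_le_mul_of_nonneg_right h1.le (by positivity)
    have h5 : κ * (2 * 2 ^ F.card) / N * N ^ 2 ≤ δ ^ 2 / 3 * N ^ 2 :=
      mul_le_mul_of_nonneg_right h2.le (by positivity)
    have h6 : 2 * ((q : ℝ) / (q + 1)) ^ (M + 1) * 2 ^ F.card * (2 * 2 ^ F.card) * N ^ 2
        ≤ δ ^ 2 / 3 * N ^ 2 := mul_le_mul_of_nonneg_right hM (by positivity)
    have h7 : a / N * (2 * 2 ^ F.card) * N ^ 2 = a * N * (2 * 2 ^ F.card) := by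
      field_simp
    have h8 : κ * (2 * 2 ^ F.card) / N * N ^ 2 = N * κ * (2 * 2 ^ F.card) := by
      field_simp
    rw [h7] at h4
    rw [h8] at h5
    calc (a * N + N * κ + 2 * ((q : ℝ) / (q + 1)) ^ (M + 1) * (2 ^ F.card * N ^ 2)) * (2 * 2 ^ F.card)
        = a * N * (2 * 2 ^ F.card) + N * κ * (2 * 2 ^ F.card)
          + 2 * ((q : ℝ) / (q + 1)) ^ (M + 1) * 2 ^ F.card * (2 * 2 ^ F.card) * N ^ 2 := by ring
      _ ≤ δ ^ 2 / 3 * N ^ 2 + δ ^ 2 / 3 * N ^ 2 + δ ^ 2 / 3 * N ^ 2 := by linarith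
      _ = (δ * N) ^ 2 := by ring
  · -- h2
    set N : ℝ := (Fintype.card (V n) : ℝ) with hNdef
    set nb : ℝ := (((univ : Finset (Fin d × (V n))).filter (fun q => cw s k q.1 q.2 ∉ b)).card : ℝ) with hnb
    set nf : ℝ := ((Bad (V := V n) (pw s k)).card : ℝ) with hnfd
    have h4 : nb + k * b.card ≤ d * N + k * (d * nf) := by
      have h5 := (Nat.cast_le (α := ℝ)).mpr hfew
      rw [Nat.cast_add, Nat.cast_add, Nat.cast_mul, Nat.cast_mul, Nat.cast_mul, Nat.cast_mul] at h5
      have h6 : (univ : Finset (V n)).filter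
        (fun v => ¬ Set.InjOn (fun g : G => g⁻¹ • v) (pw s k : Set G)) = Bad (V := V n) (pw s k) := by
        rw [Bad]
      rw [h6] at h5
      exact h5
    have h5 : nb ≤ (k * d * (nf / N) + (d - k + k * (exr s k (V n) / Real.log 2))) * N := by
      rw [hbc] at h4
      have h6 : nf / N * N = nf := by field_simp
      calc nb ≤ d * N + k * (d * nf) - k * (N * (1 - exr s k (V n) / Real.log 2)) := by linarith
        _ = (k * d * (nf / N) + (d - k + k * (exr s k (V n) / Real.log 2))) * N := by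
          rw [add_mul, mul_assoc (k * d : ℝ), h6]; ring
    have h6 : 2 * (Q.card * nb) ≤ δ / 2 * N := by
      have h7 : 2 * (Q.card : ℝ) * nb ≤ 2 * (Q.card : ℝ) *
          ((k * d * (nf / N) + (d - k + k * (exr s k (V n) / Real.log 2))) * N) :=
        mul_le_mul_of_nonneg_left h5 (by positivity)
      have h8 : (2 * (Q.card : ℝ) * (k * d * (nf / N) + (d - k + k * (exr s k (V n) / Real.log 2)))) * N
          ≤ δ / 2 * N := mul_le_mul_of_nonneg_right h3.le hNpos.le
      linarith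
    have h7 : 2 * (Q.card * (d * k * (2 * b.card / (q + 1)))) < δ / 2 * N := by
      have h8 : (2 * (Q.card * (d * k * (2 * b.card / (q + 1)))) : ℝ)
          = 2 * (Q.card * (d * k * 2 : ℝ)) / (q + 1) * b.card := by ring
      rw [h8]
      have h9 : 2 * (Q.card * (d * k * 2 : ℝ)) / (q + 1) * b.card
          ≤ 2 * (Q.card * (d * k * 2 : ℝ)) / (q + 1) * N :=
        mul_le_mul_of_nonneg_left hbN (by positivity)
      refine lt_of_le_of_lt h9 ?_
      exact mul_lt_mul_of_pos_right hqb hNpos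
    calc 2 * (Q.card * (nb + d * k * (2 * b.card / (q + 1))))
        = 2 * (Q.card * nb) + 2 * (Q.card * (d * k * (2 * b.card / (q + 1)))) := by ring
      _ < δ / 2 * N + δ / 2 * N := by linarith
      _ = δ * N := by ring

end

end Pool.Agent.MP_9d0e09_an
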