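import Mathlib

/-!
# Local words that are short sums of checks come from checks in the group
-/

open Finset

namespace Pool.Agent.MP_9d0e09_an

/-- The parity-check subshift of `s 0, …, s (d-1)` in the group `G`, checks of length `k`. -/
def PX {G : Type} [Group G] {d : ℕ} (s : Fin d → G) (k : ℕ) : Set (G → ZMod 2) :=
  {x | ∀ g i, ∑ j ∈ Finset.range k, x (g * s i ^ j) = 0}

section

variable {G : Type} [Group G] [DecidableEq G] {d : ℕ} (s : Fin d → G) (k : ℕ)

/-- Growing neighbourhoods. -/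
def ball (B : Finset G) : ℕ → Finset G
  | 0 => B
  | (j + 1) => ball B j ∪
      ((ball B j) ×ˢ ((univ : Finset (Fin d)) ×ˢ Finset.range k)).image
        (fun p => p.1 * s p.2.1 ^ p.2.2)

theorem ball_succ (B : Finset G) (j : ℕ) : ball s k B j ⊆ ball s k B (j + 1) := by
  intro g hg
  rw [ball]
  exact Finset.mem_union_left _ hg

theorem ball_mono (B : Finset G) {i j : ℕ} (h : i ≤ j) : ball s k B i ⊆ ball s k B j := by
  induction h with
  | refl => exact fun _ h => h
  | step _ ih => exact ih.trans (ball_succ s k B _)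

theorem ball_step (hk : 0 < k) (hs : ∀ i, s i ^ k = 1) (B : Finset G) (j : ℕ) {g : G}
    (hg : g ∈ ball s k B j) (i : Fin d) (m : ℕ) : g * s i ^ m ∈ ball s k B (j + 1) := by
  rw [ball]
  apply Finset.mem_union_right
  rw [Finset.mem_image]
  refine ⟨(g, i, m % k), ?_, ?_⟩
  · simp only [Finset.mem_product, Finset.mem_univ, Finset.mem_range, true_and]
    exact ⟨hg, Nat.mod_lt _ hk⟩
  · simp only
    rw [← pow_eq_pow_mod m (hs i)]

variable {V : Type} [Fintype V] [DecidableEq V] [MulAction G V]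

/-- The check word of `s i` at `u`. -/
def cw (i : Fin d) (u : V) : V → ZMod 2 :=
  ∑ l ∈ Finset.range k, Pi.single ((s i ^ l)⁻¹ • u) 1

/-- A local word at `v`. -/
def lw {ι : Type} (P : Finset ι) (e : ι → G) (v : V) : V → ZMod 2 :=
  ∑ p ∈ P, Pi.single ((e p)⁻¹ • v) 1

omit [DecidableEq G] in
theorem cw_dot (i : Fin d) (u : V) (x : V → ZMod 2) :
    dotProduct (cw s k i u) x = ∑ l ∈ Finset.range k, x ((s i ^ l)⁻¹ • u) := by
  rw [cw, sum_dotProduct]
  simp

omit [DecidableEq G] in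
theorem lw_dot {ι : Type} (P : Finset ι) (e : ι → G) (v : V) (x : V → ZMod 2) :
    dotProduct (lw P e v) x = ∑ p ∈ P, x ((e p)⁻¹ • v) := by
  rw [lw, sum_dotProduct]
  simp

theorem local_word [Nonempty (Fin d)] (hk : 0 < k) (hs : ∀ i, s i ^ k = 1) {ι : Type} (P : Finset ι) (e : ι → G)
    (M : ℕ) (v v' : V)
    (hinj : Set.InjOn (fun g : G => g⁻¹ • v) (ball s k (P.image e) (M + 1) : Set G))
    (hfar : ∀ p ∈ P, ∀ g ∈ ball s k (P.image e) (M + 1), (e p)⁻¹ • v' ≠ g⁻¹ • v)
    (c : Finset (V → ZMod 2)) (hc : c.card ≤ M) (hcw : ∀ β ∈ c, ∃ i u, β = cw s k i u)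
    (hsum : lw P e v + lw P e v' = ∑ β ∈ c, β) (x : G → ZMod 2) (hx : x ∈ PX s k) :
    ∑ p ∈ P, x (e p) = 0 := by
  classical
  have : Nonempty V := ⟨v⟩
  set Bj : ℕ → Finset G := ball s k (P.image e) with hBj
  choose! ib ub hib using hcw
  -- the straddling relation
  let Str : (V → ZMod 2) → ℕ → Prop := fun β j =>
    (∃ l < k, ∃ g ∈ Bj j, (s (ib β) ^ l)⁻¹ • ub β = g⁻¹ • v) ∧
    (∃ l < k, ∀ g ∈ Bj j, (s (ib β) ^ l)⁻¹ • ub β ≠ g⁻¹ • v)
  have hmeet : ∀ β j, (∃ l < k, ∃ g ∈ Bj j, (s (ib β) ^ l)⁻¹ • ub β = g⁻¹ • v) →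
      ∀ l, ∃ g ∈ Bj (j + 1), (s (ib β) ^ l)⁻¹ • ub β = g⁻¹ • v := by
    rintro β j ⟨l0, hl0, g, hg, hgu⟩ l
    refine ⟨g * s (ib β) ^ ((k - l0) + l), ball_step s k hk hs _ j hg _ _, ?_⟩
    have h1 : ub β = s (ib β) ^ l0 • (g⁻¹ • v) := by
      rw [← hgu, smul_smul]; simp
    rw [h1, smul_smul, smul_smul, mul_inv_rev]
    have h2 : (s (ib β) ^ (k - l0 + l))⁻¹ = (s (ib β) ^ l)⁻¹ * s (ib β) ^ l0 := by
      have h3 : s (ib β) ^ (k - l0 + l) * ((s (ib β) ^ l)⁻¹ * s (ib β) ^ l0) = 1 := by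
        rw [pow_add, mul_assoc, ← mul_assoc (s (ib β) ^ l), mul_inv_cancel, one_mul, ← pow_add,
          Nat.sub_add_cancel hl0.le, hs]
      exact inv_eq_of_mul_eq_one_right h3
    rw [h2]
  have hex : ∃ j ≤ M, ∀ β ∈ c, ¬ Str β j := by
    by_contra hcon
    push Not at hcon
    have hch : ∀ j : ℕ, j ∈ Finset.range (M + 1) → ∃ β ∈ c, Str β j := by
      intro j hj
      exact hcon j (by simpa [Nat.lt_succ_iff] using hj)
    choose! f hf1 hf2 using hch
    have hinjf : Set.InjOn f (Finset.range (M + 1) : Set ℕ) := by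
      have key : ∀ a b : ℕ, a ∈ Finset.range (M + 1) → b ∈ Finset.range (M + 1) → a < b →
          f a ≠ f b := by
        intro a b ha hb hab hfab
        have h1 := (hf2 a ha).1
        obtain ⟨l, hl, hno⟩ := (hf2 b hb).2
        obtain ⟨g, hg, hgu⟩ := hmeet (f a) a h1 l
        rw [hfab] at hgu
        exact hno g (ball_mono s k _ hab hg) hgu
      intro a ha b hb hab
      rcases lt_trichotomy a b with h | h | h
      · exact absurd hab (key a b ha hb h)
      · exact h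
      · exact absurd hab.symm (key b a hb ha h)
    have := Finset.card_le_card_of_injOn f (fun j hj => hf1 j hj) hinjf
    rw [Finset.card_range] at this
    omega
  obtain ⟨j, hjM, hj⟩ := hex
  have hsub : Bj j ⊆ Bj (M + 1) := ball_mono s k _ (by omega)
  have hsub' : Bj (j + 1) ⊆ Bj (M + 1) := ball_mono s k _ (by omega)
  -- the test function
  let y : V → ZMod 2 := fun w => if h : ∃ g ∈ Bj j, g⁻¹ • v = w then x h.choose else 0
  have hy1 : ∀ g ∈ Bj j, y (g⁻¹ • v) = x g := by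
    intro g hg
    have h : ∃ g' ∈ Bj j, g'⁻¹ • v = g⁻¹ • v := ⟨g, hg, rfl⟩
    have h2 : h.choose = g := by
      apply hinj (hsub h.choose_spec.1) (hsub hg)
      exact h.choose_spec.2
    simp only [y]
    rw [dif_pos h, h2]
  have hy0 : ∀ w : V, (∀ g ∈ Bj j, w ≠ g⁻¹ • v) → y w = 0 := by
    intro w hw
    simp only [y]
    rw [dif_neg]
    rintro ⟨g, hg, hgw⟩
    exact hw g hg hgw.symm
  have h1 : dotProduct (lw P e v + lw P e v') y = ∑ p ∈ P, x (e p) := by
    rw [add_dotProduct, lw_dot, lw_dot]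
    have h2 : ∀ p ∈ P, y ((e p)⁻¹ • v) = x (e p) := by
      intro p hp
      apply hy1
      apply ball_mono s k _ (Nat.zero_le j)
      rw [ball]
      exact Finset.mem_image_of_mem e hp
    have h3 : ∀ p ∈ P, y ((e p)⁻¹ • v') = 0 := by
      intro p hp
      apply hy0
      intro g hg
      exact hfar p hp g (hsub hg)
    rw [Finset.sum_congr rfl h2, Finset.sum_congr rfl h3]
    simp
  have h2 : dotProduct (∑ β ∈ c, β) y = 0 := by
    rw [sum_dotProduct]
    apply Finset.sum_eq_zero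
    intro β hβ
    rw [hib β hβ, cw_dot]
    by_cases hm : ∃ l < k, ∃ g ∈ Bj j, (s (ib β) ^ l)⁻¹ • ub β = g⁻¹ • v
    · have hall : ∀ l < k, ∃ g ∈ Bj j, (s (ib β) ^ l)⁻¹ • ub β = g⁻¹ • v := by
        have hn := hj β hβ
        intro l hl
        by_contra hcon
        push Not at hcon
        exact hn ⟨hm, l, hl, hcon⟩
      obtain ⟨g, hg, hgu⟩ := hall 0 hk
      simp only [pow_zero, inv_one, one_smul] at hgu
      have h5 : ∀ l ∈ Finset.range k, y ((s (ib β) ^ l)⁻¹ • ub β) = x (g * s (ib β) ^ l) := by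
        intro l hl
        obtain ⟨g', hg', hgu'⟩ := hall l (Finset.mem_range.mp hl)
        have h6 : (s (ib β) ^ l)⁻¹ • ub β = (g * s (ib β) ^ l)⁻¹ • v := by
          rw [hgu, smul_smul, mul_inv_rev]
        have h7 : g * s (ib β) ^ l = g' := by
          apply hinj (hsub' (ball_step s k hk hs _ j hg _ _)) (hsub hg')
          show (g * s (ib β) ^ l)⁻¹ • v = g'⁻¹ • v
          rw [← h6, hgu']
        rw [h6, h7]
        exact hy1 g' hg'
      rw [Finset.sum_congr rfl h5]
      exact hx g (ib β)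
    · push Not at hm
      apply Finset.sum_eq_zero
      intro l hl
      apply hy0
      intro g hg
      exact hm l (Finset.mem_range.mp hl) g hg
  rw [← h1, hsum, h2]

end

end Pool.Agent.MP_9d0e09_an
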