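import Pool.Agent.Lib.MP_9d0e09_an.Core

/-!
# Lower bound for the number of microstates
-/

open MeasureTheory Filter Topology Finset

namespace Pool.Agent.MP_9d0e09_an

section

variable {G : Type} [Group G] {d : ℕ} (s : Fin d → G) (k : ℕ)

theorem blkV_add {V : Type} [MulAction G V] (S : Finset G) (x y : V → ZMod 2) :
    blkV S (x + y) = blkV S x + blkV S y := by
  funext v
  simp [blkV, Finset.sum_add_distrib]

section fib

variable {V : Type} [Fintype V] [DecidableEq V]

theorem fib_eq (A : Finset (V → ZMod 2)) (f : (V → ZMod 2) → (V → ZMod 2))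
    (hf : ∀ x y, f (x + y) = f x + f y) (x0 : V → ZMod 2) (hx0 : x0 ∈ Cd A) :
    ((Cd A).filter (fun x => f x = f x0)).card = ((Cd A).filter (fun x => f x = 0)).card := by
  have h2 : ∀ z : V → ZMod 2, z + z = 0 := by
    intro z; funext v; exact CharTwo.add_self_eq_zero _
  have hadd : ∀ x, x ∈ Cd A → x + x0 ∈ Cd A := by
    intro x hx
    rw [mem_Cd] at hx hx0 ⊢
    intro β hβ
    rw [dotProduct_add, hx β hβ, hx0 β hβ, add_zero]
  refine Finset.card_bij' (fun x _ => x + x0) (fun x _ => x + x0) ?_ ?_ ?_ ?_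
  · intro x hx
    rw [Finset.mem_filter] at hx ⊢
    exact ⟨hadd x hx.1, by rw [hf, hx.2, h2]⟩
  · intro x hx
    rw [Finset.mem_filter] at hx ⊢
    exact ⟨hadd x hx.1, by rw [hf, hx.2, zero_add]⟩
  · intro x _; rw [add_assoc, h2, add_zero]
  · intro x _; rw [add_assoc, h2, add_zero]

theorem fib_count (A : Finset (V → ZMod 2)) (f : (V → ZMod 2) → (V → ZMod 2))
    (hf : ∀ x y, f (x + y) = f x + f y) :
    (Cd A).card = ((Cd A).filter (fun x => f x = 0)).card * ((Cd A).image f).card := by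
  rw [Finset.card_eq_sum_card_image f (Cd A)]
  rw [Finset.sum_congr rfl (g := fun _ => ((Cd A).filter (fun x => f x = 0)).card)]
  · rw [Finset.sum_const, smul_eq_mul, mul_comm]
  · intro y hy
    rw [Finset.mem_image] at hy
    obtain ⟨x0, hx0, rfl⟩ := hy
    exact fib_eq A f hf x0 hx0

theorem fib_le (A : Finset (V → ZMod 2)) (f : (V → ZMod 2) → (V → ZMod 2))
    (hf : ∀ x y, f (x + y) = f x + f y) (H : Finset (V → ZMod 2)) (hH : H ⊆ Cd A) :
    H.card ≤ ((Cd A).filter (fun x => f x = 0)).card * (H.image f).card := by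
  apply Finset.card_le_mul_card_image
  intro y hy
  rw [Finset.mem_image] at hy
  obtain ⟨x0, hx0, rfl⟩ := hy
  rw [← fib_eq A f hf x0 (hH hx0)]
  apply Finset.card_le_card
  intro x hx
  rw [Finset.mem_filter] at hx ⊢
  exact ⟨hH hx.1, hx.2⟩

theorem half_image (A : Finset (V → ZMod 2)) (f : (V → ZMod 2) → (V → ZMod 2))
    (hf : ∀ x y, f (x + y) = f x + f y) (H : Finset (V → ZMod 2)) (hH : H ⊆ Cd A)
    (h : ((Cd A).card : ℝ) ≤ 2 * H.card) :
    (((Cd A).image f).card : ℝ) ≤ 2 * (H.image f).card := by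
  have h1 := fib_count A f hf
  have h2 := fib_le A f hf H hH
  have h0 : (0 : V → ZMod 2) ∈ (Cd A).filter (fun x => f x = 0) := by
    rw [Finset.mem_filter]
    refine ⟨?_, ?_⟩
    · rw [mem_Cd]; intro β _; simp
    · have := hf 0 0
      rw [add_zero] at this
      exact left_eq_add.mp this
  have hK : 0 < ((Cd A).filter (fun x => f x = 0)).card := Finset.card_pos.mpr ⟨0, h0⟩
  have hK' : (0 : ℝ) < ((Cd A).filter (fun x => f x = 0)).card := by exact_mod_cast hK
  have h3 : ((Cd A).card : ℝ) ≤ 2 * ((((Cd A).filter (fun x => f x = 0)).card : ℝ)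
      * ((H.image f).card : ℝ)) := by
    refine h.trans ?_
    have : (H.card : ℝ) ≤ ((((Cd A).filter (fun x => f x = 0)).card * (H.image f).card : ℕ) : ℝ) := by
      exact_mod_cast h2
    push_cast at this
    linarith
  rw [h1, Nat.cast_mul] at h3
  have h4 : (((Cd A).filter (fun x => f x = 0)).card : ℝ) * (((Cd A).image f).card : ℝ)
      ≤ (((Cd A).filter (fun x => f x = 0)).card : ℝ) * (2 * ((H.image f).card : ℝ)) := by
    linarith
  exact le_of_mul_le_mul_left h4 hK'

end fib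

theorem low_fin [DecidableEq G] [Nonempty (Fin d)] (hk : 0 < k) (hs : ∀ i, s i ^ k = 1)
    (μ : Measure (G → ZMod 2)) (hμ : IsHaarOn (PX s k) μ) {V : Type} [Fintype V] [DecidableEq V]
    [MulAction G V] (F S : Finset G) (δ : ℝ) (hδ : 0 < δ) (M q : ℕ) (hq : 1 ≤ q)
    (Q : Finset (G × Fin d))
    (hQ : ∀ T ∈ F.powerset, (∀ x ∈ PX s k, ∑ p ∈ T ×ˢ S, x (p.1 * p.2) = 0) →
      ∀ (v : V) (x : V → ZMod 2),
        (∀ q ∈ Q, ∑ l ∈ Finset.range k, x ((s q.2 ^ l)⁻¹ • (q.1⁻¹ • v)) = 0) →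
        ∑ p ∈ T ×ˢ S, x ((p.1 * p.2)⁻¹ • v) = 0)
    (b : Finset (V → ZMod 2)) (hb0 : LinearIndepOn (ZMod 2) id (b : Set (V → ZMod 2)))
    (hb1 : (b : Set (V → ZMod 2)) ⊆ Set.range (fun q : Fin d × V => cw s k q.1 q.2))
    (hb2 : ∀ q : Fin d × V, cw s k q.1 q.2 ∈ Submodule.span (ZMod 2) (b : Set (V → ZMod 2)))
    (hV : 0 < Fintype.card V)
    (h1 : ((Bad (V := V) (BB s k F S M)).card * Fintype.card V
        + Fintype.card V * (F.card * S.card * (BB s k F S M).card)
        + 2 * ((q : ℝ) / (q + 1)) ^ (M + 1) * (2 ^ F.card * (Fintype.card V) ^ 2))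
        * (2 * 2 ^ F.card) ≤ (δ * Fintype.card V) ^ 2)
    (h2 : 2 * (Q.card * ((((univ : Finset (Fin d × V)).filter (fun q => cw s k q.1 q.2 ∉ b)).card : ℝ)
        + d * k * (2 * b.card / (q + 1)))) < δ * Fintype.card V) :
    (Nat.card (blkV S '' Ex s k V) : ℝ) ≤ 2 * Nat.card (Mic (μ.map (blk S)) V F δ) := by
  classical
  have := hμ.prob
  obtain ⟨D, hDb, hDc, hDp⟩ := core_D s k hk hs F S M q hq b hb0 hb1
  set A := b \ D with hA
  have hgm := good_many s k F S δ hδ hV A _ hDp h1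
  set good := (Cd A).filter (fun x => ∀ T ∈ NT s k F S,
      |∑ v : V, sg (dotProduct (lw (T ×ˢ S) (fun p : G × G => p.1 * p.2) v) x)|
        < δ * Fintype.card V) with hgood
  have hNpos : (0 : ℝ) < Fintype.card V := by exact_mod_cast hV
  have hmic : ∀ x ∈ good, blkV S x ∈ Mic (μ.map (blk S)) V F δ := by
    intro x hx
    rw [hgood, Finset.mem_filter] at hx
    obtain ⟨hxA, hxT⟩ := hx
    apply mic_of
    intro T hT
    by_cases hTn : T ∈ NT s k F S
    · have h3 := hxT T hTn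
      simp only [lw_dot] at h3
      have h4 : ∃ x ∈ PX s k, ∑ p ∈ T ×ˢ S, x (p.1 * p.2) ≠ 0 := by
        rw [NT, Finset.mem_filter] at hTn
        exact hTn.2
      rw [int_nontriv (PX s k) μ hμ (T ×ˢ S) (fun p => p.1 * p.2) h4, sub_zero, abs_div,
        abs_of_pos hNpos, div_lt_iff₀ hNpos]
      exact h3
    · have h4 : ∀ x ∈ PX s k, ∑ p ∈ T ×ˢ S, x (p.1 * p.2) = 0 := by
        by_contra hcon
        push Not at hcon
        apply hTn
        rw [NT, Finset.mem_filter]
        exact ⟨hT, hcon⟩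
      rw [int_triv (PX s k) μ hμ (T ×ˢ S) (fun p => p.1 * p.2) h4]
      have h5 := triv_close s k (T ×ˢ S) x Q (fun v => hQ T hT h4 v x)
      have h0 : (0 : V → ZMod 2) ∉ b := by
        intro h0
        exact hb0.ne_zero h0 rfl
      have h6 := few_violated s k b D h0 hDb x hxA
      have h7 : ((Q.card * ((univ : Finset (Fin d × V)).filter
          (fun q => dotProduct (cw s k q.1 q.2) x ≠ 0)).card : ℕ) : ℝ)
          ≤ Q.card * ((((univ : Finset (Fin d × V)).filter (fun q => cw s k q.1 q.2 ∉ b)).card : ℝ)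
        + d * k * (2 * b.card / (q + 1))) := by
        rw [Nat.cast_mul]
        apply mul_le_mul_of_nonneg_left _ (by positivity)
        have h8 := (Nat.cast_le (α := ℝ)).mpr h6
        rw [Nat.cast_add, Nat.cast_mul, Nat.cast_mul] at h8
        refine h8.trans ?_
        have h9 : (d : ℝ) * k * D.card ≤ d * k * (2 * b.card / (q + 1)) :=
          mul_le_mul_of_nonneg_left hDc (by positivity)
        linarith
      have h8 : (∑ v : V, sg (∑ p ∈ T ×ˢ S, x ((p.1 * p.2)⁻¹ • v))) / Fintype.card V - 1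
          = ((∑ v : V, sg (∑ p ∈ T ×ˢ S, x ((p.1 * p.2)⁻¹ • v))) - Fintype.card V)
            / Fintype.card V := by
        field_simp
      rw [h8, abs_div, abs_of_pos hNpos, div_lt_iff₀ hNpos]
      linarith
  -- cardinalities
  have hhalf := half_image A (blkV S) (blkV_add S) good (Finset.filter_subset _ _) hgm
  have hle1 : (Nat.card (blkV S '' Ex s k V) : ℝ) ≤ (((Cd A).image (blkV S)).card : ℝ) := by
    rw [Nat.card_coe_set_eq, ← Set.ncard_coe_finset]
    have hsub : blkV S '' Ex s k V ⊆ (((Cd A).image (blkV S) : Finset (V → ZMod 2)) :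
        Set (V → ZMod 2)) := by
      rintro y ⟨x, hx, rfl⟩
      rw [mem_Ex_iff_Cd s k b hb1 hb2] at hx
      rw [Finset.mem_coe]
      apply Finset.mem_image_of_mem
      rw [mem_Cd] at hx ⊢
      intro β hβ
      exact hx β (Finset.sdiff_subset hβ)
    exact_mod_cast Set.ncard_le_ncard hsub (Set.toFinite _)
  have hle2 : ((good.image (blkV S)).card : ℝ) ≤ Nat.card (Mic (μ.map (blk S)) V F δ) := by
    rw [Nat.card_coe_set_eq, ← Set.ncard_coe_finset]
    have hsub : ((good.image (blkV S) : Finset (V → ZMod 2)) : Set (V → ZMod 2))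
        ⊆ Mic (μ.map (blk S)) V F δ := by
      intro y hy
      rw [Finset.mem_coe, Finset.mem_image] at hy
      obtain ⟨x, hx, rfl⟩ := hy
      exact hmic x hx
    exact_mod_cast Set.ncard_le_ncard hsub (Set.toFinite _)
  linarith

end

end Pool.Agent.MP_9d0e09_an
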