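import Pool.Agent.Lib.MP_9d0e09_an.Tre

/-!
# Noisy codes: few words are not microstates
-/

open MeasureTheory Filter Topology Finset

namespace Pool.Agent.MP_9d0e09_an

section

variable {G : Type} [Group G] {d : ℕ} (s : Fin d → G) (k : ℕ)

section

variable [DecidableEq G]

omit [DecidableEq G] in
open Classical in
/-- Few words are unbalanced for some nontrivial character. -/
theorem bad_few {V : Type} [Fintype V] [DecidableEq V] [MulAction G V]
    (F S : Finset G) (δ : ℝ) (hδ : 0 < δ) (hV : 0 < Fintype.card V)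
    (A : Finset (V → ZMod 2)) (Pb : ℝ)
    (hP : ∀ T ∈ NT s k F S,
      (((univ : Finset (V × V)).filter (fun r =>
        lw (T ×ˢ S) (fun p : G × G => p.1 * p.2) r.1 + lw (T ×ˢ S) (fun p : G × G => p.1 * p.2) r.2
          ∈ Submodule.span (ZMod 2) (A : Set (V → ZMod 2)))).card : ℝ) ≤ Pb) (C : ℝ) (hC : 0 < C)
    (hPb : Pb * (C * 2 ^ F.card) ≤ (δ * Fintype.card V) ^ 2) :
    C * (((Cd A).filter (fun x => ¬ ∀ T ∈ NT s k F S,
      |∑ v : V, sg (dotProduct (lw (T ×ˢ S) (fun p : G × G => p.1 * p.2) v) x)|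
        < δ * Fintype.card V)).card : ℝ) ≤ (Cd A).card := by
  set τ : ℝ := δ * Fintype.card V with hτ
  have hτ0 : 0 < τ := by
    have : (0 : ℝ) < Fintype.card V := by exact_mod_cast hV
    positivity
  let bad : Finset G → Finset (V → ZMod 2) := fun T => (Cd A).filter (fun x =>
    τ ≤ |∑ v : V, sg (dotProduct (lw (T ×ˢ S) (fun p : G × G => p.1 * p.2) v) x)|)
  have h1 : ∀ T ∈ NT s k F S, ((bad T).card : ℝ) * (C * 2 ^ F.card) ≤ (Cd A).card := by
    intro T hT
    have h2 := cheb A (fun v : V => lw (T ×ˢ S) (fun p : G × G => p.1 * p.2) v) τ hτ0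
    have h3 := hP T hT
    have h4 : ((bad T).card : ℝ) * τ ^ 2 ≤ (Cd A).card * Pb :=
      h2.trans (mul_le_mul_of_nonneg_left h3 (by positivity))
    have h5 : ((bad T).card : ℝ) * (C * 2 ^ F.card) * τ ^ 2 ≤ (Cd A).card * τ ^ 2 := by
      calc ((bad T).card : ℝ) * (C * 2 ^ F.card) * τ ^ 2
          = (((bad T).card : ℝ) * τ ^ 2) * (C * 2 ^ F.card) := by ring
        _ ≤ ((Cd A).card * Pb) * (C * 2 ^ F.card) :=
          mul_le_mul_of_nonneg_right h4 (by positivity)
        _ = (Cd A).card * (Pb * (C * 2 ^ F.card)) := by ring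
        _ ≤ (Cd A).card * τ ^ 2 := mul_le_mul_of_nonneg_left hPb (by positivity)
    exact le_of_mul_le_mul_right h5 (by positivity)
  have hsub : (Cd A).filter (fun x => ¬ ∀ T ∈ NT s k F S,
      |∑ v : V, sg (dotProduct (lw (T ×ˢ S) (fun p : G × G => p.1 * p.2) v) x)| < τ)
      ⊆ (NT s k F S).biUnion bad := by
    intro x hx
    rw [Finset.mem_filter] at hx
    obtain ⟨hx, h⟩ := hx
    push Not at h
    obtain ⟨T, hT, h⟩ := h
    rw [Finset.mem_biUnion]
    exact ⟨T, hT, Finset.mem_filter.mpr ⟨hx, h⟩⟩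
  have h2 : (((NT s k F S).biUnion bad).card : ℝ) * C ≤ (Cd A).card := by
    have h3 : (((NT s k F S).biUnion bad).card : ℝ) ≤ ∑ T ∈ NT s k F S, ((bad T).card : ℝ) := by
      exact_mod_cast Finset.card_biUnion_le
    have h4 : (∑ T ∈ NT s k F S, ((bad T).card : ℝ)) * (C * 2 ^ F.card)
        ≤ 2 ^ F.card * (Cd A).card := by
      rw [Finset.sum_mul]
      calc ∑ T ∈ NT s k F S, ((bad T).card : ℝ) * (C * 2 ^ F.card)
          ≤ ∑ T ∈ NT s k F S, ((Cd A).card : ℝ) := Finset.sum_le_sum h1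
        _ = (NT s k F S).card * (Cd A).card := by rw [Finset.sum_const, nsmul_eq_mul]
        _ ≤ 2 ^ F.card * (Cd A).card := by
          apply mul_le_mul_of_nonneg_right _ (by positivity)
          exact_mod_cast NT_card s k F S
    have h5 : (∑ T ∈ NT s k F S, ((bad T).card : ℝ)) * C * 2 ^ F.card
        ≤ (Cd A).card * 2 ^ F.card := by linarith
    have h6 := le_of_mul_le_mul_right h5 (by positivity)
    refine le_trans (mul_le_mul_of_nonneg_right h3 hC.le) h6
  have h3 : (((Cd A).filter (fun x => ¬ ∀ T ∈ NT s k F S,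
      |∑ v : V, sg (dotProduct (lw (T ×ˢ S) (fun p : G × G => p.1 * p.2) v) x)| < τ)).card : ℝ)
      ≤ (((NT s k F S).biUnion bad).card : ℝ) := by
    exact_mod_cast Finset.card_le_card hsub
  calc C * _ ≤ C * (((NT s k F S).biUnion bad).card : ℝ) := mul_le_mul_of_nonneg_left h3 hC.le
    _ ≤ _ := by rw [mul_comm]; exact h2

end

open Classical in
theorem low2_fin [DecidableEq G] [Nonempty (Fin d)] (hk : 0 < k) (hs : ∀ i, s i ^ k = 1)
    (μ : Measure (G → ZMod 2)) (hμ : IsHaarOn (PX s k) μ) {V : Type} [Fintype V] [DecidableEq V]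
    [MulAction G V] (F S : Finset G) (δ : ℝ) (hδ : 0 < δ) (C : ℝ) (hC : 0 < C) (M q : ℕ) (hq : 1 ≤ q)
    (Q : Finset (G × Fin d))
    (hQ : ∀ T ∈ F.powerset, (∀ x ∈ PX s k, ∑ p ∈ T ×ˢ S, x (p.1 * p.2) = 0) →
      ∀ (v : V) (x : V → ZMod 2),
        (∀ q ∈ Q, ∑ l ∈ Finset.range k, x ((s q.2 ^ l)⁻¹ • (q.1⁻¹ • v)) = 0) →
        ∑ p ∈ T ×ˢ S, x ((p.1 * p.2)⁻¹ • v) = 0)
    (b : Finset (V → ZMod 2)) (hb0 : LinearIndepOn (ZMod 2) id (b : Set (V → ZMod 2)))
    (hb1 : (b : Set (V → ZMod 2)) ⊆ Set.range (fun q : Fin d × V => cw s k q.1 q.2))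
    (hb2 : ∀ q : Fin d × V, cw s k q.1 q.2 ∈ Submodule.span (ZMod 2) (b : Set (V → ZMod 2)))
    (hV : 0 < Fintype.card V)
    (h1 : ((Bad (V := V) (BB s k F S M)).card * Fintype.card V
        + Fintype.card V * (F.card * S.card * (BB s k F S M).card)
        + 2 * ((q : ℝ) / (q + 1)) ^ (M + 1) * (2 ^ F.card * (Fintype.card V) ^ 2))
        * (C * 2 ^ F.card) ≤ (δ * Fintype.card V) ^ 2)
    (h2 : 2 * (Q.card * ((((univ : Finset (Fin d × V)).filter (fun q => cw s k q.1 q.2 ∉ b)).card : ℝ)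
        + d * k * (2 * b.card / (q + 1)))) < δ * Fintype.card V) :
    ∃ A : Finset (V → ZMod 2), (∀ x ∈ Ex s k V, x ∈ Cd A) ∧
      C * (((Cd A).filter (fun x => blkV S x ∉ Mic (μ.map (blk S)) V F δ)).card : ℝ)
        ≤ (Cd A).card ∧
      ∀ T ∈ NT s k F S, (((univ : Finset (V × V)).filter (fun r =>
        lw (T ×ˢ S) (fun p : G × G => p.1 * p.2) r.1 + lw (T ×ˢ S) (fun p : G × G => p.1 * p.2) r.2
          ∈ Submodule.span (ZMod 2) (A : Set (V → ZMod 2)))).card : ℝ) * (C * 2 ^ F.card)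
        ≤ (δ * Fintype.card V) ^ 2 := by
  classical
  have := hμ.prob
  obtain ⟨D, hDb, hDc, hDp⟩ := core_D s k hk hs F S M q hq b hb0 hb1
  set A := b \ D with hA
  have hgm := bad_few s k F S δ hδ hV A _ hDp C hC h1
  set good := (Cd A).filter (fun x => ∀ T ∈ NT s k F S,
      |∑ v : V, sg (dotProduct (lw (T ×ˢ S) (fun p : G × G => p.1 * p.2) v) x)|
        < δ * Fintype.card V) with hgood
  have hNpos : (0 : ℝ) < Fintype.card V := by exact_mod_cast hV
  have hmic : ∀ x ∈ good, blkV S x ∈ Mic (μ.map (blk S)) V F δ := by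
    intro x hx
    rw [hgood, Finset.mem_filter] at hx
    obtain ⟨hxA, hxT⟩ := hx
    apply mic_of
    intro T hT
    by_cases hTn : T ∈ NT s k F S
    · have h3 := hxT T hTn
      simp only [lw_dot] at h3
      have h4 : ∃ x ∈ PX s k, ∑ p ∈ T ×ˢ S, x (p.1 * p.2) ≠ 0 := by
        rw [NT, Finset.mem_filter] at hTn
        exact hTn.2
      rw [int_nontriv (PX s k) μ hμ (T ×ˢ S) (fun p => p.1 * p.2) h4, sub_zero, abs_div,
        abs_of_pos hNpos, div_lt_iff₀ hNpos]
      exact h3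
    · have h4 : ∀ x ∈ PX s k, ∑ p ∈ T ×ˢ S, x (p.1 * p.2) = 0 := by
        by_contra hcon
        push Not at hcon
        apply hTn
        rw [NT, Finset.mem_filter]
        exact ⟨hT, hcon⟩
      rw [int_triv (PX s k) μ hμ (T ×ˢ S) (fun p => p.1 * p.2) h4]
      have h5 := triv_close s k (T ×ˢ S) x Q (fun v => hQ T hT h4 v x)
      have h0 : (0 : V → ZMod 2) ∉ b := by
        intro h0
        exact hb0.ne_zero h0 rfl
      have h6 := few_violated s k b D h0 hDb x hxA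
      have h7 : ((Q.card * ((univ : Finset (Fin d × V)).filter
          (fun q => dotProduct (cw s k q.1 q.2) x ≠ 0)).card : ℕ) : ℝ)
          ≤ Q.card * ((((univ : Finset (Fin d × V)).filter (fun q => cw s k q.1 q.2 ∉ b)).card : ℝ)
        + d * k * (2 * b.card / (q + 1))) := by
        rw [Nat.cast_mul]
        apply mul_le_mul_of_nonneg_left _ (by positivity)
        have h8 := (Nat.cast_le (α := ℝ)).mpr h6
        rw [Nat.cast_add, Nat.cast_mul, Nat.cast_mul] at h8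
        refine h8.trans ?_
        have h9 : (d : ℝ) * k * D.card ≤ d * k * (2 * b.card / (q + 1)) :=
          mul_le_mul_of_nonneg_left hDc (by positivity)
        linarith
      have h8 : (∑ v : V, sg (∑ p ∈ T ×ˢ S, x ((p.1 * p.2)⁻¹ • v))) / Fintype.card V - 1
          = ((∑ v : V, sg (∑ p ∈ T ×ˢ S, x ((p.1 * p.2)⁻¹ • v))) - Fintype.card V)
            / Fintype.card V := by
        field_simp
      rw [h8, abs_div, abs_of_pos hNpos, div_lt_iff₀ hNpos]
      linarith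
  refine ⟨A, ?_, ?_, ?_⟩
  · intro x hx
    rw [mem_Ex_iff_Cd s k b hb1 hb2] at hx
    rw [mem_Cd] at hx ⊢
    intro β hβ
    exact hx β (Finset.sdiff_subset hβ)
  · refine le_trans ?_ hgm
    apply mul_le_mul_of_nonneg_left _ hC.le
    have hsub : (Cd A).filter (fun x => blkV S x ∉ Mic (μ.map (blk S)) V F δ)
        ⊆ (Cd A).filter (fun x => ¬ ∀ T ∈ NT s k F S,
          |∑ v : V, sg (dotProduct (lw (T ×ˢ S) (fun p : G × G => p.1 * p.2) v) x)|
          < δ * Fintype.card V) := by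
      intro x hx
      rw [Finset.mem_filter] at hx ⊢
      refine ⟨hx.1, ?_⟩
      intro h
      exact hx.2 (hmic x (Finset.mem_filter.mpr ⟨hx.1, h⟩))
    exact_mod_cast Finset.card_le_card hsub
  · intro T hT
    exact (mul_le_mul_of_nonneg_right (hDp T hT) (by positivity)).trans h1

theorem low2_ev [Infinite G] [Nonempty (Fin d)] (hk : 0 < k) (hs : ∀ i, s i ^ k = 1)
    (hinj : ∀ i, Set.InjOn (fun l : ℕ => s i ^ l) (Finset.range k : Set ℕ))
    (μ : Measure (G → ZMod 2)) (hμ : IsHaarOn (PX s k) μ)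
    (V : ℕ → Type) [∀ n, Finite (V n)] [∀ n, Nonempty (V n)] [∀ n, MulAction G (V n)]
    (hV : IsSofic G V)
    (hr : Tendsto (fun n => exr s k (V n)) atTop (𝓝 ((1 - (d : ℝ) / k) * Real.log 2)))
    (F S : Finset G) (δ : ℝ) (hδ : 0 < δ) (C : ℝ) (hC : 0 < C) :
    ∀ᶠ n in atTop, ∃ (_ : Fintype (V n)) (_ : DecidableEq (V n)) (A : Finset (V n → ZMod 2)),
      (∀ x ∈ Ex s k (V n), x ∈ Cd A) ∧
      C * (Nat.card {x : V n → ZMod 2 // x ∈ Cd A ∧ blkV S x ∉ Mic (μ.map (blk S)) (V n) F δ} : ℝ)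
        ≤ (Cd A).card ∧
      ∀ T ∈ NT s k F S, (Nat.card {r : V n × V n //
        lw (T ×ˢ S) (fun p : G × G => p.1 * p.2) r.1 + lw (T ×ˢ S) (fun p : G × G => p.1 * p.2) r.2
          ∈ Submodule.span (ZMod 2) (A : Set (V n → ZMod 2))} : ℝ) * (C * 2 ^ F.card)
        ≤ (δ * Fintype.card (V n)) ^ 2 := by
  classical
  -- the checks behind the trivial characters
  have hQ0 : ∀ T : Finset G, ∃ Q : Finset (G × Fin d),
      (∀ x ∈ PX s k, ∑ p ∈ T ×ˢ S, x (p.1 * p.2) = 0) →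
      ∀ (V : Type) [MulAction G V] (v : V) (x : V → ZMod 2),
        (∀ q ∈ Q, ∑ l ∈ Finset.range k, x ((s q.2 ^ l)⁻¹ • (q.1⁻¹ • v)) = 0) →
        ∑ p ∈ T ×ˢ S, x ((p.1 * p.2)⁻¹ • v) = 0 := by
    intro T
    by_cases h : ∀ x ∈ PX s k, ∑ p ∈ T ×ˢ S, x (p.1 * p.2) = 0
    · obtain ⟨Q, hQ⟩ := triv_checks s k (T ×ˢ S) (fun p => p.1 * p.2) h
      exact ⟨Q, fun _ => hQ⟩
    · exact ⟨∅, fun h' => absurd h' h⟩
  choose Qf hQf using hQ0
  let Q : Finset (G × Fin d) := F.powerset.biUnion Qf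
  have hQ : ∀ T ∈ F.powerset, (∀ x ∈ PX s k, ∑ p ∈ T ×ˢ S, x (p.1 * p.2) = 0) →
      ∀ (V : Type) [MulAction G V] (v : V) (x : V → ZMod 2),
        (∀ q ∈ Q, ∑ l ∈ Finset.range k, x ((s q.2 ^ l)⁻¹ • (q.1⁻¹ • v)) = 0) →
        ∑ p ∈ T ×ˢ S, x ((p.1 * p.2)⁻¹ • v) = 0 := by
    intro T hT hx V _ v x hq
    exact hQf T hx V v x (fun q hqT => hq q (Finset.mem_biUnion.mpr ⟨T, hT, hqT⟩))
  -- choose q
  obtain ⟨q0, hq0⟩ := exists_nat_gt (2 * (Q.card * (d * k * 2 : ℝ)) * 2 / δ)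
  set q := max q0 1 with hqdef
  have hq1 : 1 ≤ q := le_max_right _ _
  have hqb : 2 * (Q.card * (d * k * 2 : ℝ)) / (q + 1) < δ / 2 := by
    have h1 : (q0 : ℝ) ≤ q := by exact_mod_cast le_max_left _ _
    rw [div_lt_iff₀ hδ] at hq0
    rw [div_lt_iff₀ (by positivity)]
    nlinarith
  -- choose M
  have hρ0 : (0 : ℝ) ≤ (q : ℝ) / (q + 1) := by positivity
  have hρ1 : (q : ℝ) / (q + 1) < 1 := by
    rw [div_lt_one (by positivity)]; linarith
  have hcF : (0 : ℝ) < 2 ^ F.card := by positivity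
  obtain ⟨M, hM⟩ : ∃ M : ℕ, 2 * ((q : ℝ) / (q + 1)) ^ (M + 1) * 2 ^ F.card * (C * 2 ^ F.card)
      ≤ δ ^ 2 / 3 := by
    have h1 := tendsto_pow_atTop_nhds_zero_of_lt_one hρ0 hρ1
    have h2 : Tendsto (fun M : ℕ => 2 * ((q : ℝ) / (q + 1)) ^ (M + 1) * 2 ^ F.card * (C * 2 ^ F.card))
        atTop (𝓝 (2 * 0 * 2 ^ F.card * (C * 2 ^ F.card))) := by
      apply Tendsto.mul_const
      apply Tendsto.mul_const
      apply Tendsto.const_mul
      exact (tendsto_add_atTop_iff_nat 1).mpr h1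
    have h3 : (2 * 0 * 2 ^ F.card * (C * 2 ^ F.card) : ℝ) < δ ^ 2 / 3 := by
      have : 0 < δ ^ 2 / 3 := by positivity
      simpa using this
    obtain ⟨M, hM⟩ := (h2.eventually (gt_mem_nhds h3)).exists
    exact ⟨M, hM.le⟩
  -- eventual smallness
  have hb := bad_small V hV (BB s k F S M)
  have hnf := bad_small V hV (pw s k)
  have hN := card_large V hV
  have e1 : ∀ᶠ n in atTop, (Nat.card {v : V n // ¬ Set.InjOn (fun g : G => g⁻¹ • v)
      (BB s k F S M : Set G)} : ℝ) / Nat.card (V n) * (C * 2 ^ F.card) < δ ^ 2 / 3 := by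
    have h1 := hb.mul_const (C * 2 ^ F.card : ℝ)
    rw [zero_mul] at h1
    exact h1.eventually (gt_mem_nhds (by positivity))
  have e2 : ∀ᶠ n in atTop, (F.card * S.card * (BB s k F S M).card : ℝ) * (C * 2 ^ F.card)
      / Nat.card (V n) < δ ^ 2 / 3 := by
    have h1 := hN.const_div_atTop ((F.card * S.card * (BB s k F S M).card : ℝ) * (C * 2 ^ F.card))
    exact h1.eventually (gt_mem_nhds (by positivity))
  have e3 : ∀ᶠ n in atTop, 2 * (Q.card : ℝ) * (k * d * ((Nat.card {v : V n //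
      ¬ Set.InjOn (fun g : G => g⁻¹ • v) (pw s k : Set G)} : ℝ) / Nat.card (V n))
      + (d - k + k * (exr s k (V n) / Real.log 2))) < δ / 2 := by
    have h1 : Tendsto (fun n => 2 * (Q.card : ℝ) * (k * d * ((Nat.card {v : V n //
      ¬ Set.InjOn (fun g : G => g⁻¹ • v) (pw s k : Set G)} : ℝ) / Nat.card (V n))
      + (d - k + k * (exr s k (V n) / Real.log 2)))) atTop
      (𝓝 (2 * (Q.card : ℝ) * (k * d * 0 + (d - k + k * ((1 - (d : ℝ) / k) * Real.log 2 / Real.log 2))))) := by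
      apply Tendsto.const_mul
      apply Tendsto.add
      · exact hnf.const_mul _
      · apply Tendsto.const_add
        apply Tendsto.const_mul
        exact hr.div_const _
    have h2 : (2 * (Q.card : ℝ) * (k * d * 0 + (d - k + k * ((1 - (d : ℝ) / k) * Real.log 2 / Real.log 2))))
        = 0 := by
      have hlog2 : Real.log 2 ≠ 0 := (Real.log_pos (by norm_num)).ne'
      have hk0 : (k : ℝ) ≠ 0 := by exact_mod_cast hk.ne'
      field_simp
      ring
    rw [h2] at h1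
    exact h1.eventually (gt_mem_nhds (by positivity))
  filter_upwards [e1, e2, e3] with n h1 h2 h3
  have := Fintype.ofFinite (V n)
  have hVpos : 0 < Fintype.card (V n) := Fintype.card_pos
  have hNpos : (0 : ℝ) < Fintype.card (V n) := by exact_mod_cast hVpos
  obtain ⟨b, hb0, hb1, hb2⟩ := exists_basis s k (V := V n)
  obtain ⟨hbc, hbN⟩ := basis_card s k hVpos b hb0 hb1 hb2
  have hcard : ∀ B : Finset G, Nat.card {v : V n // ¬ Set.InjOn (fun g : G => g⁻¹ • v) (B : Set G)}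
      = (Bad (V := V n) B).card := by
    intro B
    rw [Nat.card_eq_fintype_card, Fintype.card_subtype, Bad]
  rw [hcard, Nat.card_eq_fintype_card] at h1
  rw [Nat.card_eq_fintype_card] at h2
  rw [hcard, Nat.card_eq_fintype_card] at h3
  have hfew := few_checks s k hs hinj b hb1
  obtain ⟨A, hA1, hA2, hA3⟩ : ∃ A : Finset (V n → ZMod 2), (∀ x ∈ Ex s k (V n), x ∈ Cd A) ∧
      C * (((Cd A).filter (fun x => blkV S x ∉ Mic (μ.map (blk S)) (V n) F δ)).card : ℝ)
        ≤ (Cd A).card ∧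
      ∀ T ∈ NT s k F S, (((univ : Finset (V n × V n)).filter (fun r =>
        lw (T ×ˢ S) (fun p : G × G => p.1 * p.2) r.1 + lw (T ×ˢ S) (fun p : G × G => p.1 * p.2) r.2
          ∈ Submodule.span (ZMod 2) (A : Set (V n → ZMod 2)))).card : ℝ) * (C * 2 ^ F.card)
        ≤ (δ * Fintype.card (V n)) ^ 2 := by
   refine low2_fin s k hk hs μ hμ F S δ hδ C hC M q hq1 Q (fun T hT hx => hQ T hT hx (V n)) b hb0 hb1
    hb2 hVpos ?_ ?_
   · -- h1
     set N : ℝ := (Fintype.card (V n) : ℝ) with hNdef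
     set a : ℝ := ((Bad (V := V n) (BB s k F S M)).card : ℝ) with hadef
     set κ : ℝ := (F.card * S.card * (BB s k F S M).card : ℝ) with hκ
     have h4 : a / N * (C * 2 ^ F.card) * N ^ 2 ≤ δ ^ 2 / 3 * N ^ 2 :=
       mul_le_mul_of_nonneg_right h1.le (by positivity)
     have h5 : κ * (C * 2 ^ F.card) / N * N ^ 2 ≤ δ ^ 2 / 3 * N ^ 2 :=
       mul_le_mul_of_nonneg_right h2.le (by positivity)
     have h6 : 2 * ((q : ℝ) / (q + 1)) ^ (M + 1) * 2 ^ F.card * (C * 2 ^ F.card) * N ^ 2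
         ≤ δ ^ 2 / 3 * N ^ 2 := mul_le_mul_of_nonneg_right hM (by positivity)
     have h7 : a / N * (C * 2 ^ F.card) * N ^ 2 = a * N * (C * 2 ^ F.card) := by
       field_simp
     have h8 : κ * (C * 2 ^ F.card) / N * N ^ 2 = N * κ * (C * 2 ^ F.card) := by
       field_simp
     rw [h7] at h4
     rw [h8] at h5
     calc (a * N + N * κ + 2 * ((q : ℝ) / (q + 1)) ^ (M + 1) * (2 ^ F.card * N ^ 2)) * (C * 2 ^ F.card)
         = a * N * (C * 2 ^ F.card) + N * κ * (C * 2 ^ F.card)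
           + 2 * ((q : ℝ) / (q + 1)) ^ (M + 1) * 2 ^ F.card * (C * 2 ^ F.card) * N ^ 2 := by ring
       _ ≤ δ ^ 2 / 3 * N ^ 2 + δ ^ 2 / 3 * N ^ 2 + δ ^ 2 / 3 * N ^ 2 := by linarith
       _ = (δ * N) ^ 2 := by ring
   · -- h2
     set N : ℝ := (Fintype.card (V n) : ℝ) with hNdef
     set nb : ℝ := (((univ : Finset (Fin d × (V n))).filter (fun q => cw s k q.1 q.2 ∉ b)).card : ℝ) with hnb
     set nf : ℝ := ((Bad (V := V n) (pw s k)).card : ℝ) with hnfd
     have h4 : nb + k * b.card ≤ d * N + k * (d * nf) := by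
       have h5 := (Nat.cast_le (α := ℝ)).mpr hfew
       rw [Nat.cast_add, Nat.cast_add, Nat.cast_mul, Nat.cast_mul, Nat.cast_mul, Nat.cast_mul] at h5
       have h6 : (univ : Finset (V n)).filter
         (fun v => ¬ Set.InjOn (fun g : G => g⁻¹ • v) (pw s k : Set G)) = Bad (V := V n) (pw s k) := by
         rw [Bad]
       rw [h6] at h5
       exact h5
     have h5 : nb ≤ (k * d * (nf / N) + (d - k + k * (exr s k (V n) / Real.log 2))) * N := by
       rw [hbc] at h4
       have h6 : nf / N * N = nf := by field_simp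
       calc nb ≤ d * N + k * (d * nf) - k * (N * (1 - exr s k (V n) / Real.log 2)) := by linarith
         _ = (k * d * (nf / N) + (d - k + k * (exr s k (V n) / Real.log 2))) * N := by
           rw [add_mul, mul_assoc (k * d : ℝ), h6]; ring
     have h6 : 2 * (Q.card * nb) ≤ δ / 2 * N := by
       have h7 : 2 * (Q.card : ℝ) * nb ≤ 2 * (Q.card : ℝ) *
           ((k * d * (nf / N) + (d - k + k * (exr s k (V n) / Real.log 2))) * N) :=
         mul_le_mul_of_nonneg_left h5 (by positivity)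
       have h8 : (2 * (Q.card : ℝ) * (k * d * (nf / N) + (d - k + k * (exr s k (V n) / Real.log 2)))) * N
           ≤ δ / 2 * N := mul_le_mul_of_nonneg_right h3.le hNpos.le
       linarith
     have h7 : 2 * (Q.card * (d * k * (2 * b.card / (q + 1)))) < δ / 2 * N := by
       have h8 : (2 * (Q.card * (d * k * (2 * b.card / (q + 1)))) : ℝ)
           = 2 * (Q.card * (d * k * 2 : ℝ)) / (q + 1) * b.card := by ring
       rw [h8]
       have h9 : 2 * (Q.card * (d * k * 2 : ℝ)) / (q + 1) * b.card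
           ≤ 2 * (Q.card * (d * k * 2 : ℝ)) / (q + 1) * N :=
         mul_le_mul_of_nonneg_left hbN (by positivity)
       refine lt_of_le_of_lt h9 ?_
       exact mul_lt_mul_of_pos_right hqb hNpos
     calc 2 * (Q.card * (nb + d * k * (2 * b.card / (q + 1))))
         = 2 * (Q.card * nb) + 2 * (Q.card * (d * k * (2 * b.card / (q + 1)))) := by ring
       _ < δ / 2 * N + δ / 2 * N := by linarith
       _ = δ * N := by ring
  refine ⟨inferInstance, inferInstance, A, hA1, ?_, ?_⟩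
  · have e : Nat.card {x : V n → ZMod 2 // x ∈ Cd A ∧ blkV S x ∉ Mic (μ.map (blk S)) (V n) F δ}
        = ((Cd A).filter (fun x => blkV S x ∉ Mic (μ.map (blk S)) (V n) F δ)).card := by
      rw [Nat.card_eq_fintype_card, Fintype.card_subtype]
      congr 1
      ext x
      simp
    rw [e]
    exact hA2
  · intro T hT
    rw [Nat.card_eq_fintype_card, Fintype.card_subtype]
    exact hA3 T hT

end

end Pool.Agent.MP_9d0e09_an
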