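import Pool.Agent.Lib.MP_9d0e09_an.Ent2

/-!
# Few coordinates of the parity-check subshift are independent
-/

open MeasureTheory Filter Topology Finset

namespace Pool.Agent.MP_9d0e09_an

section words

open Monoid.CoprodI

variable {d k : ℕ} [NeZero k]

/-- The word of the inverse. -/
noncomputable def wd (g : Gam d k) : Word (fun _ : Fin d => Multiplicative (ZMod k)) :=
  Word.equiv g⁻¹

/-- The tail of a word at `i`. -/
noncomputable def tl (i : Fin d) (w : Word (fun _ : Fin d => Multiplicative (ZMod k))) :
    Word (fun _ : Fin d => Multiplicative (ZMod k)) :=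
  (Word.equivPair i w).tail

omit [NeZero k] in
theorem wd_inj {g g' : Gam d k} (h : wd g = wd g') : g = g' :=
  inv_injective (Word.equiv.injective h)

omit [NeZero k] in
theorem wd_surj (w : Word (fun _ : Fin d => Multiplicative (ZMod k))) :
    ∃ g : Gam d k, wd g = w := by
  refine ⟨(Word.equiv.symm w)⁻¹, ?_⟩
  rw [wd, inv_inv, Equiv.apply_symm_apply]

omit [NeZero k] in
theorem wd_smul (g : Gam d k) (i : Fin d) (m : Multiplicative (ZMod k)) :
    wd (g * (of (i := i) m : Gam d k)) = (of (i := i) m⁻¹ : Gam d k) • wd g := by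
  have h1 : ∀ x : Gam d k, (Word.equiv x : Word (fun _ : Fin d => Multiplicative (ZMod k)))
      = x • Word.empty := fun x => rfl
  rw [wd, wd, h1, h1, smul_smul, mul_inv_rev, map_inv]

omit [NeZero k] in
theorem tl_smul (i : Fin d) (m : Multiplicative (ZMod k))
    (w : Word (fun _ : Fin d => Multiplicative (ZMod k))) :
    tl i ((of (i := i) m : Gam d k) • w) = tl i w := by
  rw [tl, Word.equivPair_smul_same]
  rfl

omit [NeZero k] in
theorem tl_eq_iff (i : Fin d) (g g' : Gam d k) :
    tl i (wd g') = tl i (wd g) ↔ ∃ m : Multiplicative (ZMod k),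
      g' = g * (of (i := i) m : Gam d k) := by
  constructor
  · intro h
    have h1 : (of (i := i) (Word.equivPair i (wd g')).head : Gam d k) • tl i (wd g') = wd g' :=
      Word.equivPair_head_smul_equivPair_tail (wd g')
    have h2 : (of (i := i) (Word.equivPair i (wd g)).head : Gam d k) • tl i (wd g) = wd g :=
      Word.equivPair_head_smul_equivPair_tail (wd g)
    set a := (Word.equivPair i (wd g')).head
    set b := (Word.equivPair i (wd g)).head
    refine ⟨(a * b⁻¹)⁻¹, wd_inj ?_⟩
    rw [wd_smul, inv_inv, map_mul, map_inv]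
    conv_rhs => rw [← h2]
    rw [smul_smul, inv_mul_cancel_right, ← h, h1]
  · rintro ⟨m, rfl⟩
    rw [wd_smul, tl_smul]

theorem of_eq_gen_pow (i : Fin d) (m : Multiplicative (ZMod k)) :
    (of (i := i) m : Gam d k) = gen d k i ^ (Multiplicative.toAdd m).val := by
  rw [gen_pow]
  simp

/-- The check of the coset of `g`, as a finitely supported function. -/
noncomputable def chk (g : Gam d k) (i : Fin d) : Gam d k →₀ ZMod 2 :=
  ∑ j ∈ Finset.range k, Finsupp.single (g * gen d k i ^ j) 1

theorem chk_apply (g g' : Gam d k) (i : Fin d) [Decidable (tl i (wd g') = tl i (wd g))] :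
    chk g i g' = if tl i (wd g') = tl i (wd g) then 1 else 0 := by
  classical
  rw [chk, Finsupp.finsetSum_apply]
  simp only [Finsupp.single_apply]
  split_ifs with h
  · obtain ⟨m, hm⟩ := (tl_eq_iff i g g').mp h
    rw [of_eq_gen_pow] at hm
    rw [Finset.sum_eq_single (Multiplicative.toAdd m).val]
    · rw [if_pos hm.symm]
    · intro j hj hne
      rw [if_neg]
      intro h2
      apply hne
      rw [hm] at h2
      have h3 := mul_left_cancel h2
      exact gen_inj d k i (Finset.mem_coe.mpr hj)
        (Finset.mem_coe.mpr (Finset.mem_range.mpr (ZMod.val_lt _))) h3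
    · intro hn
      exact absurd (Finset.mem_range.mpr (ZMod.val_lt _)) hn
  · apply Finset.sum_eq_zero
    intro j _
    rw [if_neg]
    intro h2
    apply h
    rw [tl_eq_iff]
    refine ⟨Multiplicative.ofAdd (j : ZMod k), ?_⟩
    rw [← h2, gen_pow]

/-- The span of the checks. -/
noncomputable def Lsp (d k : ℕ) [NeZero k] : Submodule (ZMod 2) (Gam d k →₀ ZMod 2) :=
  Submodule.span (ZMod 2) (Set.range (fun q : Gam d k × Fin d => chk q.1 q.2))

theorem mem_Lsp (f : Gam d k →₀ ZMod 2) (hf : f ∈ Lsp d k) :
    ∃ c : (Fin d × Word (fun _ : Fin d => Multiplicative (ZMod k))) →₀ ZMod 2,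
      (∀ q ∈ c.support, Word.fstIdx q.2 ≠ some q.1) ∧
      ∀ g, f g = ∑ i : Fin d, c (i, tl i (wd g)) := by
  classical
  rw [Lsp] at hf
  induction hf using Submodule.span_induction with
  | mem f hf =>
    obtain ⟨⟨g, i⟩, rfl⟩ := hf
    refine ⟨Finsupp.single (i, tl i (wd g)) 1, ?_, ?_⟩
    · intro q hq
      have h1 := Finsupp.support_single_subset hq
      rw [Finset.mem_singleton] at h1
      rw [h1]
      exact (Word.equivPair i (wd g)).fstIdx_ne
    · intro g'
      show chk g i g' = _
      rw [chk_apply, Finset.sum_eq_single i]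
      · rw [Finsupp.single_apply]
        by_cases h : tl i (wd g') = tl i (wd g)
        · rw [if_pos h, if_pos (by rw [h])]
        · rw [if_neg h, if_neg]
          intro h2
          exact h (Prod.ext_iff.mp h2).2.symm
      · intro j _ hj
        rw [Finsupp.single_apply, if_neg]
        intro h2
        exact hj (Prod.ext_iff.mp h2).1.symm
      · intro hn
        exact absurd (Finset.mem_univ _) hn
  | zero => exact ⟨0, by simp, by simp⟩
  | add f f' _ _ ih ih' =>
    obtain ⟨c, h1, h2⟩ := ih
    obtain ⟨c', h1', h2'⟩ := ih'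
    refine ⟨c + c', ?_, ?_⟩
    · intro q hq
      rcases Finset.mem_union.mp (Finsupp.support_add hq) with h | h
      · exact h1 q h
      · exact h1' q h
    · intro g
      simp only [Finsupp.add_apply]
      rw [h2, h2', Finset.sum_add_distrib]
  | smul a f _ ih =>
    obtain ⟨c, h1, h2⟩ := ih
    refine ⟨a • c, ?_, ?_⟩
    · intro q hq
      exact h1 q (Finsupp.support_smul hq)
    · intro g
      simp only [Finsupp.smul_apply]
      rw [h2, Finset.smul_sum]

theorem supp_large (f : Gam d k →₀ ZMod 2) (hf : f ∈ Lsp d k) (hne : f ≠ 0) :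
    k - 1 ≤ f.support.card := by
  classical
  obtain ⟨c, h1, h2⟩ := mem_Lsp f hf
  have hc : c.support.Nonempty := by
    rw [Finset.nonempty_iff_ne_empty]
    intro h0
    rw [Finsupp.support_eq_empty] at h0
    apply hne
    ext g
    rw [h2, h0]
    simp
  obtain ⟨⟨i, t⟩, hq, hmax⟩ := Finset.exists_max_image c.support
    (fun q => q.2.toList.length) hc
  have ht : Word.fstIdx t ≠ some i := h1 _ hq
  let wm : Multiplicative (ZMod k) → Word (fun _ : Fin d => Multiplicative (ZMod k)) :=
    fun m => Word.rcons (i := i) ⟨m, t, ht⟩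
  have hval : ∀ m, m ≠ 1 → ∀ g, wd g = wm m → f g = c (i, t) := by
    intro m hm g hg
    rw [h2, Finset.sum_eq_single i]
    · have h3 : tl i (wm m) = t := by
        show (Word.equivPair i (Word.rcons (i := i) ⟨m, t, ht⟩)).tail = t
        rw [← Word.equivPair_symm, Equiv.apply_symm_apply]
      rw [hg, h3]
    · intro j _ hj
      have h4 : wm m = Word.cons (i := i) m t ht hm := by
        show Word.rcons (i := i) ⟨m, t, ht⟩ = _
        rw [Word.rcons, dif_neg hm]
      have h5 : Word.fstIdx (wm m) ≠ some j := by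
        rw [h4, Word.fstIdx_cons]
        intro h6
        exact hj (Option.some_injective _ h6).symm
      have h7 : tl j (wm m) = wm m := by
        rw [tl, Word.equivPair_eq_of_fstIdx_ne h5]
      rw [hg, h7]
      by_contra h8
      have h9 := hmax (j, wm m) (Finsupp.mem_support_iff.mpr h8)
      rw [h4] at h9
      simp [Word.cons] at h9
    · intro hn
      exact absurd (Finset.mem_univ _) hn
  choose gm hgm using fun m => wd_surj (d := d) (k := k) (wm m)
  have hinj : ∀ m m', gm m = gm m' → m = m' := by
    intro m m' h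
    have h3 : wm m = wm m' := by rw [← hgm, ← hgm, h]
    have h4 := Word.rcons_inj h3
    exact congrArg Word.Pair.head h4
  have hcard : ((univ : Finset (Multiplicative (ZMod k))).erase 1).card = k - 1 := by
    rw [Finset.card_erase_of_mem (Finset.mem_univ _), Finset.card_univ]
    rw [Fintype.card_multiplicative, ZMod.card]
  rw [← hcard]
  apply Finset.card_le_card_of_injOn gm
  · intro m hm
    rw [Finset.mem_coe, Finset.mem_erase] at hm
    rw [Finset.mem_coe, Finsupp.mem_support_iff, hval m hm.1 (gm m) (hgm m)]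
    exact Finsupp.mem_support_iff.mp hq
  · intro m _ m' _ h
    exact hinj m m' h

theorem exists_sep (T : Finset (Gam d k)) (hT : T.Nonempty) (hTk : T.card + 2 ≤ k) :
    ∃ x ∈ PX (gen d k) k, ∑ t ∈ T, x t ≠ 0 := by
  classical
  set e : Gam d k →₀ ZMod 2 := ∑ t ∈ T, Finsupp.single t 1 with he
  have heval : ∀ g, e g = if g ∈ T then 1 else 0 := by
    intro g
    rw [he, Finsupp.finsetSum_apply]
    simp only [Finsupp.single_apply]
    rw [Finset.sum_ite_eq']
  have hsupp : e.support = T := by
    ext g
    rw [Finsupp.mem_support_iff, heval]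
    by_cases h : g ∈ T
    · simp [h]
    · simp [h]
  have hne : e ≠ 0 := by
    intro h0
    rw [h0, Finsupp.support_zero] at hsupp
    exact hT.ne_empty hsupp.symm
  have hnot : e ∉ Lsp d k := by
    intro hmem
    have := supp_large e hmem hne
    rw [hsupp] at this
    omega
  obtain ⟨f, hf1, hf2⟩ := Submodule.exists_dual_map_eq_bot_of_notMem hnot inferInstance
  refine ⟨fun g => f (Finsupp.single g 1), ?_, ?_⟩
  · intro g i
    show ∑ j ∈ Finset.range k, f (Finsupp.single (g * gen d k i ^ j) 1) = 0
    rw [← map_sum]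
    have h3 : chk g i ∈ Lsp d k := Submodule.subset_span ⟨(g, i), rfl⟩
    have h4 : f (chk g i) ∈ (Lsp d k).map f := Submodule.mem_map_of_mem h3
    rw [hf2, Submodule.mem_bot] at h4
    exact h4
  · show ∑ t ∈ T, f (Finsupp.single t 1) ≠ 0
    rw [← map_sum]
    exact hf1

end words

end Pool.Agent.MP_9d0e09_an
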