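import Pool.Agent.Lib.MP_9d0e09_an.Mrg

/-!
# Block factors with small windows: positive entropy
-/

open MeasureTheory Filter Topology Finset

namespace Pool.Agent.MP_9d0e09_an

theorem marg_pattern (d k : ℕ) [NeZero k] (μ : Measure (Gam d k → ZMod 2))
    (hμ : IsHaarOn (PX (gen d k) k) μ) (F : Finset (Gam d k)) (hF : F.card + 2 ≤ k)
    (a : Gam d k → ZMod 2) :
    μ.real {y | ∀ g ∈ F, y g = a g} = (1 / 2) ^ F.card := by
  classical
  have := hμ.prob
  have h1 := real_cyl μ {1} F a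
  have hblk : blk ({1} : Finset (Gam d k)) = id := by
    funext x g
    simp [blk]
  rw [hblk, Measure.map_id] at h1
  rw [h1]
  have h2 : ∑ T ∈ F.powerset, sg (∑ g ∈ T, a g) *
      ∫ y, sg (∑ p ∈ T ×ˢ ({1} : Finset (Gam d k)), y (p.1 * p.2)) ∂μ = 1 := by
    rw [Finset.sum_eq_single ∅]
    · simp [sg_zero]
    · intro T hT hne
      have hTne : T.Nonempty := Finset.nonempty_iff_ne_empty.mpr hne
      have hTc : T.card ≤ F.card := Finset.card_le_card (Finset.mem_powerset.mp hT)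
      obtain ⟨x, hx, hxs⟩ := exists_sep T hTne (by omega)
      have h3 : ∑ p ∈ T ×ˢ ({1} : Finset (Gam d k)), x (p.1 * p.2) ≠ 0 := by
        rw [Finset.sum_product]
        simpa using hxs
      rw [int_nontriv (PX (gen d k) k) μ hμ (T ×ˢ ({1} : Finset (Gam d k)))
        (fun p => p.1 * p.2) ⟨x, hx, h3⟩, mul_zero]
    · intro h
      exact absurd (Finset.empty_mem_powerset F) h
  rw [h2, mul_one]

theorem law_ge (d k : ℕ) [NeZero k] (μ : Measure (Gam d k → ZMod 2))
    (hμ : IsHaarOn (PX (gen d k) k) μ) {A : Type} [MeasurableSpace A]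
    [MeasurableSingletonClass A] (F₀ : Finset (Gam d k)) (hF : F₀.card + 2 ≤ k)
    (φ : (F₀ → ZMod 2) → A) (z : F₀ → ZMod 2) :
    (1 / 2 : ℝ) ^ F₀.card ≤ (μ.map (code F₀ φ)).real {y | y 1 = φ z} := by
  classical
  have := hμ.prob
  have hm0 : Measurable (fun y : Gam d k → A => y 1) := measurable_pi_apply 1
  have hm1 : MeasurableSet {y : Gam d k → A | y 1 = φ z} := hm0 (MeasurableSet.singleton _)
  let a : Gam d k → ZMod 2 := fun g => if h : g ∈ F₀ then z ⟨g, h⟩ else 0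
  rw [← marg_pattern d k μ hμ F₀ hF a, Measure.real, Measure.real,
    Measure.map_apply (meas_code F₀ φ) hm1]
  apply ENNReal.toReal_mono (measure_ne_top _ _)
  apply measure_mono
  intro x hx
  show φ (fun h : F₀ => x (1 * h)) = φ z
  congr 1
  funext h
  rw [one_mul, hx h h.2]
  simp [a]

theorem law_sum_le {G A : Type} [Group G] [Fintype A] [MeasurableSpace A]
    [MeasurableSingletonClass A] (ρ : Measure (G → A)) [IsProbabilityMeasure ρ] :
    ∑ a, ρ.real {y | y 1 = a} ≤ 1 := by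
  classical
  have hm0 : Measurable (fun y : G → A => y 1) := measurable_pi_apply 1
  have hm1 : ∀ a : A, MeasurableSet {y : G → A | y 1 = a} :=
    fun a => hm0 (MeasurableSet.singleton _)
  have h1 : ∑ a, ρ.real {y | y 1 = a} = (ρ (⋃ a ∈ (univ : Finset A), {y : G → A | y 1 = a})).toReal := by
    rw [measure_biUnion_finset]
    · rw [ENNReal.toReal_sum (fun _ _ => measure_ne_top _ _)]
      rfl
    · intro a _ b _ hab
      rw [Function.onFun, Set.disjoint_left]
      intro y hy hy'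
      exact hab (hy.symm.trans hy')
    · intro a _
      exact hm1 a
  rw [h1, ← ENNReal.toReal_one]
  exact ENNReal.toReal_mono ENNReal.one_ne_top prob_le_one

theorem shannon_pos {A : Type} [Fintype A] (ν : A → ℝ) (m : ℕ) (hm : 1 ≤ m)
    (hν0 : ∀ a, 0 ≤ ν a) (hsum : ∑ a, ν a ≤ 1) (a b : A) (hab : a ≠ b)
    (ha : (1 / 2 : ℝ) ^ m ≤ ν a) (hb : (1 / 2 : ℝ) ^ m ≤ ν b) :
    m * (1 / 2 : ℝ) ^ m * Real.log 2 < ∑ a, Real.negMulLog (ν a) := by
  classical
  have hε : (0 : ℝ) < (1 / 2) ^ m := by positivity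
  have hε2 : (1 / 2 : ℝ) ^ m ≤ 1 / 2 := by
    calc (1 / 2 : ℝ) ^ m ≤ (1 / 2) ^ 1 := pow_le_pow_of_le_one (by norm_num) (by norm_num) hm
      _ = 1 / 2 := pow_one _
  have hν1 : ∀ c, ν c ≤ 1 := fun c =>
    (Finset.single_le_sum (fun a _ => hν0 a) (Finset.mem_univ c)).trans hsum
  have hnn : ∀ c, 0 ≤ Real.negMulLog (ν c) := fun c => Real.negMulLog_nonneg (hν0 c) (hν1 c)
  have hpair : ν a + ν b ≤ 1 := by
    rw [← Finset.sum_pair hab]
    exact (Finset.sum_le_sum_of_subset_of_nonneg (Finset.subset_univ _)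
      (fun c _ _ => hν0 c)).trans hsum
  have hpair2 : Real.negMulLog (ν a) + Real.negMulLog (ν b) ≤ ∑ c, Real.negMulLog (ν c) := by
    rw [← Finset.sum_pair (f := fun c => Real.negMulLog (ν c)) hab]
    exact Finset.sum_le_sum_of_subset_of_nonneg (Finset.subset_univ _) (fun c _ _ => hnn c)
  have hl2 : 0 < Real.log 2 := Real.log_pos (by norm_num)
  have hmε : (m : ℝ) * (1 / 2) ^ m ≤ 1 / 2 := by
    have h1 : m - 1 < 2 ^ (m - 1) := Nat.lt_two_pow_self
    have h2 : m ≤ 2 ^ (m - 1) := by omega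
    have h3 : (m : ℝ) ≤ 2 ^ (m - 1) := by exact_mod_cast h2
    have h4 : (2 : ℝ) ^ m = 2 ^ (m - 1) * 2 := by
      rw [← pow_succ]
      congr 1
      omega
    rw [one_div, inv_pow, ← div_eq_mul_inv, div_le_iff₀ (by positivity), h4]
    linarith
  have hA : ∀ p : ℝ, (1 / 2) ^ m ≤ p → p ≤ 1 / 2 →
      m * (1 / 2 : ℝ) ^ m * Real.log 2 ≤ Real.negMulLog p := by
    intro p hp1 hp2
    have h1 := Real.concaveOn_negMulLog.min_le_of_mem_Icc
      (Set.mem_Ici.mpr hε.le) (Set.mem_Ici.mpr (by norm_num : (0 : ℝ) ≤ 1 / 2)) ⟨hp1, hp2⟩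
    refine le_trans (le_min ?_ ?_) h1
    · rw [Real.negMulLog, Real.log_pow, one_div, Real.log_inv]
      apply le_of_eq
      ring
    · rw [Real.negMulLog, one_div, Real.log_inv]
      have h5 : -(2 : ℝ)⁻¹ * -Real.log 2 = 1 / 2 * Real.log 2 := by ring
      rw [h5, ← one_div]
      exact mul_le_mul_of_nonneg_right hmε hl2.le
  have hB : ∀ p : ℝ, (1 / 2) ^ m ≤ p → p < 1 → 0 < Real.negMulLog p := by
    intro p hp1 hp2
    have hp0 : 0 < p := lt_of_lt_of_le hε hp1
    have h1 := Real.log_neg hp0 hp2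
    rw [Real.negMulLog]
    nlinarith
  rcases le_total (ν a) (1 / 2) with h | h
  · have h1 := hA (ν a) ha h
    have h2 := hB (ν b) hb (by linarith)
    linarith
  · have h1 := hA (ν b) hb (by linarith)
    have h2 := hB (ν a) ha (by linarith)
    linarith

/-- Nonconstant block codes with small windows have positive lower sofic entropy. -/
theorem block_pos (d k : ℕ) (hd : 3 ≤ d) (hdk : d < k)
    (μ : Measure (Gam d k → ZMod 2)) (hμ : IsHaarOn (PX (gen d k) k) μ)
    (V : ℕ → Type) [∀ n, Finite (V n)] [∀ n, Nonempty (V n)]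
    (σ : ∀ n, Gam d k → Equiv.Perm (V n)) (hσ : IsSoficMap σ) (hr : TopRate (gen d k) k σ)
    (A : Type) [Fintype A] [MeasurableSpace A] [MeasurableSingletonClass A]
    (F₀ : Finset (Gam d k)) (φ : (F₀ → ZMod 2) → A) (hφ : ∃ z z', φ z ≠ φ z')
    (hk : d * 2 ^ F₀.card ≤ k) :
    0 < lowerSoficEntropyM (μ.map (code F₀ φ)) σ := by
  classical
  have : NeZero k := ⟨by omega⟩
  have := hμ.prob
  obtain ⟨z, z', hzz⟩ := hφ
  have hF₀ : F₀.Nonempty := by
    by_contra hcon
    rw [Finset.not_nonempty_iff_eq_empty] at hcon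
    subst hcon
    apply hzz
    congr 1
    funext h
    exact absurd h.2 (Finset.notMem_empty _)
  have hm1 : 1 ≤ F₀.card := Finset.card_pos.mpr hF₀
  have hm0 : (0 : ℝ) < F₀.card := by exact_mod_cast hm1
  have hcard : F₀.card + 2 ≤ k := by
    have h1 : F₀.card < 2 ^ F₀.card := Nat.lt_two_pow_self
    have h2 : 3 * 2 ^ F₀.card ≤ d * 2 ^ F₀.card := Nat.mul_le_mul_right _ hd
    omega
  have hpr : IsProbabilityMeasure (μ.map (code F₀ φ)) :=
    Measure.isProbabilityMeasure_map (meas_code F₀ φ).aemeasurable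
  have h1 := shannon_pos (fun a => (μ.map (code F₀ φ)).real {y | y 1 = a}) F₀.card hm1
    (fun a => measureReal_nonneg) (law_sum_le _) (φ z) (φ z') hzz
    (law_ge d k μ hμ F₀ hcard φ z) (law_ge d k μ hμ F₀ hcard φ z')
  have h2 := (block_map d k hd hdk μ hμ V σ hσ hr A F₀ φ).1 hF₀
  refine lt_of_lt_of_le ?_ h2
  have hl2 : 0 < Real.log 2 := Real.log_pos (by norm_num)
  have hk0 : (0 : ℝ) < k := by
    have : 0 < k := by omega
    exact_mod_cast this
  have h3 : (d : ℝ) / k ≤ (1 / 2) ^ F₀.card := by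
    rw [one_div, inv_pow, ← one_div, div_le_div_iff₀ hk0 (by positivity), one_mul]
    exact_mod_cast hk
  have h4 : (1 / 2 : ℝ) ^ F₀.card * Real.log 2
      < (∑ a, Real.negMulLog ((μ.map (code F₀ φ)).real {y | y 1 = a})) / F₀.card := by
    rw [lt_div_iff₀ hm0]
    calc (1 / 2 : ℝ) ^ F₀.card * Real.log 2 * F₀.card
        = F₀.card * (1 / 2 : ℝ) ^ F₀.card * Real.log 2 := by ring
      _ < _ := h1
  have h5 : (d : ℝ) / k * Real.log 2 ≤ (1 / 2 : ℝ) ^ F₀.card * Real.log 2 :=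
    mul_le_mul_of_nonneg_right h3 hl2.le
  have h6 : 0 < (∑ a, Real.negMulLog ((μ.map (code F₀ φ)).real {y | y 1 = a})) / F₀.card
      - (d : ℝ) / k * Real.log 2 := by linarith
  exact_mod_cast h6

end Pool.Agent.MP_9d0e09_an
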