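import Pool.Agent.Lib.MP_9d0e09_an.Den

/-!
# Factors from which a block function with a small window is almost determined
-/

open MeasureTheory Filter Topology Finset

namespace Pool.Agent.MP_9d0e09_an

/-- Counting words through a kernel. -/
theorem kernel_count {V B : Type} [Fintype V] [DecidableEq V] [Fintype B] [DecidableEq B]
    (f : V → B → ℝ) (hf0 : ∀ v b, 0 < f v b) (hf1 : ∀ v, ∑ b, f v b ≤ 1) {S : Finset (V → B)}
    {L : ℝ} (hS : ∀ u ∈ S, ∑ v, (- Real.log (f v (u v))) ≤ L) : (S.card : ℝ) ≤ Real.exp L := by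
  have h1 : ∀ u ∈ S, Real.exp (-L) ≤ ∏ v, f v (u v) := by
    intro u hu
    have h2 : ∏ v, f v (u v) = Real.exp (∑ v, Real.log (f v (u v))) := by
      rw [Real.exp_sum]
      exact Finset.prod_congr rfl (fun v _ => (Real.exp_log (hf0 v _)).symm)
    rw [h2]
    apply Real.exp_le_exp.mpr
    have h3 := hS u hu
    rw [Finset.sum_neg_distrib] at h3
    linarith
  have h2 : ∑ u : V → B, ∏ v, f v (u v) ≤ 1 := by
    rw [← Fintype.piFinset_univ, ← Finset.prod_univ_sum]
    exact Finset.prod_le_one (fun v _ => Finset.sum_nonneg (fun b _ => (hf0 v b).le))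
      (fun v _ => hf1 v)
  have h3 : (S.card : ℝ) * Real.exp (-L) ≤ 1 := by
    calc (S.card : ℝ) * Real.exp (-L) = ∑ u ∈ S, Real.exp (-L) := by
          rw [Finset.sum_const, nsmul_eq_mul]
      _ ≤ ∑ u ∈ S, ∏ v, f v (u v) := Finset.sum_le_sum h1
      _ ≤ ∑ u : V → B, ∏ v, f v (u v) :=
          Finset.sum_le_sum_of_subset_of_nonneg (Finset.subset_univ _)
            (fun u _ _ => Finset.prod_nonneg (fun v _ => (hf0 v _).le))
      _ ≤ 1 := h2
  rw [Real.exp_neg] at h3
  have := Real.exp_pos L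
  rw [← div_eq_mul_inv, div_le_one this] at h3
  exact h3

/-- Log-likelihood of a word with prescribed letter frequencies. -/
theorem rel_count {V Wd B : Type} [Fintype V] [Nonempty V] [Fintype Wd] [Fintype B]
    [DecidableEq Wd] [DecidableEq B] (q : Wd → B → ℝ) (lam : Wd × B → ℝ) (K : ℝ)
    (hK : ∀ c : Wd × B, |Real.log (q c.1 c.2)| ≤ K) (δ : ℝ) (hδ : 0 ≤ δ) (y : V → Wd × B)
    (hy : ∀ c, |((univ.filter (fun v => y v = c)).card : ℝ) / Fintype.card V - lam c| ≤ δ) :
    ∑ v, (- Real.log (q (y v).1 (y v).2)) ≤ (Fintype.card V : ℝ) *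
      (∑ c : Wd × B, lam c * (- Real.log (q c.1 c.2)) + δ * (Fintype.card (Wd × B) * K)) := by
  have hN : (0 : ℝ) < Fintype.card V := by exact_mod_cast Fintype.card_pos
  set N : ℝ := (Fintype.card V : ℝ) with hNd
  have e6 : ∑ v, (- Real.log (q (y v).1 (y v).2))
      = ∑ c : Wd × B, ((univ.filter (fun v => y v = c)).card : ℝ) * (- Real.log (q c.1 c.2)) := by
    rw [← Finset.sum_fiberwise univ y (fun v => - Real.log (q (y v).1 (y v).2))]
    apply Finset.sum_congr rfl
    intro c _
    rw [Finset.sum_congr rfl (g := fun _ => - Real.log (q c.1 c.2))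
      (fun v hv => by rw [(Finset.mem_filter.mp hv).2]), Finset.sum_const, nsmul_eq_mul]
  rw [e6]
  have e7 : ∀ c : Wd × B, ((univ.filter (fun v => y v = c)).card : ℝ) * (- Real.log (q c.1 c.2))
      ≤ N * (lam c * (- Real.log (q c.1 c.2)) + δ * K) := by
    intro c
    set Na : ℝ := ((univ.filter (fun v => y v = c)).card : ℝ) with hNa
    have e12 : Na * (- Real.log (q c.1 c.2)) = N * (lam c * (- Real.log (q c.1 c.2))
        + (Na / N - lam c) * (- Real.log (q c.1 c.2))) := by
      field_simp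
      ring
    have e13 : (Na / N - lam c) * (- Real.log (q c.1 c.2)) ≤ δ * K := by
      calc (Na / N - lam c) * (- Real.log (q c.1 c.2))
          ≤ |(Na / N - lam c) * (- Real.log (q c.1 c.2))| := le_abs_self _
        _ = |Na / N - lam c| * |Real.log (q c.1 c.2)| := by rw [abs_mul, abs_neg]
        _ ≤ δ * K := mul_le_mul (hy c) (hK c) (abs_nonneg _) hδ
    rw [e12]
    apply mul_le_mul_of_nonneg_left _ hN.le
    linarith
  calc ∑ c : Wd × B, ((univ.filter (fun v => y v = c)).card : ℝ) * (- Real.log (q c.1 c.2))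
      ≤ ∑ c : Wd × B, N * (lam c * (- Real.log (q c.1 c.2)) + δ * K) :=
        Finset.sum_le_sum (fun c _ => e7 c)
    _ = N * (∑ c : Wd × B, lam c * (- Real.log (q c.1 c.2)) + δ * (Fintype.card (Wd × B) * K)) := by
      rw [← Finset.mul_sum, Finset.sum_add_distrib, Finset.sum_const, Finset.card_univ,
        nsmul_eq_mul]
      ring

section

variable {G : Type} [Group G] {d : ℕ} (s : Fin d → G) (k : ℕ)

/-- The key step: compare the microstates of `X` and of a block factor through an information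
set of the exact solutions. -/
theorem key_rel (V : ℕ → Type) [∀ n, Finite (V n)] [∀ n, Nonempty (V n)]
    [∀ n, MulAction G (V n)] (hk : 0 < k) (hs : ∀ i, s i ^ k = 1)
    (hinj : ∀ i, Set.InjOn (fun l : ℕ => s i ^ l) (Finset.range k : Set ℕ))
    (μ : Measure (G → ZMod 2)) (hμ : IsHaarOn (PX s k) μ) (hV : IsSofic G V)
    (T : ℝ) (hT : ∀ ε : ℝ, 0 < ε → ∀ᶠ n in atTop, exr s k (V n) ≤ T + ε)
    {A : Type} [Fintype A] [MeasurableSpace A] [MeasurableSingletonClass A]
    (F₀ : Finset G) (φ : (F₀ → ZMod 2) → A) (W : Finset G) [Fintype (W → A)]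
    {B : Type} [Fintype B] [MeasurableSpace B] [MeasurableSingletonClass B]
    (F₁ : Finset G) (hF₁ : F₁.Nonempty) (φ₁ : (F₁ → ZMod 2) → B) (p : ℝ) (hp0 : 0 < p)
    (hp1 : p ≤ 1)
    (hp : ∀ a : B, (Nat.card {z : F₁ → ZMod 2 // φ₁ z = a} : ℝ) ≤ p * 2 ^ F₁.card)
    (q : (W → A) → B → ℝ) (hq0 : ∀ b a, 0 < q b a) (hq1 : ∀ b, ∑ a, q b a ≤ 1)
    (F : Finset G) (δ : ℝ) (hδ : 0 < δ) (z z' : ℝ)
    (hz : z' < z + ((1 / (F₁.card : ℝ) - d / k) * (- Real.log p) - T)
      - ∑ b : W → A, ∑ a : B, μ.real {x | (∀ w : W, code F₀ φ x w = b w) ∧ code F₁ φ₁ x 1 = a}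
        * (- Real.log (q b a))) :
    ∃ F' : Finset G, ∃ δ' : ℝ, 0 < δ' ∧ ∀ᶠ n in atTop,
      ((z : ℝ) : EReal) < rate (Mic μ (V n) F' δ') →
      ((z' : ℝ) : EReal) ≤ rate (Mic (μ.map (code F₀ φ)) (V n) F δ) := by
  classical
  have := hμ.prob
  set m := F₁.card with hm
  have hm0 : (0 : ℝ) < m := by exact_mod_cast Finset.card_pos.mpr hF₁
  have hlog2 : 0 < Real.log 2 := Real.log_pos (by norm_num)
  set l : ℝ := - Real.log p with hl
  have hl0 : 0 ≤ l := by
    have := Real.log_nonpos hp0.le hp1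
    rw [hl]; linarith
  have hp' : ∀ a : B, (((univ : Finset (F₁ → ZMod 2)).filter (fun z => φ₁ z = a)).card : ℝ)
      ≤ p * 2 ^ F₁.card := by
    intro a
    have h := hp a
    rw [Nat.card_eq_fintype_card, Fintype.card_subtype] at h
    exact h
  set F₂ : Finset G := (W ×ˢ F₀).image (fun p : G × G => p.1 * p.2) ∪ F₁ with hF₂
  have hW2 : ∀ (w : W) (h : F₀), (w : G) * h ∈ F₂ := fun w h =>
    Finset.mem_union_left _
      (Finset.mem_image.mpr ⟨((w : G), (h : G)), Finset.mk_mem_product w.2 h.2, rfl⟩)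
  have hF12 : ∀ h : F₁, (h : G) ∈ F₂ := fun h => Finset.mem_union_right _ h.2
  let Φ : (F₂ → ZMod 2) → (W → A) × B := fun z =>
    (fun w => φ (fun h => z ⟨w * h, hW2 w h⟩), φ₁ (fun h => z ⟨h, hF12 h⟩))
  set K : ℝ := ∑ c : (W → A) × B, |Real.log (q c.1 c.2)| with hK
  have hKa : ∀ c : (W → A) × B, |Real.log (q c.1 c.2)| ≤ K := by
    intro c
    exact Finset.single_le_sum (f := fun c : (W → A) × B => |Real.log (q c.1 c.2)|)
      (fun c _ => abs_nonneg _) (Finset.mem_univ c)
  have hK0 : 0 ≤ K := Finset.sum_nonneg (fun c _ => abs_nonneg _)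
  set CE : ℝ := ∑ b : W → A, ∑ a : B,
    μ.real {x | (∀ w : W, code F₀ φ x w = b w) ∧ code F₁ φ₁ x 1 = a} * (- Real.log (q b a)) with hCE
  have hlaw : ∀ c : (W → A) × B, (μ.map (code F₂ Φ)).real {y | y 1 = c}
      = μ.real {x | (∀ w : W, code F₀ φ x w = c.1 w) ∧ code F₁ φ₁ x 1 = c.2} := by
    intro c
    have hm0 : Measurable (fun y : G → (W → A) × B => y 1) := measurable_pi_apply 1
    have hm1 : MeasurableSet {y : G → (W → A) × B | y 1 = c} := hm0 (MeasurableSet.singleton c)
    rw [Measure.real, Measure.real, Measure.map_apply (meas_code _ _) hm1]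
    congr 2
    ext x
    have h2 : code F₂ Φ x 1 = (fun w : W => code F₀ φ x w, code F₁ φ₁ x 1) := by
      apply Prod.ext
      · funext w
        show φ (fun h : F₀ => x (1 * ((w : G) * h))) = φ (fun h : F₀ => x ((w : G) * h))
        simp only [one_mul]
      · rfl
    simp only [Set.mem_preimage, Set.mem_ofPred_eq, h2]
    rw [Prod.ext_iff, funext_iff]
  have hcode : ∀ (n : ℕ) (x : V n → ZMod 2) (v : V n), codeV F₂ Φ x v
      = (fun w : W => codeV F₀ φ x ((w : G)⁻¹ • v), codeV F₁ φ₁ x v) := by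
    intro n x v
    apply Prod.ext
    · funext w
      show φ (fun h : F₀ => x (((w : G) * h)⁻¹ • v)) = φ (fun h : F₀ => x ((h : G)⁻¹ • (w : G)⁻¹ • v))
      simp only [mul_inv_rev, mul_smul]
    · rfl
  set γ : ℝ := z + ((1 / (m : ℝ) - d / k) * l - T) - CE - z' with hγ
  have hγ0 : 0 < γ := by rw [hγ]; linarith
  set Cc : ℝ := (Fintype.card ((W → A) × B) : ℝ) with hCc
  have hCc0 : 0 ≤ Cc := by positivity
  set δ₃ : ℝ := γ / (8 * (Cc * K + 1)) with hδ₃
  have hden : 0 < 8 * (Cc * K + 1) := by positivity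
  have hδ₃0 : 0 < δ₃ := div_pos hγ0 hden
  have hδ₃b : δ₃ * (Cc * K) ≤ γ / 8 := by
    have e1 : δ₃ * (Cc * K + 1) = γ / 8 := by
      rw [hδ₃]
      field_simp
    rw [← e1]
    apply mul_le_mul_of_nonneg_left _ hδ₃0.le
    linarith
  obtain ⟨δ₄, hδ₄, hsyn⟩ := syn_small s k μ hμ (γ / 4) (by linarith)
  let F' : Finset G := ((F ×ˢ F₀).image (fun p : G × G => p.1 * p.2) ∪ F₂) ∪ pw s k
  have hF' : ∀ g ∈ F, ∀ h ∈ F₀, g * h ∈ F' := by
    intro g hg h hh
    exact Finset.mem_union_left _ (Finset.mem_union_left _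
      (Finset.mem_image.mpr ⟨(g, h), Finset.mk_mem_product hg hh, rfl⟩))
  have hF2' : ∀ g ∈ ({1} : Finset G), ∀ h ∈ F₂, g * h ∈ F' := by
    intro g hg h hh
    rw [Finset.mem_singleton] at hg
    subst hg
    rw [one_mul]
    exact Finset.mem_union_left _ (Finset.mem_union_right _ hh)
  have hFp : pw s k ⊆ F' := Finset.subset_union_right
  have h2F : (0 : ℝ) < 2 ^ F'.card := by positivity
  set δ' : ℝ := min (min δ δ₄) δ₃ / 2 ^ F'.card with hδ'def
  have hδ' : 0 < δ' := by
    rw [hδ'def]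
    exact div_pos (lt_min (lt_min hδ hδ₄) hδ₃0) h2F
  have hδ'1 : 2 ^ F'.card * δ' ≤ δ := by
    rw [hδ'def, mul_div_cancel₀ _ h2F.ne']
    exact (min_le_left _ _).trans (min_le_left _ _)
  have hδ'4 : 2 ^ F'.card * δ' ≤ δ₄ := by
    rw [hδ'def, mul_div_cancel₀ _ h2F.ne']
    exact (min_le_left _ _).trans (min_le_right _ _)
  have hδ'3 : 2 ^ F'.card * δ' ≤ δ₃ := by
    rw [hδ'def, mul_div_cancel₀ _ h2F.ne']
    exact min_le_right _ _
  refine ⟨F', δ', hδ', ?_⟩
  have h4 := bad_small V hV F₁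
  have h5 : Tendsto (fun n => l / m * ((Nat.card {v : V n // ¬ Set.InjOn (fun g : G => g⁻¹ • v)
        (F₁ : Set G)} : ℝ) / Nat.card (V n))) atTop (𝓝 (l / m * 0)) := h4.const_mul _
  rw [mul_zero] at h5
  set ε₂ : ℝ := γ / 8 * Real.log 2 / (l + 1) with hε₂
  have hε₂0 : 0 < ε₂ := by rw [hε₂]; positivity
  have hε₂b : l * (ε₂ / Real.log 2) ≤ γ / 8 := by
    have h1 : ε₂ / Real.log 2 = γ / 8 / (l + 1) := by
      rw [hε₂]; field_simp
    rw [h1, mul_div_assoc', div_le_iff₀ (by linarith)]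
    nlinarith
  have h6 := exr_low s k V hk hs hinj hV ((1 - (d : ℝ) / k) * Real.log 2 - ε₂) (by linarith)
  filter_upwards [h5.eventually (gt_mem_nhds (show 0 < γ / 8 by linarith)), h6,
    hT (γ / 4) (by linarith)] with n e5 e6 e7
  intro e1
  have := Fintype.ofFinite (V n)
  have hVpos : 0 < Fintype.card (V n) := Fintype.card_pos
  have hNpos : (0 : ℝ) < Fintype.card (V n) := by exact_mod_cast hVpos
  set M1 := Mic μ (V n) F' δ' with hM1
  set M2 := Mic (μ.map (code F₀ φ)) (V n) F δ with hM2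
  have hM1ne : M1 ≠ ∅ := by
    intro h0
    rw [rate, if_pos h0] at e1
    exact not_lt_bot e1
  have hM1pos : (0 : ℝ) < Nat.card M1 := by
    have : Nonempty M1 := (Set.nonempty_iff_ne_empty.mpr hM1ne).to_subtype
    exact_mod_cast Nat.card_pos
  have hzM1 : z < Real.log (Nat.card M1) / Nat.card (V n) := by
    rw [rate, if_neg hM1ne] at e1
    exact_mod_cast e1
  have hpush : ∀ x ∈ M1, codeV F₀ φ x ∈ M2 := by
    intro x hx
    exact push_mic μ F₀ F F' hF' φ δ δ' hδ hδ'1 x hx
  have hpw : ∀ x ∈ M1, x ∈ Mic μ (V n) (pw s k) δ₄ := by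
    intro x hx
    exact mic_mono μ (pw s k) F' hFp δ₄ δ' hδ₄ hδ'4 x hx
  have hpush3 : ∀ x ∈ M1, codeV F₂ Φ x ∈ Mic (μ.map (code F₂ Φ)) (V n) {1} δ₃ := by
    intro x hx
    exact push_mic μ F₂ {1} F' hF2' Φ δ₃ δ' hδ₃0 hδ'3 x hx
  have hcnt := rel_count (V := V n) q (fun c => μ.real {x | (∀ w : W, code F₀ φ x w = c.1 w) ∧
    code F₁ φ₁ x 1 = c.2}) K hKa δ₃ hδ₃0.le
  -- the information set
  let EF : Finset (V n → ZMod 2) := (Ex s k (V n)).toFinset
  have hEF : Nat.card (Ex s k (V n)) = EF.card := by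
    rw [Nat.card_coe_set_eq, Set.ncard_eq_toFinset_card']
  obtain ⟨U, hU1, hU2⟩ := info_set EF (by
    rw [Set.mem_toFinset, mem_Ex]; intro q; simp) (by
    intro x hx y hy
    rw [Set.mem_toFinset, mem_Ex] at hx hy ⊢
    intro q
    rw [dotProduct_add, hx q, hy q, add_zero])
  set Gs : ℝ := ((Gd (V := V n) F₁ U).card : ℝ) with hGs
  -- fibres
  have hcls : ∀ (C : Finset (V n → ZMod 2)) (Z : Finset (Fin d × V n)) (y : V n → B),
      (∀ x ∈ C, Zv s k x = Z) → (∀ x ∈ C, codeV F₁ φ₁ x = y) →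
      (C.card : ℝ) ≤ 2 ^ U.card * p ^ ((1 / (m : ℝ)) * Gs) := by
    intro C Z y hCZ hCy
    refine fiber_U F₁ hF₁ φ₁ p hp0 hp' U C ?_ y hCy
    intro x hx x' hx' h
    have h1 : x + x' ∈ EF := by
      rw [Set.mem_toFinset, mem_Ex]
      intro q
      rw [dotProduct_add]
      have h2 : q ∈ Zv s k x ↔ q ∈ Zv s k x' := by rw [hCZ x hx, hCZ x' hx']
      simp only [Zv, Finset.mem_filter, Finset.mem_univ, true_and] at h2
      by_cases h3 : dotProduct (cw s k q.1 q.2) x = 0
      · have h4 : dotProduct (cw s k q.1 q.2) x' = 0 := by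
          by_contra h5
          exact h2.mpr h5 h3
        rw [h3, h4, add_zero]
      · have h4 := h2.mp h3
        rw [zmod2_ne _ h3, zmod2_ne _ h4]
        decide
    have h2 : (0 : V n → ZMod 2) ∈ EF := by
      rw [Set.mem_toFinset, mem_Ex]; intro q; simp
    have h3 := hU2 (x + x') h1 0 h2 (by
      intro u hu
      rw [Pi.add_apply, h u hu, Pi.zero_apply]
      exact CharTwo.add_self_eq_zero _)
    have hzz : ∀ z : V n → ZMod 2, z + z = 0 := by
      intro z; funext v; exact CharTwo.add_self_eq_zero _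
    have h4 : x = x + (x' + x') := by rw [hzz, add_zero]
    rw [h4, ← add_assoc, h3, zero_add]
  set B₀ : ℝ := Real.exp (γ / 4 * Fintype.card (V n)) *
    (2 ^ U.card * p ^ ((1 / (m : ℝ)) * Gs)) with hB
  have hppos : 0 < p ^ ((1 / (m : ℝ)) * Gs) := Real.rpow_pos_of_pos hp0 _
  have hBpos : 0 < B₀ := by
    rw [hB]
    have := Real.exp_pos (γ / 4 * Fintype.card (V n))
    positivity
  have hfib1 : ∀ y : V n → B,
      ((M1.toFinset.filter (fun x => codeV F₁ φ₁ x = y)).card : ℝ) ≤ B₀ := by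
    intro y
    set C := M1.toFinset.filter (fun x => codeV F₁ φ₁ x = y) with hC
    have hs1 := hsyn (V n) C (by
      intro x hx
      rw [hC, Finset.mem_filter, Set.mem_toFinset] at hx
      exact hpw x hx.1)
    have hs2 : (C.card : ℝ) = ∑ Z ∈ C.image (Zv s k),
        ((C.filter (fun x => Zv s k x = Z)).card : ℝ) := by
      exact_mod_cast Finset.card_eq_sum_card_image (Zv s k) C
    rw [hs2]
    calc ∑ Z ∈ C.image (Zv s k), ((C.filter (fun x => Zv s k x = Z)).card : ℝ)
        ≤ ∑ Z ∈ C.image (Zv s k), (2 ^ U.card * p ^ ((1 / (m : ℝ)) * Gs)) := by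
          apply Finset.sum_le_sum
          intro Z _
          apply hcls _ Z y
          · intro x hx
            exact (Finset.mem_filter.mp hx).2
          · intro x hx
            have h1 := (Finset.mem_filter.mp hx).1
            exact (Finset.mem_filter.mp h1).2
      _ = (C.image (Zv s k)).card * (2 ^ U.card * p ^ ((1 / (m : ℝ)) * Gs)) := by
          rw [Finset.sum_const, nsmul_eq_mul]
      _ ≤ B₀ := by
          rw [hB]
          exact mul_le_mul_of_nonneg_right hs1 (by positivity)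
  set N : ℝ := (Fintype.card (V n) : ℝ) with hN
  set L : ℝ := N * (CE + δ₃ * (Cc * K)) with hL
  have hfib : ∀ y : V n → A,
      ((M1.toFinset.filter (fun x => codeV F₀ φ x = y)).card : ℝ) ≤ Real.exp L * B₀ := by
    intro y
    set C := M1.toFinset.filter (fun x => codeV F₀ φ x = y) with hC
    have hU : ((C.image (codeV F₁ φ₁)).card : ℝ) ≤ Real.exp L := by
      apply kernel_count (fun v b => q (fun w => y ((w : G)⁻¹ • v)) b) (fun v b => hq0 _ _)
        (fun v => hq1 _)
      intro u hu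
      rw [Finset.mem_image] at hu
      obtain ⟨x, hx, rfl⟩ := hu
      rw [hC, Finset.mem_filter, Set.mem_toFinset] at hx
      have h1 := hcnt (codeV F₂ Φ x) (by
        intro c
        have h2 := hpush3 x hx.1 (fun _ => c)
        have e9 : {y : G → (W → A) × B | ∀ g ∈ ({1} : Finset G), y g = c} = {y | y 1 = c} := by
          ext y; simp
        have e10 : emp (V n) ({1} : Finset G) (codeV F₂ Φ x) (fun _ => c)
            = ((univ.filter (fun v => codeV F₂ Φ x v = c)).card : ℝ) / N := by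
          rw [emp, Nat.card_eq_fintype_card (α := V n), Nat.card_eq_fintype_card,
            Fintype.card_subtype]
          congr 3
          ext v
          simp
        rw [e10] at h2
        have h3 : |((univ.filter (fun v => codeV F₂ Φ x v = c)).card : ℝ) / N
            - (μ.map (code F₂ Φ)).real {y | y 1 = c}| < δ₃ := by
          rw [← e9]; exact h2
        rw [hlaw c] at h3
        exact h3.le)
      have h4 : ∑ v, (- Real.log (q (fun w : W => y ((w : G)⁻¹ • v)) (codeV F₁ φ₁ x v)))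
          = ∑ v, (- Real.log (q (codeV F₂ Φ x v).1 (codeV F₂ Φ x v).2)) := by
        apply Finset.sum_congr rfl
        intro v _
        rw [hcode n x v, hx.2]
      rw [h4]
      refine h1.trans (le_of_eq ?_)
      rw [hL, hCE, Fintype.sum_prod_type]
    have hs2 : (C.card : ℝ) = ∑ u ∈ C.image (codeV F₁ φ₁),
        ((C.filter (fun x => codeV F₁ φ₁ x = u)).card : ℝ) := by
      exact_mod_cast Finset.card_eq_sum_card_image (codeV F₁ φ₁) C
    rw [hs2]
    calc ∑ u ∈ C.image (codeV F₁ φ₁), ((C.filter (fun x => codeV F₁ φ₁ x = u)).card : ℝ)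
        ≤ ∑ u ∈ C.image (codeV F₁ φ₁), B₀ := by
          apply Finset.sum_le_sum
          intro u _
          refine le_trans ?_ (hfib1 u)
          have h5 : C.filter (fun x => codeV F₁ φ₁ x = u)
              ⊆ M1.toFinset.filter (fun x => codeV F₁ φ₁ x = u) := by
            intro x hx
            rw [Finset.mem_filter] at hx ⊢
            exact ⟨(Finset.mem_filter.mp hx.1).1, hx.2⟩
          exact_mod_cast Finset.card_le_card h5
      _ = (C.image (codeV F₁ φ₁)).card * B₀ := by
          rw [Finset.sum_const, nsmul_eq_mul]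
      _ ≤ Real.exp L * B₀ := mul_le_mul_of_nonneg_right hU hBpos.le
  set BB : ℝ := Real.exp L * B₀ with hBB
  have hBBpos : 0 < BB := mul_pos (Real.exp_pos _) hBpos
  have hM12 : (Nat.card M1 : ℝ) ≤ Nat.card M2 * BB := by
    have hc1 : Nat.card M1 = M1.toFinset.card := by
      rw [Nat.card_coe_set_eq, Set.ncard_eq_toFinset_card']
    have hc2 : Nat.card M2 = M2.toFinset.card := by
      rw [Nat.card_coe_set_eq, Set.ncard_eq_toFinset_card']
    rw [hc1, hc2]
    have h7 : (M1.toFinset.card : ℝ)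
        = ∑ y ∈ M1.toFinset.image (codeV F₀ φ),
          ((M1.toFinset.filter (fun x => codeV F₀ φ x = y)).card : ℝ) := by
      exact_mod_cast Finset.card_eq_sum_card_image (codeV F₀ φ) M1.toFinset
    rw [h7]
    calc ∑ y ∈ M1.toFinset.image (codeV F₀ φ),
          ((M1.toFinset.filter (fun x => codeV F₀ φ x = y)).card : ℝ)
        ≤ ∑ y ∈ M1.toFinset.image (codeV F₀ φ), BB :=
          Finset.sum_le_sum (fun y _ => hfib y)
      _ = (M1.toFinset.image (codeV F₀ φ)).card * BB := by
          rw [Finset.sum_const, nsmul_eq_mul]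
      _ ≤ M2.toFinset.card * BB := by
          apply mul_le_mul_of_nonneg_right _ hBBpos.le
          have h8 : M1.toFinset.image (codeV F₀ φ) ⊆ M2.toFinset := by
            intro y hy
            rw [Finset.mem_image] at hy
            obtain ⟨x, hx, rfl⟩ := hy
            rw [Set.mem_toFinset] at hx ⊢
            exact hpush x hx
          exact_mod_cast Finset.card_le_card h8
  have hM2pos : (0 : ℝ) < Nat.card M2 := by
    by_contra hcon
    have h9 : (Nat.card M2 : ℝ) = 0 := le_antisymm (not_lt.mp hcon) (by positivity)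
    rw [h9, zero_mul] at hM12
    linarith
  have hM2ne : M2 ≠ ∅ := by
    intro h0
    rw [h0] at hM2pos
    simp at hM2pos
  rw [rate, if_neg hM2ne]
  have h7 : Real.log (Nat.card M1) ≤ Real.log (Nat.card M2) + (L + (γ / 4 * N
      + (U.card * Real.log 2 + (1 / (m : ℝ)) * Gs * Real.log p))) := by
    have h9 := Real.log_le_log hM1pos hM12
    rw [Real.log_mul hM2pos.ne' hBBpos.ne', hBB, Real.log_mul (Real.exp_pos _).ne' hBpos.ne',
      Real.log_exp, hB, Real.log_mul (Real.exp_pos _).ne' (by positivity), Real.log_exp,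
      Real.log_mul (by positivity) hppos.ne', Real.log_pow, Real.log_rpow hp0] at h9
    exact h9
  have hUe : (U.card : ℝ) * Real.log 2 = exr s k (V n) * N := by
    rw [exr, hEF, hU1, Nat.card_eq_fintype_card (α := V n), Nat.cast_pow, Real.log_pow,
      Nat.cast_ofNat, ← hN]
    field_simp
  have hGd := Gd_card (V := V n) F₁ U
  have hbdc : ((Bad (V := V n) F₁).card : ℝ)
      = (Nat.card {v : V n // ¬ Set.InjOn (fun g : G => g⁻¹ • v) (F₁ : Set G)} : ℝ) := by
    rw [Nat.card_eq_fintype_card, Fintype.card_subtype, Bad]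
  rw [Nat.card_eq_fintype_card (α := V n), ← hN] at e5 hzM1
  set bd : ℝ := (Nat.card {v : V n // ¬ Set.InjOn (fun g : G => g⁻¹ • v) (F₁ : Set G)} : ℝ)
      with hbd
  set e : ℝ := exr s k (V n) with he
  rw [hbdc, ← hm, ← hGs] at hGd
  have h10 : z' ≤ Real.log (Nat.card M2) / Nat.card (V n) := by
    rw [Nat.card_eq_fintype_card (α := V n), ← hN, le_div_iff₀ hNpos]
    rw [lt_div_iff₀ hNpos] at hzM1
    have h11 := mul_lt_mul_of_pos_right e5 hNpos
    have h12 : l / m * (bd / N) * N = l / m * bd := by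
      field_simp
    rw [h12] at h11
    -- lower bound for the number of good windows
    have hlp : Real.log p = - l := by rw [hl]; ring
    have h13 : (U.card : ℝ) = e / Real.log 2 * N := by
      have h14 : (U.card : ℝ) = U.card * Real.log 2 / Real.log 2 :=
        (mul_div_cancel_right₀ _ hlog2.ne').symm
      rw [h14, hUe]; ring
    have h15 : N - bd - m * (N - e / Real.log 2 * N) ≤ Gs := by
      rw [← h13]; exact hGd
    have h16 : l / m * (N - bd - m * (N - e / Real.log 2 * N)) ≤ l / m * Gs :=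
      mul_le_mul_of_nonneg_left h15 (div_nonneg hl0 hm0.le)
    have h17 : l / m * (N - bd - m * (N - e / Real.log 2 * N))
        = l / m * N - l / m * bd - l * (1 - e / Real.log 2) * N := by
      field_simp
    -- the deficiency
    have h18 : 1 - e / Real.log 2 ≤ d / k + ε₂ / Real.log 2 := by
      have h19 : ((1 - (d : ℝ) / k) * Real.log 2 - ε₂) / Real.log 2 ≤ e / Real.log 2 :=
        div_le_div_of_nonneg_right e6.le hlog2.le
      have h20 : ((1 - (d : ℝ) / k) * Real.log 2 - ε₂) / Real.log 2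
          = 1 - d / k - ε₂ / Real.log 2 := by
        field_simp
      rw [h20] at h19
      linarith
    have h19 : l * (1 - e / Real.log 2) ≤ l * (d / k) + γ / 8 := by
      have := mul_le_mul_of_nonneg_left h18 hl0
      rw [mul_add] at this
      linarith
    have h20 := mul_le_mul_of_nonneg_right h19 hNpos.le
    have h21 := mul_le_mul_of_nonneg_right e7 hNpos.le
    rw [hUe, hlp] at h7
    have h22 : z' * N = z * N + (l / m * N - l * (d / k) * N - T * N) - CE * N - γ * N := by
      rw [hγ]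
      field_simp
      ring
    have h27 := mul_le_mul_of_nonneg_right hδ₃b hNpos.le
    have h28 : L = CE * N + δ₃ * (Cc * K) * N := by rw [hL]; ring
    have h23 : 1 / (m : ℝ) * Gs * - l = - (l / m * Gs) := by ring
    rw [h23] at h7
    rw [h22]
    have h24 : (l * (d / k) + γ / 8) * N = l * (d / k) * N + γ / 8 * N := by ring
    have h25 : (T + γ / 4) * N = T * N + γ / 4 * N := by ring
    rw [h24] at h20
    rw [h25] at h21
    rw [h17] at h16
    have h26 : 0 ≤ γ * N := by positivity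
    rw [h28] at h7
    linarith
  exact_mod_cast h10

end

end Pool.Agent.MP_9d0e09_an
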