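import Pool.Agent.Lib.MP_9d0e09_an.Cyc

/-!
# A product inequality for functions of few coordinates, and fibres of block codes
-/

open Finset

namespace Pool.Agent.MP_9d0e09_an

theorem amgm {ι : Type*} [DecidableEq ι] (I : Finset ι) (m : ℕ) (hm : 0 < m) (hI : I.card ≤ m)
    (z : ι → ℝ) (hz : ∀ i ∈ I, 0 ≤ z i) :
    ∏ i ∈ I, (z i) ^ (1 / (m : ℝ)) ≤ ∑ i ∈ I, (1 / (m : ℝ)) * z i + (1 - I.card / (m : ℝ)) := by
  have hm' : (0 : ℝ) < m := by exact_mod_cast hm
  have hI' : (I.card : ℝ) ≤ m := by exact_mod_cast hI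
  let w : Option ι → ℝ := fun o => Option.elim o (1 - I.card / (m : ℝ)) (fun _ => 1 / (m : ℝ))
  let y : Option ι → ℝ := fun o => Option.elim o 1 z
  have h := Real.geom_mean_le_arith_mean_weighted (Finset.insertNone I) w y ?_ ?_ ?_
  · rw [Finset.prod_insertNone, Finset.sum_insertNone] at h
    simp only [w, y, Option.elim_none, Option.elim_some, Real.one_rpow, one_mul, mul_one] at h
    linarith
  · intro o _
    cases o with
    | none =>
      simp only [w, Option.elim_none]
      rw [sub_nonneg, div_le_one hm']; exact hI'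
    | some i => simp only [w, Option.elim_some]; positivity
  · rw [Finset.sum_insertNone]
    simp only [w, Option.elim_none, Option.elim_some]
    rw [Finset.sum_const, nsmul_eq_mul]
    field_simp
    ring
  · intro o ho
    cases o with
    | none => simp [y]
    | some i =>
      simp only [y, Option.elim_some]
      exact hz i (by simpa using ho)

theorem two_pt {ι : Type*} [DecidableEq ι] (I : Finset ι) (m : ℕ) (hm : 0 < m) (hI : I.card ≤ m)
    (a b : ι → ℝ) (ha : ∀ i ∈ I, 0 ≤ a i) (hb : ∀ i ∈ I, 0 ≤ b i) :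
    (∏ i ∈ I, (a i) ^ (1 / (m : ℝ)) + ∏ i ∈ I, (b i) ^ (1 / (m : ℝ))) / 2
      ≤ ∏ i ∈ I, ((a i + b i) / 2) ^ (1 / (m : ℝ)) := by
  have hm' : (0 : ℝ) < m := by exact_mod_cast hm
  have hm1 : (1 / (m : ℝ)) ≠ 0 := by positivity
  by_cases h0 : ∃ i ∈ I, a i + b i = 0
  · obtain ⟨i, hi, h⟩ := h0
    have h1 : a i = 0 := by have := ha i hi; have := hb i hi; linarith
    have h2 : b i = 0 := by have := ha i hi; have := hb i hi; linarith
    rw [Finset.prod_eq_zero hi (by rw [h1, Real.zero_rpow hm1]),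
      Finset.prod_eq_zero (i := i) (f := fun i => (b i) ^ (1 / (m : ℝ))) hi
        (by rw [h2, Real.zero_rpow hm1]),
      Finset.prod_eq_zero (i := i) (f := fun i => ((a i + b i) / 2) ^ (1 / (m : ℝ))) hi
        (by rw [h, zero_div, Real.zero_rpow hm1])]
    norm_num
  · push Not at h0
    have hs : ∀ i ∈ I, 0 < (a i + b i) / 2 := by
      intro i hi
      have h1 := ha i hi
      have h2 := hb i hi
      have h3 := h0 i hi
      have : 0 < a i + b i := lt_of_le_of_ne (by linarith) (Ne.symm h3)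
      linarith
    have hsplit : ∀ c : ι → ℝ, (∀ i ∈ I, 0 ≤ c i) → ∏ i ∈ I, (c i) ^ (1 / (m : ℝ))
        = (∏ i ∈ I, ((a i + b i) / 2) ^ (1 / (m : ℝ)))
          * ∏ i ∈ I, (c i / ((a i + b i) / 2)) ^ (1 / (m : ℝ)) := by
      intro c hc
      rw [← Finset.prod_mul_distrib]
      apply Finset.prod_congr rfl
      intro i hi
      rw [← Real.mul_rpow (hs i hi).le (div_nonneg (hc i hi) (hs i hi).le),
        mul_div_cancel₀ _ (hs i hi).ne']
    rw [hsplit a ha, hsplit b hb]
    have h1 := amgm I m hm hI (fun i => a i / ((a i + b i) / 2))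
      (fun i hi => div_nonneg (ha i hi) (hs i hi).le)
    have h2 := amgm I m hm hI (fun i => b i / ((a i + b i) / 2))
      (fun i hi => div_nonneg (hb i hi) (hs i hi).le)
    have h3 : ∑ i ∈ I, (1 / (m : ℝ)) * (a i / ((a i + b i) / 2))
        + ∑ i ∈ I, (1 / (m : ℝ)) * (b i / ((a i + b i) / 2)) = 2 * (I.card / (m : ℝ)) := by
      rw [← Finset.sum_add_distrib]
      have h4 : ∀ i ∈ I, (1 / (m : ℝ)) * (a i / ((a i + b i) / 2))
          + (1 / (m : ℝ)) * (b i / ((a i + b i) / 2)) = 2 / m := by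
        intro i hi
        have h5 := h0 i hi
        have h6 : a i / ((a i + b i) / 2) + b i / ((a i + b i) / 2) = 2 := by
          rw [← add_div, div_div_eq_mul_div, mul_comm, mul_div_assoc, div_self h5, mul_one]
        rw [← mul_add, h6]; ring
      rw [Finset.sum_congr rfl h4, Finset.sum_const, nsmul_eq_mul]
      ring
    set P := ∏ i ∈ I, ((a i + b i) / 2) ^ (1 / (m : ℝ)) with hP
    have hP0 : 0 ≤ P := Finset.prod_nonneg (fun i hi => Real.rpow_nonneg (hs i hi).le _)
    set A1 := ∏ i ∈ I, (a i / ((a i + b i) / 2)) ^ (1 / (m : ℝ)) with hA1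
    set B1 := ∏ i ∈ I, (b i / ((a i + b i) / 2)) ^ (1 / (m : ℝ)) with hB1
    have h5 : A1 + B1 ≤ 2 := by linarith
    have h6 := mul_le_mul_of_nonneg_left h5 hP0
    linarith

section

variable {V : Type} [Fintype V] [DecidableEq V]

theorem sum_flip (u : V) (f : (V → ZMod 2) → ℝ) :
    ∑ x : V → ZMod 2, f (x + Pi.single u 1) = ∑ x : V → ZMod 2, f x :=
  Equiv.sum_comp (Equiv.addRight (Pi.single u (1 : ZMod 2) : V → ZMod 2)) f

omit [Fintype V] in
theorem flip_flip (u : V) (x : V → ZMod 2) :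
    x + Pi.single u 1 + Pi.single u 1 = x := by
  rw [add_assoc]
  have h : (Pi.single u (1 : ZMod 2) : V → ZMod 2) + Pi.single u 1 = 0 := by
    funext v; exact CharTwo.add_self_eq_zero _
  rw [h, add_zero]

theorem const_of_inv (f : (V → ZMod 2) → ℝ) (h : ∀ u x, f (x + Pi.single u 1) = f x)
    (x : V → ZMod 2) : f x = f 0 := by
  have key : ∀ U : Finset V, f (∑ u ∈ U, Pi.single u 1) = f 0 := by
    intro U
    induction U using Finset.induction_on with
    | empty => simp
    | insert u U hu ih =>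
      rw [Finset.sum_insert hu, add_comm, h, ih]
  have h1 : x = ∑ u ∈ univ.filter (fun u => x u ≠ 0), Pi.single u 1 := by
    funext v
    rw [Finset.sum_apply]
    by_cases hv : x v = 0
    · rw [hv]
      symm
      apply Finset.sum_eq_zero
      intro u hu
      rw [Finset.mem_filter] at hu
      apply Pi.single_eq_of_ne
      rintro rfl
      exact hu.2 hv
    · rw [Finset.sum_eq_single v]
      · rw [Pi.single_eq_same]; exact zmod2_ne _ hv
      · intro u _ huv
        exact Pi.single_eq_of_ne (Ne.symm huv) _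
      · intro hn
        exfalso
        apply hn
        rw [Finset.mem_filter]
        exact ⟨Finset.mem_univ _, hv⟩
  rw [h1]; exact key _

open Classical in
/-- Finner's inequality for uniform bits. -/
theorem finner {ι : Type} [Fintype ι] (m : ℕ) (hm : 0 < m) (U : Finset V) :
    ∀ g : ι → (V → ZMod 2) → ℝ, (∀ i x, 0 ≤ g i x) →
      (∀ i, ∀ u ∉ U, ∀ x, g i (x + Pi.single u 1) = g i x) →
      (∀ u, (univ.filter (fun i => ¬ ∀ x, g i (x + Pi.single u 1) = g i x)).card ≤ m) →
      ∑ x : V → ZMod 2, ∏ i, (g i x) ^ (1 / (m : ℝ))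
        ≤ 2 ^ Fintype.card V * ∏ i, ((∑ x : V → ZMod 2, g i x) / 2 ^ Fintype.card V) ^ (1 / (m : ℝ)) := by
  have hcard : (Fintype.card (V → ZMod 2) : ℝ) = 2 ^ Fintype.card V := by
    rw [Fintype.card_fun, ZMod.card]; push_cast; rfl
  induction U using Finset.induction_on with
  | empty =>
    intro g hg hinv _
    have hc : ∀ i x, g i x = g i 0 := fun i x =>
      const_of_inv (g i) (fun u x => hinv i u (Finset.notMem_empty u) x) x
    have h1 : ∀ i, (∑ x : V → ZMod 2, g i x) / 2 ^ Fintype.card V = g i 0 := by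
      intro i
      rw [Finset.sum_congr rfl (fun x _ => hc i x), Finset.sum_const, Finset.card_univ,
        nsmul_eq_mul, hcard]
      field_simp
    simp only [h1]
    rw [Finset.sum_congr rfl (fun x _ => Finset.prod_congr rfl (fun i _ => by rw [hc i x])),
      Finset.sum_const, Finset.card_univ, nsmul_eq_mul, hcard]
  | insert u U hu ih =>
    intro g hg hinv hcount
    let g' : ι → (V → ZMod 2) → ℝ := fun i x => (g i x + g i (x + Pi.single u 1)) / 2
    have hg' : ∀ i x, 0 ≤ g' i x := by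
      intro i x
      have h1 := hg i x
      have h2 := hg i (x + Pi.single u 1)
      simp only [g']; linarith
    have hcomm : ∀ (v : V) (x : V → ZMod 2),
        x + Pi.single v 1 + Pi.single u 1 = x + Pi.single u 1 + Pi.single v 1 := by
      intro v x; rw [add_right_comm]
    have hinv1 : ∀ i x, g' i (x + Pi.single u 1) = g' i x := by
      intro i x
      simp only [g']
      rw [flip_flip, add_comm]
    have hinv2 : ∀ i v, (∀ x, g i (x + Pi.single v 1) = g i x) →
        ∀ x, g' i (x + Pi.single v 1) = g' i x := by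
      intro i v h x
      simp only [g']
      rw [h, hcomm, h]
    have hsum : ∀ i, ∑ x : V → ZMod 2, g' i x = ∑ x : V → ZMod 2, g i x := by
      intro i
      simp only [g']
      rw [← Finset.sum_div, Finset.sum_add_distrib, sum_flip u (g i)]
      ring
    have hstep : ∑ x : V → ZMod 2, ∏ i, (g i x) ^ (1 / (m : ℝ))
        ≤ ∑ x : V → ZMod 2, ∏ i, (g' i x) ^ (1 / (m : ℝ)) := by
      have h1 : ∑ x : V → ZMod 2, ∏ i, (g i x) ^ (1 / (m : ℝ))
          = ∑ x : V → ZMod 2, (∏ i, (g i x) ^ (1 / (m : ℝ))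
            + ∏ i, (g i (x + Pi.single u 1)) ^ (1 / (m : ℝ))) / 2 := by
        rw [← Finset.sum_div, Finset.sum_add_distrib,
          sum_flip u (fun x => ∏ i, (g i x) ^ (1 / (m : ℝ)))]
        ring
      rw [h1]
      apply Finset.sum_le_sum
      intro x _
      let I := univ.filter (fun i => ¬ ∀ x, g i (x + Pi.single u 1) = g i x)
      have hsplit : ∀ f : ι → ℝ, ∏ i, f i = (∏ i ∈ I, f i) * ∏ i ∈ Iᶜ, f i := by
        intro f
        exact (Finset.prod_mul_prod_compl I f).symm
      have hnot : ∀ i ∈ Iᶜ, ∀ x, g i (x + Pi.single u 1) = g i x := by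
        intro i hi
        rw [Finset.mem_compl] at hi
        by_contra hcon
        exact hi (Finset.mem_filter.mpr ⟨Finset.mem_univ _, hcon⟩)
      have s1 := hsplit (fun i => (g i x) ^ (1 / (m : ℝ)))
      have s2 := hsplit (fun i => (g i (x + Pi.single u 1)) ^ (1 / (m : ℝ)))
      have s3 := hsplit (fun i => (g' i x) ^ (1 / (m : ℝ)))
      have h2 : ∏ i ∈ Iᶜ, (g i (x + Pi.single u 1)) ^ (1 / (m : ℝ))
          = ∏ i ∈ Iᶜ, (g i x) ^ (1 / (m : ℝ)) :=
        Finset.prod_congr rfl (fun i hi => by rw [hnot i hi x])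
      have h3 : ∏ i ∈ Iᶜ, (g' i x) ^ (1 / (m : ℝ)) = ∏ i ∈ Iᶜ, (g i x) ^ (1 / (m : ℝ)) := by
        apply Finset.prod_congr rfl
        intro i hi
        have h4 : g' i x = g i x := by
          simp only [g']
          rw [hnot i hi x]; ring
        rw [h4]
      rw [h2] at s2
      rw [h3] at s3
      have h4 := two_pt I m hm (hcount u) (fun i => g i x) (fun i => g i (x + Pi.single u 1))
        (fun i _ => hg i x) (fun i _ => hg i _)
      have h5 : 0 ≤ ∏ i ∈ Iᶜ, (g i x) ^ (1 / (m : ℝ)) :=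
        Finset.prod_nonneg (fun i _ => Real.rpow_nonneg (hg i x) _)
      have h6 := mul_le_mul_of_nonneg_right h4 h5
      have h7 : (∏ i, (g i x) ^ (1 / (m : ℝ)) + ∏ i, (g i (x + Pi.single u 1)) ^ (1 / (m : ℝ))) / 2
          ≤ ∏ i, (g' i x) ^ (1 / (m : ℝ)) := by
        rw [s1, s2, s3]
        calc _ = ((∏ i ∈ I, g i x ^ (1 / (m : ℝ)) + ∏ i ∈ I, g i (x + Pi.single u 1) ^ (1 / (m : ℝ))) / 2)
            * ∏ i ∈ Iᶜ, (g i x) ^ (1 / (m : ℝ)) := by ring
          _ ≤ _ := h6
      exact h7
    refine hstep.trans ?_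
    have h7 := ih g' hg' (by
      intro i v hv x
      by_cases hvu : v = u
      · subst hvu; exact hinv1 i x
      · apply hinv2 i v _ x
        exact hinv i v (by rw [Finset.mem_insert]; push Not; exact ⟨hvu, hv⟩)) (by
      intro v
      refine le_trans (Finset.card_le_card ?_) (hcount v)
      intro i hi
      rw [Finset.mem_filter] at hi ⊢
      refine ⟨hi.1, ?_⟩
      intro h
      exact hi.2 (hinv2 i v h))
    simp only [hsum] at h7
    exact h7

end

end Pool.Agent.MP_9d0e09_an
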