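import Pool.Agent.Lib.MP_9d0e09_an.Inf

/-!
# Block factors with windows smaller than `k / d`
-/

open MeasureTheory Filter Topology Finset

namespace Pool.Agent.MP_9d0e09_an

section

variable {G : Type} [Group G] {d : ℕ} (s : Fin d → G) (k : ℕ)

/-- Microstates for a large window are microstates for a smaller one. -/
theorem mic_mono (μ : Measure (G → ZMod 2)) [IsProbabilityMeasure μ] {V : Type} [Finite V]
    [MulAction G V] (F F' : Finset G) (hF : F ⊆ F') (δ δ' : ℝ) (hδ : 0 < δ)
    (hδ' : 2 ^ F'.card * δ' ≤ δ) (x : V → ZMod 2) (hx : x ∈ Mic μ V F' δ') :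
    x ∈ Mic μ V F δ := by
  let φ : (({1} : Finset G) → ZMod 2) → ZMod 2 := fun z => z ⟨1, Finset.mem_singleton_self 1⟩
  have h1 : code ({1} : Finset G) φ = id := by
    funext y g
    show y (g * 1) = y g
    rw [mul_one]
  have h2 : codeV ({1} : Finset G) φ x = x := by
    funext v
    show x ((1 : G)⁻¹ • v) = x v
    rw [inv_one, one_smul]
  have h3 := push_mic μ ({1} : Finset G) F F' (by
    intro g hg h hh
    rw [Finset.mem_singleton] at hh
    rw [hh, mul_one]
    exact hF hg) φ δ δ' hδ hδ' x hx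
  rw [h1, h2, Measure.map_id] at h3
  exact h3

open Classical in
/-- The violated checks. -/
noncomputable def Zv {V : Type} [Fintype V] [MulAction G V] (x : V → ZMod 2) :
    Finset (Fin d × V) :=
  (univ : Finset (Fin d × V)).filter (fun q => dotProduct (cw s k q.1 q.2) x ≠ 0)

open Classical in
/-- Microstates have few syndromes. -/
theorem syn_small (μ : Measure (G → ZMod 2)) (hμ : IsHaarOn (PX s k) μ)
    (ε : ℝ) (hε : 0 < ε) :
    ∃ δ : ℝ, 0 < δ ∧ ∀ (V : Type) [Fintype V] [Nonempty V] [MulAction G V]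
      (M : Finset (V → ZMod 2)), (∀ x ∈ M, x ∈ Mic μ V (pw s k) δ) →
      ((M.image (Zv s k)).card : ℝ) ≤ Real.exp (ε * Fintype.card V) := by
  classical
  set t : ℝ := min 1 (ε / (2 * (d + 1))) with ht
  have ht0 : 0 < t := by
    rw [ht]; apply lt_min one_pos; positivity
  have ht1 : t ≤ 1 := min_le_left _ _
  have htd : t * d ≤ ε / 2 := by
    have h1 : t ≤ ε / (2 * (d + 1)) := min_le_right _ _
    calc t * d ≤ ε / (2 * (d + 1)) * d := mul_le_mul_of_nonneg_right h1 (by positivity)
      _ ≤ ε / (2 * (d + 1)) * (d + 1) := by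
        apply mul_le_mul_of_nonneg_left _ (by positivity)
        linarith
      _ = ε / 2 := by field_simp
  have hlog : 0 ≤ - Real.log t := by
    have := Real.log_nonpos ht0.le ht1
    linarith
  set c : ℝ := 2 ^ (pw s k).card with hc
  have hcpos : 0 < c := by positivity
  set δ : ℝ := ε / (2 * (d + 1) * c * (1 - Real.log t)) with hδ
  have hden : 0 < 2 * (d + 1) * c * (1 - Real.log t) := by
    have : 0 < 1 - Real.log t := by linarith
    positivity
  have hδ0 : 0 < δ := by positivity
  have hδb : d * (c * δ) * (- Real.log t) ≤ ε / 2 := by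
    have h1 : (d + 1) * (c * δ) * (1 - Real.log t) = ε / 2 := by
      rw [hδ]
      have : (1 - Real.log t) ≠ 0 := by linarith
      field_simp
    rw [← h1]
    have h2 : (d : ℝ) * (c * δ) ≤ (d + 1) * (c * δ) := by
      apply mul_le_mul_of_nonneg_right _ (by positivity)
      linarith
    calc d * (c * δ) * (- Real.log t) ≤ (d + 1) * (c * δ) * (- Real.log t) :=
          mul_le_mul_of_nonneg_right h2 hlog
      _ ≤ (d + 1) * (c * δ) * (1 - Real.log t) := by
          apply mul_le_mul_of_nonneg_left _ (by positivity)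
          linarith
  refine ⟨δ, hδ0, ?_⟩
  intro V _ _ _ M hM
  have hVpos : 0 < Fintype.card V := Fintype.card_pos
  have hNpos : (0 : ℝ) < Fintype.card V := by exact_mod_cast hVpos
  have h2 : (M.image (Zv s k)).card ≤ ((univ : Finset (Finset (Fin d × V))).filter (fun Z =>
      (Z.card : ℝ) ≤ d * (2 ^ (pw s k).card * (δ * Fintype.card V)))).card := by
    apply Finset.card_le_card
    intro y hy
    rw [Finset.mem_image] at hy
    obtain ⟨x, hx, rfl⟩ := hy
    rw [Finset.mem_filter]
    refine ⟨Finset.mem_univ _, ?_⟩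
    exact viol_small s k μ hμ hVpos δ x (hM x hx)
  have h3 := count_small (E := Fin d × V) (d * (2 ^ (pw s k).card * (δ * Fintype.card V))) t ht0 ht1
  rw [Fintype.card_prod, Fintype.card_fin, Nat.cast_mul] at h3
  calc ((M.image (Zv s k)).card : ℝ) ≤ _ := by exact_mod_cast h2
    _ ≤ _ := h3
    _ ≤ Real.exp (ε * Fintype.card V) := by
      apply Real.exp_le_exp.mpr
      have h4 : t * (d * (Fintype.card V : ℝ)) ≤ ε / 2 * Fintype.card V := by
        rw [← mul_assoc]
        exact mul_le_mul_of_nonneg_right htd hNpos.le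
      have h5 := mul_le_mul_of_nonneg_right hδb hNpos.le
      have h6 : d * (2 ^ (pw s k).card * (δ * (Fintype.card V : ℝ))) * Real.log t
          = - (d * (c * δ) * (- Real.log t) * Fintype.card V) := by
        rw [hc]; ring
      rw [h6]
      linarith

theorem exr_low (V : ℕ → Type) [∀ n, Finite (V n)] [∀ n, Nonempty (V n)]
    [∀ n, MulAction G (V n)] (hk : 0 < k) (hs : ∀ i, s i ^ k = 1)
    (hinj : ∀ i, Set.InjOn (fun l : ℕ => s i ^ l) (Finset.range k : Set ℕ))
    (hV : IsSofic G V) (a : ℝ) (ha : a < (1 - (d : ℝ) / k) * Real.log 2) :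
    ∀ᶠ n in atTop, a < exr s k (V n) := by
  classical
  have hlog2 : 0 < Real.log 2 := Real.log_pos (by norm_num)
  have hk0 : (0 : ℝ) < k := by exact_mod_cast hk
  have hnf := bad_small V hV (pw s k)
  have h1 := (hnf.const_mul (d * Real.log 2))
  rw [mul_zero] at h1
  have h2 : 0 < (1 - (d : ℝ) / k) * Real.log 2 - a := by linarith
  filter_upwards [h1.eventually (gt_mem_nhds h2)] with n hn
  have := Fintype.ofFinite (V n)
  have hVpos : 0 < Fintype.card (V n) := Fintype.card_pos
  have hNpos : (0 : ℝ) < Fintype.card (V n) := by exact_mod_cast hVpos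
  obtain ⟨b, hb0, hb1, hb2⟩ := exists_basis s k (V := V n)
  obtain ⟨hbc, hbN⟩ := basis_card s k hVpos b hb0 hb1 hb2
  have hfew := few_checks s k hs hinj b hb1
  have hcard : Nat.card {v : V n // ¬ Set.InjOn (fun g : G => g⁻¹ • v) (pw s k : Set G)}
      = ((univ : Finset (V n)).filter
      (fun v => ¬ Set.InjOn (fun g : G => g⁻¹ • v) (pw s k : Set G))).card := by
    rw [Nat.card_eq_fintype_card, Fintype.card_subtype]
  rw [hcard, Nat.card_eq_fintype_card] at hn
  set nf : ℕ := ((univ : Finset (V n)).filter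
      (fun v => ¬ Set.InjOn (fun g : G => g⁻¹ • v) (pw s k : Set G))).card with hnfd
  have h3 : k * b.card ≤ d * Fintype.card (V n) + k * (d * nf) := by omega
  have h4 := (Nat.cast_le (α := ℝ)).mpr h3
  push_cast at h4
  rw [hbc] at h4
  set N : ℝ := (Fintype.card (V n) : ℝ) with hN
  have h5 : (k : ℝ) * N * (1 - d / k - d * (nf / N)) ≤ k * N * (exr s k (V n) / Real.log 2) := by
    have e1 : (k : ℝ) * N * (1 - d / k - d * (nf / N)) = k * N - d * N - k * (d * nf) := by
      field_simp
    rw [e1]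
    have e2 : (k : ℝ) * (N * (1 - exr s k (V n) / Real.log 2))
        = k * N - k * N * (exr s k (V n) / Real.log 2) := by ring
    rw [e2] at h4
    linarith
  have h6 : 1 - d / k - d * (nf / N) ≤ exr s k (V n) / Real.log 2 :=
    le_of_mul_le_mul_left h5 (by positivity)
  rw [le_div_iff₀ hlog2] at h6
  have h7 : (1 - d / k - d * (nf / N)) * Real.log 2
      = (1 - d / k) * Real.log 2 - d * Real.log 2 * (nf / N) := by ring
  rw [h7] at h6
  linarith

/-- The key step: compare the microstates of `X` and of a block factor through an information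
set of the exact solutions. -/
theorem key_small (V : ℕ → Type) [∀ n, Finite (V n)] [∀ n, Nonempty (V n)]
    [∀ n, MulAction G (V n)] (hk : 0 < k) (hs : ∀ i, s i ^ k = 1)
    (hinj : ∀ i, Set.InjOn (fun l : ℕ => s i ^ l) (Finset.range k : Set ℕ))
    (μ : Measure (G → ZMod 2)) (hμ : IsHaarOn (PX s k) μ) (hV : IsSofic G V)
    (T : ℝ) (hT : ∀ ε : ℝ, 0 < ε → ∀ᶠ n in atTop, exr s k (V n) ≤ T + ε)
    {A : Type} [Finite A] [MeasurableSpace A] [MeasurableSingletonClass A]
    (F₀ : Finset G) (hF₀ : F₀.Nonempty) (φ : (F₀ → ZMod 2) → A) (p : ℝ) (hp0 : 0 < p)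
    (hp1 : p ≤ 1)
    (hp : ∀ a : A, (Nat.card {z : F₀ → ZMod 2 // φ z = a} : ℝ) ≤ p * 2 ^ F₀.card)
    (F : Finset G) (δ : ℝ) (hδ : 0 < δ) (z z' : ℝ)
    (hz : z' < z + ((1 / (F₀.card : ℝ) - d / k) * (- Real.log p) - T)) :
    ∃ F' : Finset G, ∃ δ' : ℝ, 0 < δ' ∧ ∀ᶠ n in atTop,
      ((z : ℝ) : EReal) < rate (Mic μ (V n) F' δ') →
      ((z' : ℝ) : EReal) ≤ rate (Mic (μ.map (code F₀ φ)) (V n) F δ) := by
  classical
  have := hμ.prob
  set m := F₀.card with hm
  have hm0 : (0 : ℝ) < m := by exact_mod_cast Finset.card_pos.mpr hF₀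
  have hlog2 : 0 < Real.log 2 := Real.log_pos (by norm_num)
  set l : ℝ := - Real.log p with hl
  have hl0 : 0 ≤ l := by
    have := Real.log_nonpos hp0.le hp1
    rw [hl]; linarith
  have hp' : ∀ a : A, (((univ : Finset (F₀ → ZMod 2)).filter (fun z => φ z = a)).card : ℝ)
      ≤ p * 2 ^ F₀.card := by
    intro a
    have h := hp a
    rw [Nat.card_eq_fintype_card, Fintype.card_subtype] at h
    exact h
  set γ : ℝ := z + ((1 / (m : ℝ) - d / k) * l - T) - z' with hγ
  have hγ0 : 0 < γ := by rw [hγ]; linarith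
  obtain ⟨δ₄, hδ₄, hsyn⟩ := syn_small s k μ hμ (γ / 4) (by linarith)
  let F' : Finset G := (F ×ˢ F₀).image (fun p : G × G => p.1 * p.2) ∪ pw s k
  have hF' : ∀ g ∈ F, ∀ h ∈ F₀, g * h ∈ F' := by
    intro g hg h hh
    exact Finset.mem_union_left _ (Finset.mem_image.mpr ⟨(g, h), Finset.mk_mem_product hg hh, rfl⟩)
  have hFp : pw s k ⊆ F' := Finset.subset_union_right
  have h2F : (0 : ℝ) < 2 ^ F'.card := by positivity
  set δ' : ℝ := min δ δ₄ / 2 ^ F'.card with hδ'def
  have hδ' : 0 < δ' := by
    rw [hδ'def]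
    exact div_pos (lt_min hδ hδ₄) h2F
  have hδ'1 : 2 ^ F'.card * δ' ≤ δ := by
    rw [hδ'def, mul_div_cancel₀ _ h2F.ne']
    exact min_le_left _ _
  have hδ'4 : 2 ^ F'.card * δ' ≤ δ₄ := by
    rw [hδ'def, mul_div_cancel₀ _ h2F.ne']
    exact min_le_right _ _
  refine ⟨F', δ', hδ', ?_⟩
  have h4 := bad_small V hV F₀
  have h5 : Tendsto (fun n => l / m * ((Nat.card {v : V n // ¬ Set.InjOn (fun g : G => g⁻¹ • v)
        (F₀ : Set G)} : ℝ) / Nat.card (V n))) atTop (𝓝 (l / m * 0)) := h4.const_mul _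
  rw [mul_zero] at h5
  set ε₂ : ℝ := γ / 8 * Real.log 2 / (l + 1) with hε₂
  have hε₂0 : 0 < ε₂ := by rw [hε₂]; positivity
  have hε₂b : l * (ε₂ / Real.log 2) ≤ γ / 8 := by
    have h1 : ε₂ / Real.log 2 = γ / 8 / (l + 1) := by
      rw [hε₂]; field_simp
    rw [h1, mul_div_assoc', div_le_iff₀ (by linarith)]
    nlinarith
  have h6 := exr_low s k V hk hs hinj hV ((1 - (d : ℝ) / k) * Real.log 2 - ε₂) (by linarith)
  filter_upwards [h5.eventually (gt_mem_nhds (show 0 < γ / 8 by linarith)), h6,
    hT (γ / 4) (by linarith)] with n e5 e6 e7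
  intro e1
  have := Fintype.ofFinite (V n)
  have := Fintype.ofFinite A
  have hVpos : 0 < Fintype.card (V n) := Fintype.card_pos
  have hNpos : (0 : ℝ) < Fintype.card (V n) := by exact_mod_cast hVpos
  set M1 := Mic μ (V n) F' δ' with hM1
  set M2 := Mic (μ.map (code F₀ φ)) (V n) F δ with hM2
  have hM1ne : M1 ≠ ∅ := by
    intro h0
    rw [rate, if_pos h0] at e1
    exact not_lt_bot e1
  have hM1pos : (0 : ℝ) < Nat.card M1 := by
    have : Nonempty M1 := (Set.nonempty_iff_ne_empty.mpr hM1ne).to_subtype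
    exact_mod_cast Nat.card_pos
  have hzM1 : z < Real.log (Nat.card M1) / Nat.card (V n) := by
    rw [rate, if_neg hM1ne] at e1
    exact_mod_cast e1
  have hpush : ∀ x ∈ M1, codeV F₀ φ x ∈ M2 := by
    intro x hx
    exact push_mic μ F₀ F F' hF' φ δ δ' hδ hδ'1 x hx
  have hpw : ∀ x ∈ M1, x ∈ Mic μ (V n) (pw s k) δ₄ := by
    intro x hx
    exact mic_mono μ (pw s k) F' hFp δ₄ δ' hδ₄ hδ'4 x hx
  -- the information set
  let EF : Finset (V n → ZMod 2) := (Ex s k (V n)).toFinset
  have hEF : Nat.card (Ex s k (V n)) = EF.card := by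
    rw [Nat.card_coe_set_eq, Set.ncard_eq_toFinset_card']
  obtain ⟨U, hU1, hU2⟩ := info_set EF (by
    rw [Set.mem_toFinset, mem_Ex]; intro q; simp) (by
    intro x hx y hy
    rw [Set.mem_toFinset, mem_Ex] at hx hy ⊢
    intro q
    rw [dotProduct_add, hx q, hy q, add_zero])
  set Gs : ℝ := ((Gd (V := V n) F₀ U).card : ℝ) with hGs
  -- fibres
  have hcls : ∀ (C : Finset (V n → ZMod 2)) (Z : Finset (Fin d × V n)) (y : V n → A),
      (∀ x ∈ C, Zv s k x = Z) → (∀ x ∈ C, codeV F₀ φ x = y) →
      (C.card : ℝ) ≤ 2 ^ U.card * p ^ ((1 / (m : ℝ)) * Gs) := by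
    intro C Z y hCZ hCy
    refine fiber_U F₀ hF₀ φ p hp0 hp' U C ?_ y hCy
    intro x hx x' hx' h
    have h1 : x + x' ∈ EF := by
      rw [Set.mem_toFinset, mem_Ex]
      intro q
      rw [dotProduct_add]
      have h2 : q ∈ Zv s k x ↔ q ∈ Zv s k x' := by rw [hCZ x hx, hCZ x' hx']
      simp only [Zv, Finset.mem_filter, Finset.mem_univ, true_and] at h2
      by_cases h3 : dotProduct (cw s k q.1 q.2) x = 0
      · have h4 : dotProduct (cw s k q.1 q.2) x' = 0 := by
          by_contra h5
          exact h2.mpr h5 h3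
        rw [h3, h4, add_zero]
      · have h4 := h2.mp h3
        rw [zmod2_ne _ h3, zmod2_ne _ h4]
        decide
    have h2 : (0 : V n → ZMod 2) ∈ EF := by
      rw [Set.mem_toFinset, mem_Ex]; intro q; simp
    have h3 := hU2 (x + x') h1 0 h2 (by
      intro u hu
      rw [Pi.add_apply, h u hu, Pi.zero_apply]
      exact CharTwo.add_self_eq_zero _)
    have hzz : ∀ z : V n → ZMod 2, z + z = 0 := by
      intro z; funext v; exact CharTwo.add_self_eq_zero _
    have h4 : x = x + (x' + x') := by rw [hzz, add_zero]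
    rw [h4, ← add_assoc, h3, zero_add]
  set B : ℝ := Real.exp (γ / 4 * Fintype.card (V n)) *
    (2 ^ U.card * p ^ ((1 / (m : ℝ)) * Gs)) with hB
  have hppos : 0 < p ^ ((1 / (m : ℝ)) * Gs) := Real.rpow_pos_of_pos hp0 _
  have hBpos : 0 < B := by
    rw [hB]
    have := Real.exp_pos (γ / 4 * Fintype.card (V n))
    positivity
  have hfib : ∀ y : V n → A, ((M1.toFinset.filter (fun x => codeV F₀ φ x = y)).card : ℝ) ≤ B := by
    intro y
    set C := M1.toFinset.filter (fun x => codeV F₀ φ x = y) with hC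
    have hs1 := hsyn (V n) C (by
      intro x hx
      rw [hC, Finset.mem_filter, Set.mem_toFinset] at hx
      exact hpw x hx.1)
    have hs2 : (C.card : ℝ) = ∑ Z ∈ C.image (Zv s k),
        ((C.filter (fun x => Zv s k x = Z)).card : ℝ) := by
      exact_mod_cast Finset.card_eq_sum_card_image (Zv s k) C
    rw [hs2]
    calc ∑ Z ∈ C.image (Zv s k), ((C.filter (fun x => Zv s k x = Z)).card : ℝ)
        ≤ ∑ Z ∈ C.image (Zv s k), (2 ^ U.card * p ^ ((1 / (m : ℝ)) * Gs)) := by
          apply Finset.sum_le_sum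
          intro Z _
          apply hcls _ Z y
          · intro x hx
            exact (Finset.mem_filter.mp hx).2
          · intro x hx
            have h1 := (Finset.mem_filter.mp hx).1
            exact (Finset.mem_filter.mp h1).2
      _ = (C.image (Zv s k)).card * (2 ^ U.card * p ^ ((1 / (m : ℝ)) * Gs)) := by
          rw [Finset.sum_const, nsmul_eq_mul]
      _ ≤ B := by
          rw [hB]
          exact mul_le_mul_of_nonneg_right hs1 (by positivity)
  have hM12 : (Nat.card M1 : ℝ) ≤ Nat.card M2 * B := by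
    have hc1 : Nat.card M1 = M1.toFinset.card := by
      rw [Nat.card_coe_set_eq, Set.ncard_eq_toFinset_card']
    have hc2 : Nat.card M2 = M2.toFinset.card := by
      rw [Nat.card_coe_set_eq, Set.ncard_eq_toFinset_card']
    rw [hc1, hc2]
    have h7 : (M1.toFinset.card : ℝ)
        = ∑ y ∈ M1.toFinset.image (codeV F₀ φ),
          ((M1.toFinset.filter (fun x => codeV F₀ φ x = y)).card : ℝ) := by
      exact_mod_cast Finset.card_eq_sum_card_image (codeV F₀ φ) M1.toFinset
    rw [h7]
    calc ∑ y ∈ M1.toFinset.image (codeV F₀ φ),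
          ((M1.toFinset.filter (fun x => codeV F₀ φ x = y)).card : ℝ)
        ≤ ∑ y ∈ M1.toFinset.image (codeV F₀ φ), B :=
          Finset.sum_le_sum (fun y _ => hfib y)
      _ = (M1.toFinset.image (codeV F₀ φ)).card * B := by
          rw [Finset.sum_const, nsmul_eq_mul]
      _ ≤ M2.toFinset.card * B := by
          apply mul_le_mul_of_nonneg_right _ hBpos.le
          have h8 : M1.toFinset.image (codeV F₀ φ) ⊆ M2.toFinset := by
            intro y hy
            rw [Finset.mem_image] at hy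
            obtain ⟨x, hx, rfl⟩ := hy
            rw [Set.mem_toFinset] at hx ⊢
            exact hpush x hx
          exact_mod_cast Finset.card_le_card h8
  have hM2pos : (0 : ℝ) < Nat.card M2 := by
    by_contra hcon
    have h9 : (Nat.card M2 : ℝ) = 0 := le_antisymm (not_lt.mp hcon) (by positivity)
    rw [h9, zero_mul] at hM12
    linarith
  have hM2ne : M2 ≠ ∅ := by
    intro h0
    rw [h0] at hM2pos
    simp at hM2pos
  rw [rate, if_neg hM2ne]
  have h7 : Real.log (Nat.card M1) ≤ Real.log (Nat.card M2) + (γ / 4 * Fintype.card (V n)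
      + (U.card * Real.log 2 + (1 / (m : ℝ)) * Gs * Real.log p)) := by
    have h9 := Real.log_le_log hM1pos hM12
    rw [Real.log_mul hM2pos.ne' hBpos.ne', hB,
      Real.log_mul (Real.exp_pos _).ne' (by positivity), Real.log_exp,
      Real.log_mul (by positivity) hppos.ne', Real.log_pow, Real.log_rpow hp0] at h9
    exact h9
  have hUe : (U.card : ℝ) * Real.log 2 = exr s k (V n) * Fintype.card (V n) := by
    rw [exr, hEF, hU1, Nat.card_eq_fintype_card (α := V n), Nat.cast_pow, Real.log_pow,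
      Nat.cast_ofNat]
    field_simp
  have hGd := Gd_card (V := V n) F₀ U
  have hbdc : ((Bad (V := V n) F₀).card : ℝ)
      = (Nat.card {v : V n // ¬ Set.InjOn (fun g : G => g⁻¹ • v) (F₀ : Set G)} : ℝ) := by
    rw [Nat.card_eq_fintype_card, Fintype.card_subtype, Bad]
  rw [Nat.card_eq_fintype_card (α := V n)] at e5 hzM1
  set N : ℝ := (Fintype.card (V n) : ℝ) with hN
  set bd : ℝ := (Nat.card {v : V n // ¬ Set.InjOn (fun g : G => g⁻¹ • v) (F₀ : Set G)} : ℝ)
      with hbd
  set e : ℝ := exr s k (V n) with he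
  rw [hbdc, ← hm, ← hGs] at hGd
  have h10 : z' ≤ Real.log (Nat.card M2) / Nat.card (V n) := by
    rw [Nat.card_eq_fintype_card (α := V n), ← hN, le_div_iff₀ hNpos]
    rw [lt_div_iff₀ hNpos] at hzM1
    have h11 := mul_lt_mul_of_pos_right e5 hNpos
    have h12 : l / m * (bd / N) * N = l / m * bd := by
      field_simp
    rw [h12] at h11
    -- lower bound for the number of good windows
    have hlp : Real.log p = - l := by rw [hl]; ring
    have h13 : (U.card : ℝ) = e / Real.log 2 * N := by
      have h14 : (U.card : ℝ) = U.card * Real.log 2 / Real.log 2 :=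
        (mul_div_cancel_right₀ _ hlog2.ne').symm
      rw [h14, hUe]; ring
    have h15 : N - bd - m * (N - e / Real.log 2 * N) ≤ Gs := by
      rw [← h13]; exact hGd
    have h16 : l / m * (N - bd - m * (N - e / Real.log 2 * N)) ≤ l / m * Gs :=
      mul_le_mul_of_nonneg_left h15 (div_nonneg hl0 hm0.le)
    have h17 : l / m * (N - bd - m * (N - e / Real.log 2 * N))
        = l / m * N - l / m * bd - l * (1 - e / Real.log 2) * N := by
      field_simp
    -- the deficiency
    have h18 : 1 - e / Real.log 2 ≤ d / k + ε₂ / Real.log 2 := by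
      have h19 : ((1 - (d : ℝ) / k) * Real.log 2 - ε₂) / Real.log 2 ≤ e / Real.log 2 :=
        div_le_div_of_nonneg_right e6.le hlog2.le
      have h20 : ((1 - (d : ℝ) / k) * Real.log 2 - ε₂) / Real.log 2
          = 1 - d / k - ε₂ / Real.log 2 := by
        field_simp
      rw [h20] at h19
      linarith
    have h19 : l * (1 - e / Real.log 2) ≤ l * (d / k) + γ / 8 := by
      have := mul_le_mul_of_nonneg_left h18 hl0
      rw [mul_add] at this
      linarith
    have h20 := mul_le_mul_of_nonneg_right h19 hNpos.le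
    have h21 := mul_le_mul_of_nonneg_right e7 hNpos.le
    rw [hUe, hlp] at h7
    have h22 : z' * N = z * N + (l / m * N - l * (d / k) * N - T * N) - γ * N := by
      rw [hγ]
      field_simp
      ring
    have h23 : 1 / (m : ℝ) * Gs * - l = - (l / m * Gs) := by ring
    rw [h23] at h7
    rw [h22]
    have h24 : (l * (d / k) + γ / 8) * N = l * (d / k) * N + γ / 8 * N := by ring
    have h25 : (T + γ / 4) * N = T * N + γ / 4 * N := by ring
    rw [h24] at h20
    rw [h25] at h21
    rw [h17] at h16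
    have h26 : 0 ≤ γ * N := by positivity
    linarith
  exact_mod_cast h10

end

end Pool.Agent.MP_9d0e09_an
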