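import Pool.Agent.Lib.MP_9d0e09_an.Sml

/-!
# Block factors with windows smaller than `k / d`: entropies, approximations by maps
-/

open MeasureTheory Filter Topology Finset

namespace Pool.Agent.MP_9d0e09_an

/-- The topological sofic entropy of the parity-check subshift along `σ` is at most `T`. -/
def TopLe {G : Type} [Group G] {d : ℕ} (s : Fin d → G) (k : ℕ) {V : ℕ → Type}
    (σ : ∀ n, G → Equiv.Perm (V n)) (T : ℝ) : Prop :=
  ∀ ε : ℝ, 0 < ε → ∃ δ : ℝ, 0 < δ ∧ ∀ᶠ n in atTop,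
    Real.log (Nat.card (App s k (σ n) δ)) / Nat.card (V n) ≤ T + ε

section

variable {G : Type} [Group G] {d : ℕ} (s : Fin d → G) (k : ℕ)

theorem gen_small (V : ℕ → Type) [∀ n, Finite (V n)] [∀ n, Nonempty (V n)]
    [∀ n, MulAction G (V n)] (hk : 0 < k) (hs : ∀ i, s i ^ k = 1)
    (hinj : ∀ i, Set.InjOn (fun l : ℕ => s i ^ l) (Finset.range k : Set ℕ))
    (μ : Measure (G → ZMod 2)) (hμ : IsHaarOn (PX s k) μ) (hV : IsSofic G V)
    (T : ℝ) (hT : ∀ ε : ℝ, 0 < ε → ∀ᶠ n in atTop, exr s k (V n) ≤ T + ε)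
    {A : Type} [Finite A] [MeasurableSpace A] [MeasurableSingletonClass A]
    (F₀ : Finset G) (hF₀ : F₀.Nonempty) (φ : (F₀ → ZMod 2) → A) (p : ℝ) (hp0 : 0 < p)
    (hp1 : p ≤ 1)
    (hp : ∀ a : A, (Nat.card {z : F₀ → ZMod 2 // φ z = a} : ℝ) ≤ p * 2 ^ F₀.card) :
    soficEntropy μ V + (((1 / (F₀.card : ℝ) - d / k) * (- Real.log p) - T : ℝ) : EReal)
      ≤ soficEntropy (μ.map (code F₀ φ)) V ∧
    lowerSoficEntropy μ V + (((1 / (F₀.card : ℝ) - d / k) * (- Real.log p) - T : ℝ) : EReal)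
      ≤ lowerSoficEntropy (μ.map (code F₀ φ)) V := by
  set c : ℝ := (1 / (F₀.card : ℝ) - d / k) * (- Real.log p) - T with hc
  have hred : ∀ a b : EReal, (∀ z : ℝ, (z : EReal) < a → ((z + c : ℝ) : EReal) ≤ b) →
      a + (c : EReal) ≤ b := by
    intro a b h
    rw [← EReal.le_sub_iff_add_le (Or.inl (EReal.coe_ne_bot c)) (Or.inl (EReal.coe_ne_top c)),
      ← EReal.ge_of_forall_gt_iff_ge]
    intro z hz
    rw [EReal.le_sub_iff_add_le (Or.inl (EReal.coe_ne_bot c)) (Or.inl (EReal.coe_ne_top c))]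
    have := h z hz
    rwa [EReal.coe_add] at this
  constructor
  · apply hred
    intro z hz
    rw [soficEntropy]
    apply le_iInf
    intro F
    apply le_iInf
    rintro ⟨δ, hδ⟩
    rw [← EReal.ge_of_forall_gt_iff_ge]
    intro z' hz'
    have hz'' : z' < z + c := by exact_mod_cast hz'
    obtain ⟨F', δ', hδ', hev⟩ := key_small s k V hk hs hinj μ hμ hV T hT F₀ hF₀ φ p hp0 hp1 hp
      F δ hδ z z' hz''
    have h0 : soficEntropy μ V ≤ limsup (fun n => rate (Mic μ (V n) F' δ')) atTop :=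
      iInf_le_of_le F' (iInf_le _ (⟨δ', hδ'⟩ : {δ : ℝ // 0 < δ}))
    have h1 : (z : EReal) < limsup (fun n => rate (Mic μ (V n) F' δ')) atTop :=
      lt_of_lt_of_le hz h0
    have h2 := frequently_lt_of_lt_limsup (by isBoundedDefault) h1
    exact le_limsup_of_frequently_le ((h2.and_eventually hev).mono (fun n hn => hn.2 hn.1))
      (by isBoundedDefault)
  · apply hred
    intro z hz
    rw [lowerSoficEntropy]
    apply le_iInf
    intro F
    apply le_iInf
    rintro ⟨δ, hδ⟩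
    rw [← EReal.ge_of_forall_gt_iff_ge]
    intro z' hz'
    have hz'' : z' < z + c := by exact_mod_cast hz'
    obtain ⟨F', δ', hδ', hev⟩ := key_small s k V hk hs hinj μ hμ hV T hT F₀ hF₀ φ p hp0 hp1 hp
      F δ hδ z z' hz''
    have h0 : lowerSoficEntropy μ V ≤ liminf (fun n => rate (Mic μ (V n) F' δ')) atTop :=
      iInf_le_of_le F' (iInf_le _ (⟨δ', hδ'⟩ : {δ : ℝ // 0 < δ}))
    have h1 : (z : EReal) < liminf (fun n => rate (Mic μ (V n) F' δ')) atTop :=
      lt_of_lt_of_le hz h0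
    have h2 := eventually_lt_of_lt_liminf h1 (by isBoundedDefault)
    exact le_liminf_of_le (by isBoundedDefault) ((h2.and hev).mono (fun n hn => hn.2 hn.1))

theorem exr_of {V : ℕ → Type} [∀ n, Finite (V n)] [∀ n, Nonempty (V n)]
    [∀ n, MulAction G (V n)] (σ : ∀ n, G → Equiv.Perm (V n))
    (hc : ∀ g : G, Small (fun n v => (σ n g)⁻¹ v ≠ g⁻¹ • v)) (T : ℝ) (hr : TopLe s k σ T) :
    ∀ ε : ℝ, 0 < ε → ∀ᶠ n in atTop, exr s k (V n) ≤ T + ε := by
  classical
  intro ε hε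
  obtain ⟨δ, hδ, h1⟩ := hr ε hε
  let F : Finset G :=
    (univ : Finset (Fin d)).biUnion fun i => (Finset.range k).image fun j => s i ^ j
  filter_upwards [h1, (tendsto_order.1 (badM_small σ hc F)).2 (δ / (d + 1)) (by positivity)]
    with n e1 e2
  refine le_trans ?_ e1
  rw [exr]
  apply div_le_div_of_nonneg_right _ (by positivity)
  have hN : (0 : ℝ) < Nat.card (V n) := by exact_mod_cast Nat.card_pos
  have hsub : Ex s k (V n) ⊆ App s k (σ n) δ := by
    intro x hx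
    have h4 : Nat.card {q : Fin d × V n //
          ∑ j ∈ Finset.range k, x ((σ n (s q.1 ^ j))⁻¹ q.2) ≠ 0}
        ≤ d * Nat.card {v : V n // BadM σ F n v} := by
      have h5 : Nat.card (Fin d × {v : V n // BadM σ F n v})
          = d * Nat.card {v : V n // BadM σ F n v} := by
        rw [Nat.card_prod, Nat.card_fin]
      rw [← h5]
      have hbad : ∀ q : {q : Fin d × V n //
          ∑ j ∈ Finset.range k, x ((σ n (s q.1 ^ j))⁻¹ q.2) ≠ 0}, BadM σ F n q.1.2 := by
        rintro ⟨⟨i, v⟩, hq⟩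
        by_contra hv
        apply hq
        have h6 : ∑ j ∈ Finset.range k, x ((1 * s i ^ j)⁻¹ • v) = 0 := hx v 1 i
        rw [← h6]
        apply Finset.sum_congr rfl
        intro j hj
        rw [one_mul]
        have hmem : s i ^ j ∈ F :=
          Finset.mem_biUnion.mpr ⟨i, Finset.mem_univ _, Finset.mem_image.mpr ⟨j, hj, rfl⟩⟩
        have h7 : (σ n (s i ^ j))⁻¹ v = (s i ^ j)⁻¹ • v := by
          by_contra hne
          exact hv ⟨_, hmem, hne⟩
        exact congrArg x h7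
      apply Nat.card_le_card_of_injective
        (fun q => ((q.1.1, ⟨q.1.2, hbad q⟩) : Fin d × {v : V n // BadM σ F n v}))
      intro q q' hqq
      apply Subtype.ext
      have h8 := congrArg Prod.fst hqq
      have h9 := congrArg (fun z => (Prod.snd z).1) hqq
      exact Prod.ext h8 h9
    show (Nat.card _ : ℝ) ≤ δ * Nat.card (V n)
    have h10 : (Nat.card {q : Fin d × V n //
          ∑ j ∈ Finset.range k, x ((σ n (s q.1 ^ j))⁻¹ q.2) ≠ 0} : ℝ)
        ≤ d * Nat.card {v : V n // BadM σ F n v} := by exact_mod_cast h4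
    refine h10.trans ?_
    rw [div_lt_iff₀ hN] at e2
    have h11 : (d : ℝ) * (δ / (d + 1) * Nat.card (V n)) ≤ δ * Nat.card (V n) := by
      have h12 : (d : ℝ) / (d + 1) ≤ 1 := by
        rw [div_le_one (by positivity)]
        linarith
      have h13 : (d : ℝ) * (δ / (d + 1) * Nat.card (V n))
          = (d : ℝ) / (d + 1) * (δ * Nat.card (V n)) := by ring
      rw [h13]
      have h14 : 0 ≤ δ * (Nat.card (V n) : ℝ) := by positivity
      nlinarith
    refine le_trans ?_ h11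
    exact mul_le_mul_of_nonneg_left e2.le (by positivity)
  have hne : Nonempty (Ex s k (V n)) := by
    refine ⟨⟨0, ?_⟩⟩
    intro v g i
    simp
  have hpos : 0 < Nat.card (Ex s k (V n)) := Nat.card_pos
  apply Real.log_le_log (by exact_mod_cast hpos)
  exact_mod_cast Nat.card_mono (Set.toFinite _) hsub

end

/-- Small windows, approximations by maps. -/
theorem small_map (d k : ℕ) (hd : 3 ≤ d) (hdk : d < k)
    (μ : Measure (Gam d k → ZMod 2)) (hμ : IsHaarOn (PX (gen d k) k) μ)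
    (V : ℕ → Type) [∀ n, Finite (V n)] [∀ n, Nonempty (V n)]
    (σ : ∀ n, Gam d k → Equiv.Perm (V n)) (hσ : IsSoficMap σ) (T : ℝ)
    (hT : TopLe (gen d k) k σ T)
    (A : Type) [Finite A] [MeasurableSpace A] [MeasurableSingletonClass A]
    (F₀ : Finset (Gam d k)) (hF₀ : F₀.Nonempty) (φ : (F₀ → ZMod 2) → A) (p : ℝ) (hp0 : 0 < p)
    (hp1 : p ≤ 1)
    (hp : ∀ a : A, (Nat.card {z : F₀ → ZMod 2 // φ z = a} : ℝ) ≤ p * 2 ^ F₀.card) :
    soficEntropyM μ σ + (((1 / (F₀.card : ℝ) - d / k) * (- Real.log p) - T : ℝ) : EReal)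
      ≤ soficEntropyM (μ.map (code F₀ φ)) σ ∧
    lowerSoficEntropyM μ σ + (((1 / (F₀.card : ℝ) - d / k) * (- Real.log p) - T : ℝ) : EReal)
      ≤ lowerSoficEntropyM (μ.map (code F₀ φ)) σ := by
  have : NeZero k := ⟨by omega⟩
  let I : ∀ n, MulAction (Gam d k) (V n) :=
    fun n => MulAction.compHom (V n) (hom d k (σ n))
  have hc1 : ∀ g : Gam d k, Small (fun n v => σ n g v ≠ g • v) :=
    close_all σ hσ (by omega)
  have hc2 : ∀ g : Gam d k, Small (fun n v => (σ n g)⁻¹ v ≠ g⁻¹ • v) := by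
    intro g
    refine (close_inv σ hσ (by omega) g).mono ?_
    intro n v h h'
    apply h
    rw [h']
    show ((hom d k (σ n)) g)⁻¹ v = (hom d k (σ n)) g⁻¹ v
    rw [map_inv]
  have hV := sofic_of σ hσ hc1
  have hE := exr_of (gen d k) k σ hc2 T hT
  rw [(soficEntropyM_eq σ μ hc2).1, (soficEntropyM_eq σ μ hc2).2,
    (soficEntropyM_eq σ (μ.map (code F₀ φ)) hc2).1, (soficEntropyM_eq σ (μ.map (code F₀ φ)) hc2).2]
  exact gen_small (gen d k) k V (by omega) (gen_pow_k d k) (gen_inj d k) μ hμ hV T hE F₀ hF₀ φ p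
    hp0 hp1 hp

/-- Nonconstant block codes with windows smaller than `k / d`. -/
theorem small_pos (d k : ℕ) (hd : 3 ≤ d) (hdk : d < k)
    (μ : Measure (Gam d k → ZMod 2)) (hμ : IsHaarOn (PX (gen d k) k) μ)
    (V : ℕ → Type) [∀ n, Finite (V n)] [∀ n, Nonempty (V n)]
    (σ : ∀ n, Gam d k → Equiv.Perm (V n)) (hσ : IsSoficMap σ) (T : ℝ)
    (hT : TopLe (gen d k) k σ T)
    (A : Type) [Finite A] [MeasurableSpace A] [MeasurableSingletonClass A]
    (F₀ : Finset (Gam d k)) (φ : (F₀ → ZMod 2) → A) (hφ : ∃ z z', φ z ≠ φ z')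
    (hm : d * F₀.card < k) :
    ((T : EReal) ≤ soficEntropyM μ σ → 0 < soficEntropyM (μ.map (code F₀ φ)) σ) ∧
    ((T : EReal) ≤ lowerSoficEntropyM μ σ → 0 < lowerSoficEntropyM (μ.map (code F₀ φ)) σ) := by
  classical
  obtain ⟨z, z', hzz⟩ := hφ
  have hF₀ : F₀.Nonempty := by
    by_contra hcon
    rw [Finset.not_nonempty_iff_eq_empty] at hcon
    subst hcon
    apply hzz
    congr 1
    funext h
    exact absurd h.2 (Finset.notMem_empty _)
  have hm1 : 1 ≤ F₀.card := Finset.card_pos.mpr hF₀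
  have hm0 : (0 : ℝ) < F₀.card := by exact_mod_cast hm1
  have h2m : (2 : ℝ) ≤ 2 ^ F₀.card := by
    calc (2 : ℝ) = 2 ^ 1 := by norm_num
      _ ≤ 2 ^ F₀.card := pow_le_pow_right₀ (by norm_num) hm1
  have hx0 : (0 : ℝ) < 1 / 2 ^ F₀.card := by positivity
  have hx1 : (1 : ℝ) / 2 ^ F₀.card ≤ 1 / 2 := one_div_le_one_div_of_le (by norm_num) h2m
  have hp : ∀ a : A, (Nat.card {w : F₀ → ZMod 2 // φ w = a} : ℝ)
      ≤ (1 - 1 / 2 ^ F₀.card) * 2 ^ F₀.card := by
    intro a
    have hex : ∃ w0, φ w0 ≠ a := by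
      by_cases h : φ z = a
      · exact ⟨z', fun h' => hzz (h.trans h'.symm)⟩
      · exact ⟨z, h⟩
    obtain ⟨w0, hw0⟩ := hex
    rw [Nat.card_eq_fintype_card, Fintype.card_subtype]
    have h1 : (univ.filter (fun w : F₀ → ZMod 2 => φ w = a)) ⊆ univ.erase w0 := by
      intro w hw
      rw [Finset.mem_erase]
      refine ⟨?_, Finset.mem_univ _⟩
      rintro rfl
      exact hw0 (Finset.mem_filter.mp hw).2
    have h2 := Finset.card_le_card h1
    rw [Finset.card_erase_of_mem (Finset.mem_univ _), Finset.card_univ, Fintype.card_fun, ZMod.card,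
      Fintype.card_coe] at h2
    have h3 : 1 ≤ 2 ^ F₀.card := Nat.one_le_two_pow
    have h4 : ((univ.filter (fun w : F₀ → ZMod 2 => φ w = a)).card : ℝ) ≤ 2 ^ F₀.card - 1 := by
      have h5 : (univ.filter (fun w : F₀ → ZMod 2 => φ w = a)).card + 1 ≤ 2 ^ F₀.card := by omega
      have h6 : (((univ.filter (fun w : F₀ → ZMod 2 => φ w = a)).card + 1 : ℕ) : ℝ)
          ≤ ((2 ^ F₀.card : ℕ) : ℝ) := by exact_mod_cast h5
      push_cast at h6
      linarith
    have h7 : (1 - 1 / (2 : ℝ) ^ F₀.card) * 2 ^ F₀.card = 2 ^ F₀.card - 1 := by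
      rw [sub_mul, one_mul, one_div, inv_mul_cancel₀ (by positivity)]
    rw [h7]
    exact h4
  have h1 := small_map d k hd hdk μ hμ V σ hσ T hT A F₀ hF₀ φ (1 - 1 / 2 ^ F₀.card)
    (by linarith) (by linarith) hp
  have hlog : Real.log (1 - 1 / 2 ^ F₀.card) < 0 :=
    Real.log_neg (by linarith) (by linarith)
  have hk0 : (0 : ℝ) < k := by
    have : 0 < k := by omega
    exact_mod_cast this
  have h2 : (d : ℝ) / k < 1 / F₀.card := by
    rw [div_lt_div_iff₀ hk0 hm0, one_mul]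
    exact_mod_cast hm
  have h3 : 0 < (1 / (F₀.card : ℝ) - d / k) * (- Real.log (1 - 1 / 2 ^ F₀.card)) :=
    mul_pos (by linarith) (by linarith)
  set c : ℝ := (1 / (F₀.card : ℝ) - d / k) * (- Real.log (1 - 1 / 2 ^ F₀.card)) with hc
  have h4 : (0 : EReal) < ((T : ℝ) : EReal) + ((c - T : ℝ) : EReal) := by
    rw [← EReal.coe_add]
    have h5 : T + (c - T) = c := by ring
    rw [h5]
    exact_mod_cast h3
  constructor
  · intro h
    exact h4.trans_le ((add_le_add_left h _).trans h1.1)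
  · intro h
    exact h4.trans_le ((add_le_add_left h _).trans h1.2)

/-- Approximations of design rate. -/
theorem small_design (d k : ℕ) (hd : 3 ≤ d) (hdk : d < k)
    (μ : Measure (Gam d k → ZMod 2)) (hμ : IsHaarOn (PX (gen d k) k) μ)
    (V : ℕ → Type) [∀ n, Finite (V n)] [∀ n, Nonempty (V n)]
    (σ : ∀ n, Gam d k → Equiv.Perm (V n)) (hσ : IsSoficMap σ)
    (hT : TopLe (gen d k) k σ ((1 - (d : ℝ) / k) * Real.log 2))
    (A : Type) [Finite A] [MeasurableSpace A] [MeasurableSingletonClass A]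
    (F₀ : Finset (Gam d k)) (hF₀ : F₀.Nonempty) (φ : (F₀ → ZMod 2) → A) (p : ℝ) (hp0 : 0 < p)
    (hp1 : p ≤ 1)
    (hp : ∀ a : A, (Nat.card {z : F₀ → ZMod 2 // φ z = a} : ℝ) ≤ p * 2 ^ F₀.card) :
    (((1 / (F₀.card : ℝ) - d / k) * (- Real.log p) : ℝ) : EReal)
      ≤ lowerSoficEntropyM (μ.map (code F₀ φ)) σ := by
  have h1 := (small_map d k hd hdk μ hμ V σ hσ _ hT A F₀ hF₀ φ p hp0 hp1 hp).2
  have h2 := (main_map d k hd hdk μ hμ V σ hσ hT).2.1
  rw [h2, ← EReal.coe_add] at h1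
  have h3 : (1 - (d : ℝ) / k) * Real.log 2 + ((1 / (F₀.card : ℝ) - d / k) * (- Real.log p)
      - (1 - (d : ℝ) / k) * Real.log 2) = (1 / (F₀.card : ℝ) - d / k) * (- Real.log p) := by ring
  rw [h3] at h1
  exact h1

end Pool.Agent.MP_9d0e09_an
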