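import Pool.Agent.Lib.MP_9d0e09_an.Stm

/-!
# Measurable factors and permutive codes: the statement
-/

open MeasureTheory Filter Topology Finset

namespace Pool.Agent.MP_9d0e09_an

open Classical in
/-- The conditional Shannon entropy of `P x` given the word of the factor `mcode ψ` on `W`. -/
noncomputable def condHf {G A B : Type} [Group G] [Fintype A] [Fintype B]
    (μ : Measure (G → ZMod 2)) (ψ : (G → ZMod 2) → A) (W : Finset G)
    (P : (G → ZMod 2) → B) : ℝ :=
  ∑ b : W → A, ∑ c : B, Real.negMulLog (μ.real {x | (∀ w : W, mcode ψ x w = b w) ∧ P x = c})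
    - ∑ b : W → A, Real.negMulLog (μ.real {x | ∀ w : W, mcode ψ x w = b w})

/-- Almost surely, `P x` is a measurable function of the factor `mcode ψ`. -/
def DeterminesF {G A B : Type} [Group G] [MeasurableSpace A] [MeasurableSpace B]
    (μ : Measure (G → ZMod 2)) (ψ : (G → ZMod 2) → A) (P : (G → ZMod 2) → B) : Prop :=
  ∃ Θ : (G → A) → B, Measurable Θ ∧ ∀ᵐ x ∂μ, P x = Θ (mcode ψ x)

/-- Measurable factors and permutive codes. -/
theorem perm_stm (d k : ℕ) (hk : 2 ≤ k) (μ : Measure (Gam d k → ZMod 2))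
    [IsProbabilityMeasure μ]
    (V : ℕ → Type) [∀ n, Finite (V n)] [∀ n, Nonempty (V n)]
    (σ : ∀ n, Gam d k → Equiv.Perm (V n)) (hσ : IsSoficMap σ)
    (h : Gam d k) (hh : ¬ IsOfFinOrder h) (a : ℤ) (D : ℕ)
    {B : Type} [Fintype B] [MeasurableSpace B] [MeasurableSingletonClass B]
    (ψ₀ : (Fin (D + 1) → ZMod 2) → B) (hψ₀ : Permutive ψ₀)
    {A : Type} [Fintype A] [MeasurableSpace A] [MeasurableSingletonClass A]
    (ψ : (Gam d k → ZMod 2) → A) (hψ : Measurable ψ) :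
    (∀ W : Finset (Gam d k), EntGe μ (μ.map (mcode ψ)) σ
      (- condHf μ ψ W (fun x => pcode h a D ψ₀ x 1))) ∧
    (DeterminesF μ ψ (fun x => pcode h a D ψ₀ x 1) → EntGe μ (μ.map (mcode ψ)) σ 0) := by
  constructor
  · intro W
    exact uni_perm d k hk μ V σ hσ h hh a D ψ₀ hψ₀ ψ hψ _
      (pred_condH μ ψ hψ W (pwin h a D) (pphi h a D ψ₀))
  · rintro ⟨Θ, hΘ, hae⟩
    have hH := pred_zero μ ψ hψ (pwin h a D) (pphi h a D ψ₀) Θ hΘ hae
    have h1 := uni_perm d k hk μ V σ hσ h hh a D ψ₀ hψ₀ ψ hψ 0 hH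
    rw [neg_zero] at h1
    exact h1

end Pool.Agent.MP_9d0e09_an
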