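import Pool.Agent.Lib.MP_9d0e09_an.Img2

/-!
# Factors that determine a function without periods: the statement
-/

open MeasureTheory Filter Topology Finset

namespace Pool.Agent.MP_9d0e09_an

/-- No `u` in `X` with `∑ t ∈ T, u t ≠ 0` is a period of `x ↦ φ (x on F)` on `X`. -/
def Moves {G B : Type} (X : Set (G → ZMod 2)) (F : Finset G) (φ : (F → ZMod 2) → B)
    (T : Finset G) : Prop :=
  ∀ u ∈ X, ∑ t ∈ T, u t ≠ 0 → ∃ x ∈ X, φ (fun g => x g + u g) ≠ φ (fun g => x g)

/-- `T` is contained in a left coset of the subgroup generated by an element of infinite order. -/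
def InCoset {G : Type} [Group G] (T : Finset G) : Prop :=
  ∃ h g : G, ¬ IsOfFinOrder g ∧ ∀ t ∈ T, ∃ j : ℤ, t = h * g ^ j

/-- The indicator of the pattern of `b` on `F`. -/
def cylInd {G : Type} (F : Finset G) (b : G → ZMod 2) (z : F → ZMod 2) : Bool :=
  decide (∀ g : F, z g = b g)

/-- Along `σ` the lower sofic entropy of `ν` is at least `c`. -/
def LowGe {G A : Type} [MeasurableSpace A] (ν : Measure (G → A))
    {V : ℕ → Type} (σ : ∀ n, G → Equiv.Perm (V n)) (c : ℝ) : Prop :=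
  (c : EReal) ≤ lowerSoficEntropyM ν σ

/-- Along `σ` the lower sofic entropy of the factor `mcode ψ` is at least `c` minus the conditional
entropy of `φ` of the pattern on `F` given any word of the factor, and at least `c` if the factor
determines `φ` of the pattern on `F`. -/
def LowBound {G A B : Type} [Group G] [Fintype A] [MeasurableSpace A] [Fintype B]
    [MeasurableSpace B] (μ : Measure (G → ZMod 2)) (ψ : (G → ZMod 2) → A) (F : Finset G)
    (φ : (F → ZMod 2) → B) {V : ℕ → Type} (σ : ∀ n, G → Equiv.Perm (V n)) (c : ℝ) : Prop :=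
  (∀ W : Finset G, LowGe (μ.map (mcode ψ)) σ (c - condH μ ψ W F φ)) ∧
  (Determines μ ψ F φ → LowGe (μ.map (mcode ψ)) σ c)

open Classical in
/-- The function `φ` together with the mark of the patterns of `X`. -/
noncomputable def mark {G B : Type} (X : Set (G → ZMod 2)) (F : Finset G)
    (φ : (F → ZMod 2) → B) (z : F → ZMod 2) : Bool × B :=
  (decide (∃ x ∈ X, ∀ g : F, x g = z g), φ z)

theorem cylInd_moves {G : Type} (X : Set (G → ZMod 2)) (F : Finset G) (b : G → ZMod 2)
    (hb : b ∈ X) (t : G) (hF : t ∈ F) : Moves X F (cylInd F b) {t} := by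
  intro u _ hu
  rw [Finset.sum_singleton] at hu
  refine ⟨b, hb, ?_⟩
  have h1 : cylInd F b (fun g : F => b g) = true := decide_eq_true (fun g => rfl)
  have h2 : cylInd F b (fun g : F => b g + u g) = false := by
    apply decide_eq_false
    intro hall
    have h3 : b t + u t = b t := hall ⟨t, hF⟩
    exact hu (by simpa using h3)
  rw [h1, h2]
  exact Bool.false_ne_true

theorem two_patterns {G B : Type} (X : Set (G → ZMod 2))
    (hadd : ∀ x ∈ X, ∀ y ∈ X, x + y ∈ X) (F : Finset G) (φ : (F → ZMod 2) → B)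
    (T : Finset G) (hTF : T ⊆ F) (hφ : Moves X F φ T) (u : G → ZMod 2) (hu : u ∈ X)
    (hut : ∑ t ∈ T, u t ≠ 0) :
    2 ≤ Nat.card {z : F → ZMod 2 //
      (∃ x ∈ X, ∀ g : F, x g = z g) ∧ φ (fun g => z g + u g) ≠ φ z} := by
  classical
  obtain ⟨x, hx, hne⟩ := hφ u hu hut
  let z₁ : F → ZMod 2 := fun g => x g
  let z₂ : F → ZMod 2 := fun g => x g + u g
  have hz : z₁ ≠ z₂ := by
    intro heq
    apply hut
    apply Finset.sum_eq_zero
    intro t ht
    have h3 : x t = x t + u t := congrFun heq ⟨t, hTF ht⟩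
    simpa using h3
  have h4 : (fun g : F => z₂ g + u g) = z₁ := by
    funext g
    show x g + u g + u g = x g
    rw [add_assoc, CharTwo.add_self_eq_zero, add_zero]
  have m1 : (∃ x ∈ X, ∀ g : F, x g = z₁ g) ∧ φ (fun g => z₁ g + u g) ≠ φ z₁ :=
    ⟨⟨x, hx, fun g => rfl⟩, hne⟩
  have m2 : (∃ x ∈ X, ∀ g : F, x g = z₂ g) ∧ φ (fun g => z₂ g + u g) ≠ φ z₂ := by
    refine ⟨⟨x + u, hadd x hx u hu, fun g => rfl⟩, ?_⟩
    rw [h4]
    exact hne.symm
  rw [Nat.card_eq_fintype_card, Fintype.card_subtype]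
  refine le_trans (Finset.card_pair hz).ge (Finset.card_le_card ?_)
  intro z hz
  rw [Finset.mem_insert, Finset.mem_singleton] at hz
  rw [Finset.mem_filter]
  refine ⟨Finset.mem_univ _, ?_⟩
  rcases hz with rfl | rfl
  · exact m1
  · exact m2

theorem mark_sens {G B : Type} (X : Set (G → ZMod 2))
    (hadd : ∀ x ∈ X, ∀ y ∈ X, x + y ∈ X) (F : Finset G)
    (φ : (F → ZMod 2) → B) (T : Finset G) (hTF : T ⊆ F) (hu₀ : ∃ u ∈ X, ∑ t ∈ T, u t ≠ 0)
    (hφ : Moves X F φ T) :
    Sens X F (mark X F φ) T 2 := by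
  intro u hu
  by_cases hX : ∃ y ∈ X, ∀ g : F, y g = u g
  · obtain ⟨y, hy, hyu⟩ := hX
    have huh : ∑ t ∈ T, y t ≠ 0 := by
      have h1 : ∑ t ∈ T, y t = ∑ t ∈ T, u t :=
        Finset.sum_congr rfl (fun t ht => hyu ⟨t, hTF ht⟩)
      rw [h1]; exact hu
    refine (two_patterns X hadd F φ T hTF hφ y hy huh).trans (Nat.card_le_card_of_injective
      (fun z => ⟨z.1, z.2.1, ?_⟩) ?_)
    · intro heq
      apply z.2.2
      have h2 : φ (fun g : F => z.1 g + u g) = φ z.1 := congrArg Prod.snd heq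
      have h3 : (fun g : F => z.1 g + y g) = (fun g : F => z.1 g + u g) := by
        funext g; rw [hyu g]
      rw [h3]
      exact h2
    · intro z z' hzz
      have h7 := Subtype.ext_iff.mp hzz
      exact Subtype.ext h7
  · obtain ⟨u₀, hu₀, hu₀t⟩ := hu₀
    refine (two_patterns X hadd F φ T hTF hφ u₀ hu₀ hu₀t).trans (Nat.card_le_card_of_injective
      (fun z => ⟨z.1, z.2.1, ?_⟩) ?_)
    · intro heq
      have h2 := congrArg Prod.fst heq
      simp only [mark] at h2
      rw [decide_eq_decide] at h2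
      apply hX
      obtain ⟨x, hx, hxz⟩ := z.2.1
      obtain ⟨y, hy, hyu⟩ := h2.mpr ⟨x, hx, hxz⟩
      refine ⟨x + y, hadd x hx y hy, fun g => ?_⟩
      rw [Pi.add_apply, hxz g, hyu g, ← add_assoc, CharTwo.add_self_eq_zero, zero_add]
    · intro z z' hzz
      have h7 := Subtype.ext_iff.mp hzz
      exact Subtype.ext h7

section

variable {G : Type} [Group G]

theorem mark_code {B : Type} (X : Set (G → ZMod 2)) (F : Finset G) (φ : (F → ZMod 2) → B)
    (x : G → ZMod 2) (hx : x ∈ X) : code F (mark X F φ) x 1 = (true, code F φ x 1) := by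
  apply Prod.ext
  · show (mark X F φ (fun g : F => x (1 * g))).1 = true
    exact @decide_eq_true _ (Classical.propDecidable _) ⟨x, hx, fun g =>
      (congrArg x (one_mul (g : G))).symm⟩
  · rfl

theorem mark_condH {A B : Type} [Fintype A] [Fintype B] (μ : Measure (G → ZMod 2))
    (X : Set (G → ZMod 2)) (hX : μ Xᶜ = 0) (ψ : (G → ZMod 2) → A) (W F : Finset G)
    (φ : (F → ZMod 2) → B) : condH μ ψ W F (mark X F φ) = condH μ ψ W F φ := by
  classical
  have hae : ∀ᵐ x ∂μ, x ∈ X := by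
    rw [ae_iff]
    exact hX
  have h1 : ∀ (b : W → A) (a : B), jlaw μ ψ W F (mark X F φ) b (true, a) = jlaw μ ψ W F φ b a := by
    intro b a
    rw [jlaw, jlaw]
    apply measureReal_congr
    filter_upwards [hae] with x hx
    apply propext
    show ((∀ w : W, mcode ψ x w = b w) ∧ code F (mark X F φ) x 1 = (true, a))
      ↔ ((∀ w : W, mcode ψ x w = b w) ∧ code F φ x 1 = a)
    rw [mark_code X F φ x hx, Prod.ext_iff]
    simp
  have h2 : ∀ (b : W → A) (a : B), jlaw μ ψ W F (mark X F φ) b (false, a) = 0 := by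
    intro b a
    rw [jlaw]
    have h3 : μ.real {x | (∀ w : W, mcode ψ x w = b w) ∧ code F (mark X F φ) x 1 = (false, a)}
        = μ.real (∅ : Set (G → ZMod 2)) := by
      apply measureReal_congr
      filter_upwards [hae] with x hx
      apply propext
      show ((∀ w : W, mcode ψ x w = b w) ∧ code F (mark X F φ) x 1 = (false, a)) ↔ False
      rw [mark_code X F φ x hx, Prod.ext_iff]
      simp
    rw [h3, measureReal_empty]
  rw [condH, condH]
  congr 1
  apply Finset.sum_congr rfl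
  intro b _
  rw [Fintype.sum_prod_type, Fintype.sum_bool]
  simp only [h1, h2, Real.negMulLog_zero, Finset.sum_const_zero, add_zero]

end

section

variable {G : Type} [Group G]

theorem ker_single (V : ℕ → Type) [∀ n, Finite (V n)] [∀ n, MulAction G (V n)] (t : G) :
    KerSmall V ({t} : Finset G) := by
  intro γ hγ
  refine Eventually.of_forall fun n y => ?_
  have h1 : Nat.card {x : V n → ZMod 2 // ∀ v, ∑ g ∈ ({t} : Finset G), x (g⁻¹ • v) = y v} ≤ 1 := by
    rw [Finite.card_le_one_iff_subsingleton]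
    constructor
    intro x x'
    apply Subtype.ext
    funext v
    have h2 := x.2 (t • v)
    have h3 := x'.2 (t • v)
    rw [Finset.sum_singleton, inv_smul_smul] at h2 h3
    rw [h2, h3]
  have h2 : (1 : ℝ) ≤ Real.exp (γ * Nat.card (V n)) := Real.one_le_exp (by positivity)
  refine le_trans ?_ h2
  exact_mod_cast h1

theorem ker_coset (V : ℕ → Type) [∀ n, Finite (V n)] [∀ n, Nonempty (V n)]
    [∀ n, MulAction G (V n)] (hV : IsSofic G V) (T : Finset G) (hT0 : T.Nonempty)
    (hT : InCoset T) : KerSmall V T := by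
  classical
  obtain ⟨h, g, hg, hT⟩ := hT
  let f : ℤ → G := fun j => h * g ^ j
  have hf : Function.Injective f := by
    intro i j hij
    exact injective_zpow_iff_not_isOfFinOrder.mpr hg (mul_left_cancel hij)
  let J : Finset ℤ := T.preimage f hf.injOn
  have hJ : ∀ t ∈ T, ∃ j ∈ J, f j = t := by
    intro t ht
    obtain ⟨j, hj⟩ := hT t ht
    refine ⟨j, ?_, hj.symm⟩
    rw [Finset.mem_preimage]
    show h * g ^ j ∈ T
    rw [← hj]; exact ht
  have hJ0 : J.Nonempty := by
    obtain ⟨t, ht⟩ := hT0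
    obtain ⟨j, hj, _⟩ := hJ t ht
    exact ⟨j, hj⟩
  set a : ℤ := J.min' hJ0 with ha
  set b : ℤ := J.max' hJ0 with hb
  have hab : a ≤ b := Finset.min'_le_max' J hJ0
  set D : ℕ := (b - a).toNat with hD
  have hDb : a + (D : ℤ) = b := by
    rw [hD, Int.toNat_of_nonneg (by omega)]; ring
  have hbT : f (a + (D : ℤ)) ∈ T := by
    rw [hDb]
    exact Finset.mem_preimage.mp (Finset.max'_mem J hJ0)
  let ψ : (Fin (D + 1) → ZMod 2) → ZMod 2 := fun z =>
    ∑ i : Fin (D + 1), if f (a + ((i : ℕ) : ℤ)) ∈ T then z i else 0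
  have hψ : Permutive ψ := by
    intro u v huv heq
    have e : ∀ z : Fin (D + 1) → ZMod 2, ψ z = (∑ i : Fin D,
        if f (a + ((i.castSucc : ℕ) : ℤ)) ∈ T then z i.castSucc else 0) + z (Fin.last D) := by
      intro z
      show (∑ i : Fin (D + 1), if f (a + ((i : ℕ) : ℤ)) ∈ T then z i else 0) = _
      rw [Fin.sum_univ_castSucc]
      congr 1
      rw [if_pos]
      rw [Fin.val_last]
      exact hbT
    rw [e, e] at heq
    have e2 : (∑ i : Fin D, if f (a + ((i.castSucc : ℕ) : ℤ)) ∈ T then u i.castSucc else 0)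
        = ∑ i : Fin D, if f (a + ((i.castSucc : ℕ) : ℤ)) ∈ T then v i.castSucc else 0 := by
      apply Finset.sum_congr rfl
      intro i _
      rw [huv i.castSucc (Fin.castSucc_lt_last i).ne]
    rw [e2] at heq
    have e3 := add_left_cancel heq
    funext i
    by_cases hi : i = Fin.last D
    · rw [hi]; exact e3
    · exact huv i hi
  have hsum : ∀ (F : G → ZMod 2), ∑ t ∈ T, F t
      = ∑ i : Fin (D + 1), if f (a + ((i : ℕ) : ℤ)) ∈ T then F (f (a + ((i : ℕ) : ℤ))) else 0 := by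
    intro F
    rw [← Finset.sum_filter]
    symm
    apply Finset.sum_bij (fun (i : Fin (D + 1)) _ => f (a + ((i : ℕ) : ℤ)))
    · intro i hi
      exact (Finset.mem_filter.mp hi).2
    · intro i _ i' _ hii
      have h1 := hf hii
      apply Fin.ext
      omega
    · intro t ht
      obtain ⟨j, hj, hjt⟩ := hJ t ht
      have h1 : a ≤ j := Finset.min'_le J j hj
      have h2 : j ≤ b := Finset.le_max' J j hj
      have h3 : a + (((j - a).toNat : ℕ) : ℤ) = j := by
        rw [Int.toNat_of_nonneg (by omega)]; ring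
      refine ⟨⟨(j - a).toNat, by omega⟩, ?_, ?_⟩
      · rw [Finset.mem_filter]
        refine ⟨Finset.mem_univ _, ?_⟩
        show f (a + (((j - a).toNat : ℕ) : ℤ)) ∈ T
        rw [h3, hjt]; exact ht
      · show f (a + (((j - a).toNat : ℕ) : ℤ)) = t
        rw [h3, hjt]
    · intro i _; rfl
  intro γ hγ
  filter_upwards [fib_small V hV g hg D ψ hψ γ hγ] with n hn
  intro y
  refine le_trans ?_ (hn (fun w => y ((h * g ^ a) • w)))
  have hmap : ∀ x : {x : V n → ZMod 2 // ∀ v, ∑ t ∈ T, x (t⁻¹ • v) = y v},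
      ∀ w : V n, ψ (fun i : Fin (D + 1) => x.1 (g⁻¹ ^ (i : ℕ) • w)) = y ((h * g ^ a) • w) := by
    intro x w
    rw [← x.2 ((h * g ^ a) • w), hsum (fun t => x.1 (t⁻¹ • (h * g ^ a) • w))]
    apply Finset.sum_congr rfl
    intro i _
    have e : (f (a + ((i : ℕ) : ℤ)))⁻¹ * (h * g ^ a) = g⁻¹ ^ (i : ℕ) := by
      show (h * g ^ (a + ((i : ℕ) : ℤ)))⁻¹ * (h * g ^ a) = g⁻¹ ^ (i : ℕ)
      rw [mul_inv_rev, mul_assoc, inv_mul_cancel_left, ← zpow_neg, ← zpow_add, inv_pow,
        ← zpow_natCast, ← zpow_neg]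
      congr 1
      ring
    simp only [smul_smul, e]
  have h1 : Nat.card {x : V n → ZMod 2 // ∀ v, ∑ t ∈ T, x (t⁻¹ • v) = y v}
      ≤ Nat.card {x : V n → ZMod 2 //
        ∀ w : V n, ψ (fun i : Fin (D + 1) => x (g⁻¹ ^ (i : ℕ) • w)) = y ((h * g ^ a) • w)} := by
    apply Nat.card_le_card_of_injective (fun x => (⟨x.1, hmap x⟩ :
      {x : V n → ZMod 2 // ∀ w : V n, ψ (fun i : Fin (D + 1) => x (g⁻¹ ^ (i : ℕ) • w))
        = y ((h * g ^ a) • w)}))
    intro x x' hxx
    have h3 := congrArg Subtype.val hxx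
    exact Subtype.ext h3
  exact_mod_cast h1

end

/-- A function that is not constant on `X` moves along a sum of coordinates. -/
theorem exists_T {G B : Type} (X : Set (G → ZMod 2)) (h0 : (0 : G → ZMod 2) ∈ X)
    (hadd : ∀ x ∈ X, ∀ y ∈ X, x + y ∈ X) (F : Finset G) (φ : (F → ZMod 2) → B)
    (hne : ∃ x ∈ X, ∃ y ∈ X, φ (fun g => x g) ≠ φ (fun g => y g)) :
    ∃ T ⊆ F, T.Nonempty ∧ (∃ u ∈ X, ∑ t ∈ T, u t ≠ 0) ∧ Moves X F φ T := by
  classical
  obtain ⟨x₁, hx₁, x₂, hx₂, hne⟩ := hne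
  let U : Set (G → ZMod 2) := {u | u ∈ X ∧ ∀ x ∈ X, φ (fun g => x g + u g) = φ (fun g => x g)}
  let P : Submodule (ZMod 2) (F → ZMod 2) :=
    { carrier := {z | ∃ u ∈ U, ∀ g : F, u g = z g}
      add_mem' := by
        rintro z z' ⟨u, hu, huz⟩ ⟨u', hu', huz'⟩
        refine ⟨u + u', ⟨hadd u hu.1 u' hu'.1, ?_⟩, ?_⟩
        · intro x hx
          have e1 := hu'.2 (x + u) (hadd x hx u hu.1)
          have e2 := hu.2 x hx
          simp only [Pi.add_apply] at e1 ⊢
          rw [← e2, ← e1]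
          congr 1
          funext g
          ring
        · intro g
          rw [Pi.add_apply, Pi.add_apply, huz g, huz' g]
      zero_mem' := ⟨0, ⟨h0, fun x _ => by simp⟩, fun g => rfl⟩
      smul_mem' := by
        rintro c z ⟨u, hu, huz⟩
        by_cases hc : c = 0
        · subst hc
          exact ⟨0, ⟨h0, fun x _ => by simp⟩, fun g => by simp⟩
        · have hc1 : c = 1 := zmod2_ne c hc
          subst hc1
          exact ⟨u, hu, fun g => by rw [one_smul]; exact huz g⟩ }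
  let z : F → ZMod 2 := fun g => x₁ g + x₂ g
  have hz : z ∉ P := by
    rintro ⟨u, hu, huz⟩
    apply hne
    have e1 := hu.2 x₂ hx₂
    rw [← e1]
    congr 1
    funext g
    rw [huz g]
    show x₁ g = x₂ g + (x₁ g + x₂ g)
    rw [add_comm (x₁ g), ← add_assoc, CharTwo.add_self_eq_zero, zero_add]
  let A : Finset (F → ZMod 2) := univ.filter (fun z => z ∈ P)
  have hA : Submodule.span (ZMod 2) (A : Set (F → ZMod 2)) ≤ P := by
    rw [Submodule.span_le]
    intro w hw
    exact (Finset.mem_filter.mp (Finset.mem_coe.mp hw)).2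
  obtain ⟨w, hw, hzw⟩ := exists_test A z (fun h => hz (hA h))
  let T : Finset G := F.filter (fun g => ∃ h : g ∈ F, w ⟨g, h⟩ ≠ 0)
  have hTF : T ⊆ F := Finset.filter_subset _ _
  have hsum : ∀ u : G → ZMod 2, ∑ t ∈ T, u t = dotProduct (fun g : F => u g) w := by
    intro u
    have e1 : ∑ t ∈ T, u t = ∑ g ∈ F, (if h : g ∈ F then u g * w ⟨g, h⟩ else 0) := by
      rw [Finset.sum_filter]
      apply Finset.sum_congr rfl
      intro g hg
      rw [dif_pos hg]
      by_cases hw0 : w ⟨g, hg⟩ = 0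
      · rw [if_neg, hw0, mul_zero]
        rintro ⟨_, h⟩
        exact h hw0
      · rw [if_pos ⟨hg, hw0⟩, zmod2_ne _ hw0, mul_one]
    rw [e1, dotProduct, ← Finset.sum_coe_sort F]
    apply Finset.sum_congr rfl
    intro g _
    rw [dif_pos g.2]
  have hsep : ∑ t ∈ T, (x₁ + x₂) t ≠ 0 := by
    rw [hsum]
    exact hzw
  refine ⟨T, hTF, ?_, ⟨x₁ + x₂, hadd x₁ hx₁ x₂ hx₂, hsep⟩, ?_⟩
  · by_contra hcon
    rw [Finset.not_nonempty_iff_eq_empty] at hcon
    rw [hcon, Finset.sum_empty] at hsep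
    exact hsep rfl
  · intro u hu hut
    by_contra hcon
    push Not at hcon
    apply hut
    rw [hsum]
    rw [mem_Cd] at hw
    apply hw
    exact Finset.mem_filter.mpr ⟨Finset.mem_univ _, u, ⟨hu, hcon⟩, fun g => rfl⟩

theorem px_add (d k : ℕ) : ∀ x ∈ PX (gen d k) k, ∀ y ∈ PX (gen d k) k,
    x + y ∈ PX (gen d k) k := by
  intro x hx y hy g i
  have h1 := hx g i
  have h2 := hy g i
  simp only [Pi.add_apply, Finset.sum_add_distrib]
  rw [h1, h2, add_zero]

theorem px_zero (d k : ℕ) : (0 : Gam d k → ZMod 2) ∈ PX (gen d k) k := by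
  intro g i
  simp

/-- Measurable factors and functions without periods. -/
theorem cyl_stm (d k : ℕ) (hd : 3 ≤ d) (hdk : d < k)
    (μ : Measure (Gam d k → ZMod 2)) (hμ : IsHaarOn (PX (gen d k) k) μ)
    (V : ℕ → Type) [∀ n, Finite (V n)] [∀ n, Nonempty (V n)]
    (σ : ∀ n, Gam d k → Equiv.Perm (V n)) (hσ : IsSoficMap σ) (hr : TopRate (gen d k) k σ)
    {A : Type} [Fintype A] [MeasurableSpace A] [MeasurableSingletonClass A]
    (ψ : (Gam d k → ZMod 2) → A) (hψ : Measurable ψ)
    {B : Type} [Fintype B] [MeasurableSpace B] [MeasurableSingletonClass B]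
    (F : Finset (Gam d k)) (φ : (F → ZMod 2) → B) (T : Finset (Gam d k)) (hTF : T ⊆ F)
    (hT : (∃ t, T = {t}) ∨ InCoset T) (hu₀ : ∃ u ∈ PX (gen d k) k, ∑ t ∈ T, u t ≠ 0)
    (hφ : Moves (PX (gen d k) k) F φ T) :
    LowBound μ ψ F φ σ (2 * ((1 - (d : ℝ) / k) * Real.log 2) / (F.card * 2 ^ F.card)) := by
  have : NeZero k := ⟨by omega⟩
  have : Nonempty (Fin d) := ⟨⟨0, by omega⟩⟩
  have := gam_infinite d k (by omega) (by omega)
  have := hμ.prob
  have hT0 : T.Nonempty := by
    by_contra hcon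
    rw [Finset.not_nonempty_iff_eq_empty] at hcon
    obtain ⟨u, _, hu⟩ := hu₀
    rw [hcon, Finset.sum_empty] at hu
    exact hu rfl
  have hm : 1 ≤ F.card := Finset.card_pos.mpr (hT0.mono hTF)
  let I : ∀ n, MulAction (Gam d k) (V n) :=
    fun n => MulAction.compHom (V n) (hom d k (σ n))
  have hc1 : ∀ g : Gam d k, Small (fun n v => σ n g v ≠ g • v) :=
    close_all σ hσ (by omega)
  have hc2 : ∀ g : Gam d k, Small (fun n v => (σ n g)⁻¹ v ≠ g⁻¹ • v) := by
    intro g
    refine (close_inv σ hσ (by omega) g).mono ?_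
    intro n v h h'
    apply h
    rw [h']
    show ((hom d k (σ n)) g)⁻¹ v = (hom d k (σ n)) g⁻¹ v
    rw [map_inv]
  have hV := sofic_of σ hσ hc1
  have hD := design_of σ (gen d k) k hc2 hr
  have hex := exr_tendsto (gen d k) k V (by omega) (gen_pow_k d k) (gen_inj d k) hV hD
  have hker : KerSmall V T := by
    rcases hT with ⟨t, rfl⟩ | hT
    · exact ker_single V t
    · exact ker_coset V hV T hT0 hT
  have hsens := mark_sens (PX (gen d k) k) (px_add d k) F φ T hTF hu₀ hφ
  have key : ∀ H : ℝ, Pred μ ψ F (mark (PX (gen d k) k) F φ) H → LowGe (μ.map (mcode ψ)) σ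
      (2 * ((1 - (d : ℝ) / k) * Real.log 2) / (F.card * 2 ^ F.card) - H) := by
    intro H hH
    rw [LowGe, (soficEntropyM_eq σ (μ.map (mcode ψ)) hc2).2]
    have h1 := gen_cyl (gen d k) k (by omega) hdk (gen_pow_k d k) (gen_inj d k) μ hμ V hV hex ψ hψ
      F T hm hT0 hker (mark (PX (gen d k) k) F φ) 2 (by norm_num) hsens H hH
    rwa [Nat.cast_ofNat] at h1
  constructor
  · intro W
    rw [← mark_condH μ (PX (gen d k) k) hμ.supp ψ W F φ]
    exact key _ (pred_condH μ ψ hψ W F _)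
  · rintro ⟨Θ, hΘ, hae⟩
    have hX : ∀ᵐ x ∂μ, x ∈ PX (gen d k) k := by
      rw [ae_iff]
      exact hμ.supp
    have hdet : Determines μ ψ F (mark (PX (gen d k) k) F φ) := by
      refine ⟨fun y => (true, Θ y), measurable_const.prodMk hΘ, ?_⟩
      filter_upwards [hae, hX] with x h1 h2
      rw [mark_code _ F φ x h2, h1]
    have h1 := key 0 (pred_det μ ψ hψ F _ hdet)
    rw [sub_zero] at h1
    exact h1

end Pool.Agent.MP_9d0e09_an
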