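import Pool.Agent.Lib.MP_9d0e09_an.Gen2

/-!
# For actions, the rate of the exact solutions bounds the topological entropy
-/

open MeasureTheory Filter Topology Finset

namespace Pool.Agent.MP_9d0e09_an

section

variable {G : Type} [Group G] {d : ℕ} (s : Fin d → G) (k : ℕ)

theorem app_fin {V : Type} [Fintype V] [MulAction G V] (δ t : ℝ) (ht0 : 0 < t) (ht1 : t ≤ 1) :
    (Nat.card (App s k (fun g : G => (MulAction.toPerm g : Equiv.Perm V)) δ) : ℝ)
      ≤ Nat.card (Ex s k V) *
      Real.exp (t * (d * Fintype.card V) - (δ * Fintype.card V) * Real.log t) := by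
  classical
  let Z : (V → ZMod 2) → Finset (Fin d × V) := fun x =>
    (univ : Finset (Fin d × V)).filter (fun q => dotProduct (cw s k q.1 q.2) x ≠ 0)
  let MF : Finset (V → ZMod 2) :=
    (App s k (fun g : G => (MulAction.toPerm g : Equiv.Perm V)) δ).toFinset
  let EF : Finset (V → ZMod 2) := (Ex s k V).toFinset
  have hMF : Nat.card (App s k (fun g : G => (MulAction.toPerm g : Equiv.Perm V)) δ)
      = MF.card := by
    rw [Nat.card_coe_set_eq, Set.ncard_eq_toFinset_card']
  have hEF : Nat.card (Ex s k V) = EF.card := by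
    rw [Nat.card_coe_set_eq, Set.ncard_eq_toFinset_card']
  have h1 : MF.card ≤ EF.card * (MF.image Z).card := by
    apply Finset.card_le_mul_card_image
    intro y hy
    rw [Finset.mem_image] at hy
    obtain ⟨x0, hx0, rfl⟩ := hy
    apply Finset.card_le_card_of_injOn (fun x => x + x0)
    · intro x hx
      rw [Finset.mem_coe, Finset.mem_filter] at hx
      rw [Finset.mem_coe, Set.mem_toFinset, mem_Ex]
      intro q
      rw [dotProduct_add]
      have h2 : q ∈ Z x ↔ q ∈ Z x0 := by rw [hx.2]
      simp only [Z, Finset.mem_filter, Finset.mem_univ, true_and] at h2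
      by_cases h3 : dotProduct (cw s k q.1 q.2) x = 0
      · have h4 : dotProduct (cw s k q.1 q.2) x0 = 0 := by
          by_contra h5
          exact h2.mpr h5 h3
        rw [h3, h4, add_zero]
      · have h4 := h2.mp h3
        rw [zmod2_ne _ h3, zmod2_ne _ h4]
        decide
    · intro x _ x' _ h
      exact add_right_cancel h
  have h2 : (MF.image Z).card ≤ ((univ : Finset (Finset (Fin d × V))).filter (fun Z =>
      (Z.card : ℝ) ≤ δ * Fintype.card V)).card := by
    apply Finset.card_le_card
    intro y hy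
    rw [Finset.mem_image] at hy
    obtain ⟨x, hx, rfl⟩ := hy
    rw [Finset.mem_filter]
    refine ⟨Finset.mem_univ _, ?_⟩
    have hx' : x ∈ App s k (fun g : G => (MulAction.toPerm g : Equiv.Perm V)) δ :=
      Set.mem_toFinset.mp hx
    have h3 : (Nat.card {q : Fin d × V // ∑ j ∈ Finset.range k,
        x ((MulAction.toPerm (s q.1 ^ j) : Equiv.Perm V)⁻¹ q.2) ≠ 0} : ℝ)
        ≤ δ * Nat.card V := hx'
    rw [Nat.card_eq_fintype_card (α := V), Nat.card_eq_fintype_card, Fintype.card_subtype] at h3
    refine le_trans ?_ h3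
    have h4 : Z x = univ.filter (fun q : Fin d × V => ∑ j ∈ Finset.range k,
        x ((MulAction.toPerm (s q.1 ^ j) : Equiv.Perm V)⁻¹ q.2) ≠ 0) := by
      apply Finset.filter_congr
      intro q _
      rw [cw_dot]
      rfl
    rw [h4]
  have h3 := count_small (E := Fin d × V) (δ * Fintype.card V) t ht0 ht1
  rw [Fintype.card_prod, Fintype.card_fin, Nat.cast_mul] at h3
  rw [hMF, hEF]
  calc (MF.card : ℝ) ≤ EF.card * (MF.image Z).card := by exact_mod_cast h1
    _ ≤ _ := by
      apply mul_le_mul_of_nonneg_left _ (by positivity)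
      refine le_trans ?_ h3
      exact_mod_cast h2

/-- For approximations by actions the condition `TopRate` follows from `DesignRate`. -/
theorem topRate_of_design {V : ℕ → Type} [∀ n, Finite (V n)] [∀ n, Nonempty (V n)]
    [∀ n, MulAction G (V n)] (hr : DesignRate s k V) :
    TopRate s k (fun n (g : G) => (MulAction.toPerm g : Equiv.Perm (V n))) := by
  intro ε hε
  set t : ℝ := min 1 (ε / (3 * (d + 1))) with ht
  have ht0 : 0 < t := by
    rw [ht]; apply lt_min one_pos; positivity
  have ht1 : t ≤ 1 := min_le_left _ _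
  have htd : t * d ≤ ε / 3 := by
    have h1 : t ≤ ε / (3 * (d + 1)) := min_le_right _ _
    calc t * d ≤ ε / (3 * (d + 1)) * d := mul_le_mul_of_nonneg_right h1 (by positivity)
      _ ≤ ε / (3 * (d + 1)) * (d + 1) := by
        apply mul_le_mul_of_nonneg_left _ (by positivity)
        linarith
      _ = ε / 3 := by field_simp
  have hlog : 0 ≤ - Real.log t := by
    have := Real.log_nonpos ht0.le ht1
    linarith
  have hden : 0 < 1 - Real.log t := by linarith
  refine ⟨ε / 3 / (1 - Real.log t), by positivity, ?_⟩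
  filter_upwards [hr (ε / 3) (by positivity)] with n hn
  have := Fintype.ofFinite (V n)
  have hNpos : (0 : ℝ) < Fintype.card (V n) := by exact_mod_cast Fintype.card_pos
  have h1 := app_fin s k (V := V n) (ε / 3 / (1 - Real.log t)) t ht0 ht1
  have hne : Nonempty (App s k (fun g : G => (MulAction.toPerm g : Equiv.Perm (V n)))
      (ε / 3 / (1 - Real.log t))) := by
    refine ⟨⟨0, ?_⟩⟩
    have h0 : Nat.card {q : Fin d × V n // ∑ j ∈ Finset.range k, (0 : V n → ZMod 2)
        ((MulAction.toPerm (s q.1 ^ j) : Equiv.Perm (V n))⁻¹ q.2) ≠ 0} = 0 := by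
      have : IsEmpty {q : Fin d × V n // ∑ j ∈ Finset.range k, (0 : V n → ZMod 2)
        ((MulAction.toPerm (s q.1 ^ j) : Equiv.Perm (V n))⁻¹ q.2) ≠ 0} :=
        ⟨fun q => q.2 (by simp)⟩
      exact Nat.card_of_isEmpty
    show (Nat.card {q : Fin d × V n // ∑ j ∈ Finset.range k, (0 : V n → ZMod 2)
        ((MulAction.toPerm (s q.1 ^ j) : Equiv.Perm (V n))⁻¹ q.2) ≠ 0} : ℝ) ≤ _
    rw [h0]
    push_cast
    positivity
  have hMpos : (0 : ℝ) < Nat.card (App s k
      (fun g : G => (MulAction.toPerm g : Equiv.Perm (V n))) (ε / 3 / (1 - Real.log t))) := by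
    exact_mod_cast Nat.card_pos
  have hEpos : (0 : ℝ) < Nat.card (Ex s k (V n)) := by
    have : Nonempty (Ex s k (V n)) := ⟨⟨0, by intro v g i; simp⟩⟩
    exact_mod_cast Nat.card_pos
  have h2 := Real.log_le_log hMpos h1
  rw [Real.log_mul hEpos.ne' (Real.exp_pos _).ne', Real.log_exp] at h2
  rw [Nat.card_eq_fintype_card (α := V n), div_le_iff₀ hNpos] at hn ⊢
  have h3 : t * (d * (Fintype.card (V n) : ℝ)) ≤ ε / 3 * Fintype.card (V n) := by
    rw [← mul_assoc]
    exact mul_le_mul_of_nonneg_right htd hNpos.le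
  have h4 : ε / 3 / (1 - Real.log t) * (- Real.log t) ≤ ε / 3 := by
    rw [div_mul_eq_mul_div, div_le_iff₀ hden]
    nlinarith
  have h5 := mul_le_mul_of_nonneg_right h4 hNpos.le
  nlinarith

end

end Pool.Agent.MP_9d0e09_an
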