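import Pool.Agent.Lib.MP_9d0e09_an.Stm

/-!
# Counting the words produced by triangular flips
-/

open MeasureTheory Filter Topology Finset

namespace Pool.Agent.MP_9d0e09_an

section tree

variable {V B : Type} [Fintype V] [DecidableEq V] [DecidableEq B]

omit [Fintype V] [DecidableEq V] in
theorem add_twice (x s : V → ZMod 2) : x + s + s = x := by
  funext v
  show x v + s v + s v = x v
  rw [add_assoc, CharTwo.add_self_eq_zero, add_zero]

omit [Fintype V] [DecidableEq V] in
theorem tree_step (A : Finset (V → ZMod 2)) (s : V → ZMod 2) (hA : ∀ x ∈ A, x + s ∈ A)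
    (f : (V → ZMod 2) → ℝ) (hf0 : ∀ x, 0 ≤ f x) (hf : ∀ x, f (x + s) = f x)
    (y : (V → ZMod 2) → B) (c : B) :
    ∑ x ∈ A, f x * (if y x = c then (if y (x + s) ≠ y x then (2 : ℝ) else 1) else 0)
      ≤ ∑ x ∈ A, f x := by
  set g : (V → ZMod 2) → ℝ := fun x =>
    if y x = c then (if y (x + s) ≠ y x then (2 : ℝ) else 1) else 0 with hg
  have h1 : ∑ x ∈ A, f x * g x = ∑ x ∈ A, f x * g (x + s) := by
    apply Finset.sum_nbij' (fun x => x + s) (fun x => x + s) hA hA
    · intro x _; exact add_twice x s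
    · intro x _; exact add_twice x s
    · intro x _
      rw [hf x, add_twice]
  have h2 : ∀ x, g x + g (x + s) ≤ 2 := by
    intro x
    simp only [hg, add_twice]
    by_cases h3 : y x = c
    · by_cases h4 : y (x + s) = c
      · have h5 : y (x + s) = y x := by rw [h3, h4]
        rw [if_pos h3, if_pos h4, if_neg (not_not.mpr h5), if_neg (not_not.mpr h5.symm)]
        norm_num
      · have h5 : y (x + s) ≠ y x := by rw [h3]; exact h4
        rw [if_pos h3, if_neg h4, if_pos h5]
        norm_num
    · by_cases h4 : y (x + s) = c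
      · rw [if_neg h3, if_pos h4]
        split_ifs <;> norm_num
      · rw [if_neg h3, if_neg h4]
        norm_num
  have h3 : 2 * ∑ x ∈ A, f x * g x ≤ 2 * ∑ x ∈ A, f x := by
    calc 2 * ∑ x ∈ A, f x * g x = ∑ x ∈ A, f x * g x + ∑ x ∈ A, f x * g (x + s) := by
          rw [← h1]; ring
      _ = ∑ x ∈ A, f x * (g x + g (x + s)) := by
          rw [← Finset.sum_add_distrib]
          apply Finset.sum_congr rfl
          intro x _
          ring
      _ ≤ ∑ x ∈ A, f x * 2 := by
          apply Finset.sum_le_sum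
          intro x _
          exact mul_le_mul_of_nonneg_left (h2 x) (hf0 x)
      _ = 2 * ∑ x ∈ A, f x := by
          rw [← Finset.sum_mul]; ring
  linarith

omit [Fintype V] in
theorem tree_count (Y : (V → ZMod 2) → V → B) (v : ℕ → V) (s : ℕ → V → ZMod 2)
    (A : Finset (V → ZMod 2)) (c : V → B) (r : ℕ) (hA : ∀ j < r, ∀ x ∈ A, x + s j ∈ A)
    (hy : ∀ j < r, ∀ i < j, ∀ x, Y (x + s j) (v i) = Y x (v i)) :
    ∑ x ∈ A, ∏ j ∈ Finset.range r, (if Y x (v j) = c (v j) then
      (if Y (x + s j) (v j) ≠ Y x (v j) then (2 : ℝ) else 1) else 0) ≤ A.card := by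
  induction r with
  | zero => simp
  | succ r ih =>
    have ih' := ih (fun j hj => hA j (by omega)) (fun j hj => hy j (by omega))
    refine le_trans ?_ ih'
    simp only [Finset.prod_range_succ]
    apply tree_step A (s r) (hA r (by omega)) _ _ _ (fun x => Y x (v r)) (c (v r))
    · intro x
      apply Finset.prod_nonneg
      intro j _
      split_ifs <;> norm_num
    · intro x
      apply Finset.prod_congr rfl
      intro j hj
      have hj' : j < r := Finset.mem_range.mp hj
      have e1 := hy r (by omega) j hj' x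
      have e2 := hy r (by omega) j hj' (x + s j)
      have e3 : x + s r + s j = x + s j + s r := by ring
      rw [e3, e1, e2]

omit [Fintype V] in
/-- Many active flips give many words. -/
theorem tree_image [Fintype V] (Y : (V → ZMod 2) → V → B) (v : ℕ → V) (s : ℕ → V → ZMod 2)
    (A A' : Finset (V → ZMod 2)) (hA' : A' ⊆ A) (r n : ℕ) (hA : ∀ j < r, ∀ x ∈ A, x + s j ∈ A)
    (hy : ∀ j < r, ∀ i < j, ∀ x, Y (x + s j) (v i) = Y x (v i))
    (hn : ∀ x ∈ A', n ≤ ((Finset.range r).filter
      (fun j => Y (x + s j) (v j) ≠ Y x (v j))).card) :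
    (2 : ℝ) ^ n * A'.card ≤ (A'.image Y).card * A.card := by
  have h1 : ∀ c : V → B, (2 : ℝ) ^ n * (A'.filter (fun x => Y x = c)).card ≤ A.card := by
    intro c
    refine le_trans ?_ (tree_count Y v s A c r hA hy)
    calc (2 : ℝ) ^ n * (A'.filter (fun x => Y x = c)).card
        = ∑ x ∈ A'.filter (fun x => Y x = c), (2 : ℝ) ^ n := by
          rw [Finset.sum_const, nsmul_eq_mul, mul_comm]
      _ ≤ ∑ x ∈ A'.filter (fun x => Y x = c), ∏ j ∈ Finset.range r,
          (if Y x (v j) = c (v j) then
          (if Y (x + s j) (v j) ≠ Y x (v j) then (2 : ℝ) else 1) else 0) := by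
          apply Finset.sum_le_sum
          intro x hx
          rw [Finset.mem_filter] at hx
          have h2 : ∏ j ∈ Finset.range r, (if Y x (v j) = c (v j) then
              (if Y (x + s j) (v j) ≠ Y x (v j) then (2 : ℝ) else 1) else 0)
              = (2 : ℝ) ^ ((Finset.range r).filter
                (fun j => Y (x + s j) (v j) ≠ Y x (v j))).card := by
            rw [← Finset.prod_const, Finset.prod_filter]
            apply Finset.prod_congr rfl
            intro j _
            rw [if_pos (by rw [hx.2])]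
          rw [h2]
          exact pow_le_pow_right₀ (by norm_num) (hn x hx.1)
      _ ≤ ∑ x ∈ A, ∏ j ∈ Finset.range r, (if Y x (v j) = c (v j) then
          (if Y (x + s j) (v j) ≠ Y x (v j) then (2 : ℝ) else 1) else 0) := by
          apply Finset.sum_le_sum_of_subset_of_nonneg
            ((Finset.filter_subset _ _).trans hA')
          intro x _ _
          apply Finset.prod_nonneg
          intro j _
          split_ifs <;> norm_num
  have h2 : (A'.card : ℝ) = ∑ c ∈ A'.image Y, ((A'.filter (fun x => Y x = c)).card : ℝ) := by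
    exact_mod_cast Finset.card_eq_sum_card_image Y A'
  rw [h2, Finset.mul_sum]
  calc ∑ c ∈ A'.image Y, (2 : ℝ) ^ n * ((A'.filter (fun x => Y x = c)).card : ℝ)
      ≤ ∑ c ∈ A'.image Y, (A.card : ℝ) := Finset.sum_le_sum (fun c _ => h1 c)
    _ = (A'.image Y).card * A.card := by rw [Finset.sum_const, nsmul_eq_mul]

/-- A nonzero element vanishing on a small set. -/
theorem exists_vanish (S : Finset (V → ZMod 2)) (hS : ∀ x ∈ S, ∀ y ∈ S, x + y ∈ S)
    (Z : Finset V) (Lc : (V → ZMod 2) → Prop) [DecidablePred Lc] (K : ℕ)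
    (hK : ((univ : Finset (V → ZMod 2)).filter Lc).card ≤ K) (h : 2 ^ Z.card * K < S.card) :
    ∃ x ∈ S, (∀ z ∈ Z, x z = 0) ∧ ¬ Lc x := by
  have h1 : (univ : Finset (Z → ZMod 2)).card * K < S.card := by
    rw [Finset.card_univ, Fintype.card_fun, ZMod.card, Fintype.card_coe]
    exact h
  obtain ⟨y, _, hy⟩ := Finset.exists_lt_card_fiber_of_mul_lt_card_of_maps_to
    (f := fun (x : V → ZMod 2) (z : Z) => x z) (fun x _ => Finset.mem_univ _) h1
  by_contra hcon
  push Not at hcon
  obtain ⟨x₀, hx₀⟩ := Finset.card_pos.mp (lt_of_le_of_lt (Nat.zero_le K) hy)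
  rw [Finset.mem_filter] at hx₀
  have h2 : (S.filter (fun x => (fun z : Z => x z) = y)).card
      ≤ ((univ : Finset (V → ZMod 2)).filter Lc).card := by
    apply Finset.card_le_card_of_injOn (fun x => x₀ + x)
    · intro x hx
      rw [Finset.mem_coe, Finset.mem_filter] at hx
      refine Finset.mem_coe.mpr (Finset.mem_filter.mpr ⟨Finset.mem_univ _, ?_⟩)
      apply hcon (x₀ + x) (hS x₀ hx₀.1 x hx.1)
      intro z hz
      have h3 : x₀ z = x z := congrFun (hx₀.2.trans hx.2.symm) ⟨z, hz⟩
      rw [Pi.add_apply, h3]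
      exact CharTwo.add_self_eq_zero _
    · intro x _ x' _ hxx
      exact add_left_cancel hxx
  omega

/-- Greedy choice of windows and flips. -/
theorem greedy [Nonempty V] (S : Finset (V → ZMod 2)) (hS : ∀ x ∈ S, ∀ y ∈ S, x + y ∈ S)
    (L : (V → ZMod 2) → V → ZMod 2) (bad : Finset V) (b : ℕ)
    (hb : ((univ : Finset (V → ZMod 2)).filter (fun x => ∀ u, u ∉ bad → L x u = 0)).card ≤ 2 ^ b)
    (D₀ : ℕ) (hD : 2 ^ D₀ ≤ S.card) (Wn : V → Finset V) (m : ℕ) (hm : 1 ≤ m)
    (hW : ∀ u, (Wn u).card ≤ m) (r : ℕ) (hr : b + r * m ≤ D₀) :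
    ∃ (s : ℕ → V → ZMod 2) (u : ℕ → V), ∀ j < r, s j ∈ S ∧ L (s j) (u j) ≠ 0 ∧ u j ∉ bad ∧
      ∀ i < j, ∀ w ∈ Wn (u i), s j w = 0 := by
  induction r with
  | zero => exact ⟨fun _ => 0, fun _ => Classical.arbitrary V, fun j hj => absurd hj (by omega)⟩
  | succ r ih =>
    have e0 : (r + 1) * m = r * m + m := by ring
    have hr' : b + r * m ≤ D₀ := by omega
    obtain ⟨s, u, h1⟩ := ih hr'
    set Z : Finset V := (Finset.range r).biUnion (fun i => Wn (u i)) with hZ
    have hZc : Z.card ≤ r * m := by
      refine (Finset.card_biUnion_le).trans ?_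
      calc ∑ i ∈ Finset.range r, (Wn (u i)).card ≤ ∑ i ∈ Finset.range r, m :=
            Finset.sum_le_sum (fun i _ => hW _)
        _ = r * m := by rw [Finset.sum_const, Finset.card_range, smul_eq_mul]
    have hlt : 2 ^ Z.card * 2 ^ b < S.card := by
      refine lt_of_lt_of_le ?_ hD
      rw [← pow_add]
      exact Nat.pow_lt_pow_right (by norm_num) (by omega)
    obtain ⟨x, hx, hx0, hxL⟩ := exists_vanish S hS Z (fun x => ∀ u, u ∉ bad → L x u = 0) (2 ^ b)
      hb hlt
    push Not at hxL
    obtain ⟨w, hwb, hw⟩ := hxL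
    refine ⟨Function.update s r x, Function.update u r w, ?_⟩
    intro j hj
    rcases Nat.lt_succ_iff_lt_or_eq.mp hj with h | h
    · have e1 : Function.update s r x j = s j := Function.update_of_ne (by omega) _ _
      have e2 : Function.update u r w j = u j := Function.update_of_ne (by omega) _ _
      rw [e1, e2]
      obtain ⟨a1, a2, a3, a4⟩ := h1 j h
      refine ⟨a1, a2, a3, ?_⟩
      intro i hi
      have e3 : Function.update u r w i = u i := Function.update_of_ne (by omega) _ _
      rw [e3]
      exact a4 i hi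
    · subst h
      rw [Function.update_self, Function.update_self]
      refine ⟨hx, hw, hwb, ?_⟩
      intro i hi
      have e3 : Function.update u j w i = u i := Function.update_of_ne (by omega) _ _
      rw [e3]
      intro w' hw'
      exact hx0 w' (Finset.mem_biUnion.mpr ⟨i, Finset.mem_range.mpr hi, hw'⟩)

end tree

end Pool.Agent.MP_9d0e09_an
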