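import Pool.Agent.Lib.MP_9d0e09_an.Fac2

/-!
# Measurable factors: the bound from the fibres of a block code
-/

open MeasureTheory Filter Topology Finset

namespace Pool.Agent.MP_9d0e09_an

section

variable {G : Type} [Group G]

/-- The fibres of the block code `φ₁` on the microstates of `μ` grow at a rate at most `c`. -/
def FibLe (V : ℕ → Type) [∀ n, MulAction G (V n)] (μ : Measure (G → ZMod 2)) {B : Type}
    (F₁ : Finset G) (φ₁ : (F₁ → ZMod 2) → B) (c : ℝ) : Prop :=
  ∀ γ : ℝ, 0 < γ → ∃ F' : Finset G, ∃ δ' : ℝ, 0 < δ' ∧ ∀ᶠ n in atTop, ∀ u : V n → B,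
    (Nat.card {x : V n → ZMod 2 // x ∈ Mic μ (V n) F' δ' ∧ codeV F₁ φ₁ x = u} : ℝ)
      ≤ Real.exp ((c + γ) * Nat.card (V n))

/-- The key step from a bound on the fibres of a block code. -/
theorem uni_key (V : ℕ → Type) [∀ n, Finite (V n)] [∀ n, Nonempty (V n)]
    [∀ n, MulAction G (V n)] (μ : Measure (G → ZMod 2)) [IsProbabilityMeasure μ]
    {A : Type} [Fintype A] [MeasurableSpace A] [MeasurableSingletonClass A]
    (F₀ : Finset G) (φ : (F₀ → ZMod 2) → A) (W : Finset G) [Fintype (W → A)]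
    {B : Type} [Fintype B] [MeasurableSpace B] [MeasurableSingletonClass B]
    (F₁ : Finset G) (φ₁ : (F₁ → ZMod 2) → B) (c : ℝ) (hfib : FibLe V μ F₁ φ₁ c)
    (q : (W → A) → B → ℝ) (hq0 : ∀ b a, 0 < q b a) (hq1 : ∀ b, ∑ a, q b a ≤ 1)
    (F : Finset G) (δ : ℝ) (hδ : 0 < δ) (z z' : ℝ)
    (hz : z' < z - c
      - ∑ b : W → A, ∑ a : B, μ.real {x | (∀ w : W, code F₀ φ x w = b w) ∧ code F₁ φ₁ x 1 = a}
        * (- Real.log (q b a))) :
    ∃ F' : Finset G, ∃ δ' : ℝ, 0 < δ' ∧ ∀ᶠ n in atTop,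
      ((z : ℝ) : EReal) < rate (Mic μ (V n) F' δ') →
      ((z' : ℝ) : EReal) ≤ rate (Mic (μ.map (code F₀ φ)) (V n) F δ) := by
  classical
  set F₂ : Finset G := (W ×ˢ F₀).image (fun p : G × G => p.1 * p.2) ∪ F₁ with hF₂
  have hW2 : ∀ (w : W) (h : F₀), (w : G) * h ∈ F₂ := fun w h =>
    Finset.mem_union_left _
      (Finset.mem_image.mpr ⟨((w : G), (h : G)), Finset.mk_mem_product w.2 h.2, rfl⟩)
  have hF12 : ∀ h : F₁, (h : G) ∈ F₂ := fun h => Finset.mem_union_right _ h.2
  let Φ : (F₂ → ZMod 2) → (W → A) × B := fun z =>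
    (fun w => φ (fun h => z ⟨w * h, hW2 w h⟩), φ₁ (fun h => z ⟨h, hF12 h⟩))
  set K : ℝ := ∑ c : (W → A) × B, |Real.log (q c.1 c.2)| with hK
  have hKa : ∀ c : (W → A) × B, |Real.log (q c.1 c.2)| ≤ K := by
    intro c
    exact Finset.single_le_sum (f := fun c : (W → A) × B => |Real.log (q c.1 c.2)|)
      (fun c _ => abs_nonneg _) (Finset.mem_univ c)
  have hK0 : 0 ≤ K := Finset.sum_nonneg (fun c _ => abs_nonneg _)
  set CE : ℝ := ∑ b : W → A, ∑ a : B,
    μ.real {x | (∀ w : W, code F₀ φ x w = b w) ∧ code F₁ φ₁ x 1 = a} * (- Real.log (q b a)) with hCE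
  have hlaw : ∀ c : (W → A) × B, (μ.map (code F₂ Φ)).real {y | y 1 = c}
      = μ.real {x | (∀ w : W, code F₀ φ x w = c.1 w) ∧ code F₁ φ₁ x 1 = c.2} := by
    intro c
    have hm0 : Measurable (fun y : G → (W → A) × B => y 1) := measurable_pi_apply 1
    have hm1 : MeasurableSet {y : G → (W → A) × B | y 1 = c} := hm0 (MeasurableSet.singleton c)
    rw [Measure.real, Measure.real, Measure.map_apply (meas_code _ _) hm1]
    congr 2
    ext x
    have h2 : code F₂ Φ x 1 = (fun w : W => code F₀ φ x w, code F₁ φ₁ x 1) := by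
      apply Prod.ext
      · funext w
        show φ (fun h : F₀ => x (1 * ((w : G) * h))) = φ (fun h : F₀ => x ((w : G) * h))
        simp only [one_mul]
      · rfl
    simp only [Set.mem_preimage, Set.mem_ofPred_eq, h2]
    rw [Prod.ext_iff, funext_iff]
  have hcode : ∀ (n : ℕ) (x : V n → ZMod 2) (v : V n), codeV F₂ Φ x v
      = (fun w : W => codeV F₀ φ x ((w : G)⁻¹ • v), codeV F₁ φ₁ x v) := by
    intro n x v
    apply Prod.ext
    · funext w
      show φ (fun h : F₀ => x (((w : G) * h)⁻¹ • v)) = φ (fun h : F₀ => x ((h : G)⁻¹ • (w : G)⁻¹ • v))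
      simp only [mul_inv_rev, mul_smul]
    · rfl
  set γ : ℝ := z - c - CE - z' with hγ
  have hγ0 : 0 < γ := by rw [hγ]; linarith
  set Cc : ℝ := (Fintype.card ((W → A) × B) : ℝ) with hCc
  have hCc0 : 0 ≤ Cc := by positivity
  set δ₃ : ℝ := γ / (8 * (Cc * K + 1)) with hδ₃
  have hden : 0 < 8 * (Cc * K + 1) := by positivity
  have hδ₃0 : 0 < δ₃ := div_pos hγ0 hden
  have hδ₃b : δ₃ * (Cc * K) ≤ γ / 8 := by
    have e1 : δ₃ * (Cc * K + 1) = γ / 8 := by
      rw [hδ₃]
      field_simp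
    rw [← e1]
    apply mul_le_mul_of_nonneg_left _ hδ₃0.le
    linarith
  obtain ⟨F₄, δ₄, hδ₄, hev⟩ := hfib (γ / 4) (by linarith)
  let F' : Finset G := ((F ×ˢ F₀).image (fun p : G × G => p.1 * p.2) ∪ F₂) ∪ F₄
  have hF' : ∀ g ∈ F, ∀ h ∈ F₀, g * h ∈ F' := by
    intro g hg h hh
    exact Finset.mem_union_left _ (Finset.mem_union_left _
      (Finset.mem_image.mpr ⟨(g, h), Finset.mk_mem_product hg hh, rfl⟩))
  have hF2' : ∀ g ∈ ({1} : Finset G), ∀ h ∈ F₂, g * h ∈ F' := by
    intro g hg h hh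
    rw [Finset.mem_singleton] at hg
    subst hg
    rw [one_mul]
    exact Finset.mem_union_left _ (Finset.mem_union_right _ hh)
  have hFp : F₄ ⊆ F' := Finset.subset_union_right
  have h2F : (0 : ℝ) < 2 ^ F'.card := by positivity
  set δ' : ℝ := min (min δ δ₄) δ₃ / 2 ^ F'.card with hδ'def
  have hδ' : 0 < δ' := by
    rw [hδ'def]
    exact div_pos (lt_min (lt_min hδ hδ₄) hδ₃0) h2F
  have hδ'1 : 2 ^ F'.card * δ' ≤ δ := by
    rw [hδ'def, mul_div_cancel₀ _ h2F.ne']
    exact (min_le_left _ _).trans (min_le_left _ _)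
  have hδ'4 : 2 ^ F'.card * δ' ≤ δ₄ := by
    rw [hδ'def, mul_div_cancel₀ _ h2F.ne']
    exact (min_le_left _ _).trans (min_le_right _ _)
  have hδ'3 : 2 ^ F'.card * δ' ≤ δ₃ := by
    rw [hδ'def, mul_div_cancel₀ _ h2F.ne']
    exact min_le_right _ _
  refine ⟨F', δ', hδ', ?_⟩
  filter_upwards [hev] with n e7
  intro e1
  have := Fintype.ofFinite (V n)
  have hVpos : 0 < Fintype.card (V n) := Fintype.card_pos
  have hNpos : (0 : ℝ) < Fintype.card (V n) := by exact_mod_cast hVpos
  set M1 := Mic μ (V n) F' δ' with hM1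
  set M2 := Mic (μ.map (code F₀ φ)) (V n) F δ with hM2
  have hM1ne : M1 ≠ ∅ := by
    intro h0
    rw [rate, if_pos h0] at e1
    exact not_lt_bot e1
  have hM1pos : (0 : ℝ) < Nat.card M1 := by
    have : Nonempty M1 := (Set.nonempty_iff_ne_empty.mpr hM1ne).to_subtype
    exact_mod_cast Nat.card_pos
  have hzM1 : z < Real.log (Nat.card M1) / Nat.card (V n) := by
    rw [rate, if_neg hM1ne] at e1
    exact_mod_cast e1
  have hpush : ∀ x ∈ M1, codeV F₀ φ x ∈ M2 := by
    intro x hx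
    exact push_mic μ F₀ F F' hF' φ δ δ' hδ hδ'1 x hx
  have hpw : ∀ x ∈ M1, x ∈ Mic μ (V n) F₄ δ₄ := by
    intro x hx
    exact mic_mono μ F₄ F' hFp δ₄ δ' hδ₄ hδ'4 x hx
  have hpush3 : ∀ x ∈ M1, codeV F₂ Φ x ∈ Mic (μ.map (code F₂ Φ)) (V n) {1} δ₃ := by
    intro x hx
    exact push_mic μ F₂ {1} F' hF2' Φ δ₃ δ' hδ₃0 hδ'3 x hx
  have hcnt := rel_count (V := V n) q (fun c => μ.real {x | (∀ w : W, code F₀ φ x w = c.1 w) ∧
    code F₁ φ₁ x 1 = c.2}) K hKa δ₃ hδ₃0.le
  set B₀ : ℝ := Real.exp ((c + γ / 4) * Nat.card (V n)) with hB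
  have hBpos : 0 < B₀ := Real.exp_pos _
  have hfib1 : ∀ y : V n → B,
      ((M1.toFinset.filter (fun x => codeV F₁ φ₁ x = y)).card : ℝ) ≤ B₀ := by
    intro y
    refine le_trans ?_ (e7 y)
    rw [Nat.card_eq_fintype_card (α := {x : V n → ZMod 2 // x ∈ Mic μ (V n) F₄ δ₄ ∧
      codeV F₁ φ₁ x = y}), Fintype.card_subtype]
    have h1 : M1.toFinset.filter (fun x => codeV F₁ φ₁ x = y)
        ⊆ univ.filter (fun x => x ∈ Mic μ (V n) F₄ δ₄ ∧ codeV F₁ φ₁ x = y) := by
      intro x hx
      rw [Finset.mem_filter, Set.mem_toFinset] at hx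
      rw [Finset.mem_filter]
      exact ⟨Finset.mem_univ _, hpw x hx.1, hx.2⟩
    exact_mod_cast Finset.card_le_card h1
  set N : ℝ := (Fintype.card (V n) : ℝ) with hN
  set L : ℝ := N * (CE + δ₃ * (Cc * K)) with hL
  have hfib : ∀ y : V n → A,
      ((M1.toFinset.filter (fun x => codeV F₀ φ x = y)).card : ℝ) ≤ Real.exp L * B₀ := by
    intro y
    set C := M1.toFinset.filter (fun x => codeV F₀ φ x = y) with hC
    have hU : ((C.image (codeV F₁ φ₁)).card : ℝ) ≤ Real.exp L := by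
      apply kernel_count (fun v b => q (fun w => y ((w : G)⁻¹ • v)) b) (fun v b => hq0 _ _)
        (fun v => hq1 _)
      intro u hu
      rw [Finset.mem_image] at hu
      obtain ⟨x, hx, rfl⟩ := hu
      rw [hC, Finset.mem_filter, Set.mem_toFinset] at hx
      have h1 := hcnt (codeV F₂ Φ x) (by
        intro c
        have h2 := hpush3 x hx.1 (fun _ => c)
        have e9 : {y : G → (W → A) × B | ∀ g ∈ ({1} : Finset G), y g = c} = {y | y 1 = c} := by
          ext y; simp
        have e10 : emp (V n) ({1} : Finset G) (codeV F₂ Φ x) (fun _ => c)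
            = ((univ.filter (fun v => codeV F₂ Φ x v = c)).card : ℝ) / N := by
          rw [emp, Nat.card_eq_fintype_card (α := V n), Nat.card_eq_fintype_card,
            Fintype.card_subtype]
          congr 3
          ext v
          simp
        rw [e10] at h2
        have h3 : |((univ.filter (fun v => codeV F₂ Φ x v = c)).card : ℝ) / N
            - (μ.map (code F₂ Φ)).real {y | y 1 = c}| < δ₃ := by
          rw [← e9]; exact h2
        rw [hlaw c] at h3
        exact h3.le)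
      have h4 : ∑ v, (- Real.log (q (fun w : W => y ((w : G)⁻¹ • v)) (codeV F₁ φ₁ x v)))
          = ∑ v, (- Real.log (q (codeV F₂ Φ x v).1 (codeV F₂ Φ x v).2)) := by
        apply Finset.sum_congr rfl
        intro v _
        rw [hcode n x v, hx.2]
      rw [h4]
      refine h1.trans (le_of_eq ?_)
      rw [hL, hCE, Fintype.sum_prod_type]
    have hs2 : (C.card : ℝ) = ∑ u ∈ C.image (codeV F₁ φ₁),
        ((C.filter (fun x => codeV F₁ φ₁ x = u)).card : ℝ) := by
      exact_mod_cast Finset.card_eq_sum_card_image (codeV F₁ φ₁) C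
    rw [hs2]
    calc ∑ u ∈ C.image (codeV F₁ φ₁), ((C.filter (fun x => codeV F₁ φ₁ x = u)).card : ℝ)
        ≤ ∑ u ∈ C.image (codeV F₁ φ₁), B₀ := by
          apply Finset.sum_le_sum
          intro u _
          refine le_trans ?_ (hfib1 u)
          have h5 : C.filter (fun x => codeV F₁ φ₁ x = u)
              ⊆ M1.toFinset.filter (fun x => codeV F₁ φ₁ x = u) := by
            intro x hx
            rw [Finset.mem_filter] at hx ⊢
            exact ⟨(Finset.mem_filter.mp hx.1).1, hx.2⟩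
          exact_mod_cast Finset.card_le_card h5
      _ = (C.image (codeV F₁ φ₁)).card * B₀ := by
          rw [Finset.sum_const, nsmul_eq_mul]
      _ ≤ Real.exp L * B₀ := mul_le_mul_of_nonneg_right hU hBpos.le
  set BB : ℝ := Real.exp L * B₀ with hBB
  have hBBpos : 0 < BB := mul_pos (Real.exp_pos _) hBpos
  have hM12 : (Nat.card M1 : ℝ) ≤ Nat.card M2 * BB := by
    have hc1 : Nat.card M1 = M1.toFinset.card := by
      rw [Nat.card_coe_set_eq, Set.ncard_eq_toFinset_card']
    have hc2 : Nat.card M2 = M2.toFinset.card := by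
      rw [Nat.card_coe_set_eq, Set.ncard_eq_toFinset_card']
    rw [hc1, hc2]
    have h7 : (M1.toFinset.card : ℝ)
        = ∑ y ∈ M1.toFinset.image (codeV F₀ φ),
          ((M1.toFinset.filter (fun x => codeV F₀ φ x = y)).card : ℝ) := by
      exact_mod_cast Finset.card_eq_sum_card_image (codeV F₀ φ) M1.toFinset
    rw [h7]
    calc ∑ y ∈ M1.toFinset.image (codeV F₀ φ),
          ((M1.toFinset.filter (fun x => codeV F₀ φ x = y)).card : ℝ)
        ≤ ∑ y ∈ M1.toFinset.image (codeV F₀ φ), BB :=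
          Finset.sum_le_sum (fun y _ => hfib y)
      _ = (M1.toFinset.image (codeV F₀ φ)).card * BB := by
          rw [Finset.sum_const, nsmul_eq_mul]
      _ ≤ M2.toFinset.card * BB := by
          apply mul_le_mul_of_nonneg_right _ hBBpos.le
          have h8 : M1.toFinset.image (codeV F₀ φ) ⊆ M2.toFinset := by
            intro y hy
            rw [Finset.mem_image] at hy
            obtain ⟨x, hx, rfl⟩ := hy
            rw [Set.mem_toFinset] at hx ⊢
            exact hpush x hx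
          exact_mod_cast Finset.card_le_card h8
  have hM2pos : (0 : ℝ) < Nat.card M2 := by
    by_contra hcon
    have h9 : (Nat.card M2 : ℝ) = 0 := le_antisymm (not_lt.mp hcon) (by positivity)
    rw [h9, zero_mul] at hM12
    linarith
  have hM2ne : M2 ≠ ∅ := by
    intro h0
    rw [h0] at hM2pos
    simp at hM2pos
  rw [rate, if_neg hM2ne]
  have h7 : Real.log (Nat.card M1) ≤ Real.log (Nat.card M2) + (L + (c + γ / 4) * N) := by
    have h9 := Real.log_le_log hM1pos hM12
    rw [Real.log_mul hM2pos.ne' hBBpos.ne', hBB, Real.log_mul (Real.exp_pos _).ne' hBpos.ne',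
      Real.log_exp, hB, Real.log_exp, Nat.card_eq_fintype_card (α := V n), ← hN] at h9
    exact h9
  rw [Nat.card_eq_fintype_card (α := V n), ← hN] at hzM1
  have h10 : z' ≤ Real.log (Nat.card M2) / Nat.card (V n) := by
    rw [Nat.card_eq_fintype_card (α := V n), ← hN, le_div_iff₀ hNpos]
    rw [lt_div_iff₀ hNpos] at hzM1
    have h22 : z' * N = z * N - c * N - CE * N - γ * N := by
      rw [hγ]
      ring
    have h27 := mul_le_mul_of_nonneg_right hδ₃b hNpos.le
    have h28 : L = CE * N + δ₃ * (Cc * K) * N := by rw [hL]; ring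
    have h24 : (c + γ / 4) * N = c * N + γ / 4 * N := by ring
    have h26 : 0 ≤ γ * N := by positivity
    rw [h28, h24] at h7
    rw [h22]
    linarith
  exact_mod_cast h10

/-- The key step for a measurable factor. -/
theorem uni_meas (V : ℕ → Type) [∀ n, Finite (V n)] [∀ n, Nonempty (V n)]
    [∀ n, MulAction G (V n)] (μ : Measure (G → ZMod 2)) [IsProbabilityMeasure μ]
    {A : Type} [Fintype A] [MeasurableSpace A] [MeasurableSingletonClass A]
    (ψ : (G → ZMod 2) → A) (hψ : Measurable ψ) (W : Finset G) [Fintype (W → A)]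
    {B : Type} [Fintype B] [MeasurableSpace B] [MeasurableSingletonClass B]
    (F₁ : Finset G) (φ₁ : (F₁ → ZMod 2) → B) (c : ℝ) (hfib : FibLe V μ F₁ φ₁ c)
    (q : (W → A) → B → ℝ) (hq0 : ∀ b a, 0 < q b a) (hq1 : ∀ b, ∑ a, q b a ≤ 1)
    (F : Finset G) (δ : ℝ) (hδ : 0 < δ) (z z' : ℝ)
    (hz : z' < z - c
      - ∑ b : W → A, ∑ a : B, jlaw μ ψ W F₁ φ₁ b a * (- Real.log (q b a))) :
    ∃ F' : Finset G, ∃ δ' : ℝ, 0 < δ' ∧ ∀ᶠ n in atTop,
      ((z : ℝ) : EReal) < rate (Mic μ (V n) F' δ') →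
      ((z' : ℝ) : EReal) ≤ rate (Mic (μ.map (mcode ψ)) (V n) F δ) := by
  classical
  have : Nonempty A := ⟨ψ 0⟩
  set K : ℝ := ∑ b : W → A, ∑ a : B, |Real.log (q b a)| with hK
  have hK0 : 0 ≤ K := Finset.sum_nonneg (fun b _ => Finset.sum_nonneg (fun a _ => abs_nonneg _))
  set CE : ℝ := ∑ b : W → A, ∑ a : B, jlaw μ ψ W F₁ φ₁ b a * (- Real.log (q b a)) with hCE
  set γ : ℝ := z - c - CE - z' with hγ
  have hγ0 : 0 < γ := by rw [hγ]; linarith
  set η : ℝ := min (δ / (4 * (F.card + 1))) (γ / (2 * (W.card + 1) * (K + 1))) with hη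
  have hη0 : 0 < η := by
    rw [hη]
    apply lt_min
    · positivity
    · have : 0 < 2 * ((W.card : ℝ) + 1) * (K + 1) := by positivity
      exact div_pos hγ0 this
  have hη1 : F.card * η < δ / 2 := by
    have h1 : η ≤ δ / (4 * (F.card + 1)) := min_le_left _ _
    have h2 : F.card * η ≤ F.card * (δ / (4 * (F.card + 1))) :=
      mul_le_mul_of_nonneg_left h1 (by positivity)
    have h3 : F.card * (δ / (4 * ((F.card : ℝ) + 1))) ≤ δ / 4 := by
      rw [mul_div_assoc', div_le_iff₀ (by positivity)]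
      nlinarith
    linarith
  have hη2 : W.card * η * K ≤ γ / 2 := by
    have h1 : η ≤ γ / (2 * (W.card + 1) * (K + 1)) := min_le_right _ _
    have h2 : 0 ≤ (W.card : ℝ) := by positivity
    calc W.card * η * K ≤ (W.card + 1) * η * (K + 1) := by
          apply mul_le_mul _ (by linarith) hK0 (by positivity)
          apply mul_le_mul_of_nonneg_right _ hη0.le
          linarith
      _ ≤ (W.card + 1) * (γ / (2 * (W.card + 1) * (K + 1))) * (K + 1) := by
          apply mul_le_mul_of_nonneg_right _ (by linarith)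
          exact mul_le_mul_of_nonneg_left h1 (by linarith)
      _ = γ / 2 := by
          have : (K + 1) ≠ 0 := by positivity
          field_simp
  obtain ⟨F₀, φ, happ⟩ := approx μ ψ hψ (F ∪ W) η hη0
  have hlam : ∀ (b : W → A) (a : B), |jlaw μ ψ W F₁ φ₁ b a
      - μ.real {x | (∀ w : W, code F₀ φ x w = b w) ∧ code F₁ φ₁ x 1 = a}| ≤ W.card * η := by
    intro b a
    refine le_trans (real_sub_le μ _ _ (⋃ g ∈ W, {x | mcode ψ x g ≠ code F₀ φ x g}) ?_)
      (union_le μ W _ η (fun g hg => happ g (Finset.mem_union_right _ hg)))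
    intro x hx
    have h1 : ∀ w : W, mcode ψ x w = code F₀ φ x w := by
      intro w
      by_contra hne
      exact hx (Set.mem_biUnion w.2 hne)
    simp only [Set.mem_ofPred_eq]
    constructor
    · rintro ⟨h2, h3⟩
      exact ⟨fun w => (h1 w).symm.trans (h2 w), h3⟩
    · rintro ⟨h2, h3⟩
      exact ⟨fun w => (h1 w).trans (h2 w), h3⟩
  have hz2 : z' < z - c
      - ∑ b : W → A, ∑ a : B,
        μ.real {x | (∀ w : W, code F₀ φ x w = b w) ∧ code F₁ φ₁ x 1 = a}
        * (- Real.log (q b a)) := by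
    have h1 : ∑ b : W → A, ∑ a : B,
        μ.real {x | (∀ w : W, code F₀ φ x w = b w) ∧ code F₁ φ₁ x 1 = a}
        * (- Real.log (q b a)) ≤ CE + W.card * η * K := by
      have h2 : CE + W.card * η * K = ∑ b : W → A, ∑ a : B,
          (jlaw μ ψ W F₁ φ₁ b a * (- Real.log (q b a)) + W.card * η * |Real.log (q b a)|) := by
        rw [hCE, hK, Finset.mul_sum, ← Finset.sum_add_distrib]
        apply Finset.sum_congr rfl
        intro b _
        rw [Finset.mul_sum, ← Finset.sum_add_distrib]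
      rw [h2]
      apply Finset.sum_le_sum
      intro b _
      apply Finset.sum_le_sum
      intro a _
      have h3 := hlam b a
      have h4 : (μ.real {x | (∀ w : W, code F₀ φ x w = b w) ∧ code F₁ φ₁ x 1 = a}
          - jlaw μ ψ W F₁ φ₁ b a) * (- Real.log (q b a)) ≤ W.card * η * |Real.log (q b a)| := by
        refine (le_abs_self _).trans ?_
        rw [abs_mul, abs_neg, abs_sub_comm]
        exact mul_le_mul_of_nonneg_right h3 (abs_nonneg _)
      linarith
    linarith
  obtain ⟨F', δ', hδ', hev⟩ := uni_key V μ F₀ φ W F₁ φ₁ c hfib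
    q hq0 hq1 F (δ / 2) (by linarith) z z' hz2
  refine ⟨F', δ', hδ', hev.mono ?_⟩
  intro n hn h
  refine (hn h).trans (rate_mono ?_)
  intro x hx a
  have h1 := hx a
  have h2 : |(μ.map (mcode ψ)).real {y | ∀ g ∈ F, y g = a g}
      - (μ.map (code F₀ φ)).real {y | ∀ g ∈ F, y g = a g}| ≤ F.card * η := by
    rw [Measure.real, Measure.real, Measure.map_apply (meas_mcode ψ hψ) (meas_cyl F a),
      Measure.map_apply (meas_code F₀ φ) (meas_cyl F a)]
    refine le_trans (real_sub_le μ _ _ (⋃ g ∈ F, {x | mcode ψ x g ≠ code F₀ φ x g}) ?_)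
      (union_le μ F _ η (fun g hg => happ g (Finset.mem_union_left _ hg)))
    intro x hx
    have h1 : ∀ g ∈ F, mcode ψ x g = code F₀ φ x g := by
      intro g hg
      by_contra hne
      exact hx (Set.mem_biUnion hg hne)
    simp only [Set.mem_preimage, Set.mem_ofPred_eq]
    constructor
    · intro h2 g hg
      exact (h1 g hg).symm.trans (h2 g hg)
    · intro h2 g hg
      exact (h1 g hg).trans (h2 g hg)
  have h3 : |emp (V n) F x a - (μ.map (mcode ψ)).real {y | ∀ g ∈ F, y g = a g}|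
      ≤ |emp (V n) F x a - (μ.map (code F₀ φ)).real {y | ∀ g ∈ F, y g = a g}|
        + |(μ.map (mcode ψ)).real {y | ∀ g ∈ F, y g = a g}
          - (μ.map (code F₀ φ)).real {y | ∀ g ∈ F, y g = a g}| := by
    have h4 : emp (V n) F x a - (μ.map (mcode ψ)).real {y | ∀ g ∈ F, y g = a g}
        = (emp (V n) F x a - (μ.map (code F₀ φ)).real {y | ∀ g ∈ F, y g = a g})
          - ((μ.map (mcode ψ)).real {y | ∀ g ∈ F, y g = a g}
          - (μ.map (code F₀ φ)).real {y | ∀ g ∈ F, y g = a g}) := by ring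
    rw [h4]
    exact abs_sub _ _
  linarith

/-- The entropy of a measurable factor from a bound on the fibres of a block code that is almost
determined by the factor. -/
theorem gen_uni (V : ℕ → Type) [∀ n, Finite (V n)] [∀ n, Nonempty (V n)]
    [∀ n, MulAction G (V n)] (μ : Measure (G → ZMod 2)) [IsProbabilityMeasure μ]
    {A : Type} [Fintype A] [MeasurableSpace A] [MeasurableSingletonClass A]
    (ψ : (G → ZMod 2) → A) (hψ : Measurable ψ)
    {B : Type} [Fintype B] [MeasurableSpace B] [MeasurableSingletonClass B]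
    (F₁ : Finset G) (φ₁ : (F₁ → ZMod 2) → B) (e : ℝ) (hfib : FibLe V μ F₁ φ₁ e)
    (H : ℝ) (hH : Pred μ ψ F₁ φ₁ H) :
    soficEntropy μ V + ((- e - H : ℝ) : EReal)
      ≤ soficEntropy (μ.map (mcode ψ)) V ∧
    lowerSoficEntropy μ V + ((- e - H : ℝ) : EReal)
      ≤ lowerSoficEntropy (μ.map (mcode ψ)) V := by
  set c : ℝ := - e - H with hc
  have hred : ∀ a b : EReal, (∀ z : ℝ, (z : EReal) < a → ((z + c : ℝ) : EReal) ≤ b) →
      a + (c : EReal) ≤ b := by
    intro a b h
    rw [← EReal.le_sub_iff_add_le (Or.inl (EReal.coe_ne_bot c)) (Or.inl (EReal.coe_ne_top c)),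
      ← EReal.ge_of_forall_gt_iff_ge]
    intro z hz
    rw [EReal.le_sub_iff_add_le (Or.inl (EReal.coe_ne_bot c)) (Or.inl (EReal.coe_ne_top c))]
    have := h z hz
    rwa [EReal.coe_add] at this
  have hkey : ∀ (F : Finset G) (δ : ℝ), 0 < δ → ∀ z z' : ℝ, z' < z + c →
      ∃ F' : Finset G, ∃ δ' : ℝ, 0 < δ' ∧ ∀ᶠ n in atTop,
      ((z : ℝ) : EReal) < rate (Mic μ (V n) F' δ') →
      ((z' : ℝ) : EReal) ≤ rate (Mic (μ.map (mcode ψ)) (V n) F δ) := by
    intro F δ hδ z z' hz
    obtain ⟨W, _, q, hq0, hq1, hq2⟩ := hH ((z + c - z') / 2) (by linarith)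
    apply uni_meas V μ ψ hψ W F₁ φ₁ e hfib q hq0 hq1 F δ hδ z z'
    rw [hc] at hz hq2
    linarith
  constructor
  · apply hred
    intro z hz
    rw [soficEntropy]
    apply le_iInf
    intro F
    apply le_iInf
    rintro ⟨δ, hδ⟩
    rw [← EReal.ge_of_forall_gt_iff_ge]
    intro z' hz'
    have hz'' : z' < z + c := by exact_mod_cast hz'
    obtain ⟨F', δ', hδ', hev⟩ := hkey F δ hδ z z' hz''
    have h0 : soficEntropy μ V ≤ limsup (fun n => rate (Mic μ (V n) F' δ')) atTop :=
      iInf_le_of_le F' (iInf_le _ (⟨δ', hδ'⟩ : {δ : ℝ // 0 < δ}))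
    have h1 : (z : EReal) < limsup (fun n => rate (Mic μ (V n) F' δ')) atTop :=
      lt_of_lt_of_le hz h0
    have h2 := frequently_lt_of_lt_limsup (by isBoundedDefault) h1
    exact le_limsup_of_frequently_le ((h2.and_eventually hev).mono (fun n hn => hn.2 hn.1))
      (by isBoundedDefault)
  · apply hred
    intro z hz
    rw [lowerSoficEntropy]
    apply le_iInf
    intro F
    apply le_iInf
    rintro ⟨δ, hδ⟩
    rw [← EReal.ge_of_forall_gt_iff_ge]
    intro z' hz'
    have hz'' : z' < z + c := by exact_mod_cast hz'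
    obtain ⟨F', δ', hδ', hev⟩ := hkey F δ hδ z z' hz''
    have h0 : lowerSoficEntropy μ V ≤ liminf (fun n => rate (Mic μ (V n) F' δ')) atTop :=
      iInf_le_of_le F' (iInf_le _ (⟨δ', hδ'⟩ : {δ : ℝ // 0 < δ}))
    have h1 : (z : EReal) < liminf (fun n => rate (Mic μ (V n) F' δ')) atTop :=
      lt_of_lt_of_le hz h0
    have h2 := eventually_lt_of_lt_liminf h1 (by isBoundedDefault)
    exact le_liminf_of_le (by isBoundedDefault) ((h2.and hev).mono (fun n hn => hn.2 hn.1))

end

end Pool.Agent.MP_9d0e09_an
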