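import Pool.Agent.Lib.MP_9d0e09_an.Lim

/-!
# Upper bound for the number of microstates
-/

open MeasureTheory Filter Topology Finset

namespace Pool.Agent.MP_9d0e09_an

theorem count_small {E : Type} [Fintype E] [DecidableEq E] (m t : ℝ) (ht0 : 0 < t) (ht1 : t ≤ 1) :
    (((univ : Finset (Finset E)).filter (fun Z => (Z.card : ℝ) ≤ m)).card : ℝ)
      ≤ Real.exp (t * Fintype.card E - m * Real.log t) := by
  have h1 : ∑ Z ∈ (univ : Finset E).powerset, t ^ Z.card = (1 + t) ^ Fintype.card E := by
    have h2 := Finset.prod_one_add (f := fun _ : E => t) (univ : Finset E)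
    rw [Finset.prod_const, Finset.card_univ] at h2
    rw [h2]
    apply Finset.sum_congr rfl
    intro Z _
    rw [Finset.prod_const]
  have hlog : Real.log t ≤ 0 := Real.log_nonpos ht0.le ht1
  have h2 : (((univ : Finset (Finset E)).filter (fun Z => (Z.card : ℝ) ≤ m)).card : ℝ)
      * Real.exp (m * Real.log t) ≤ (1 + t) ^ Fintype.card E := by
    rw [← h1]
    calc (((univ : Finset (Finset E)).filter (fun Z => (Z.card : ℝ) ≤ m)).card : ℝ)
        * Real.exp (m * Real.log t)
        = ∑ Z ∈ (univ : Finset (Finset E)).filter (fun Z => (Z.card : ℝ) ≤ m),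
            Real.exp (m * Real.log t) := by rw [Finset.sum_const, nsmul_eq_mul]
      _ ≤ ∑ Z ∈ (univ : Finset (Finset E)).filter (fun Z => (Z.card : ℝ) ≤ m), t ^ Z.card := by
          apply Finset.sum_le_sum
          intro Z hZ
          rw [Finset.mem_filter] at hZ
          have h3 : t ^ Z.card = Real.exp (Z.card * Real.log t) := by
            rw [mul_comm, Real.exp_mul, Real.exp_log ht0, Real.rpow_natCast]
          rw [h3]
          apply Real.exp_le_exp.mpr
          exact mul_le_mul_of_nonpos_right hZ.2 hlog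
      _ ≤ ∑ Z ∈ (univ : Finset E).powerset, t ^ Z.card := by
          apply Finset.sum_le_sum_of_subset_of_nonneg
          · intro Z _
            rw [Finset.mem_powerset]; exact Finset.subset_univ _
          · intro Z _ _; positivity
  have h3 : (1 + t) ^ Fintype.card E ≤ Real.exp (t * Fintype.card E) := by
    have h4 : 1 + t ≤ Real.exp t := by
      have := Real.add_one_le_exp t
      linarith
    calc (1 + t) ^ Fintype.card E ≤ (Real.exp t) ^ Fintype.card E :=
          pow_le_pow_left₀ (by linarith) h4 _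
      _ = Real.exp (t * Fintype.card E) := by
          rw [← Real.exp_nat_mul, mul_comm]
  rw [Real.exp_sub, le_div_iff₀ (Real.exp_pos _)]
  exact h2.trans h3

section

variable {G : Type} [Group G] {d : ℕ} (s : Fin d → G) (k : ℕ)

theorem viol_small [DecidableEq G] (μ : Measure (G → ZMod 2)) (hμ : IsHaarOn (PX s k) μ)
    {V : Type} [Fintype V] [DecidableEq V] [MulAction G V] (hV : 0 < Fintype.card V)
    (δ : ℝ) (x : V → ZMod 2) (hx : x ∈ Mic μ V (pw s k) δ) :
    (((univ : Finset (Fin d × V)).filter (fun q => dotProduct (cw s k q.1 q.2) x ≠ 0)).card : ℝ)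
      ≤ d * (2 ^ (pw s k).card * (δ * Fintype.card V)) := by
  classical
  have hNpos : (0 : ℝ) < Fintype.card V := by exact_mod_cast hV
  have hδ : 0 < δ := lt_of_le_of_lt (abs_nonneg _) (hx 0)
  let a : Finset G → G → ZMod 2 := fun T g => if g ∈ T then 1 else 0
  let Vi : Fin d → Finset V := fun i => univ.filter
    (fun u => ∑ l ∈ Finset.range k, x ((s i ^ l)⁻¹ • u) ≠ 0)
  have hVi : ∀ i, ((Vi i).card : ℝ) ≤ 2 ^ (pw s k).card * (δ * Fintype.card V) := by
    intro i
    let Ts := (pw s k).powerset.filter (fun T => ∑ l ∈ Finset.range k, a T (s i ^ l) ≠ 0)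
    have hmem : ∀ l ∈ Finset.range k, s i ^ l ∈ pw s k := by
      intro l hl
      rw [pw, Finset.mem_image]
      exact ⟨(i, l), by simpa using hl, rfl⟩
    have hsub : Vi i ⊆ Ts.biUnion (fun T => univ.filter (fun v : V => ∀ g ∈ pw s k,
        x (g⁻¹ • v) = a T g)) := by
      intro v hv
      simp only [Vi, Finset.mem_filter, Finset.mem_univ, true_and] at hv
      let T := (pw s k).filter (fun g => x (g⁻¹ • v) ≠ 0)
      have hT : ∀ g ∈ pw s k, x (g⁻¹ • v) = a T g := by
        intro g hg
        simp only [a, T, Finset.mem_filter]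
        by_cases h : x (g⁻¹ • v) = 0
        · simp [h]
        · rw [if_pos ⟨hg, h⟩]; exact zmod2_ne _ h
      rw [Finset.mem_biUnion]
      refine ⟨T, ?_, ?_⟩
      · simp only [Ts, Finset.mem_filter, Finset.mem_powerset]
        refine ⟨Finset.filter_subset _ _, ?_⟩
        rw [Finset.sum_congr rfl (fun l hl => (hT _ (hmem l hl)).symm)]
        exact hv
      · rw [Finset.mem_filter]
        exact ⟨Finset.mem_univ _, hT⟩
    have hone : ∀ T ∈ Ts, ((univ.filter (fun v : V => ∀ g ∈ pw s k,
        x (g⁻¹ • v) = a T g)).card : ℝ) ≤ δ * Fintype.card V := by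
      intro T hT
      have h1 := hx (a T)
      have h2 : μ.real {y | ∀ g ∈ pw s k, y g = a T g} = 0 := by
        have h3 : μ {y | ∀ g ∈ pw s k, y g = a T g} = 0 := by
          apply measure_mono_null _ hμ.supp
          intro y hy hyX
          rw [Finset.mem_filter] at hT
          apply hT.2
          rw [Finset.sum_congr rfl (fun l hl => (hy _ (hmem l hl)).symm)]
          have := hyX 1 i
          simpa using this
        rw [Measure.real, h3]; rfl
      rw [h2, sub_zero] at h1
      have h4 := (abs_lt.mp h1).2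
      rw [emp, Nat.card_eq_fintype_card, Nat.card_eq_fintype_card, Fintype.card_subtype,
        div_lt_iff₀ hNpos] at h4
      exact h4.le
    have h5 : ((Vi i).card : ℝ) ≤ ∑ T ∈ Ts, ((univ.filter (fun v : V => ∀ g ∈ pw s k,
        x (g⁻¹ • v) = a T g)).card : ℝ) := by
      exact_mod_cast (Finset.card_le_card hsub).trans Finset.card_biUnion_le
    calc ((Vi i).card : ℝ) ≤ _ := h5
      _ ≤ ∑ T ∈ Ts, δ * Fintype.card V := Finset.sum_le_sum hone
      _ = Ts.card * (δ * Fintype.card V) := by rw [Finset.sum_const, nsmul_eq_mul]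
      _ ≤ _ := by
        apply mul_le_mul_of_nonneg_right _ (by positivity)
        have h6 : Ts.card ≤ 2 ^ (pw s k).card := by
          rw [← Finset.card_powerset]
          exact Finset.card_le_card (Finset.filter_subset _ _)
        exact_mod_cast h6
  have hsub : (univ : Finset (Fin d × V)).filter (fun q => dotProduct (cw s k q.1 q.2) x ≠ 0)
      ⊆ (univ : Finset (Fin d)).biUnion (fun i => (Vi i).image (fun u => (i, u))) := by
    rintro ⟨i, u⟩ hq
    rw [Finset.mem_filter, cw_dot] at hq
    rw [Finset.mem_biUnion]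
    refine ⟨i, Finset.mem_univ _, Finset.mem_image_of_mem _ ?_⟩
    simp only [Vi, Finset.mem_filter, Finset.mem_univ, true_and]
    exact hq.2
  have h5 : (((univ : Finset (Fin d × V)).filter
      (fun q => dotProduct (cw s k q.1 q.2) x ≠ 0)).card : ℝ) ≤ ∑ i : Fin d, ((Vi i).card : ℝ) := by
    have h6 : ((univ : Finset (Fin d × V)).filter
      (fun q => dotProduct (cw s k q.1 q.2) x ≠ 0)).card ≤ ∑ i : Fin d, (Vi i).card :=
      (Finset.card_le_card hsub).trans (Finset.card_biUnion_le.trans
        (Finset.sum_le_sum (fun i _ => Finset.card_image_le)))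
    exact_mod_cast h6
  calc _ ≤ _ := h5
    _ ≤ ∑ i : Fin d, 2 ^ (pw s k).card * (δ * Fintype.card V) :=
        Finset.sum_le_sum (fun i _ => hVi i)
    _ = _ := by rw [Finset.sum_const, Finset.card_univ, Fintype.card_fin, nsmul_eq_mul]

theorem up_fin [DecidableEq G] (μ : Measure (G → ZMod 2)) (hμ : IsHaarOn (PX s k) μ)
    {V : Type} [Fintype V] [MulAction G V] (hV : 0 < Fintype.card V)
    (δ t : ℝ) (ht0 : 0 < t) (ht1 : t ≤ 1) :
    (Nat.card (Mic μ V (pw s k) δ) : ℝ) ≤ Nat.card (Ex s k V) *
      Real.exp (t * (d * Fintype.card V)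
        - d * (2 ^ (pw s k).card * (δ * Fintype.card V)) * Real.log t) := by
  classical
  let Z : (V → ZMod 2) → Finset (Fin d × V) := fun x =>
    (univ : Finset (Fin d × V)).filter (fun q => dotProduct (cw s k q.1 q.2) x ≠ 0)
  let MF : Finset (V → ZMod 2) := (Mic μ V (pw s k) δ).toFinset
  let EF : Finset (V → ZMod 2) := (Ex s k V).toFinset
  have hMF : Nat.card (Mic μ V (pw s k) δ) = MF.card := by
    rw [Nat.card_coe_set_eq, Set.ncard_eq_toFinset_card']
  have hEF : Nat.card (Ex s k V) = EF.card := by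
    rw [Nat.card_coe_set_eq, Set.ncard_eq_toFinset_card']
  have h1 : MF.card ≤ EF.card * (MF.image Z).card := by
    apply Finset.card_le_mul_card_image
    intro y hy
    rw [Finset.mem_image] at hy
    obtain ⟨x0, hx0, rfl⟩ := hy
    apply Finset.card_le_card_of_injOn (fun x => x + x0)
    · intro x hx
      rw [Finset.mem_coe, Finset.mem_filter] at hx
      rw [Finset.mem_coe, Set.mem_toFinset, mem_Ex]
      intro q
      rw [dotProduct_add]
      have h2 : q ∈ Z x ↔ q ∈ Z x0 := by rw [hx.2]
      simp only [Z, Finset.mem_filter, Finset.mem_univ, true_and] at h2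
      by_cases h3 : dotProduct (cw s k q.1 q.2) x = 0
      · have h4 : dotProduct (cw s k q.1 q.2) x0 = 0 := by
          by_contra h5
          exact h2.mpr h5 h3
        rw [h3, h4, add_zero]
      · have h4 := h2.mp h3
        rw [zmod2_ne _ h3, zmod2_ne _ h4]
        decide
    · intro x _ x' _ h
      exact add_right_cancel h
  have h2 : (MF.image Z).card ≤ ((univ : Finset (Finset (Fin d × V))).filter (fun Z =>
      (Z.card : ℝ) ≤ d * (2 ^ (pw s k).card * (δ * Fintype.card V)))).card := by
    apply Finset.card_le_card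
    intro y hy
    rw [Finset.mem_image] at hy
    obtain ⟨x, hx, rfl⟩ := hy
    rw [Finset.mem_filter]
    refine ⟨Finset.mem_univ _, ?_⟩
    exact viol_small s k μ hμ hV δ x (Set.mem_toFinset.mp hx)
  have h3 := count_small (E := Fin d × V) (d * (2 ^ (pw s k).card * (δ * Fintype.card V))) t ht0 ht1
  rw [Fintype.card_prod, Fintype.card_fin, Nat.cast_mul] at h3
  rw [hMF, hEF]
  calc (MF.card : ℝ) ≤ EF.card * (MF.image Z).card := by exact_mod_cast h1
    _ ≤ _ := by
      apply mul_le_mul_of_nonneg_left _ (by positivity)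
      refine le_trans ?_ h3
      exact_mod_cast h2

theorem up_rate [DecidableEq G] (μ : Measure (G → ZMod 2)) (hμ : IsHaarOn (PX s k) μ)
    (ε : ℝ) (hε : 0 < ε) :
    ∃ δ : ℝ, 0 < δ ∧ ∀ (V : Type) [Finite V] [Nonempty V] [MulAction G V],
      (Mic μ V (pw s k) δ).Nonempty →
      Real.log (Nat.card (Mic μ V (pw s k) δ)) / Nat.card V ≤ exr s k V + ε := by
  classical
  set t : ℝ := min 1 (ε / (2 * (d + 1))) with ht
  have ht0 : 0 < t := by
    rw [ht]; apply lt_min one_pos; positivity
  have ht1 : t ≤ 1 := min_le_left _ _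
  have htd : t * d ≤ ε / 2 := by
    have h1 : t ≤ ε / (2 * (d + 1)) := min_le_right _ _
    calc t * d ≤ ε / (2 * (d + 1)) * d := mul_le_mul_of_nonneg_right h1 (by positivity)
      _ ≤ ε / (2 * (d + 1)) * (d + 1) := by
        apply mul_le_mul_of_nonneg_left _ (by positivity)
        linarith
      _ = ε / 2 := by field_simp
  have hlog : 0 ≤ - Real.log t := by
    have := Real.log_nonpos ht0.le ht1
    linarith
  set c : ℝ := 2 ^ (pw s k).card with hc
  have hcpos : 0 < c := by positivity
  set δ : ℝ := ε / (2 * (d + 1) * c * (1 - Real.log t)) with hδ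
  have hden : 0 < 2 * (d + 1) * c * (1 - Real.log t) := by
    have : 0 < 1 - Real.log t := by linarith
    positivity
  have hδ0 : 0 < δ := by positivity
  have hδb : d * (c * δ) * (- Real.log t) ≤ ε / 2 := by
    have h1 : (d + 1) * (c * δ) * (1 - Real.log t) = ε / 2 := by
      rw [hδ]
      have : (1 - Real.log t) ≠ 0 := by linarith
      field_simp
    rw [← h1]
    have h2 : (d : ℝ) * (c * δ) ≤ (d + 1) * (c * δ) := by
      apply mul_le_mul_of_nonneg_right _ (by positivity)
      linarith
    calc d * (c * δ) * (- Real.log t) ≤ (d + 1) * (c * δ) * (- Real.log t) :=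
          mul_le_mul_of_nonneg_right h2 hlog
      _ ≤ (d + 1) * (c * δ) * (1 - Real.log t) := by
          apply mul_le_mul_of_nonneg_left _ (by positivity)
          linarith
  refine ⟨δ, hδ0, ?_⟩
  intro V _ _ _ hne
  have := Fintype.ofFinite V
  have hVpos : 0 < Fintype.card V := Fintype.card_pos
  have hNpos : (0 : ℝ) < Fintype.card V := by exact_mod_cast hVpos
  have h1 := up_fin s k μ hμ hVpos δ t ht0 ht1
  have hMpos : (0 : ℝ) < Nat.card (Mic μ V (pw s k) δ) := by
    have : Nonempty (Mic μ V (pw s k) δ) := hne.to_subtype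
    exact_mod_cast Nat.card_pos
  have hEpos : (0 : ℝ) < Nat.card (Ex s k V) := by
    have : Nonempty (Ex s k V) := ⟨⟨0, by intro v g i; simp⟩⟩
    exact_mod_cast Nat.card_pos
  have h2 := Real.log_le_log hMpos h1
  rw [Real.log_mul hEpos.ne' (Real.exp_pos _).ne', Real.log_exp] at h2
  rw [exr, Nat.card_eq_fintype_card (α := V), div_le_iff₀ hNpos, add_mul, div_mul_cancel₀ _ hNpos.ne']
  have h3 : t * (d * (Fintype.card V : ℝ)) ≤ ε / 2 * Fintype.card V := by
    rw [← mul_assoc]
    exact mul_le_mul_of_nonneg_right htd hNpos.le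
  have h4 : d * (c * δ) * (- Real.log t) * Fintype.card V ≤ ε / 2 * Fintype.card V :=
    mul_le_mul_of_nonneg_right hδb hNpos.le
  have h5 : - (d * (c * (δ * (Fintype.card V : ℝ))) * Real.log t)
      = d * (c * δ) * (- Real.log t) * Fintype.card V := by ring
  linarith

end

end Pool.Agent.MP_9d0e09_an
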